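import Mathlib
import Pool.Agent.W208.TL.Stm
import Pool.Agent.H705R2.MLogF

/-!
TL-MEANS: the Liouville and Moebius functions have mean zero in every residue class.
-/

set_option autoImplicit false

namespace Pool.Agent.W597.TL

open Finset Filter Topology ArithmeticFunction

/-- the Moebius function in residue classes -/
theorem mu_tendsto (q r : ℕ) (hq : 1 ≤ q) :
    Tendsto (fun X : ℕ => (∑ n ∈ (Ioc 0 X).filter (fun n => n ≡ r [MOD q]),
      ((moebius n : ℤ) : ℂ)) / (X : ℂ)) atTop (nhds 0) := by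
  obtain ⟨N₀, hN₀⟩ := Pool.Agent.H705R2.MSW.swMu 1 1
  have hlog : Tendsto (fun X : ℕ => Real.log ((X + 1 : ℕ) : ℝ)) atTop atTop :=
    Real.tendsto_log_atTop.comp (tendsto_natCast_atTop_atTop.comp (tendsto_add_atTop_nat 1))
  have hb : Tendsto (fun X : ℕ => 2 / Real.log ((X + 1 : ℕ) : ℝ)) atTop (nhds 0) :=
    hlog.const_div_atTop 2
  refine squeeze_zero_norm' ?_ hb
  filter_upwards [eventually_ge_atTop N₀, eventually_ge_atTop 1,
    hlog.eventually_ge_atTop (q : ℝ), hlog.eventually_gt_atTop 0] with X h1 h2 h3 h4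
  have h5 := hN₀ (X + 1) (by omega) q (r % q) hq (by rw [pow_one]; exact h3)
  rw [pow_one] at h5
  have hX : (0 : ℝ) < X := by exact_mod_cast h2
  have h6 : (∑ n ∈ (Ioc 0 X).filter (fun n => n ≡ r [MOD q]), ((moebius n : ℤ) : ℂ)) =
      (((∑ n ∈ (range (X + 1)).filter (fun n => n % q = r % q), ((moebius n : ℤ) : ℝ)) : ℝ) : ℂ) := by
    push_cast
    symm
    refine (Finset.sum_subset ?_ ?_).symm
    · intro n hn
      rw [Finset.mem_filter, Finset.mem_Ioc] at hn
      rw [Finset.mem_filter, Finset.mem_range]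
      exact ⟨by omega, hn.2⟩
    · intro n hn hn2
      rw [Finset.mem_filter, Finset.mem_range] at hn
      rw [Finset.mem_filter, Finset.mem_Ioc] at hn2
      have : n = 0 := by
        by_contra h
        exact hn2 ⟨⟨by omega, by omega⟩, hn.2⟩
      rw [this]
      simp
  rw [h6, norm_div, Complex.norm_real, Complex.norm_natCast, Real.norm_eq_abs]
  calc |∑ n ∈ (range (X + 1)).filter (fun n => n % q = r % q), ((moebius n : ℤ) : ℝ)| / X
      ≤ (((X + 1 : ℕ) : ℝ) / Real.log ((X + 1 : ℕ) : ℝ)) / X :=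
        div_le_div_of_nonneg_right h5 hX.le
    _ = (((X + 1 : ℕ) : ℝ) / X) / Real.log ((X + 1 : ℕ) : ℝ) := by ring
    _ ≤ 2 / Real.log ((X + 1 : ℕ) : ℝ) := by
        apply div_le_div_of_nonneg_right _ h4.le
        rw [div_le_iff₀ hX]
        have : (1 : ℝ) ≤ X := by exact_mod_cast h2
        push_cast
        linarith

/-- the terms of the Liouville function -/
noncomputable def tm (b n : ℕ) : ℂ := if b ^ 2 ∣ n then ((moebius (n / b ^ 2) : ℤ) : ℂ) else 0

/-- uniqueness of the square part -/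
theorem sq_unique {b b' a c : ℕ} (hb : 0 < b) (h : b ^ 2 * a = b' ^ 2 * c) (hc : Squarefree c)
    (hb' : 0 < b') (ha : Squarefree a) : b = b' := by
  have key : ∀ x y u v : ℕ, 0 < x → x ^ 2 * u = y ^ 2 * v → Squarefree v → x ∣ y := by
    intro x y u v hx he hv
    obtain ⟨g, x', y', hg, hco, rfl, rfl⟩ := Nat.exists_coprime' (m := x) (n := y)
      (Nat.gcd_pos_of_pos_left y hx)
    have h1 : x' ^ 2 * u = y' ^ 2 * v := by
      have h2 : g ^ 2 * (x' ^ 2 * u) = g ^ 2 * (y' ^ 2 * v) := by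
        calc g ^ 2 * (x' ^ 2 * u) = (x' * g) ^ 2 * u := by ring
          _ = (y' * g) ^ 2 * v := he
          _ = _ := by ring
      exact Nat.eq_of_mul_eq_mul_left (by positivity) h2
    have h3 : x' ^ 2 ∣ v := by
      have h4 : x' ^ 2 ∣ y' ^ 2 * v := ⟨u, h1.symm⟩
      exact (Nat.Coprime.pow 2 2 hco).dvd_of_dvd_mul_left h4
    have h5 : x' = 1 := by
      have := hv x' (by rwa [← sq])
      exact Nat.isUnit_iff.1 this
    rw [h5, one_mul]
    exact Dvd.intro_left y' rfl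
  exact Nat.dvd_antisymm (key b b' a c hb h hc) (key b' b c a hb' h.symm ha)

theorem tm_tsum {n : ℕ} (hn : 0 < n) :
    HasSum (fun b => tm b n) ((-1 : ℂ) ^ (cardFactors n)) := by
  obtain ⟨a, b0, hab, ha⟩ := Nat.sq_mul_squarefree n
  have hb0 : 0 < b0 := by
    rcases Nat.eq_zero_or_pos b0 with h | h
    · rw [h] at hab
      simp at hab
      omega
    · exact h
  have ha0 : a ≠ 0 := ha.ne_zero
  have h1 : tm b0 n = (-1 : ℂ) ^ (cardFactors n) := by
    unfold tm
    rw [if_pos ⟨a, hab.symm⟩]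
    have h2 : n / b0 ^ 2 = a := by
      rw [← hab]
      exact Nat.mul_div_cancel_left a (by positivity)
    rw [h2, moebius_apply_of_squarefree ha, ← hab,
      cardFactors_mul (by positivity) ha0, cardFactors_pow, pow_add, pow_mul]
    push_cast
    norm_num
  rw [← h1]
  refine hasSum_single b0 fun b hb => ?_
  unfold tm
  split_ifs with h
  · obtain ⟨c, hc⟩ := h
    have hbp : 0 < b := by
      rcases Nat.eq_zero_or_pos b with h | h
      · rw [h] at hc
        simp at hc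
        omega
      · exact h
    have h2 : n / b ^ 2 = c := by
      rw [hc]
      exact Nat.mul_div_cancel_left c (by positivity)
    rw [h2, moebius_eq_zero_of_not_squarefree]
    · simp
    · intro hsq
      exact hb (sq_unique hbp (by rw [← hc, hab]) ha hb0 hsq)
  · rfl

theorem tm_norm (b n : ℕ) : ‖tm b n‖ ≤ if b ^ 2 ∣ n then 1 else 0 := by
  unfold tm
  split_ifs
  · rw [Complex.norm_intCast]
    exact_mod_cast abs_moebius_le_one
  · simp

theorem Sb_bound (q r b X : ℕ) :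
    ‖(∑ n ∈ (Ioc 0 X).filter (fun n => n ≡ r [MOD q]), tm b n) / (X : ℂ)‖ ≤ 1 / (b : ℝ) ^ 2 := by
  rcases Nat.eq_zero_or_pos X with hX | hX
  · rw [hX]
    simp
  have hX' : (0 : ℝ) < X := by exact_mod_cast hX
  rw [norm_div, Complex.norm_natCast, div_le_iff₀ hX']
  have h1 : ‖∑ n ∈ (Ioc 0 X).filter (fun n => n ≡ r [MOD q]), tm b n‖ ≤
      ∑ n ∈ Ioc 0 X, (if b ^ 2 ∣ n then (1 : ℝ) else 0) := by
    refine (norm_sum_le _ _).trans ?_
    refine (Finset.sum_le_sum fun n _ => tm_norm b n).trans ?_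
    refine Finset.sum_le_sum_of_subset_of_nonneg (Finset.filter_subset _ _) fun n _ _ => ?_
    split_ifs <;> norm_num
  refine h1.trans ?_
  rw [Finset.sum_boole, Nat.Ioc_filter_dvd_card_eq_div]
  rw [div_mul_eq_mul_div, one_mul]
  have := @Nat.cast_div_le ℝ _ _ _ X (b ^ 2)
  push_cast at this
  exact this

theorem Sb_tendsto (q r b : ℕ) (hq : 1 ≤ q) :
    Tendsto (fun X : ℕ => (∑ n ∈ (Ioc 0 X).filter (fun n => n ≡ r [MOD q]), tm b n) / (X : ℂ))
      atTop (nhds 0) := by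
  rcases Nat.eq_zero_or_pos b with hb | hb
  · subst hb
    refine squeeze_zero_norm (fun X => Sb_bound q r 0 X) ?_
    simp
  have hb2 : 0 < b ^ 2 := by positivity
  -- the bound
  have hlim : Tendsto (fun X : ℕ => ∑ s ∈ range q,
      ‖(∑ n ∈ (Ioc 0 (X / b ^ 2)).filter (fun n => n ≡ s [MOD q]), ((moebius n : ℤ) : ℂ)) /
        ((X / b ^ 2 : ℕ) : ℂ)‖) atTop (nhds 0) := by
    have h1 : ∀ s ∈ range q, Tendsto (fun X : ℕ =>
      ‖(∑ n ∈ (Ioc 0 (X / b ^ 2)).filter (fun n => n ≡ s [MOD q]), ((moebius n : ℤ) : ℂ)) /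
        ((X / b ^ 2 : ℕ) : ℂ)‖) atTop (nhds 0) := by
      intro s _
      have h2 : Tendsto (fun X : ℕ => X / b ^ 2) atTop atTop :=
        Nat.tendsto_div_const_atTop hb2.ne'
      have h3 := ((mu_tendsto q s hq).comp h2).norm
      simpa [Function.comp_def] using h3
    have h4 := tendsto_finsetSum (range q) h1
    simpa using h4
  refine squeeze_zero_norm (fun X => ?_) hlim
  -- reindexing
  have e1 : ∑ n ∈ (Ioc 0 X).filter (fun n => n ≡ r [MOD q]), tm b n =
      ∑ m ∈ (Ioc 0 (X / b ^ 2)).filter (fun m => b ^ 2 * m ≡ r [MOD q]),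
        ((moebius m : ℤ) : ℂ) := by
    unfold tm
    rw [← Finset.sum_filter, Finset.filter_filter]
    symm
    refine Finset.sum_bij (fun m _ => b ^ 2 * m) ?_ ?_ ?_ ?_
    · intro m hm
      rw [Finset.mem_filter, Finset.mem_Ioc] at hm
      rw [Finset.mem_filter, Finset.mem_Ioc]
      refine ⟨⟨Nat.mul_pos hb2 hm.1.1, ?_⟩, hm.2, dvd_mul_right _ _⟩
      have := (Nat.le_div_iff_mul_le hb2).1 hm.1.2
      rwa [mul_comm]
    · intro m _ m' _ h
      exact Nat.eq_of_mul_eq_mul_left hb2 h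
    · intro n hn
      rw [Finset.mem_filter, Finset.mem_Ioc] at hn
      obtain ⟨⟨h1, h2⟩, h3, m, rfl⟩ := hn
      refine ⟨m, ?_, rfl⟩
      rw [Finset.mem_filter, Finset.mem_Ioc]
      refine ⟨⟨Nat.pos_of_mul_pos_left h1, ?_⟩, h3⟩
      rw [Nat.le_div_iff_mul_le hb2, mul_comm]
      exact h2
    · intro m _
      rw [Nat.mul_div_cancel_left m hb2]
  set Y := X / b ^ 2 with hY
  have e2 : ∑ m ∈ (Ioc 0 Y).filter (fun m => b ^ 2 * m ≡ r [MOD q]), ((moebius m : ℤ) : ℂ) =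
      ∑ s ∈ (range q).filter (fun s => b ^ 2 * s ≡ r [MOD q]),
        ∑ m ∈ (Ioc 0 Y).filter (fun m => m ≡ s [MOD q]), ((moebius m : ℤ) : ℂ) := by
    rw [← Finset.sum_fiberwise_of_maps_to (s := (Ioc 0 Y).filter (fun m => b ^ 2 * m ≡ r [MOD q]))
      (t := (range q).filter (fun s => b ^ 2 * s ≡ r [MOD q])) (g := fun m => m % q)]
    · refine Finset.sum_congr rfl fun s hs => ?_
      rw [Finset.mem_filter, Finset.mem_range] at hs
      refine Finset.sum_congr ?_ fun _ _ => rfl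
      ext m
      rw [Finset.mem_filter, Finset.mem_filter, Finset.mem_filter]
      constructor
      · rintro ⟨⟨h1, h2⟩, h3⟩
        refine ⟨h1, ?_⟩
        rw [Nat.ModEq, h3, Nat.mod_eq_of_lt hs.1]
      · rintro ⟨h1, h2⟩
        refine ⟨⟨h1, (Nat.ModEq.mul_left _ h2).trans hs.2⟩, ?_⟩
        rw [Nat.ModEq, Nat.mod_eq_of_lt hs.1] at h2
        exact h2
    · intro m hm
      rw [Finset.mem_filter] at hm
      rw [Finset.mem_filter, Finset.mem_range]
      refine ⟨Nat.mod_lt _ (by omega), ?_⟩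
      exact (Nat.ModEq.mul_left _ (Nat.mod_modEq m q)).trans hm.2
  rw [e1, e2, norm_div, Complex.norm_natCast]
  have e3 : ‖∑ s ∈ (range q).filter (fun s => b ^ 2 * s ≡ r [MOD q]),
        ∑ m ∈ (Ioc 0 Y).filter (fun m => m ≡ s [MOD q]), ((moebius m : ℤ) : ℂ)‖ ≤
      ∑ s ∈ range q, ‖∑ m ∈ (Ioc 0 Y).filter (fun m => m ≡ s [MOD q]), ((moebius m : ℤ) : ℂ)‖ := by
    refine (norm_sum_le _ _).trans ?_
    exact Finset.sum_le_sum_of_subset_of_nonneg (Finset.filter_subset _ _) fun _ _ _ =>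
      norm_nonneg _
  rcases Nat.eq_zero_or_pos Y with hY0 | hY0
  · rw [hY0]
    simp
  have hYr : (0 : ℝ) < Y := by exact_mod_cast hY0
  have hYX : (Y : ℝ) ≤ X := by exact_mod_cast Nat.div_le_self X (b ^ 2)
  calc ‖∑ s ∈ (range q).filter (fun s => b ^ 2 * s ≡ r [MOD q]),
        ∑ m ∈ (Ioc 0 Y).filter (fun m => m ≡ s [MOD q]), ((moebius m : ℤ) : ℂ)‖ / X
      ≤ (∑ s ∈ range q, ‖∑ m ∈ (Ioc 0 Y).filter (fun m => m ≡ s [MOD q]),
        ((moebius m : ℤ) : ℂ)‖) / Y := by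
        apply div_le_div₀ (Finset.sum_nonneg fun _ _ => norm_nonneg _) e3 hYr hYX
    _ = _ := by
        rw [Finset.sum_div]
        refine Finset.sum_congr rfl fun s _ => ?_
        rw [norm_div, Complex.norm_natCast]

theorem la_tendsto (q r : ℕ) (hq : 1 ≤ q) :
    Tendsto (fun X : ℕ => (∑ n ∈ (Ioc 0 X).filter (fun n => n ≡ r [MOD q]),
      (-1 : ℂ) ^ (cardFactors n)) / (X : ℂ)) atTop (nhds 0) := by
  have hsum : Summable (fun b : ℕ => 1 / (b : ℝ) ^ 2) := Real.summable_one_div_nat_pow.2 one_lt_two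
  have h1 := tendsto_tsum_of_dominated_convergence (𝓕 := atTop)
    (f := fun (X : ℕ) (b : ℕ) =>
      (∑ n ∈ (Ioc 0 X).filter (fun n => n ≡ r [MOD q]), tm b n) / (X : ℂ))
    (g := fun _ => (0 : ℂ)) hsum (fun b => Sb_tendsto q r b hq)
    (Eventually.of_forall fun X b => Sb_bound q r b X)
  rw [tsum_zero] at h1
  refine h1.congr fun X => ?_
  have h2 : HasSum (fun b => (∑ n ∈ (Ioc 0 X).filter (fun n => n ≡ r [MOD q]), tm b n) / (X : ℂ))
      ((∑ n ∈ (Ioc 0 X).filter (fun n => n ≡ r [MOD q]), (-1 : ℂ) ^ (cardFactors n)) / (X : ℂ)) := by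
    apply HasSum.div_const
    apply hasSum_sum
    intro n hn
    rw [Finset.mem_filter, Finset.mem_Ioc] at hn
    exact tm_tsum hn.1.1
  exact h2.tsum_eq

/-- MEANS -/
theorem means : Pool.Agent.W208.TL.MEANS := fun q r hq => ⟨la_tendsto q r hq, mu_tendsto q r hq⟩

end Pool.Agent.W597.TL
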