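import Pool.Agent.W823.CT.Stm

open Pool.Agent.W823.CT
open scoped BigOperators

namespace Pool.Agent.W597.CTCOVSTAT

section
variable {V Ω : Type} [Fintype V] [Fintype Ω] [DecidableEq V]

/-- `lstep` as a linear map -/
noncomputable def lin (C : BC V Ω) : (V × Ω → (V → ℕ) → ℝ) →ₗ[ℝ] (V × Ω → (V → ℕ) → ℝ) where
  toFun := C.lstep
  map_add' := by
    intro f g
    funext s l
    simp only [BC.lstep, Pi.add_apply]
    rw [← Finset.sum_add_distrib]
    refine Finset.sum_congr rfl fun s' _ => ?_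
    ring
  map_smul' := by
    intro c f
    funext s l
    simp only [BC.lstep, Pi.smul_apply, smul_eq_mul, RingHom.id_apply]
    rw [Finset.mul_sum]
    refine Finset.sum_congr rfl fun s' _ => ?_
    ring

lemma lin_pow (C : BC V Ω) (k : ℕ) (f : V × Ω → (V → ℕ) → ℝ) : ((lin C) ^ k) f = C.lstep^[k] f := by
  rw [Module.End.pow_apply]
  rfl

/-- expectation at time `k` from the block `o` -/
noncomputable def phi (C : BC V Ω) (o : V) (k : ℕ) : (V × Ω → (V → ℕ) → ℝ) →ₗ[ℝ] ℝ where
  toFun := fun f => C.blk (fun s => (C.lstep^[k] f) s 0) o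
  map_add' := by
    intro f g
    simp only [← lin_pow, map_add]
    simp only [BC.blk, Pi.add_apply]
    rw [← Finset.sum_add_distrib]
    refine Finset.sum_congr rfl fun s' _ => ?_
    ring
  map_smul' := by
    intro c f
    simp only [← lin_pow, map_smul]
    simp only [BC.blk, Pi.smul_apply, smul_eq_mul, RingHom.id_apply]
    rw [Finset.mul_sum]
    refine Finset.sum_congr rfl fun s' _ => ?_
    ring

lemma phi_def (C : BC V Ω) (o : V) (k : ℕ) (f : V × Ω → (V → ℕ) → ℝ) :
    phi C o k f = C.blk (fun s => (C.lstep^[k] f) s 0) o := rfl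

lemma lstep_mono (C : BC V Ω) (f g : V × Ω → (V → ℕ) → ℝ) (h : ∀ s l, f s l ≤ g s l) (s : V × Ω) (l : V → ℕ) :
    C.lstep f s l ≤ C.lstep g s l := by
  refine Finset.sum_le_sum fun s' _ => ?_
  exact mul_le_mul_of_nonneg_left (h _ _) (C.K_nonneg _ _)

lemma iter_mono (C : BC V Ω) (k : ℕ) (f g : V × Ω → (V → ℕ) → ℝ) (h : ∀ s l, f s l ≤ g s l) (s : V × Ω)
    (l : V → ℕ) : (C.lstep^[k] f) s l ≤ (C.lstep^[k] g) s l := by
  induction k generalizing s l with
  | zero => exact h s l
  | succ k ih =>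
    rw [Function.iterate_succ_apply', Function.iterate_succ_apply']
    exact lstep_mono C _ _ (fun s l => ih s l) s l

lemma phi_mono (C : BC V Ω) (o : V) (k : ℕ) (f g : V × Ω → (V → ℕ) → ℝ) (h : ∀ s l, f s l ≤ g s l) :
    phi C o k f ≤ phi C o k g := by
  rw [phi_def, phi_def]
  refine Finset.sum_le_sum fun ω _ => ?_
  exact mul_le_mul_of_nonneg_left (iter_mono C k f g h _ _) (C.ν_pos ω).le

lemma phi_succ (C : BC V Ω) (o : V) (k : ℕ) (f : V × Ω → (V → ℕ) → ℝ) :
    phi C o (k + 1) f = phi C o k (C.lstep f) := by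
  rw [phi_def, phi_def, Function.iterate_succ_apply]

open Classical in
/-- not yet covered -/
noncomputable def gg (s : V × Ω) (l : V → ℕ) : ℝ := if ∃ z, l z = 0 ∧ z ≠ s.1 then 1 else 0

lemma gg_nonneg (s : V × Ω) (l : V → ℕ) : 0 ≤ gg s l := by
  unfold gg; split_ifs <;> norm_num

lemma gg_le_one (s : V × Ω) (l : V → ℕ) : gg s l ≤ 1 := by
  unfold gg; split_ifs <;> norm_num

lemma gg_step (s s' : V × Ω) (l : V → ℕ) : gg s' (l + Pi.single s.1 1) ≤ gg s l := by
  unfold gg
  by_cases h : ∃ z, (l + Pi.single s.1 1 : V → ℕ) z = 0 ∧ z ≠ s'.1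
  · obtain ⟨z, hz, hz'⟩ := h
    have h1 : ∃ z, l z = 0 ∧ z ≠ s.1 := by
      refine ⟨z, ?_, ?_⟩
      · rw [Pi.add_apply] at hz; omega
      · rintro rfl
        rw [Pi.add_apply, Pi.single_eq_same] at hz; omega
    rw [if_pos h1]
    split_ifs <;> norm_num
  · rw [if_neg h]
    split_ifs <;> norm_num

lemma cover_eq (C : BC V Ω) (T : ℕ) (s : V × Ω) (A : Finset V) (l : V → ℕ)
    (h : ∀ z, z ∈ A ↔ (l z ≠ 0 ∨ z = s.1)) :
    (C.cstep^[T] (fun _ A => nc A)) s A = (C.lstep^[T] gg) s l := by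
  induction T generalizing s A l with
  | zero =>
    simp only [Function.iterate_zero, id_eq]
    unfold nc gg
    by_cases hA : A = Finset.univ
    · rw [if_pos hA, if_neg]
      rintro ⟨z, hz, hz'⟩
      have := (h z).1 (by rw [hA]; exact Finset.mem_univ z)
      rcases this with h1 | h1
      · exact h1 hz
      · exact hz' h1
    · rw [if_neg hA, if_pos]
      by_contra hcon
      push Not at hcon
      apply hA
      rw [Finset.eq_univ_iff_forall]
      intro z
      rw [h z]
      by_cases hz : l z = 0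
      · exact Or.inr (hcon z hz)
      · exact Or.inl hz
  | succ T ih =>
    rw [Function.iterate_succ_apply', Function.iterate_succ_apply']
    unfold BC.cstep BC.lstep
    refine Finset.sum_congr rfl fun s' _ => ?_
    congr 1
    refine ih s' (insert s'.1 A) (l + Pi.single s.1 1) ?_
    intro z
    rw [Finset.mem_insert, h z, Pi.add_apply]
    by_cases hz : z = s.1
    · subst hz
      simp
    · rw [Pi.single_eq_of_ne hz, add_zero]
      tauto

/-- number of elements of `R` smaller than `j` -/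
noncomputable def cc (R : Finset ℕ) (j : ℕ) : ℝ := ((R.filter (fun r => r < j)).card : ℝ)

lemma cc_succ (R : Finset ℕ) (j : ℕ) : cc R (j + 1) = cc R j + if j ∈ R then 1 else 0 := by
  unfold cc
  split_ifs with h
  · have : R.filter (fun r => r < j + 1) = insert j (R.filter (fun r => r < j)) := by
      ext r
      simp only [Finset.mem_filter, Finset.mem_insert]
      constructor
      · rintro ⟨h1, h2⟩
        by_cases hr : r = j
        · exact Or.inl hr
        · exact Or.inr ⟨h1, by omega⟩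
      · rintro (h1 | ⟨h1, h2⟩)
        · subst h1; exact ⟨h, by omega⟩
        · exact ⟨h1, by omega⟩
    rw [this, Finset.card_insert_of_notMem]
    · push_cast; ring
    · intro h1
      have := (Finset.mem_filter.1 h1).2
      omega
  · have : R.filter (fun r => r < j + 1) = R.filter (fun r => r < j) := by
      ext r
      simp only [Finset.mem_filter]
      constructor
      · rintro ⟨h1, h2⟩
        by_cases hr : r = j
        · subst hr; exact absurd h1 h
        · exact ⟨h1, by omega⟩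
      · rintro ⟨h1, h2⟩
        exact ⟨h1, by omega⟩
    rw [this, add_zero]

lemma main_ineq (C : BC V Ω) (o : V) (R : Finset ℕ) (T : ℕ) :
    phi C o T (fun s l => gg s l * cc R (l o)) ≤
      ∑ k ∈ Finset.range T, phi C o k (fun s l => if s.1 = o ∧ l o ∈ R then gg s l else 0) := by
  induction T with
  | zero =>
    rw [phi_def]
    have : cc R 0 = 0 := by
      unfold cc
      simp
    simp [BC.blk, this]
  | succ T ih =>
    rw [Finset.sum_range_succ, phi_succ]
    have h1 : phi C o T (C.lstep (fun s l => gg s l * cc R (l o))) ≤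
        phi C o T ((fun s l => gg s l * cc R (l o)) + (fun s l => if s.1 = o ∧ l o ∈ R then gg s l else 0)) := by
      refine phi_mono C o T _ _ fun s l => ?_
      unfold BC.lstep
      have h2 : ∀ s', C.K s s' * (gg s' (l + Pi.single s.1 1) * cc R ((l + Pi.single s.1 1 : V → ℕ) o)) ≤
          C.K s s' * (((fun s l => gg s l * cc R (l o)) + (fun s l => if s.1 = o ∧ l o ∈ R then gg s l else 0) :
            V × Ω → (V → ℕ) → ℝ) s l) := by
        intro s'
        refine mul_le_mul_of_nonneg_left ?_ (C.K_nonneg _ _)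
        have h3 : cc R ((l + Pi.single s.1 1 : V → ℕ) o) = cc R (l o) + if s.1 = o ∧ l o ∈ R then 1 else 0 := by
          rw [Pi.add_apply]
          by_cases ho : s.1 = o
          · rw [ho, Pi.single_eq_same, cc_succ]
            simp
          · rw [Pi.single_eq_of_ne (fun h => ho h.symm), add_zero]
            simp [ho]
        rw [h3]
        have h4 : 0 ≤ cc R (l o) + (if s.1 = o ∧ l o ∈ R then 1 else 0 : ℝ) := by
          have : 0 ≤ cc R (l o) := by unfold cc; positivity
          split_ifs <;> linarith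
        refine (mul_le_mul_of_nonneg_right (gg_step s s' l) h4).trans (le_of_eq ?_)
        simp only [Pi.add_apply]
        split_ifs <;> ring
      refine (Finset.sum_le_sum fun s' _ => h2 s').trans (le_of_eq ?_)
      rw [← Finset.sum_mul, C.K_sum, one_mul]
    rw [map_add] at h1
    linarith

end

theorem main (h1 : S_BAD) (h2 : S_RET) (h3 : S_UNION) : S_COVSTAT := by
  intro V Ω _ _ _ C ρ S t T hρ1 hρ0 hρ hS ht hSt hT o
  classical
  have ht0 : 0 < t := by linarith
  obtain ⟨n, x, y, α, β, hxy, hyo, hab, hsum, hlink⟩ := h3 V (fun x y => √(ρ x y)) S t o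
    (fun x y => Real.sqrt_nonneg _) (fun x y hxy => Real.sqrt_pos.2 (by have := hρ1 x y hxy; linarith)) hS ht0 hSt
  simp only [Real.sq_sqrt (hρ0 _ _)] at hsum
  set R : Finset ℕ := Finset.Icc ⌈t⌉₊ ⌊2 * t⌋₊ with hR
  set p : ℝ := phi C o T gg with hp
  have hpeq : C.blk (fun s => (C.cstep^[T] (fun _ A => nc A)) s {s.1}) o = p := by
    rw [hp, phi_def]
    congr 1
    funext s
    refine cover_eq C T s {s.1} 0 ?_
    intro z
    simp
  rw [hpeq]
  have hcard : t - 1 ≤ (R.card : ℝ) := by
    rw [hR, Nat.card_Icc]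
    have e1 : 2 * t < (⌊2 * t⌋₊ : ℝ) + 1 := Nat.lt_floor_add_one _
    have e2 : (⌈t⌉₊ : ℝ) < t + 1 := Nat.ceil_lt_add_one ht0.le
    have e3 : ((⌊2 * t⌋₊ + 1 : ℕ) : ℝ) ≤ ((⌊2 * t⌋₊ + 1 - ⌈t⌉₊ : ℕ) : ℝ) + (⌈t⌉₊ : ℝ) := by
      have : ⌊2 * t⌋₊ + 1 ≤ (⌊2 * t⌋₊ + 1 - ⌈t⌉₊) + ⌈t⌉₊ := by omega
      exact_mod_cast this
    push_cast at e3
    linarith
  have hcpos : 0 < (R.card : ℝ) := by linarith
  -- few visits
  set q : ℝ := phi C o T (fun _ l => if l o ≤ ⌊2 * t⌋₊ then 1 else 0) with hq
  have hq1 : q ≤ 1 / 16 := by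
    have e1 := h2 V Ω C o ⌊2 * t⌋₊ T
    have e2 : (T : ℝ) * q ≤ (⌊2 * t⌋₊ : ℝ) * Fintype.card V := by
      rw [hq, phi_def]; exact e1
    have e3 : (⌊2 * t⌋₊ : ℝ) ≤ 2 * t := Nat.floor_le (by linarith)
    have e4 : (0 : ℝ) < Fintype.card V := by
      have : 0 < Fintype.card V := Fintype.card_pos_iff.2 ⟨o⟩
      exact_mod_cast this
    have e5 : (0 : ℝ) < T := by
      have : 0 < 16 * (2 * t + 1) * Fintype.card V := by positivity
      linarith
    have e6 : (⌊2 * t⌋₊ : ℝ) * Fintype.card V ≤ 2 * t * Fintype.card V :=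
      mul_le_mul_of_nonneg_right e3 e4.le
    have e7 : (T : ℝ) * q ≤ T * (1 / 16) := by nlinarith
    exact le_of_mul_le_mul_left e7 e5
  -- main inequality
  have hm1 : (R.card : ℝ) * p ≤ phi C o T (fun s l => gg s l * cc R (l o)) + (R.card : ℝ) * q := by
    have e1 : phi C o T ((R.card : ℝ) • gg) ≤ phi C o T ((fun s l => gg s l * cc R (l o)) +
        (R.card : ℝ) • (fun (_ : V × Ω) (l : V → ℕ) => if l o ≤ ⌊2 * t⌋₊ then (1 : ℝ) else 0)) := by
      refine phi_mono C o T _ _ fun s l => ?_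
      simp only [Pi.smul_apply, Pi.add_apply, smul_eq_mul]
      have g0 := gg_nonneg s l
      have g1 := gg_le_one s l
      split_ifs with h
      · have : 0 ≤ gg s l * cc R (l o) := mul_nonneg g0 (by unfold cc; positivity)
        nlinarith
      · have : cc R (l o) = R.card := by
          unfold cc
          congr 2
          rw [Finset.filter_eq_self]
          intro r hr
          have := (Finset.mem_Icc.1 hr).2
          omega
        rw [this]
        linarith
    rw [map_add, map_smul, map_smul, smul_eq_mul, smul_eq_mul] at e1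
    exact e1
  have hm2 := main_ineq C o R T
  have hm3 : ∑ k ∈ Finset.range T, phi C o k (fun s l => if s.1 = o ∧ l o ∈ R then gg s l else 0) ≤
      Real.exp 2 * (1 + t) * (1 / 1000) := by
    have e1 : ∀ k, phi C o k (fun s l => if s.1 = o ∧ l o ∈ R then gg s l else 0) ≤
        ∑ i, phi C o k (fun s l => if s.1 = o ∧ (l o : ℝ) ≤ 2 * t ∧ α i ^ 2 ≤ (l (x i) : ℝ) ∧
          (l (y i) : ℝ) ≤ β i ^ 2 then 1 else 0) := by
      intro k
      rw [← map_sum]
      refine phi_mono C o k _ _ fun s l => ?_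
      simp only [Finset.sum_apply]
      have hnn : ∀ i, (0 : ℝ) ≤ if s.1 = o ∧ (l o : ℝ) ≤ 2 * t ∧ α i ^ 2 ≤ (l (x i) : ℝ) ∧
          (l (y i) : ℝ) ≤ β i ^ 2 then 1 else 0 := by
        intro i; split_ifs <;> norm_num
      by_cases hc : s.1 = o ∧ l o ∈ R
      · rw [if_pos hc]
        by_cases hg : ∃ z, l z = 0 ∧ z ≠ s.1
        · have hge : gg s l = 1 := if_pos hg
          rw [hge]
          obtain ⟨z, hz, _⟩ := hg
          have hR1 := Finset.mem_Icc.1 hc.2
          have ht1 : t ≤ (l o : ℝ) := (Nat.le_ceil t).trans (by exact_mod_cast hR1.1)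
          have ht2 : (l o : ℝ) ≤ 2 * t :=
            le_trans (by exact_mod_cast hR1.2) (Nat.floor_le (by linarith : (0 : ℝ) ≤ 2 * t))
          obtain ⟨i, hi1, hi2⟩ := hlink l ht1 ⟨z, hz⟩
          refine le_trans (le_of_eq ?_) (Finset.single_le_sum (fun i _ => hnn i) (Finset.mem_univ i))
          rw [if_pos ⟨hc.1, ht2, hi1, hi2⟩]
        · have hge : gg s l = 0 := if_neg hg
          rw [hge]
          exact Finset.sum_nonneg fun i _ => hnn i
      · rw [if_neg hc]
        exact Finset.sum_nonneg fun i _ => hnn i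
    refine (Finset.sum_le_sum fun k _ => e1 k).trans ?_
    rw [Finset.sum_comm]
    have e2 : ∀ i, ∑ k ∈ Finset.range T, phi C o k (fun s l => if s.1 = o ∧ (l o : ℝ) ≤ 2 * t ∧
          α i ^ 2 ≤ (l (x i) : ℝ) ∧ (l (y i) : ℝ) ≤ β i ^ 2 then 1 else 0) ≤
        Real.exp 2 * (1 + t) * Real.exp (-((α i - β i) ^ 2 / ρ (x i) (y i))) := by
      intro i
      have := h1 V Ω C o (x i) (y i) (ρ (x i) (y i)) t (α i) (β i) (hxy i) (hyo i) (hρ1 _ _ (hxy i))
        (fun g => hρ _ _ g) ht0 (hab i).1 (hab i).2 T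
      exact this
    refine (Finset.sum_le_sum fun i _ => e2 i).trans ?_
    rw [← Finset.mul_sum]
    exact mul_le_mul_of_nonneg_left hsum (by positivity)
  have hexp : Real.exp 2 ≤ 7.4 := by
    have e1 : Real.exp 2 = Real.exp 1 * Real.exp 1 := by rw [← Real.exp_add]; norm_num
    have e2 := Real.exp_one_lt_d9
    have e3 := Real.exp_pos 1
    rw [e1]
    nlinarith
  have hfin : (R.card : ℝ) * p ≤ R.card * (1 / 10) := by
    have e1 : Real.exp 2 * (1 + t) * (1 / 1000) ≤ 7.4 * (1 + t) * (1 / 1000) := by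
      have : 0 ≤ (1 + t) * (1 / 1000 : ℝ) := by positivity
      nlinarith
    have e2 : (R.card : ℝ) * q ≤ R.card * (1 / 16) := mul_le_mul_of_nonneg_left hq1 hcpos.le
    nlinarith
  exact le_of_mul_le_mul_left hfin hcpos

end Pool.Agent.W597.CTCOVSTAT
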