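import Pool.Agent.W823.CT.Stm

open Pool.Agent.W823.CT
open scoped BigOperators

namespace Pool.Agent.W597.CTGREEDY

section
variable {V : Type} [Fintype V] [DecidableEq V]

/-- the greedy partition of `A` at scale `e` -/
def Good (d : V → V → ℝ) (F : Finset V → ℝ) (e e' : ℝ) (A : Finset V) (L : V → ℕ) (z : ℕ → V) : Prop :=
  (∀ y ∈ A, d y (z (L y)) ≤ e) ∧
  (∀ y ∈ A, ∀ i ≤ L y, z i ∈ A ∧ L (z i) = i ∧
    F (A.filter (fun s => i ≤ L s ∧ d s y ≤ e')) ≤ F (A.filter (fun s => i ≤ L s ∧ d s (z i) ≤ e'))) ∧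
  (∀ y ∈ A, ∀ j ≤ L y, ∀ i < j, e < d (z j) (z i))

lemma exists_good [Nonempty V] (d : V → V → ℝ) (F : Finset V → ℝ) (e e' : ℝ) (he : 0 ≤ e)
    (hd0 : ∀ x, d x x = 0) : ∀ (n : ℕ) (A : Finset V), A.card ≤ n → ∃ L z, Good d F e e' A L z := by
  classical
  intro n
  induction n with
  | zero =>
    intro A hA
    have : A = ∅ := Finset.card_eq_zero.1 (by omega)
    subst this
    refine ⟨fun _ => 0, fun _ => Classical.arbitrary V, ?_, ?_, ?_⟩ <;> simp
  | succ n ih =>
    intro A hA
    by_cases hne : A.Nonempty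
    swap
    · have : A = ∅ := Finset.not_nonempty_iff_eq_empty.1 hne
      subst this
      refine ⟨fun _ => 0, fun _ => Classical.arbitrary V, ?_, ?_, ?_⟩ <;> simp
    obtain ⟨z0, hz0, hmax⟩ := Finset.exists_max_image A (fun z => F (A.filter (fun s => d s z ≤ e'))) hne
    set A1 := A.filter (fun y => e < d y z0) with hA1
    have hlt : A1.card ≤ n := by
      have : A1.card < A.card := by
        refine Finset.card_lt_card ?_
        rw [Finset.ssubset_iff_of_subset (Finset.filter_subset _ _)]
        refine ⟨z0, hz0, ?_⟩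
        rw [Finset.mem_filter]
        rintro ⟨_, h⟩
        rw [hd0] at h
        linarith
      omega
    obtain ⟨L1, z1, g1, g2, g3⟩ := ih A1 hlt
    let L : V → ℕ := fun y => if d y z0 ≤ e then 0 else L1 y + 1
    let z : ℕ → V := fun i => match i with | 0 => z0 | (i + 1) => z1 i
    have hL0 : ∀ y, d y z0 ≤ e → L y = 0 := fun y hy => if_pos hy
    have hL1 : ∀ y, e < d y z0 → L y = L1 y + 1 := fun y hy => if_neg (by linarith)
    have hmem : ∀ y ∈ A, e < d y z0 → y ∈ A1 := fun y hy h => Finset.mem_filter.2 ⟨hy, h⟩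
    refine ⟨L, z, ?_, ?_, ?_⟩
    · intro y hy
      rcases le_or_gt (d y z0) e with h | h
      · rw [hL0 y h]; exact h
      · rw [hL1 y h]; exact g1 y (hmem y hy h)
    · intro y hy i hi
      rcases i with _ | i
      · refine ⟨hz0, hL0 z0 (by rw [hd0]; exact he), ?_⟩
        have := hmax y hy
        simpa using this
      · rcases le_or_gt (d y z0) e with h | h
        · rw [hL0 y h] at hi; omega
        · rw [hL1 y h] at hi
          obtain ⟨k1, k2, k3⟩ := g2 y (hmem y hy h) i (by omega)
          have k4 := Finset.mem_filter.1 k1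
          have k5 : ∀ v, A.filter (fun s => i + 1 ≤ L s ∧ d s v ≤ e') =
              A1.filter (fun s => i ≤ L1 s ∧ d s v ≤ e') := by
            intro v
            ext s
            simp only [Finset.mem_filter, hA1]
            rcases le_or_gt (d s z0) e with h' | h'
            · rw [hL0 s h']
              constructor
              · rintro ⟨_, h1, _⟩; omega
              · rintro ⟨⟨_, h1⟩, _⟩; linarith
            · rw [hL1 s h']
              constructor
              · rintro ⟨a1, a2, a3⟩; exact ⟨⟨a1, h'⟩, by omega, a3⟩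
              · rintro ⟨⟨a1, _⟩, a2, a3⟩; exact ⟨a1, by omega, a3⟩
          refine ⟨k4.1, ?_, ?_⟩
          · show L (z1 i) = i + 1
            rw [hL1 _ k4.2, k2]
          · rw [k5, k5]
            exact k3
    · intro y hy j hj i hij
      rcases j with _ | j
      · omega
      · rcases le_or_gt (d y z0) e with h | h
        · rw [hL0 y h] at hj; omega
        · rw [hL1 y h] at hj
          have hy1 := hmem y hy h
          rcases i with _ | i
          · obtain ⟨k1, _, _⟩ := g2 y hy1 j (by omega)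
            exact (Finset.mem_filter.1 k1).2
          · exact g3 y hy1 j (by omega) i (by omega)

/-- the gain of one step -/
lemma gain (d : V → V → ℝ) (F : Finset V → ℝ) (c r e : ℝ) (hr : 2 ≤ r) (hc : 0 < c) (he : 0 < e)
    (hd0 : ∀ x, d x x = 0) (hsym : ∀ x y, d x y = d y x)
    (hmono : ∀ A B : Finset V, A.Nonempty → A ⊆ B → F A ≤ F B)
    (hgrow : ∀ (N : ℕ) (x : Fin N → V) (D : Fin N → Finset V) (δ b : ℝ), 2 ≤ N → 0 < δ →
      (∀ i j, i ≠ j → δ ≤ d (x i) (x j)) → (∀ i, (D i).Nonempty) →
      (∀ i, ∀ s ∈ D i, d s (x i) ≤ δ / r) → (∀ i, b ≤ F (D i)) →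
      c * δ * √(Real.log N) + b ≤ F (Finset.univ.biUnion D))
    (A : Finset V) (L : V → ℕ) (z : ℕ → V) (hg : Good d F e (e / r) A L z) (y : V) (hy : y ∈ A)
    (Q : Finset V) (hQ : Q.Nonempty) (hQs : ∀ s ∈ Q, s ∈ A ∧ L s = L y ∧ d s y ≤ e / r) :
    c * e * √(Real.log ((L y + 1 : ℕ) : ℝ)) + F Q ≤ F A := by
  classical
  obtain ⟨g1, g2, g3⟩ := hg
  rcases Nat.eq_zero_or_pos (L y) with h0 | h0
  · rw [h0]
    simp only [zero_add, Nat.cast_one, Real.log_one, Real.sqrt_zero, mul_zero]
    exact hmono Q A hQ fun s hs => (hQs s hs).1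
  · have her : 0 ≤ e / r := by positivity
    let D : Fin (L y + 1) → Finset V := fun l => A.filter (fun s => (l : ℕ) ≤ L s ∧ d s (z l) ≤ e / r)
    have hDne : ∀ l, (D l).Nonempty := by
      intro l
      obtain ⟨k1, k2, _⟩ := g2 y hy l (by have := l.2; omega)
      exact ⟨z l, Finset.mem_filter.2 ⟨k1, by rw [k2], by rw [hd0]; exact her⟩⟩
    have key := hgrow (L y + 1) (fun l => z l) D e (F Q) (by omega) he ?_ hDne ?_ ?_
    · refine key.trans (hmono _ _ ?_ ?_)
      · obtain ⟨s, hs⟩ := hDne 0
        exact ⟨s, Finset.mem_biUnion.2 ⟨0, Finset.mem_univ _, hs⟩⟩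
      · intro s hs
        obtain ⟨l, _, hl⟩ := Finset.mem_biUnion.1 hs
        exact (Finset.mem_filter.1 hl).1
    · intro i j hij
      have hij' : (i : ℕ) ≠ j := fun h => hij (Fin.ext h)
      rcases lt_or_gt_of_ne hij' with h | h
      · have := g3 y hy j (by have := j.2; omega) i h
        rw [hsym]; exact this.le
      · exact (g3 y hy i (by have := i.2; omega) j h).le
    · intro i s hs
      exact (Finset.mem_filter.1 hs).2.2
    · intro i
      obtain ⟨_, _, k3⟩ := g2 y hy i (by have := i.2; omega)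
      refine le_trans (hmono _ _ hQ ?_) k3
      intro s hs
      obtain ⟨q1, q2, q3⟩ := hQs s hs
      refine Finset.mem_filter.2 ⟨q1, ?_, q3⟩
      rw [q2]
      have := i.2
      omega

end

lemma sum_w (w : ℝ) (hw0 : 0 < w) (hw : w ≤ 1 / 2) (m : ℕ) :
    ∑ j ∈ Finset.range m, w ^ j + 2 * w ^ m ≤ 2 := by
  induction m with
  | zero => simp
  | succ m ih =>
    rw [Finset.sum_range_succ, pow_succ]
    have := pow_pos hw0 m
    nlinarith

lemma sum_abel (w Δ : ℝ) (hw0 : 0 < w) (hw : w ≤ 1 / 2) (hΔ : 0 < Δ) (t : ℕ → ℝ) (ht : ∀ j, 0 ≤ t j) (m : ℕ) :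
    ∑ k ∈ Finset.range m, 2 * Δ * w ^ k * ∑ j ∈ Finset.range (k + 1), t j +
      4 * Δ * w ^ m * ∑ j ∈ Finset.range m, t j ≤ ∑ j ∈ Finset.range m, 4 * Δ * w ^ j * t j := by
  induction m with
  | zero => simp
  | succ m ih =>
    rw [Finset.sum_range_succ _ m, Finset.sum_range_succ (fun j => 4 * Δ * w ^ j * t j) m]
    have h1 : 0 ≤ ∑ j ∈ Finset.range (m + 1), t j := Finset.sum_nonneg fun j _ => ht j
    have h2 := pow_pos hw0 m
    have h3 : 4 * Δ * w ^ (m + 1) * ∑ j ∈ Finset.range (m + 1), t j ≤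
        2 * Δ * w ^ m * ∑ j ∈ Finset.range (m + 1), t j := by
      refine mul_le_mul_of_nonneg_right ?_ h1
      rw [pow_succ]
      have : 0 < Δ * w ^ m := by positivity
      nlinarith
    have h4 : ∑ j ∈ Finset.range (m + 1), t j = ∑ j ∈ Finset.range m, t j + t m :=
      Finset.sum_range_succ _ _
    have h5 : 4 * Δ * w ^ m * ∑ j ∈ Finset.range (m + 1), t j =
        4 * Δ * w ^ m * ∑ j ∈ Finset.range m, t j + 4 * Δ * w ^ m * t m := by
      rw [h4]; ring
    linarith

lemma sqrt_sum_le (f : ℕ → ℝ) (hf : ∀ j, 0 ≤ f j) (n : ℕ) :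
    √(∑ j ∈ Finset.range n, f j) ≤ ∑ j ∈ Finset.range n, √(f j) := by
  induction n with
  | zero => simp
  | succ n ih =>
    rw [Finset.sum_range_succ, Finset.sum_range_succ]
    have h1 : √(∑ j ∈ Finset.range n, f j + f n) ≤ √(∑ j ∈ Finset.range n, f j) + √(f n) := by
      rw [Real.sqrt_le_left (by positivity)]
      have h2 := Real.sq_sqrt (Finset.sum_nonneg fun j (_ : j ∈ Finset.range n) => hf j)
      have h3 := Real.sq_sqrt (hf n)
      have h4 := Real.sqrt_nonneg (∑ j ∈ Finset.range n, f j)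
      have h5 := Real.sqrt_nonneg (f n)
      nlinarith
    linarith

section
variable {V : Type} [Fintype V] [DecidableEq V]

/-- the cells -/
noncomputable def cell (L : ℕ → Finset V → V → ℕ) : ℕ → V → Finset V
  | 0, _ => Finset.univ
  | (k + 1), x => (cell L k x).filter (fun y => L k (cell L k x) y = L k (cell L k x) x)

lemma self_mem (L : ℕ → Finset V → V → ℕ) (k : ℕ) (x : V) : x ∈ cell L k x := by
  induction k with
  | zero => simp [cell]
  | succ k ih =>
    rw [cell, Finset.mem_filter]
    exact ⟨ih, rfl⟩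

lemma cell_eq (L : ℕ → Finset V → V → ℕ) (x y : V) (k : ℕ)
    (h : ∀ j < k, L j (cell L j x) x + 1 = L j (cell L j y) y + 1) :
    cell L k y = cell L k x ∧ y ∈ cell L k x := by
  induction k with
  | zero => simp [cell]
  | succ k ih =>
    obtain ⟨h1, h2⟩ := ih fun j hj => h j (by omega)
    have h3 := h k (by omega)
    have h4 : L k (cell L k x) y = L k (cell L k x) x := by
      rw [h1] at h3
      omega
    constructor
    · rw [cell, cell, h1, h4]
    · rw [cell, Finset.mem_filter]
      exact ⟨h2, h4⟩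

end

theorem main : S_GREEDY := by
  classical
  intro r c hr hc
  refine ⟨8 * r / c + 8, by positivity, ?_⟩
  intro V _ _ _ d F Δ hΔ hd0 hdpos hsym htri hdΔ hF0 hmono hgrow
  set w : ℝ := r⁻¹ with hw
  have hr0 : 0 < r := by linarith
  have hw0 : 0 < w := inv_pos.2 hr0
  have hw2 : w ≤ 1 / 2 := by
    rw [hw, one_div]
    exact inv_anti₀ (by norm_num) hr
  have hex : ∀ (k : ℕ) (A : Finset V), ∃ L z, Good d F (Δ * w ^ (k + 1)) (Δ * w ^ (k + 1) / r) A L z :=
    fun k A => exists_good d F _ _ (by positivity) hd0 A.card A le_rfl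
  choose L z hg using hex
  have hsub : ∀ k x, cell L (k + 1) x ⊆ cell L k x := by
    intro k x
    rw [cell]
    exact Finset.filter_subset _ _
  have hcen : ∀ k x, ∃ v ∈ cell L k x, ∀ y ∈ cell L k x, d y v ≤ Δ * w ^ k := by
    intro k x
    rcases k with _ | k
    · refine ⟨x, by simp [cell], fun y _ => ?_⟩
      simpa using hdΔ y x
    · obtain ⟨g1, g2, g3⟩ := hg k (cell L k x)
      obtain ⟨k1, k2, _⟩ := g2 x (self_mem L k x) _ le_rfl
      refine ⟨z k (cell L k x) (L k (cell L k x) x), ?_, ?_⟩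
      · rw [cell, Finset.mem_filter]
        exact ⟨k1, k2⟩
      · intro y hy
        rw [cell, Finset.mem_filter] at hy
        have := g1 y hy.1
        rw [hy.2] at this
        exact this
  have hdiam : ∀ k x, ∀ y ∈ cell L k x, d x y ≤ 2 * Δ * w ^ k := by
    intro k x y hy
    obtain ⟨v, _, hv⟩ := hcen k x
    have h1 := hv x (self_mem L k x)
    have h2 := hv y hy
    have h3 := htri x v y
    rw [hsym v y] at h3
    linarith
  obtain ⟨m, hm⟩ : ∃ m : ℕ, ∀ x y : V, x ≠ y → 2 * Δ * w ^ m < d x y := by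
    have h1 : Filter.Tendsto (fun m : ℕ => 2 * Δ * w ^ m) Filter.atTop (nhds 0) := by
      have := (tendsto_pow_atTop_nhds_zero_of_lt_one hw0.le (by linarith : w < 1)).const_mul (2 * Δ)
      simpa using this
    have h2 : ∀ᶠ m : ℕ in Filter.atTop, ∀ x y : V, x ≠ y → 2 * Δ * w ^ m < d x y := by
      rw [Filter.eventually_all]
      intro x
      rw [Filter.eventually_all]
      intro y
      by_cases hxy : x = y
      · exact Filter.Eventually.of_forall fun m h => absurd hxy h
      · filter_upwards [h1.eventually (gt_mem_nhds (hdpos x y hxy))] with m hm _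
        exact hm
    exact h2.exists
  refine ⟨m, fun k x => L k (cell L k x) x + 1, fun k => 2 * Δ * w ^ k, ?_, ?_, ?_, ?_, ?_⟩
  · intro k x; exact Nat.le_add_left 1 _
  · intro k; positivity
  · intro k x y h
    exact hdiam k x y (cell_eq L x y k h).2
  · intro x y h
    by_contra hne
    have h1 := hdiam m x y (cell_eq L x y m h).2
    have h2 := hm x y hne
    linarith
  · intro x
    set s : ℕ → ℝ := fun j => √(Real.log ((L j (cell L j x) x + 1 : ℕ) : ℝ)) with hs
    have hlog : ∀ j, 0 ≤ Real.log ((L j (cell L j x) x + 1 : ℕ) : ℝ) := fun j => Real.log_natCast_nonneg _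
    have hs0 : ∀ j, 0 ≤ s j := fun j => Real.sqrt_nonneg _
    have hgain : ∀ j, c * (Δ * w ^ (j + 1)) * s j + F (cell L (j + 2) x) ≤ F (cell L j x) := by
      intro j
      obtain ⟨v, hv1, hv2⟩ := hcen (j + 2) x
      have hv3 := hsub (j + 1) x hv1
      rw [cell, Finset.mem_filter] at hv3
      have := gain d F c r (Δ * w ^ (j + 1)) hr hc (by positivity) hd0 hsym hmono hgrow (cell L j x)
        (L j (cell L j x)) (z j (cell L j x)) (hg j (cell L j x)) v hv3.1 (cell L (j + 2) x) ⟨v, hv1⟩ ?_
      · rw [hv3.2] at this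
        exact this
      · intro y hy
        have hy1 := hsub (j + 1) x hy
        rw [cell, Finset.mem_filter] at hy1
        refine ⟨hy1.1, by rw [hy1.2, hv3.2], ?_⟩
        refine (hv2 y hy).trans (le_of_eq ?_)
        rw [div_eq_mul_inv, ← hw]
        ring
    have htel : ∀ n, ∑ j ∈ Finset.range n, c * (Δ * w ^ (j + 1)) * s j + F (cell L n x) + F (cell L (n + 1) x) ≤
        F (cell L 0 x) + F (cell L 1 x) := by
      intro n
      induction n with
      | zero => simp
      | succ n ih =>
        rw [Finset.sum_range_succ]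
        have := hgain n
        linarith
    have hFu : F (cell L 0 x) + F (cell L 1 x) ≤ 2 * F Finset.univ := by
      have h1 : cell L 0 x = Finset.univ := rfl
      have h2 := hmono (cell L 1 x) Finset.univ ⟨x, self_mem L 1 x⟩ (Finset.subset_univ _)
      rw [h1]; linarith
    have hsum1 : ∑ j ∈ Finset.range m, c * (Δ * w ^ (j + 1)) * s j ≤ 2 * F Finset.univ := by
      have := htel m
      have := hF0 (cell L m x)
      have := hF0 (cell L (m + 1) x)
      linarith
    have hstep1 : ∀ k, √(∑ j ∈ Finset.range (k + 1), (Real.log ((L j (cell L j x) x + 1 : ℕ) : ℝ) + 1)) ≤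
        ∑ j ∈ Finset.range (k + 1), (s j + 1) := by
      intro k
      refine (sqrt_sum_le _ (fun j => by have := hlog j; linarith) _).trans (Finset.sum_le_sum fun j _ => ?_)
      rw [Real.sqrt_le_left (by have := hs0 j; linarith)]
      have h1 := Real.sq_sqrt (hlog j)
      have h2 := hs0 j
      have h3 : s j ^ 2 = Real.log ((L j (cell L j x) x + 1 : ℕ) : ℝ) := h1
      nlinarith
    calc ∑ k ∈ Finset.range m, 2 * Δ * w ^ k *
            √(∑ j ∈ Finset.range (k + 1), (Real.log ((L j (cell L j x) x + 1 : ℕ) : ℝ) + 1))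
        ≤ ∑ k ∈ Finset.range m, 2 * Δ * w ^ k * ∑ j ∈ Finset.range (k + 1), (s j + 1) :=
          Finset.sum_le_sum fun k _ => mul_le_mul_of_nonneg_left (hstep1 k) (by positivity)
      _ ≤ ∑ j ∈ Finset.range m, 4 * Δ * w ^ j * (s j + 1) := by
          have h1 := sum_abel w Δ hw0 hw2 hΔ (fun j => s j + 1) (fun j => by have := hs0 j; linarith) m
          have h2 : 0 ≤ 4 * Δ * w ^ m * ∑ j ∈ Finset.range m, (s j + 1) :=
            mul_nonneg (by positivity) (Finset.sum_nonneg fun j _ => by have := hs0 j; linarith)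
          linarith
      _ = (4 * r / c) * ∑ j ∈ Finset.range m, c * (Δ * w ^ (j + 1)) * s j +
            4 * Δ * ∑ j ∈ Finset.range m, w ^ j := by
          rw [Finset.mul_sum, Finset.mul_sum, ← Finset.sum_add_distrib]
          refine Finset.sum_congr rfl fun j _ => ?_
          rw [pow_succ]
          have hrw : r * w = 1 := mul_inv_cancel₀ hr0.ne'
          have h1 : 4 * r / c * (c * (Δ * (w ^ j * w)) * s j) = 4 * Δ * w ^ j * s j * (r * w) := by
            field_simp
          rw [h1, hrw]
          ring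
      _ ≤ (4 * r / c) * (2 * F Finset.univ) + 4 * Δ * 2 := by
          refine add_le_add (mul_le_mul_of_nonneg_left hsum1 (by positivity))
            (mul_le_mul_of_nonneg_left ?_ (by positivity))
          have := sum_w w hw0 hw2 m
          have := pow_pos hw0 m
          linarith
      _ ≤ (8 * r / c + 8) * (F Finset.univ + Δ) := by
          have h1 := hF0 Finset.univ
          have h2 : 0 < 8 * r / c := by positivity
          have h3 : (4 * r / c) * (2 * F Finset.univ) = 8 * r / c * F Finset.univ := by ring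
          rw [h3]
          nlinarith [mul_nonneg h2.le hΔ.le]

end Pool.Agent.W597.CTGREEDY
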