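import Pool.Agent.W823.CT.Stm

open Pool.Agent.W823.CT
open scoped BigOperators ENNReal

namespace Pool.Agent.W597.CTHITB

section
variable {V : Type} [Fintype V] [DecidableEq V]

/-- one step killed at `y` -/
noncomputable def Q (G : SimpleGraph V) [DecidableRel G.Adj] (y : V) (f : V → ℝ) (x : V) : ℝ :=
  if x = y then 0 else (∑ z ∈ G.neighborFinset x, f z) / (G.degree x : ℝ)

lemma Q_add (G : SimpleGraph V) [DecidableRel G.Adj] (y : V) (f g : V → ℝ) :
    Q G y (f + g) = Q G y f + Q G y g := by
  funext x
  simp only [Q, Pi.add_apply]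
  split_ifs
  · simp
  · rw [Finset.sum_add_distrib, add_div]

lemma Q_smul (G : SimpleGraph V) [DecidableRel G.Adj] (y : V) (c : ℝ) (f : V → ℝ) :
    Q G y (c • f) = c • Q G y f := by
  funext x
  simp only [Q, Pi.smul_apply, smul_eq_mul]
  split_ifs
  · simp
  · rw [← Finset.mul_sum, mul_div_assoc]

lemma Q_mono (G : SimpleGraph V) [DecidableRel G.Adj] (y : V) (f g : V → ℝ) (h : f ≤ g) :
    Q G y f ≤ Q G y g := by
  intro x
  simp only [Q]
  split_ifs
  · exact le_rfl
  · exact div_le_div_of_nonneg_right (Finset.sum_le_sum fun z _ => h z) (Nat.cast_nonneg _)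

lemma it_add (G : SimpleGraph V) [DecidableRel G.Adj] (y : V) (k : ℕ) (f g : V → ℝ) :
    (Q G y)^[k] (f + g) = (Q G y)^[k] f + (Q G y)^[k] g := by
  induction k with
  | zero => rfl
  | succ k ih => rw [Function.iterate_succ_apply', Function.iterate_succ_apply',
      Function.iterate_succ_apply', ih, Q_add]

lemma it_smul (G : SimpleGraph V) [DecidableRel G.Adj] (y : V) (k : ℕ) (c : ℝ) (f : V → ℝ) :
    (Q G y)^[k] (c • f) = c • (Q G y)^[k] f := by
  induction k with
  | zero => rfl
  | succ k ih => rw [Function.iterate_succ_apply', Function.iterate_succ_apply', ih, Q_smul]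

lemma it_mono (G : SimpleGraph V) [DecidableRel G.Adj] (y : V) (k : ℕ) (f g : V → ℝ) (h : f ≤ g) :
    (Q G y)^[k] f ≤ (Q G y)^[k] g := by
  induction k with
  | zero => exact h
  | succ k ih =>
    rw [Function.iterate_succ_apply', Function.iterate_succ_apply']
    exact Q_mono G y _ _ ih

/-- indicator of not `y` -/
def u0 (y : V) (x : V) : ℝ := if x = y then 0 else 1

lemma u0_nonneg (y : V) : (0 : V → ℝ) ≤ u0 y := by
  intro x
  simp only [u0, Pi.zero_apply]
  split_ifs <;> norm_num

lemma Q_zero (G : SimpleGraph V) [DecidableRel G.Adj] (y : V) (k : ℕ) : (Q G y)^[k] 0 = 0 := by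
  have := it_smul G y k 0 0
  simpa using this

lemma u_nonneg (G : SimpleGraph V) [DecidableRel G.Adj] (y : V) (k : ℕ) (x : V) :
    0 ≤ (Q G y)^[k] (u0 y) x := by
  have := it_mono G y k 0 (u0 y) (u0_nonneg y) x
  rwa [Q_zero] at this

lemma srw_nonneg (G : SimpleGraph V) [DecidableRel G.Adj] (k : ℕ) (x : V) (A : Finset V) :
    0 ≤ ((srwStep G)^[k] (fun _ A => nc A)) x A := by
  induction k generalizing x A with
  | zero =>
    simp only [Function.iterate_zero, id_eq, nc]
    split_ifs <;> norm_num
  | succ k ih =>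
    rw [Function.iterate_succ_apply']
    exact div_nonneg (Finset.sum_nonneg fun z _ => ih z _) (Nat.cast_nonneg _)

lemma compare (G : SimpleGraph V) [DecidableRel G.Adj] (y : V) (k : ℕ) (x : V) (A : Finset V)
    (h : x = y ∨ y ∉ A) : (Q G y)^[k] (u0 y) x ≤ ((srwStep G)^[k] (fun _ A => nc A)) x A := by
  induction k generalizing x A with
  | zero =>
    simp only [Function.iterate_zero, id_eq]
    rcases h with h | h
    · rw [u0, if_pos h]
      exact srw_nonneg G 0 x A
    · have : nc A = 1 := by
        unfold nc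
        rw [if_neg]
        intro hA
        exact h (hA ▸ Finset.mem_univ y)
      rw [this]
      unfold u0
      split_ifs <;> norm_num
  | succ k ih =>
    rw [Function.iterate_succ_apply', Function.iterate_succ_apply']
    by_cases hxy : x = y
    · have h1 := srw_nonneg G (k + 1) x A
      rw [Function.iterate_succ_apply'] at h1
      unfold Q
      rw [if_pos hxy]
      exact h1
    · have hA : y ∉ A := h.resolve_left hxy
      rw [Q, if_neg hxy]
      unfold srwStep
      refine div_le_div_of_nonneg_right (Finset.sum_le_sum fun z _ => ih z _ ?_) (Nat.cast_nonneg _)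
      by_cases hzy : z = y
      · exact Or.inl hzy
      · right
        rw [Finset.mem_insert]
        rintro (h1 | h1)
        · exact hzy h1.symm
        · exact hA h1

end

theorem main : S_HITB := by
  intro V _ _ G _ h y hG hy hrec x
  by_cases hxy : x = y
  · rw [hxy, hy, ENNReal.ofReal_zero]; exact zero_le
  by_cases htop : Tsrw G = ⊤
  · rw [htop]; exact le_top
  have hnt : Nontrivial V := ⟨⟨x, y, hxy⟩⟩
  have hdeg : ∀ z : V, (0 : ℝ) < G.degree z := fun z => by
    exact_mod_cast hG.preconnected.degree_pos_of_nontrivial z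
  have hQ : h = u0 y + Q G y h := by
    funext z
    simp only [Pi.add_apply, u0, Q]
    by_cases hz : z = y
    · rw [if_pos hz, if_pos hz, hz, hy, add_zero]
    · rw [if_neg hz, if_neg hz, eq_comm]
      have := hrec z hz
      have h1 := hdeg z
      field_simp
      linarith
  have hv : ∀ k, (Q G y)^[k] h = (Q G y)^[k] (u0 y) + (Q G y)^[k + 1] h := by
    intro k
    conv_lhs => rw [hQ]
    rw [it_add, Function.iterate_succ_apply]
  have htel : ∀ k, h = ∑ j ∈ Finset.range k, (Q G y)^[j] (u0 y) + (Q G y)^[k] h := by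
    intro k
    induction k with
    | zero => simp
    | succ k ih =>
      rw [Finset.sum_range_succ]
      conv_lhs => rw [ih]
      rw [hv k]
      abel
  set H : ℝ := ∑ z, |h z| with hH
  have hb : h ≤ H • u0 y := by
    intro z
    simp only [Pi.smul_apply, smul_eq_mul, u0]
    split_ifs with hz
    · rw [hz, hy]; simp
    · rw [mul_one]
      exact (le_abs_self _).trans (Finset.single_le_sum (f := fun z => |h z|) (fun z _ => abs_nonneg _)
        (Finset.mem_univ z))
  have hle : ∀ k, h x ≤ ∑ j ∈ Finset.range k, (Q G y)^[j] (u0 y) x + H * (Q G y)^[k] (u0 y) x := by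
    intro k
    have h1 := congrFun (htel k) x
    rw [Pi.add_apply, Finset.sum_apply] at h1
    have h2 := it_mono G y k _ _ hb x
    rw [it_smul, Pi.smul_apply, smul_eq_mul] at h2
    linarith
  have hT : ∑' k : ℕ, ENNReal.ofReal ((Q G y)^[k] (u0 y) x) ≤ Tsrw G := by
    refine le_trans (ENNReal.tsum_le_tsum fun k => ENNReal.ofReal_le_ofReal ?_)
      (le_iSup (fun x : V => ∑' k : ℕ, ENNReal.ofReal ((srwStep G)^[k] (fun _ A => nc A) x {x})) x)
    refine compare G y k x {x} (Or.inr ?_)
    rw [Finset.mem_singleton]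
    exact fun h => hxy h.symm
  have hTne : ∑' k : ℕ, ENNReal.ofReal ((Q G y)^[k] (u0 y) x) ≠ ⊤ := ne_top_of_le_ne_top htop hT
  have hsm : Summable (fun k : ℕ => (Q G y)^[k] (u0 y) x) := by
    have := ENNReal.summable_toReal hTne
    refine this.congr fun k => ?_
    exact ENNReal.toReal_ofReal (u_nonneg G y k x)
  have hlim : Filter.Tendsto (fun k => (∑' k : ℕ, (Q G y)^[k] (u0 y) x) + H * (Q G y)^[k] (u0 y) x)
      Filter.atTop (nhds ((∑' k : ℕ, (Q G y)^[k] (u0 y) x) + H * 0)) :=
    (hsm.tendsto_atTop_zero.const_mul H).const_add _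
  have hfin : h x ≤ (∑' k : ℕ, (Q G y)^[k] (u0 y) x) + H * 0 := by
    refine ge_of_tendsto' hlim fun k => (hle k).trans ?_
    have := hsm.sum_le_tsum (Finset.range k) (fun k _ => u_nonneg G y k x)
    linarith
  rw [mul_zero, add_zero] at hfin
  refine le_trans (ENNReal.ofReal_le_ofReal hfin) ?_
  rw [ENNReal.ofReal_tsum_of_nonneg (fun k => u_nonneg G y k x) hsm]
  exact hT

end Pool.Agent.W597.CTHITB
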