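import Pool.Agent.W823.CT.Stm
import Pool.Agent.EntX.L_dual_sudakov
import Pool.Agent.EntX.L_sudakov_primal

open MeasureTheory ProbabilityTheory Pool.Agent.W823.CT
open scoped ENNReal BigOperators

namespace Pool.Agent.W597.CTSUD

lemma gam_eq (ι : Type) [Fintype ι] : HypVol.gam ι 1 = gam ι := by
  unfold HypVol.gam gam
  simp

instance gam_prob (ι : Type) [Fintype ι] : IsProbabilityMeasure (gam ι) := by
  unfold gam; infer_instance

lemma gam_neg (ι : Type) [Fintype ι] (f : (ι → ℝ) → ℝ) :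
    ∫ g, f (-g) ∂(gam ι) = ∫ g, f g ∂(gam ι) := by
  have hinst : ∀ i : ι, ((fun _ : ι => gaussianReal 0 1) i).IsNegInvariant := by
    intro i
    constructor
    rw [Measure.neg_def]
    have := gaussianReal_map_neg (μ := 0) (v := 1)
    simpa using this
  have : (gam ι).IsNegInvariant := by
    unfold gam
    infer_instance
  exact integral_neg_eq_self f (gam ι)

lemma int_neg {ι : Type} [Fintype ι] {f : (ι → ℝ) → ℝ} (hf : Integrable f (gam ι)) :
    Integrable (fun g => f (-g)) (gam ι) := by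
  have hinst : ∀ i : ι, ((fun _ : ι => gaussianReal 0 1) i).IsNegInvariant := by
    intro i
    constructor
    rw [Measure.neg_def]
    have := gaussianReal_map_neg (μ := 0) (v := 1)
    simpa using this
  have : (gam ι).IsNegInvariant := by
    unfold gam
    infer_instance
  exact hf.comp_neg

lemma nrm_nonneg {ι : Type} [Fintype ι] (x : ι → ℝ) : 0 ≤ nrm x := Real.sqrt_nonneg _

lemma nrm_eq {ι : Type} [Fintype ι] (x : ι → ℝ) : nrm x = ‖(WithLp.toLp 2 x : EuclideanSpace ℝ ι)‖ := by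
  rw [EuclideanSpace.norm_eq]
  unfold nrm
  simp

lemma nrm_add {ι : Type} [Fintype ι] (x y : ι → ℝ) : nrm (x + y) ≤ nrm x + nrm y := by
  rw [nrm_eq, nrm_eq, nrm_eq, WithLp.toLp_add]
  exact norm_add_le _ _

lemma nrm_smul {ι : Type} [Fintype ι] (c : ℝ) (x : ι → ℝ) : nrm (c • x) = |c| * nrm x := by
  rw [nrm_eq, nrm_eq, WithLp.toLp_smul, norm_smul, Real.norm_eq_abs]

lemma nrm_neg {ι : Type} [Fintype ι] (x : ι → ℝ) : nrm (-x) = nrm x := by
  rw [nrm_eq, nrm_eq, WithLp.toLp_neg, norm_neg]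

lemma nrm_cont {ι : Type} [Fintype ι] : Continuous (nrm : (ι → ℝ) → ℝ) := by
  unfold nrm
  fun_prop

lemma nrm_pos {ι : Type} [Fintype ι] (x : ι → ℝ) (hx : x ≠ 0) : 0 < nrm x := by
  rw [nrm_eq, norm_pos_iff]
  intro h
  exact hx (by simpa using h)

lemma dotp_le {ι : Type} [Fintype ι] (x y : ι → ℝ) : |dotp x y| ≤ nrm x * nrm y := by
  have h1 := Finset.sum_mul_sq_le_sq_mul_sq Finset.univ x y
  unfold dotp nrm
  rw [← Real.sqrt_mul (Finset.sum_nonneg fun i _ => sq_nonneg _), ← Real.sqrt_sq_eq_abs]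
  exact Real.sqrt_le_sqrt h1

lemma dotp_add {ι : Type} [Fintype ι] (a x y : ι → ℝ) : dotp a (x + y) = dotp a x + dotp a y := by
  unfold dotp
  rw [← Finset.sum_add_distrib]
  refine Finset.sum_congr rfl fun i _ => ?_
  simp only [Pi.add_apply]; ring

lemma dotp_smul {ι : Type} [Fintype ι] (a : ι → ℝ) (c : ℝ) (x : ι → ℝ) : dotp a (c • x) = c * dotp a x := by
  unfold dotp
  rw [Finset.mul_sum]
  refine Finset.sum_congr rfl fun i _ => ?_
  simp only [Pi.smul_apply, smul_eq_mul]; ring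

lemma dotp_neg {ι : Type} [Fintype ι] (a x : ι → ℝ) : dotp a (-x) = - dotp a x := by
  have := dotp_smul a (-1) x
  simpa using this

lemma dotp_cont {ι : Type} [Fintype ι] (a : ι → ℝ) : Continuous (dotp a) := by
  unfold dotp
  fun_prop

lemma dotp_self {ι : Type} [Fintype ι] (x : ι → ℝ) : dotp x x = nrm x ^ 2 := by
  unfold dotp nrm
  rw [Real.sq_sqrt (Finset.sum_nonneg fun i _ => sq_nonneg _)]
  refine Finset.sum_congr rfl fun i _ => ?_
  ring

lemma eu_eq {ι : Type} [Fintype ι] (x : ι → ℝ) : HypVol.eu x = nrm x := rfl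

lemma nrm_int (ι : Type) [Fintype ι] : Integrable (nrm : (ι → ℝ) → ℝ) (gam ι) := by
  have h1 : Integrable (fun g : ι → ℝ => ∑ i, |g i|) (gam ι) := by
    refine integrable_finset_sum _ fun i _ => ?_
    have h2 : Integrable (fun x : ℝ => |x|) (gaussianReal 0 1) := by
      have := (memLp_id_gaussianReal (μ := 0) (v := 1) 1)
      have h3 : Integrable (id : ℝ → ℝ) (gaussianReal 0 1) := by
        rw [← memLp_one_iff_integrable]
        exact_mod_cast this
      exact h3.abs
    have h4 : MeasurePreserving (Function.eval i) (gam ι) (gaussianReal 0 1) := by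
      unfold gam
      exact measurePreserving_eval (fun _ : ι => gaussianReal 0 1) i
    exact h4.integrable_comp_of_integrable h2
  refine h1.mono' nrm_cont.aestronglyMeasurable (Filter.Eventually.of_forall fun g => ?_)
  rw [Real.norm_of_nonneg (nrm_nonneg g)]
  unfold nrm
  rw [Real.sqrt_le_left (Finset.sum_nonneg fun i _ => abs_nonneg _)]
  have h5 : ∑ i, g i ^ 2 = ∑ i, |g i| ^ 2 := by
    refine Finset.sum_congr rfl fun i _ => (sq_abs _).symm
  rw [h5]
  exact Finset.sum_sq_le_sq_sum_of_nonneg fun i _ => abs_nonneg _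

theorem main (h1 : S_EMB) : S_SUD := by
  classical
  refine ⟨1 / 245, by norm_num, ?_⟩
  intro ι τ _ T a δ hδ hN hsep
  obtain ⟨s0, hs0, s1, hs1, hne⟩ : ∃ s0 ∈ T, ∃ s1 ∈ T, s0 ≠ s1 := Finset.one_lt_card.1 (by omega)
  set M : ℝ := EM T a with hM
  set b : τ → ι → ℝ := fun t => a t - a s0 with hb
  obtain ⟨_, hM0, _, _, hshift, hdiam⟩ := h1 ι τ T a
  obtain ⟨hbint, _, _, _, _, _⟩ := h1 ι τ T b
  have hEb : EM T b = M := hshift (a s0)
  have hδM : δ ≤ 6 * M := (hsep s0 hs0 s1 hs1 hne).trans (hdiam s0 hs0 s1 hs1)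
  have hMpos : 0 < M := by linarith
  have hT : T.Nonempty := ⟨s0, hs0⟩
  set Q : ℝ := ∫ g, nrm g ∂(gam ι) with hQ
  have hQ0 : 0 ≤ Q := integral_nonneg fun g => nrm_nonneg g
  set ε : ℝ := M / (1 + Q) with hε
  have hε0 : 0 < ε := by positivity
  have hεM : ε ≤ M := div_le_self hM0 (by linarith)
  have hεQ : ε * Q ≤ M := by
    rw [hε, div_mul_eq_mul_div, div_le_iff₀ (by linarith)]
    nlinarith
  let nu0 : (ι → ℝ) → ℝ := fun x => T.sup' hT (fun t => |dotp (b t) x|)
  let nu : (ι → ℝ) → ℝ := fun x => nu0 x + ε * nrm x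
  have hnu0le : ∀ x, ∀ t ∈ T, |dotp (b t) x| ≤ nu0 x := fun x t ht =>
    Finset.le_sup' (fun t => |dotp (b t) x|) ht
  have hnu00 : ∀ x, 0 ≤ nu0 x := fun x => (abs_nonneg _).trans (hnu0le x s0 hs0)
  have n1 : ∀ x y, nu (x + y) ≤ nu x + nu y := by
    intro x y
    have e1 : nu0 (x + y) ≤ nu0 x + nu0 y := by
      refine Finset.sup'_le _ _ fun t ht => ?_
      rw [dotp_add]
      exact (abs_add_le _ _).trans (add_le_add (hnu0le x t ht) (hnu0le y t ht))
    have e2 := mul_le_mul_of_nonneg_left (nrm_add x y) hε0.le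
    show nu0 (x + y) + ε * nrm (x + y) ≤ (nu0 x + ε * nrm x) + (nu0 y + ε * nrm y)
    linarith
  have n2 : ∀ (c : ℝ) x, nu (c • x) = |c| * nu x := by
    intro c x
    have e1 : nu0 (c • x) = |c| * nu0 x := by
      show T.sup' hT (fun t => |dotp (b t) (c • x)|) = |c| * T.sup' hT (fun t => |dotp (b t) x|)
      have e3 : (fun t => |dotp (b t) (c • x)|) = fun t => |c| * |dotp (b t) x| := by
        funext t
        rw [dotp_smul, abs_mul]
      rw [e3]
      exact (Finset.mul₀_sup' (abs_nonneg c) _ T hT).symm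
    show nu0 (c • x) + ε * nrm (c • x) = |c| * (nu0 x + ε * nrm x)
    rw [e1, nrm_smul]
    ring
  have n3 : Continuous nu := by
    have e1 : Continuous nu0 := by
      refine Continuous.finset_sup'_apply hT fun t _ => (dotp_cont (b t)).abs
    exact e1.add (continuous_const.mul nrm_cont)
  have n4 : ∀ x, x ≠ 0 → 0 < nu x := by
    intro x hx
    have := mul_pos hε0 (nrm_pos x hx)
    have := hnu00 x
    show 0 < nu0 x + ε * nrm x
    linarith
  have n5 : ∀ x, nu x ≤ mx T b x + mx T b (-x) + ε * nrm x := by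
    intro x
    have e0 : ∀ x, ∀ t ∈ T, dotp (b t) x ≤ mx T b x := by
      intro x t ht
      unfold mx
      rw [dif_pos hT]
      exact Finset.le_sup' (fun t => dotp (b t) x) ht
    have e1 : ∀ x, 0 ≤ mx T b x := by
      intro x
      have := e0 x s0 hs0
      have e2 : dotp (b s0) x = 0 := by
        simp [hb, dotp]
      linarith
    have e3 : nu0 x ≤ mx T b x + mx T b (-x) := by
      refine Finset.sup'_le _ _ fun t ht => ?_
      have e4 := e0 x t ht
      have e5 := e0 (-x) t ht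
      rw [dotp_neg] at e5
      have e6 := e1 x
      have e7 := e1 (-x)
      rw [abs_le]
      constructor <;> linarith
    show nu0 x + ε * nrm x ≤ _
    linarith
  have nint : Integrable nu (gam ι) := by
    refine (((hbint.add (int_neg hbint)).add ((nrm_int ι).const_mul ε))).mono' n3.aestronglyMeasurable
      (Filter.Eventually.of_forall fun x => ?_)
    rw [Real.norm_of_nonneg]
    · exact n5 x
    · have := hnu00 x
      have := mul_nonneg hε0.le (nrm_nonneg x)
      show 0 ≤ nu0 x + ε * nrm x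
      linarith
  have nE : ∫ g, nu g ∂(gam ι) ≤ 3 * M := by
    have e1 : ∫ g, nu g ∂(gam ι) ≤ ∫ g, (mx T b g + mx T b (-g) + ε * nrm g) ∂(gam ι) :=
      integral_mono nint ((hbint.add (int_neg hbint)).add ((nrm_int ι).const_mul ε)) n5
    have e2 : ∫ g, (mx T b g + mx T b (-g) + ε * nrm g) ∂(gam ι) = M + M + ε * Q := by
      have f1 : ∫ g, mx T b (-g) ∂(gam ι) = M := by
        rw [gam_neg ι (mx T b)]
        exact hEb
      have f2 : ∫ g, mx T b g ∂(gam ι) = M := hEb
      rw [integral_add (f := fun g => mx T b g + mx T b (-g)) (hbint.add (int_neg hbint))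
        ((nrm_int ι).const_mul ε), integral_add hbint (int_neg hbint), f1, f2, integral_const_mul]
    rw [e2] at e1
    linarith
  have hnn : ∀ x, 0 ≤ nu x := by
    intro x
    have := hnu00 x
    have := mul_nonneg hε0.le (nrm_nonneg x)
    show 0 ≤ nu0 x + ε * nrm x
    linarith
  have hmark : (1/2 : ℝ≥0∞) ≤ HypVol.gam ι 1 {u | nu u ≤ 6 * M} := by
    rw [gam_eq]
    have e1 := mul_meas_ge_le_integral_of_nonneg (μ := gam ι) (Filter.Eventually.of_forall hnn) nint (6 * M)
    have e2 : (gam ι).real {x | 6 * M ≤ nu x} ≤ 1 / 2 := by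
      have : 6 * M * (gam ι).real {x | 6 * M ≤ nu x} ≤ 3 * M := e1.trans nE
      by_contra hcon
      push Not at hcon
      nlinarith
    have hms : MeasurableSet {u | nu u ≤ 6 * M} := (isClosed_le n3 continuous_const).measurableSet
    have e3 : (gam ι).real {u | nu u ≤ 6 * M} = 1 - (gam ι).real {u | nu u ≤ 6 * M}ᶜ := by
      rw [probReal_compl_eq_one_sub hms]; ring
    have e4 : (gam ι).real {u | nu u ≤ 6 * M}ᶜ ≤ (gam ι).real {x | 6 * M ≤ nu x} := by
      refine measureReal_mono ?_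
      intro x hx
      simp only [Set.mem_compl_iff, Set.mem_setOf_eq, not_le] at hx ⊢
      exact hx.le
    have e5 : (1 / 2 : ℝ) ≤ (gam ι).real {u | nu u ≤ 6 * M} := by linarith
    have e6 : (1/2 : ℝ≥0∞) = ENNReal.ofReal (1 / 2) := by
      rw [ENNReal.ofReal_div_of_pos (by norm_num)]; simp
    rw [e6, ENNReal.ofReal_le_iff_le_toReal (measure_ne_top _ _)]
    exact e5
  have hcov : ∀ η : ℝ, 0 < η → ∃ S : Finset (ι → ℝ), (S.card : ℝ) ≤ 2 * Real.exp (2 * (6 * M) ^ 2 / η^2) ∧
      ∀ a : ι → ℝ, ∑ i, a i ^ 2 ≤ 1 → ∃ s ∈ S, nu (a - s) ≤ η := fun η hη =>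
    HypVol.dual_sudakov nu n1 n2 n3 (6 * M) (by linarith) hmark η hη
  have hR : ∀ y ∈ HypVol.pol {b : ι → ℝ | nu b ≤ 1}, HypVol.eu y ≤ 7 * M := by
    intro y hy
    rw [eu_eq]
    by_cases hy0 : y = 0
    · subst hy0
      have : nrm (0 : ι → ℝ) = 0 := by simp [nrm]
      rw [this]; linarith
    have hp := n4 y hy0
    have h5 : nu ((nu y)⁻¹ • y) ≤ 1 := by
      rw [n2, abs_of_pos (inv_pos.2 hp), inv_mul_cancel₀ hp.ne']
    have h6 := hy _ h5
    have h7 : ∑ i, ((nu y)⁻¹ • y) i * y i = (nu y)⁻¹ * nrm y ^ 2 := by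
      rw [← dotp_self]
      unfold dotp
      rw [Finset.mul_sum]
      refine Finset.sum_congr rfl fun i _ => ?_
      simp only [Pi.smul_apply, smul_eq_mul]
      ring
    rw [h7, abs_mul, abs_of_pos (inv_pos.2 hp), inv_mul_le_iff₀ hp, mul_one, abs_of_nonneg (sq_nonneg _)] at h6
    have h8 : nu0 y ≤ 6 * M * nrm y := by
      refine Finset.sup'_le _ _ fun t ht => ?_
      refine (dotp_le _ _).trans (mul_le_mul_of_nonneg_right (hdiam t ht s0 hs0) (nrm_nonneg y))
    have h9 : nrm y ^ 2 ≤ 7 * M * nrm y := by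
      refine h6.trans ?_
      show nu0 y + ε * nrm y ≤ _
      have := mul_le_mul_of_nonneg_right hεM (nrm_nonneg y)
      linarith
    have h10 := nrm_pos y hy0
    nlinarith
  obtain ⟨m, hm1, hm2⟩ : ∃ m : ℕ, 7 * M ≤ 2 ^ m * (δ / 3) ∧ ((2 : ℝ) ^ m ≤ 1 ∨ 2 ^ m ≤ 42 * (M / δ)) := by
    have hex : ∃ m : ℕ, 7 * M ≤ 2 ^ m * (δ / 3) := by
      obtain ⟨m, hm⟩ := pow_unbounded_of_one_lt (7 * M / (δ / 3)) (by norm_num : (1 : ℝ) < 2)
      refine ⟨m, ?_⟩
      rw [div_lt_iff₀ (by positivity)] at hm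
      exact hm.le
    refine ⟨Nat.find hex, Nat.find_spec hex, ?_⟩
    rcases Nat.eq_zero_or_pos (Nat.find hex) with h | h
    · left; rw [h]; simp
    · right
      have := Nat.find_min hex (Nat.sub_lt h one_pos)
      push Not at this
      obtain ⟨k, hk⟩ : ∃ k, Nat.find hex = k + 1 := ⟨Nat.find hex - 1, by omega⟩
      rw [hk] at this ⊢
      rw [Nat.add_sub_cancel] at this
      rw [pow_succ]
      have e1 : 42 * (M / δ) = (7 * M) / (δ / 3) * 2 := by
        field_simp
        norm_num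
      rw [e1]
      refine mul_le_mul_of_nonneg_right ?_ (by norm_num)
      rw [le_div_iff₀ (by positivity)]
      exact this.le
  obtain ⟨S, hS1, hS2⟩ := HypVol.sudakov_primal nu n1 n2 (2 * (6 * M) ^ 2) (by positivity) hcov n4 (7 * M) hR m
    (δ / 3) (by positivity) hm1
  have hbpol : ∀ t ∈ T, b t ∈ HypVol.pol {b : ι → ℝ | nu b ≤ 1} := by
    intro t ht x hx
    have e1 : ∑ i, x i * b t i = dotp (b t) x := by
      unfold dotp
      refine Finset.sum_congr rfl fun i _ => mul_comm _ _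
    rw [e1]
    have e2 := hnu0le x t ht
    have e3 : nu0 x + ε * nrm x ≤ 1 := hx
    have := mul_nonneg hε0.le (nrm_nonneg x)
    linarith
  have hcard : T.card ≤ S.card := by
    choose! f hf1 hf2 using hS2
    refine Finset.card_le_card_of_injOn (fun t => f (b t)) (fun t ht => hf1 _ (hbpol t ht)) ?_
    intro t ht t' ht' heq
    by_contra hne'
    have e1 := hf2 _ (hbpol t ht)
    have e2 := hf2 _ (hbpol t' ht')
    have e3 := hsep t ht t' ht' hne'
    simp only at heq
    rw [eu_eq] at e1 e2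
    rw [heq] at e1
    have e4 : a t - a t' = (b t - f (b t')) + (-(b t' - f (b t'))) := by
      simp only [hb]; abel
    rw [e4] at e3
    have e5 := nrm_add (b t - f (b t')) (-(b t' - f (b t')))
    rw [nrm_neg] at e5
    linarith
  set u : ℝ := M / δ with hu
  have hu6 : 1 / 6 ≤ u := by
    rw [hu, le_div_iff₀ hδ]; linarith
  have hup : 0 < u := by linarith
  have hexp : 86 * (2 * (6 * M) ^ 2) / (δ / 3) ^ 2 = 55728 * u ^ 2 := by
    rw [hu]
    field_simp
    norm_num
  rw [hexp] at hS1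
  have h2m : (2 : ℝ) ^ m ≤ Real.exp (252 * u ^ 2) := by
    have e1 : (1 : ℝ) ≤ Real.exp (252 * u ^ 2) := Real.one_le_exp (by positivity)
    rcases hm2 with h | h
    · exact h.trans e1
    · have e2 : 252 * u ^ 2 + 1 ≤ Real.exp (252 * u ^ 2) := Real.add_one_le_exp _
      nlinarith
  have hTc : (T.card : ℝ) ≤ Real.exp (60025 * u ^ 2) := by
    have e1 : (T.card : ℝ) ≤ S.card := by exact_mod_cast hcard
    refine e1.trans (hS1.trans ?_)
    calc (2 : ℝ) ^ m * Real.exp (55728 * u ^ 2) ≤ Real.exp (252 * u ^ 2) * Real.exp (55728 * u ^ 2) :=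
          mul_le_mul_of_nonneg_right h2m (Real.exp_pos _).le
      _ = Real.exp (252 * u ^ 2 + 55728 * u ^ 2) := (Real.exp_add _ _).symm
      _ ≤ Real.exp (60025 * u ^ 2) := Real.exp_le_exp.2 (by nlinarith)
  have hTpos : (0 : ℝ) < T.card := by
    have : 0 < T.card := by omega
    exact_mod_cast this
  have hlog : Real.log T.card ≤ 60025 * u ^ 2 := by
    rw [Real.log_le_iff_le_exp hTpos]
    exact hTc
  have hsq : √(Real.log T.card) ≤ 245 * u := by
    rw [Real.sqrt_le_left (by positivity)]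
    refine hlog.trans (le_of_eq ?_)
    ring
  calc 1 / 245 * δ * √(Real.log T.card) ≤ 1 / 245 * δ * (245 * u) :=
        mul_le_mul_of_nonneg_left hsq (by positivity)
    _ = M := by rw [hu]; field_simp

end Pool.Agent.W597.CTSUD
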