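import Pool.Agent.W822.PD.StmC
import Pool.Agent.W462.DPL.A
import Pool.Agent.H342R3.Tig.Fin
import Pool.Agent.H342R3.Tig.POL

/-!
PD-BL: the boundary part of the limit of the tracing paths.
-/

set_option autoImplicit false

namespace Pool.Agent.W597.PDBL

open H974 H984P H342P H342L H342T H342P.Plain
open MeasureTheory Filter Topology Pool.Agent.W822.PD
open scoped ENNReal NNReal

/-! ### Open events -/

theorem isOpen_hit {U : Set ℂ} (hU : IsOpen U) :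
    IsOpen {c : Curve | ∃ s : unitInterval, c.path s ∈ U} := by
  rw [Metric.isOpen_iff]
  rintro c ⟨s, hs⟩
  obtain ⟨ε, hε, hb⟩ := Metric.isOpen_iff.mp hU _ hs
  refine ⟨ε, hε, fun c' hcc' => ?_⟩
  rw [Metric.mem_ball, Curve.dist_def, cdist_comm, cdist_eq] at hcc'
  obtain ⟨φ, hφ⟩ := exists_lt_of_ciInf_lt hcc'
  refine ⟨φ s, hb ?_⟩
  have := ContinuousMap.dist_apply_le_dist (f := c.path) (g := rep c'.path φ) s
  rw [rep_apply, dist_comm] at this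
  exact Metric.mem_ball.2 (lt_of_le_of_lt this hφ)

/-- The curve visits `B(z, r)` and goes to distance more than `ρ` from `z`. -/
def HH (z : ℂ) (r ρ : ℝ) : Set Curve :=
  {c | (∃ s : unitInterval, dist (c.path s) z < r) ∧ ∃ u : unitInterval, ρ < dist (c.path u) z}

theorem HH_open (z : ℂ) (r ρ : ℝ) : IsOpen (HH z r ρ) := by
  have h1 : IsOpen {c : Curve | ∃ s : unitInterval, c.path s ∈ Metric.ball z r} :=
    isOpen_hit Metric.isOpen_ball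
  have h2 : IsOpen {c : Curve | ∃ s : unitInterval, c.path s ∈ (Metric.closedBall z ρ)ᶜ} :=
    isOpen_hit Metric.isClosed_closedBall.isOpen_compl
  have h3 : HH z r ρ = {c : Curve | ∃ s : unitInterval, c.path s ∈ Metric.ball z r} ∩
      {c : Curve | ∃ s : unitInterval, c.path s ∈ (Metric.closedBall z ρ)ᶜ} := by
    ext c
    simp [HH]
  rw [h3]
  exact h1.inter h2

/-! ### The tracing path -/

theorem trace_near {n : ℕ} (hn : 0 < n) {F : Finset Plain.Edge} (hF : F ⊆ Plain.edges n)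
    {v : ℤ × ℤ} (hv : v ∈ box n) {c : Curve} (hc : IsTrace n F v c) (s : unitInterval) :
    c.path s ∈ Sqc ∧ ∃ w : Vtx, Reach (↑F) v w ∧ |n * (c.path s).re - w.1| ≤ 1 ∧
      |n * (c.path s).im - w.2| ≤ 1 := by
  obtain ⟨σ, N, hN, hσ, ho, hp, hmin, hpath⟩ := hc
  have hn' : (0 : ℝ) < n := by exact_mod_cast hn
  have hr : ∀ j, Reach (↑F : Set Edg) v (orb (↑F) σ j).1 := by
    intro j
    rw [mem_cluster] at hσ
    exact hσ.trans (pb_reach _ _ _)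
  have hbox : ∀ j, (0 ≤ (orb (↑F) σ j).1.1 ∧ (orb (↑F) σ j).1.1 ≤ n) ∧
      (0 ≤ (orb (↑F) σ j).1.2 ∧ (orb (↑F) σ j).1.2 ≤ n) := by
    intro j
    have : (orb (↑F) σ j).1 ∈ box n := by
      apply CPT_box hF hv
      rw [mem_cluster]
      exact hr j
    unfold box at this
    rwa [Finset.mem_product, Finset.mem_Icc, Finset.mem_Icc] at this
  have h1 : c.path s ∈ Set.range (poly (fun j => pt n (orb (↑F) σ j).1) N) := by
    rw [hpath]
    exact ⟨s, rfl⟩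
  rw [(t_POL _ N hN).2.2.1] at h1
  simp only [Set.mem_iUnion] at h1
  obtain ⟨j, hj, a, b, ha, hb, hab, hz⟩ := h1
  have hstep := nxt_fst (↑F : Set Edg) (orb (↑F) σ j)
  rw [← orb_succ] at hstep
  set w := (orb (↑F : Set Edg) σ j).1 with hw
  set w' := (orb (↑F : Set Edg) σ (j + 1)).1 with hw'
  have hb1 := hbox j
  have hb2 := hbox (j + 1)
  rw [← hw] at hb1
  rw [← hw'] at hb2
  have ere : (c.path s).re = a * ((w.1 : ℝ) / n) + b * ((w'.1 : ℝ) / n) := by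
    rw [← hz]
    simp [pt]
  have eim : (c.path s).im = a * ((w.2 : ℝ) / n) + b * ((w'.2 : ℝ) / n) := by
    rw [← hz]
    simp [pt]
  have c1 : (0 : ℝ) ≤ w.1 ∧ (w.1 : ℝ) ≤ n := ⟨by exact_mod_cast hb1.1.1, by exact_mod_cast hb1.1.2⟩
  have c2 : (0 : ℝ) ≤ w.2 ∧ (w.2 : ℝ) ≤ n := ⟨by exact_mod_cast hb1.2.1, by exact_mod_cast hb1.2.2⟩
  have c3 : (0 : ℝ) ≤ w'.1 ∧ (w'.1 : ℝ) ≤ n :=
    ⟨by exact_mod_cast hb2.1.1, by exact_mod_cast hb2.1.2⟩
  have c4 : (0 : ℝ) ≤ w'.2 ∧ (w'.2 : ℝ) ≤ n :=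
    ⟨by exact_mod_cast hb2.2.1, by exact_mod_cast hb2.2.2⟩
  have d1 : |(w'.1 : ℝ) - w.1| ≤ 1 := by exact_mod_cast hstep.1
  have d2 : |(w'.2 : ℝ) - w.2| ≤ 1 := by exact_mod_cast hstep.2
  have q : ∀ x : ℝ, 0 ≤ x ∧ x ≤ n → 0 ≤ x / n ∧ x / n ≤ 1 := fun x hx =>
    ⟨div_nonneg hx.1 hn'.le, (div_le_one hn').2 hx.2⟩
  refine ⟨⟨?_, ?_, ?_, ?_⟩, w, hr j, ?_, ?_⟩
  · rw [ere]
    exact add_nonneg (mul_nonneg ha (q _ c1).1) (mul_nonneg hb (q _ c3).1)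
  · rw [ere]
    have := mul_le_mul_of_nonneg_left (q _ c1).2 ha
    have := mul_le_mul_of_nonneg_left (q _ c3).2 hb
    linarith
  · rw [eim]
    exact add_nonneg (mul_nonneg ha (q _ c2).1) (mul_nonneg hb (q _ c4).1)
  · rw [eim]
    have := mul_le_mul_of_nonneg_left (q _ c2).2 ha
    have := mul_le_mul_of_nonneg_left (q _ c4).2 hb
    linarith
  · have : n * (c.path s).re - w.1 = b * ((w'.1 : ℝ) - w.1) := by
      rw [ere]
      field_simp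
      have : a = 1 - b := by linarith
      rw [this]
      ring
    rw [this, abs_mul, abs_of_nonneg hb]
    nlinarith [abs_nonneg ((w'.1 : ℝ) - w.1)]
  · have : n * (c.path s).im - w.2 = b * ((w'.2 : ℝ) - w.2) := by
      rw [eim]
      field_simp
      have : a = 1 - b := by linarith
      rw [this]
      ring
    rw [this, abs_mul, abs_of_nonneg hb]
    nlinarith [abs_nonneg ((w'.2 : ℝ) - w.2)]

/-- The lattice point below `n z`. -/
noncomputable def nv (n : ℕ) (z : ℂ) : Vtx := (⌊n * z.re⌋, ⌊n * z.im⌋)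

theorem nv_near (n : ℕ) (z : ℂ) : |n * z.re - (nv n z).1| ≤ 1 ∧ |n * z.im - (nv n z).2| ≤ 1 := by
  have key : ∀ y : ℝ, |y - (⌊y⌋ : ℝ)| ≤ 1 := by
    intro y
    rw [abs_of_nonneg (by linarith [Int.floor_le y])]
    linarith [Int.lt_floor_add_one y]
  exact ⟨key _, key _⟩

theorem nv_bdry {n : ℕ} {z : ℂ} (hz : z ∈ Sqc \ Sq) :
    ((nv n z).1 = 0 ∨ (nv n z).1 = n ∨ (nv n z).2 = 0 ∨ (nv n z).2 = n) ∧
      inR 0 n 0 n (nv n z) := by
  obtain ⟨⟨h1, h2, h3, h4⟩, h5⟩ := hz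
  have hn : (0 : ℝ) ≤ n := Nat.cast_nonneg n
  have key : ∀ y : ℝ, 0 ≤ y → y ≤ 1 → 0 ≤ ⌊(n : ℝ) * y⌋ ∧ ⌊(n : ℝ) * y⌋ ≤ n := by
    intro y hy0 hy1
    constructor
    · exact Int.floor_nonneg.2 (mul_nonneg hn hy0)
    · have : ((⌊(n : ℝ) * y⌋ : ℤ) : ℝ) ≤ ((n : ℤ) : ℝ) := by
        refine (Int.floor_le _).trans ?_
        push_cast
        nlinarith
      exact_mod_cast this
  refine ⟨?_, key _ h1 h2, key _ h3 h4⟩
  by_cases e1 : z.re = 0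
  · left
    simp [nv, e1]
  by_cases e2 : z.re = 1
  · right; left
    simp [nv, e2]
  by_cases e3 : z.im = 0
  · right; right; left
    simp [nv, e3]
  by_cases e4 : z.im = 1
  · right; right; right
    simp [nv, e4]
  exact absurd ⟨lt_of_le_of_ne h1 (Ne.symm e1), lt_of_le_of_ne h2 e2,
    lt_of_le_of_ne h3 (Ne.symm e3), lt_of_le_of_ne h4 e4⟩ h5

theorem event {n : ℕ} (hn : 0 < n) {F : Finset Plain.Edge} (hF : F ⊆ Plain.edges n)
    {v : ℤ × ℤ} (hv : v ∈ box n) {c : Curve} (hc : IsTrace n F v c) {z : ℂ} {r η : ℝ}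
    (hη : 16 ≤ n * η) (hH : c ∈ HH z r (η / 2)) :
    ∃ u v : Vtx, inR ((nv n z).1 - (⌈n * r⌉₊ + 2 : ℕ)) ((nv n z).1 + (⌈n * r⌉₊ + 2 : ℕ))
      ((nv n z).2 - (⌈n * r⌉₊ + 2 : ℕ)) ((nv n z).2 + (⌈n * r⌉₊ + 2 : ℕ)) u ∧
      Far (nv n z) (⌊n * η / 8⌋₊ : ℕ) v ∧ Reach (↑F) u v := by
  obtain ⟨⟨s, hs⟩, t, ht⟩ := hH
  obtain ⟨-, w1, hw1, a1, a2⟩ := trace_near hn hF hv hc s
  obtain ⟨-, w2, hw2, b1, b2⟩ := trace_near hn hF hv hc t
  obtain ⟨x1, x2⟩ := nv_near n z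
  have hn' : (0 : ℝ) < n := by exact_mod_cast hn
  have hce : (n : ℝ) * r ≤ ⌈(n : ℝ) * r⌉₊ := Nat.le_ceil _
  have hfl : ((⌊(n : ℝ) * η / 8⌋₊ : ℕ) : ℝ) ≤ n * η / 8 := Nat.floor_le (by linarith)
  set x := nv n z with hx
  have s1 : |(c.path s).re - z.re| < r := by
    refine lt_of_le_of_lt ?_ hs
    rw [dist_eq_norm, ← Complex.sub_re]
    exact Complex.abs_re_le_norm _
  have s2 : |(c.path s).im - z.im| < r := by
    refine lt_of_le_of_lt ?_ hs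
    rw [dist_eq_norm, ← Complex.sub_im]
    exact Complex.abs_im_le_norm _
  have s3 : η / 2 < |(c.path t).re - z.re| + |(c.path t).im - z.im| := by
    refine lt_of_lt_of_le ht ?_
    rw [dist_eq_norm, ← Complex.sub_re, ← Complex.sub_im]
    exact Complex.norm_le_abs_re_add_abs_im _
  refine ⟨w1, w2, ?_, ?_, hw1.symm.trans hw2⟩
  · have key : ∀ (p q : ℤ) (α β : ℝ), |n * α - p| ≤ 1 → |n * β - q| ≤ 1 → |α - β| < r →
        q - ((⌈n * r⌉₊ + 2 : ℕ) : ℤ) ≤ p ∧ p ≤ q + ((⌈n * r⌉₊ + 2 : ℕ) : ℤ) := by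
      intro p q α β h1 h2 h3
      rw [abs_le] at h1 h2
      rw [abs_lt] at h3
      have h4 : (n : ℝ) * α - n * β ≤ n * r := by nlinarith
      have h5 : -(n * r) ≤ (n : ℝ) * α - n * β := by nlinarith
      constructor
      · have : (q : ℝ) - ((⌈n * r⌉₊ + 2 : ℕ) : ℝ) ≤ p := by
          push_cast
          linarith
        exact_mod_cast this
      · have : (p : ℝ) ≤ q + ((⌈n * r⌉₊ + 2 : ℕ) : ℝ) := by
          push_cast
          linarith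
        exact_mod_cast this
    exact ⟨key _ _ _ _ a1 x1 s1, key _ _ _ _ a2 x2 s2⟩
  · have key : ∀ (p q : ℤ) (α β : ℝ), |n * α - p| ≤ 1 → |n * β - q| ≤ 1 → η / 4 < |α - β| →
        p ≤ q - ((⌊n * η / 8⌋₊ : ℕ) : ℤ) ∨ q + ((⌊n * η / 8⌋₊ : ℕ) : ℤ) ≤ p := by
      intro p q α β h1 h2 h3
      rw [abs_le] at h1 h2
      rw [lt_abs] at h3
      rcases h3 with h3 | h3
      · right
        have h4 : n * η / 4 ≤ (n : ℝ) * α - n * β := by nlinarith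
        have : (q : ℝ) + ((⌊n * η / 8⌋₊ : ℕ) : ℝ) ≤ p := by linarith
        exact_mod_cast this
      · left
        have h4 : n * η / 4 ≤ (n : ℝ) * β - n * α := by nlinarith
        have : (p : ℝ) ≤ q - ((⌊n * η / 8⌋₊ : ℕ) : ℝ) := by linarith
        exact_mod_cast this
    unfold Far
    by_cases h : η / 4 < |(c.path t).re - z.re|
    · rcases key _ _ _ _ b1 x1 h with h | h
      · exact Or.inl h
      · exact Or.inr (Or.inl h)
    · rcases key _ _ _ _ b2 x2 (by linarith) with h | h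
      · exact Or.inr (Or.inr (Or.inl h))
      · exact Or.inr (Or.inr (Or.inr h))

/-! ### Probabilities -/

theorem sizes {n : ℕ} {r η : ℝ} (hr : 0 < r) (hrη : 16 * r ≤ η) (hn : 64 ≤ n * r) :
    1 ≤ ⌈n * r⌉₊ + 2 ∧ ⌈n * r⌉₊ + 2 ≤ ⌊n * η / 8⌋₊ ∧
      ((⌈n * r⌉₊ + 2 : ℕ) : ℝ) / (⌊n * η / 8⌋₊ : ℕ) ≤ 32 * r / η := by
  have hn0 : (0 : ℝ) ≤ n := Nat.cast_nonneg n
  have hη : 0 < η := by linarith
  have h1 : 16 * (n * r) ≤ n * η := by nlinarith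
  have h2 : ((⌈(n : ℝ) * r⌉₊ : ℕ) : ℝ) < n * r + 1 := Nat.ceil_lt_add_one (by linarith)
  have h3 : (n : ℝ) * η / 8 - 1 < ((⌊(n : ℝ) * η / 8⌋₊ : ℕ) : ℝ) := by
    have := Nat.lt_floor_add_one ((n : ℝ) * η / 8)
    linarith
  refine ⟨by omega, ?_, ?_⟩
  · have : ((⌈(n : ℝ) * r⌉₊ + 2 : ℕ) : ℝ) ≤ ((⌊(n : ℝ) * η / 8⌋₊ : ℕ) : ℝ) := by
      push_cast
      linarith
    exact_mod_cast this
  · have h4 : (0 : ℝ) < ((⌊(n : ℝ) * η / 8⌋₊ : ℕ) : ℝ) := by linarith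
    have h5 : (n : ℝ) * η / 16 ≤ ((⌊(n : ℝ) * η / 8⌋₊ : ℕ) : ℝ) := by linarith
    have h6 : ((⌈(n : ℝ) * r⌉₊ + 2 : ℕ) : ℝ) ≤ 2 * (n * r) := by
      push_cast
      linarith
    rw [div_le_div_iff₀ h4 hη]
    have h7 : 32 * r * (n * η / 16) ≤ 32 * r * ((⌊(n : ℝ) * η / 8⌋₊ : ℕ) : ℝ) :=
      mul_le_mul_of_nonneg_left h5 (by linarith)
    have h8 : ((⌈(n : ℝ) * r⌉₊ + 2 : ℕ) : ℝ) * η ≤ 2 * (n * r) * η :=
      mul_le_mul_of_nonneg_right h6 hη.le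
    nlinarith

section
variable {sel : (n : ℕ) → Finset Plain.Edge → ℤ × ℤ} {γ : (n : ℕ) → Finset Plain.Edge → Curve}

theorem prob_le (hT : Tr sel γ) {C : ℝ} (hC : 0 < C)
    (hHB : ∀ (n ρ k : ℕ) (x : Vtx), 1 ≤ ρ → ρ ≤ k →
      (x.1 = 0 ∨ x.1 = n ∨ x.2 = 0 ∨ x.2 = n) → inR 0 n 0 n x →
      Pr (fun _ => (1/2:ℝ)) (RE 0 n 0 n) (fun F => ∃ u v : Vtx,
        inR (x.1 - ρ) (x.1 + ρ) (x.2 - ρ) (x.2 + ρ) u ∧ Far x k v ∧ Reach (↑F) u v) ≤
          C * ((ρ:ℝ) / k) ^ (1/3 : ℝ)) {z : ℂ} (hz : z ∈ Sqc \ Sq) {r η : ℝ} (hr : 0 < r)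
    (hrη : 16 * r ≤ η) {n : ℕ} (hn : 64 ≤ n * r) :
    (lawOf n (γ n) : Measure Curve) (HH z r (η / 2)) ≤
      ENNReal.ofReal (C * (32 * r / η) ^ (1/3 : ℝ)) := by
  have hn0 : 0 < n := by
    rcases Nat.eq_zero_or_pos n with h | h
    · rw [h] at hn
      norm_num at hn
    · exact h
  obtain ⟨s1, s2, s3⟩ := sizes hr hrη hn
  obtain ⟨b1, b2⟩ := nv_bdry (n := n) hz
  rw [lawOf_apply _ _ (HH_open _ _ _).measurableSet]
  apply ENNReal.ofReal_le_ofReal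
  refine (prob_le_of_pr (B := fun F => ∃ u v : Vtx,
    inR ((nv n z).1 - (⌈n * r⌉₊ + 2 : ℕ)) ((nv n z).1 + (⌈n * r⌉₊ + 2 : ℕ))
      ((nv n z).2 - (⌈n * r⌉₊ + 2 : ℕ)) ((nv n z).2 + (⌈n * r⌉₊ + 2 : ℕ)) u ∧
      Far (nv n z) (⌊n * η / 8⌋₊ : ℕ) v ∧ Reach (↑F) u v) ?_).trans ?_
  · intro F hF hE
    have hη : 16 ≤ n * η := by
      have : (n : ℝ) * (16 * r) ≤ n * η := mul_le_mul_of_nonneg_left hrη (Nat.cast_nonneg n)
      linarith
    exact event hn0 hF (hT.1 n F hn0 hF).1 (hT.2 n F hn0 hF) hη hE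
  · refine (hHB n _ _ (nv n z) s1 s2 b1 b2).trans ?_
    apply mul_le_mul_of_nonneg_left _ hC.le
    exact Real.rpow_le_rpow (by positivity) s3 (by norm_num)

/-! ### Covering of the boundary of the square -/

/-- Centres of the covering discs. -/
noncomputable def ctrs (N : ℕ) (a b : Bool) (i : ℕ) : ℂ :=
  if a then ⟨(i : ℝ) / N, if b then 1 else 0⟩ else ⟨if b then 1 else 0, (i : ℝ) / N⟩

theorem ctrs_mem {N : ℕ} (hN : 0 < N) (a b : Bool) {i : ℕ} (hi : i ≤ N) :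
    ctrs N a b i ∈ Sqc \ Sq := by
  have hN' : (0 : ℝ) < N := by exact_mod_cast hN
  have h0 : 0 ≤ (i : ℝ) / N := by positivity
  have h1 : (i : ℝ) / N ≤ 1 := by
    rw [div_le_one hN']
    exact_mod_cast hi
  cases a <;> cases b <;> simp [ctrs, Sqc, Sq, h0, h1]

theorem ctrs_cover {N : ℕ} (hN : 0 < N) {z : ℂ} (hz : z ∈ Sqc \ Sq) :
    ∃ (a b : Bool) (i : ℕ), i ≤ N ∧ z ∈ Metric.ball (ctrs N a b i) (2 / N) := by
  obtain ⟨⟨h1, h2, h3, h4⟩, h5⟩ := hz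
  have hN' : (0 : ℝ) < N := by exact_mod_cast hN
  have key : ∀ y : ℝ, 0 ≤ y → y ≤ 1 → ∃ i : ℕ, i ≤ N ∧ |y - (i : ℝ) / N| < 2 / N := by
    intro y hy0 hy1
    refine ⟨⌊(N : ℝ) * y⌋₊, ?_, ?_⟩
    · rw [← Nat.floor_natCast (R := ℝ) N]
      apply Nat.floor_le_floor
      rw [Nat.floor_natCast]
      nlinarith
    · have e1 := Nat.floor_le (mul_nonneg hN'.le hy0)
      have e2 := Nat.lt_floor_add_one ((N : ℝ) * y)
      have e3 : y - ((⌊(N : ℝ) * y⌋₊ : ℕ) : ℝ) / N = (N * y - ((⌊(N : ℝ) * y⌋₊ : ℕ) : ℝ)) / N := by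
        field_simp
      rw [e3, abs_of_nonneg (div_nonneg (by linarith) hN'.le)]
      apply div_lt_div_of_pos_right _ hN'
      linarith
  have hd : ∀ w : ℂ, dist z w ≤ |z.re - w.re| + |z.im - w.im| := by
    intro w
    rw [dist_eq_norm, ← Complex.sub_re, ← Complex.sub_im]
    exact Complex.norm_le_abs_re_add_abs_im _
  by_cases e1 : z.re = 0
  · obtain ⟨i, hi, hi2⟩ := key _ h3 h4
    refine ⟨false, false, i, hi, Metric.mem_ball.2 (lt_of_le_of_lt (hd _) ?_)⟩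
    simpa [ctrs, e1] using hi2
  by_cases e2 : z.re = 1
  · obtain ⟨i, hi, hi2⟩ := key _ h3 h4
    refine ⟨false, true, i, hi, Metric.mem_ball.2 (lt_of_le_of_lt (hd _) ?_)⟩
    simpa [ctrs, e2] using hi2
  by_cases e3 : z.im = 0
  · obtain ⟨i, hi, hi2⟩ := key _ h1 h2
    refine ⟨true, false, i, hi, Metric.mem_ball.2 (lt_of_le_of_lt (hd _) ?_)⟩
    simpa [ctrs, e3] using hi2
  by_cases e4 : z.im = 1
  · obtain ⟨i, hi, hi2⟩ := key _ h1 h2
    refine ⟨true, true, i, hi, Metric.mem_ball.2 (lt_of_le_of_lt (hd _) ?_)⟩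
    simpa [ctrs, e4] using hi2
  exact absurd ⟨lt_of_le_of_ne h1 (Ne.symm e1), lt_of_le_of_ne h2 e2,
    lt_of_le_of_ne h3 (Ne.symm e3), lt_of_le_of_ne h4 e4⟩ h5

/-- The boundary part of the curve. -/
def BS (η : ℝ) (c : Curve) : Set ℂ :=
  {z | z ∈ Set.range c.path ∧ z ∈ Sqc \ Sq ∧ ∃ u, η ≤ dist (c.path u) z}

theorem HH_of {η r : ℝ} (hrη : 16 * r ≤ η) {w : ℂ} {c : Curve} (hr : 0 < r)
    (h : (BS η c ∩ Metric.ball w r).Nonempty) : c ∈ HH w r (η / 2) := by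
  obtain ⟨z, ⟨⟨s, rfl⟩, -, u, hu⟩, hz⟩ := h
  refine ⟨⟨s, hz⟩, u, ?_⟩
  rw [Metric.mem_ball] at hz
  have := dist_triangle (c.path u) w (c.path s)
  rw [dist_comm w] at this
  linarith

/-- the limit of the covering sums -/
theorem lim0 (C η t : ℝ) (hη : 0 < η) (ht : 2 / 3 < t) (m0 : ℕ) (hm0 : 1 ≤ m0) :
    Tendsto (fun m : ℕ => (8 * ((m + m0 : ℕ) : ℝ)) * ((4 / ((m + m0 : ℕ) : ℝ)) ^ t *
      (C * (32 * (2 / ((m + m0 : ℕ) : ℝ)) / η) ^ (1 / 3 : ℝ)))) atTop (𝓝 0) := by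
  have h1 : Tendsto (fun m : ℕ => ((m + m0 : ℕ) : ℝ)) atTop atTop :=
    tendsto_natCast_atTop_atTop.comp (tendsto_add_atTop_nat m0)
  have h2 : Tendsto (fun x : ℝ => x ^ (-(t - 2 / 3))) atTop (𝓝 0) :=
    tendsto_rpow_neg_atTop (by linarith)
  have h3 := (h2.comp h1).const_mul (8 * (4 ^ t * (C * (64 / η) ^ (1 / 3 : ℝ))))
  rw [mul_zero] at h3
  refine h3.congr ?_
  intro m
  have hpos : (0 : ℝ) < ((m + m0 : ℕ) : ℝ) := by
    have : 0 < m + m0 := by omega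
    exact_mod_cast this
  set x : ℝ := ((m + m0 : ℕ) : ℝ) with hx
  simp only [Function.comp]
  rw [← hx]
  have e1 : (4 / x) ^ t = 4 ^ t * x ^ (-t) := by
    rw [Real.div_rpow (by norm_num) hpos.le, Real.rpow_neg hpos.le]
    ring
  have e2 : (32 * (2 / x) / η) ^ (1 / 3 : ℝ) = (64 / η) ^ (1 / 3 : ℝ) * x ^ (-(1 / 3) : ℝ) := by
    have : 32 * (2 / x) / η = (64 / η) / x := by
      field_simp
      norm_num
    rw [this, Real.div_rpow (by positivity) hpos.le, Real.rpow_neg hpos.le]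
    ring
  have e3 : x ^ (-(t - 2 / 3)) = x ^ (1 : ℝ) * (x ^ (-t) * x ^ (-(1 / 3) : ℝ)) := by
    rw [← Real.rpow_add hpos, ← Real.rpow_add hpos]
    congr 1
    ring
  rw [e1, e2, e3, Real.rpow_one]
  ring

/-- one exponent -/
theorem one_exp {C η : ℝ} (hC : 0 < C) (hη : 0 < η) {μs : ℕ → ProbabilityMeasure Curve}
    {μ : ProbabilityMeasure Curve} (hμ : Tendsto μs atTop (𝓝 μ))
    (hp : ∀ (z : ℂ) (r : ℝ), 0 < r → 16 * r ≤ η → z ∈ Sqc \ Sq →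
      ∀ᶠ i in atTop, (μs i : Measure Curve) (HH z r (η / 2)) ≤
          ENNReal.ofReal (C * (32 * r / η) ^ (1 / 3 : ℝ))) {t : ℝ} (ht : 2 / 3 < t) :
    ∀ᵐ c ∂(μ : Measure Curve), dimH (BS η c) ≤ ENNReal.ofReal t := by
  obtain ⟨m1, hm1⟩ := exists_nat_gt (32 / η)
  set m0 : ℕ := m1 + 1 with hm0
  have hN0 : ∀ m : ℕ, 0 < m + m0 := by
    intro m
    omega
  have hN : ∀ m : ℕ, (0 : ℝ) < ((m + m0 : ℕ) : ℝ) := by
    intro m
    exact_mod_cast hN0 m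
  have hNd : ∀ m : ℕ, 16 * (2 / ((m + m0 : ℕ) : ℝ)) ≤ η := by
    intro m
    have e : 16 * (2 / ((m + m0 : ℕ) : ℝ)) = 32 / ((m + m0 : ℕ) : ℝ) := by ring
    rw [e, div_le_iff₀ (hN m)]
    rw [div_lt_iff₀ hη] at hm1
    have : (m1 : ℝ) ≤ ((m + m0 : ℕ) : ℝ) := by
      have : m1 ≤ m + m0 := by omega
      exact_mod_cast this
    nlinarith
  have hed : ∀ (w : ℂ) (m : ℕ), Metric.ediam (Metric.ball w (2 / ((m + m0 : ℕ) : ℝ))) ≤
      ENNReal.ofReal (4 / ((m + m0 : ℕ) : ℝ)) := by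
    intro w m
    refine Metric.ediam_le_of_forall_dist_le ?_
    intro x hx y hy
    rw [Metric.mem_ball] at hx hy
    have h1 := dist_triangle_right x y w
    have h2 : (4 : ℝ) / ((m + m0 : ℕ) : ℝ) = 2 / ((m + m0 : ℕ) : ℝ) + 2 / ((m + m0 : ℕ) : ℝ) := by
      ring
    linarith
  refine Pool.Agent.W462.DPL.upperG (by linarith) hμ (fun c => BS η c)
    (ι := fun m => (Bool × Bool) × Fin (m + m0 + 1))
    (fun m i => Metric.ball (ctrs (m + m0) i.1.1 i.1.2 i.2) (2 / ((m + m0 : ℕ) : ℝ)))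
    (fun m i => HH (ctrs (m + m0) i.1.1 i.1.2 i.2) (2 / ((m + m0 : ℕ) : ℝ)) (η / 2))
    (fun m i => HH_open _ _ _) (fun m i c h => HH_of (hNd m) (div_pos two_pos (hN m)) h)
    (fun m => ENNReal.ofReal (4 / ((m + m0 : ℕ) : ℝ))) ?_
    (fun m i => hed _ _)
    ?_ (fun m _ => ENNReal.ofReal (C * (32 * (2 / ((m + m0 : ℕ) : ℝ)) / η) ^ (1 / 3 : ℝ))) ?_ ?_
  · -- the radii tend to zero
    have h1 : Tendsto (fun m : ℕ => ((m + m0 : ℕ) : ℝ)) atTop atTop :=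
      tendsto_natCast_atTop_atTop.comp (tendsto_add_atTop_nat m0)
    have h2 : Tendsto (fun m : ℕ => 4 / ((m + m0 : ℕ) : ℝ)) atTop (𝓝 0) :=
      h1.const_div_atTop 4
    have h3 := ENNReal.tendsto_ofReal h2
    rwa [ENNReal.ofReal_zero] at h3
  · -- covering
    intro m c z hz
    obtain ⟨a, b, i, hi, hb⟩ := ctrs_cover (hN0 m) hz.2.1
    exact Set.mem_iUnion.mpr ⟨((a, b), ⟨i, by omega⟩), hb⟩
  · -- probabilities
    intro m i
    exact (hp _ (2 / ((m + m0 : ℕ) : ℝ)) (div_pos two_pos (hN m)) (hNd m)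
      (ctrs_mem (hN0 m) _ _ (by have := i.2.2; omega))).frequently
  · -- the sums tend to zero
    have hl := ENNReal.tendsto_ofReal (lim0 C η t hη ht m0 (by omega))
    rw [ENNReal.ofReal_zero] at hl
    refine tendsto_of_tendsto_of_tendsto_of_le_of_le tendsto_const_nhds hl
      (fun m => zero_le) (fun m => ?_)
    have hn := hN m
    have ht0 : 0 ≤ t := by linarith
    have h4 : 0 ≤ (4 : ℝ) / ((m + m0 : ℕ) : ℝ) := by positivity
    have h9 : 0 ≤ (4 / ((m + m0 : ℕ) : ℝ)) ^ t *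
        (C * (32 * (2 / ((m + m0 : ℕ) : ℝ)) / η) ^ (1 / 3 : ℝ)) := by positivity
    calc ∑ i : (Bool × Bool) × Fin (m + m0 + 1),
          Metric.ediam (Metric.ball (ctrs (m + m0) i.1.1 i.1.2 i.2) (2 / ((m + m0 : ℕ) : ℝ))) ^ t *
            ENNReal.ofReal (C * (32 * (2 / ((m + m0 : ℕ) : ℝ)) / η) ^ (1 / 3 : ℝ))
        ≤ ∑ _i : (Bool × Bool) × Fin (m + m0 + 1),
          ENNReal.ofReal ((4 / ((m + m0 : ℕ) : ℝ)) ^ t *
            (C * (32 * (2 / ((m + m0 : ℕ) : ℝ)) / η) ^ (1 / 3 : ℝ))) := by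
          refine Finset.sum_le_sum fun i _ => ?_
          have e5 : ENNReal.ofReal ((4 / ((m + m0 : ℕ) : ℝ)) ^ t *
              (C * (32 * (2 / ((m + m0 : ℕ) : ℝ)) / η) ^ (1 / 3 : ℝ))) =
              ENNReal.ofReal (4 / ((m + m0 : ℕ) : ℝ)) ^ t *
                ENNReal.ofReal (C * (32 * (2 / ((m + m0 : ℕ) : ℝ)) / η) ^ (1 / 3 : ℝ)) := by
            rw [ENNReal.ofReal_mul (by positivity), ENNReal.ofReal_rpow_of_nonneg h4 ht0]
          rw [e5]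
          gcongr
          exact hed _ _
      _ ≤ ENNReal.ofReal ((8 * ((m + m0 : ℕ) : ℝ)) * ((4 / ((m + m0 : ℕ) : ℝ)) ^ t *
            (C * (32 * (2 / ((m + m0 : ℕ) : ℝ)) / η) ^ (1 / 3 : ℝ)))) := by
          rw [Finset.sum_const, Finset.card_univ, Fintype.card_prod, Fintype.card_fin,
            nsmul_eq_mul, ← ENNReal.ofReal_natCast, ← ENNReal.ofReal_mul (Nat.cast_nonneg _)]
          apply ENNReal.ofReal_le_ofReal
          apply mul_le_mul_of_nonneg_right _ h9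
          have e6 : Fintype.card (Bool × Bool) = 4 := rfl
          have e7 : (1 : ℝ) ≤ ((m + m0 : ℕ) : ℝ) := by exact_mod_cast hN0 m
          rw [e6]
          push_cast at e7 ⊢
          linarith

theorem range_sub (hT : Tr sel γ) {k : ℕ → ℕ} (hk : Tendsto k atTop atTop)
    {μ : ProbabilityMeasure Curve} (hμ : Tendsto (fun i => lawOf (k i) (γ (k i))) atTop (𝓝 μ)) :
    ∀ᵐ c : Curve ∂(μ : Measure Curve), Set.range c.path ⊆ Sqc := by
  have hcl : IsClosed Sqc := by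
    have e : Sqc = csq := by
      ext z
      simp only [Sqc, csq, Set.mem_ofPred_eq]
      tauto
    rw [e]
    exact isClosed_csq
  have hopen : IsOpen {c : Curve | ∃ s : unitInterval, c.path s ∈ Sqcᶜ} :=
    isOpen_hit hcl.isOpen_compl
  have h0 : (μ : Measure Curve) {c : Curve | ∃ s : unitInterval, c.path s ∈ Sqcᶜ} = 0 := by
    apply le_antisymm _ bot_le
    refine (ProbabilityMeasure.le_liminf_measure_open_of_tendsto hμ hopen).trans ?_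
    refine liminf_le_of_frequently_le (Eventually.frequently ?_)
    have hev : ∀ᶠ i in atTop, 1 ≤ k i := tendsto_atTop.mp hk _
    filter_upwards [hev] with i hi
    rw [lawOf_apply _ _ hopen.measurableSet]
    have : prob (k i) (fun F => γ (k i) F ∈ {c : Curve | ∃ s : unitInterval, c.path s ∈ Sqcᶜ}) ≤
        prob (k i) (fun _ => ¬ True) := by
      apply prob_mono
      rintro F hF ⟨s, hs⟩
      exact absurd (trace_near hi hF (hT.1 _ F hi hF).1 (hT.2 _ F hi hF) s).1 hs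
    rw [prob_not, prob_true, sub_self] at this
    rw [ENNReal.ofReal_of_nonpos this]
    exact le_rfl
  filter_upwards [compl_mem_ae_iff.mpr h0] with c hc
  rintro _ ⟨s, rfl⟩
  by_contra hcon
  exact hc ⟨s, hcon⟩

end

/-- PD-BL -/
theorem bl : Pool.Agent.W822.PD.PD_BL := by
  rintro ⟨C, hC, hHB⟩ sel γ hT k hk μ hμ η hη
  have hp : ∀ (z : ℂ) (r : ℝ), 0 < r → 16 * r ≤ η → z ∈ Sqc \ Sq →
      ∀ᶠ i in atTop, (lawOf (k i) (γ (k i)) : Measure Curve) (HH z r (η / 2)) ≤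
          ENNReal.ofReal (C * (32 * r / η) ^ (1 / 3 : ℝ)) := by
    intro z r hr hrη hz
    obtain ⟨n1, hn1⟩ := exists_nat_gt (64 / r)
    have hev : ∀ᶠ i in atTop, n1 ≤ k i := tendsto_atTop.mp hk _
    filter_upwards [hev] with i hi
    refine prob_le hT hC hHB hz hr hrη ?_
    rw [div_lt_iff₀ hr] at hn1
    have : (n1 : ℝ) ≤ k i := by exact_mod_cast hi
    nlinarith
  have h1 : ∀ j : ℕ, ∀ᵐ c ∂(μ : Measure Curve),
      dimH (BS η c) ≤ ENNReal.ofReal (2 / 3 + 1 / ((j : ℝ) + 1)) := by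
    intro j
    have hj : 0 < 1 / ((j : ℝ) + 1) := by positivity
    exact one_exp hC hη hμ hp (by linarith)
  have h2 : ∀ᵐ c ∂(μ : Measure Curve), ∀ j : ℕ,
      dimH (BS η c) ≤ ENNReal.ofReal (2 / 3 + 1 / ((j : ℝ) + 1)) := by
    rw [ae_all_iff]
    exact h1
  filter_upwards [h2, range_sub hT hk hμ] with c hc hc2
  refine ⟨hc2, ?_⟩
  have hlim : Tendsto (fun j : ℕ => ENNReal.ofReal (2 / 3 + 1 / ((j : ℝ) + 1))) atTop
      (𝓝 (ENNReal.ofReal (2 / 3 + 0))) :=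
    ENNReal.tendsto_ofReal (tendsto_const_nhds.add tendsto_one_div_add_atTop_nhds_zero_nat)
  rw [add_zero] at hlim
  exact ge_of_tendsto' hlim (fun j => hc j)

end Pool.Agent.W597.PDBL
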