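import Pool.Agent.W796.PH.Defs

/-!
# Inequalities for the p-Laplace vector fields (PH-ALG)
-/

set_option autoImplicit false

open Complex
open scoped ComplexConjugate

namespace Pool.Agent.W597.PHAlg

open Pool.Agent.W796.PH

theorem rpow_bound {e x y : ℝ} (he : 0 ≤ e) (hy : 0 ≤ y) (hyx : y ≤ x) :
    (x ^ e - y ^ e) * y ≤ e * x ^ e * (x - y) := by
  rcases hy.eq_or_lt with rfl | hy0
  · simp only [mul_zero, sub_zero]
    positivity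
  have hx0 : 0 < x := hy0.trans_le hyx
  have hb := one_add_mul_self_le_rpow_one_add (s := y / x - 1) (p := e + 1)
    (by have : 0 ≤ y / x := by positivity
        linarith) (by linarith)
  rw [add_sub_cancel, Real.div_rpow hy hx0.le] at hb
  have hxe : 0 < x ^ (e + 1) := Real.rpow_pos_of_pos hx0 _
  have h1 : x ^ (e + 1) * (1 + (e + 1) * (y / x - 1)) ≤ y ^ (e + 1) := by
    have := mul_le_mul_of_nonneg_left hb hxe.le
    rwa [mul_div_cancel₀ _ hxe.ne'] at this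
  rw [Real.rpow_add_one hx0.ne', Real.rpow_add_one hy0.ne'] at h1
  have h2 : x ^ e * x * (1 + (e + 1) * (y / x - 1)) =
      x ^ e * (x + (e + 1) * (y - x)) := by
    field_simp
  rw [h2] at h1
  nlinarith

theorem norm_pw_sub {e : ℝ} (he : 0 ≤ e) (a b : ℂ) :
    ‖pw e a - pw e b‖ ≤ (1 + e) * (‖a‖ + ‖b‖) ^ e * ‖a - b‖ := by
  wlog h : ‖b‖ ≤ ‖a‖ generalizing a b
  · have := this b a (le_of_not_ge h)
    rwa [norm_sub_rev, add_comm ‖b‖, norm_sub_rev b a] at this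
  have h1 : pw e a - pw e b = ((‖a‖ ^ e : ℝ) : ℂ) * (a - b) +
      ((‖a‖ ^ e - ‖b‖ ^ e : ℝ) : ℂ) * b := by
    unfold pw
    push_cast
    ring
  have h2 : ‖b‖ ^ e ≤ ‖a‖ ^ e := Real.rpow_le_rpow (norm_nonneg _) h he
  have h3 : 0 ≤ ‖a‖ ^ e := Real.rpow_nonneg (norm_nonneg _) _
  have h4 : ‖a‖ ^ e ≤ (‖a‖ + ‖b‖) ^ e :=
    Real.rpow_le_rpow (norm_nonneg _) (by linarith [norm_nonneg b]) he
  rw [h1]
  calc ‖((‖a‖ ^ e : ℝ) : ℂ) * (a - b) + ((‖a‖ ^ e - ‖b‖ ^ e : ℝ) : ℂ) * b‖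
      ≤ ‖((‖a‖ ^ e : ℝ) : ℂ) * (a - b)‖ + ‖((‖a‖ ^ e - ‖b‖ ^ e : ℝ) : ℂ) * b‖ := norm_add_le _ _
    _ = ‖a‖ ^ e * ‖a - b‖ + (‖a‖ ^ e - ‖b‖ ^ e) * ‖b‖ := by
        rw [norm_mul, norm_mul, Complex.norm_real, Complex.norm_real, Real.norm_of_nonneg h3,
          Real.norm_of_nonneg (by linarith)]
    _ ≤ ‖a‖ ^ e * ‖a - b‖ + e * ‖a‖ ^ e * (‖a‖ - ‖b‖) := by
        exact add_le_add le_rfl (rpow_bound he (norm_nonneg _) h)
    _ ≤ ‖a‖ ^ e * ‖a - b‖ + e * ‖a‖ ^ e * ‖a - b‖ := by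
        gcongr
        exact norm_sub_norm_le a b
    _ = (1 + e) * ‖a‖ ^ e * ‖a - b‖ := by ring
    _ ≤ (1 + e) * (‖a‖ + ‖b‖) ^ e * ‖a - b‖ := by gcongr

theorem inner_pw {e : ℝ} (he : 0 ≤ e) (a b : ℂ) :
    (‖a‖ ^ e + ‖b‖ ^ e) / 2 * ‖a - b‖ ^ 2 ≤ (conj (pw e a - pw e b) * (a - b)).re := by
  have h0 : 0 ≤ (‖a‖ ^ e - ‖b‖ ^ e) * (‖a‖ ^ 2 - ‖b‖ ^ 2) := by
    rcases le_total ‖b‖ ‖a‖ with h | h
    · have h1 : ‖b‖ ^ e ≤ ‖a‖ ^ e := Real.rpow_le_rpow (norm_nonneg _) h he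
      have h2 : ‖b‖ ^ 2 ≤ ‖a‖ ^ 2 := pow_le_pow_left₀ (norm_nonneg _) h 2
      exact mul_nonneg (by linarith) (by linarith)
    · have h1 : ‖a‖ ^ e ≤ ‖b‖ ^ e := Real.rpow_le_rpow (norm_nonneg _) h he
      have h2 : ‖a‖ ^ 2 ≤ ‖b‖ ^ 2 := pow_le_pow_left₀ (norm_nonneg _) h 2
      exact mul_nonneg_of_nonpos_of_nonpos (by linarith) (by linarith)
  have e1 : ‖a‖ ^ 2 = a.re * a.re + a.im * a.im := by
    rw [Complex.sq_norm, Complex.normSq_apply]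
  have e2 : ‖b‖ ^ 2 = b.re * b.re + b.im * b.im := by
    rw [Complex.sq_norm, Complex.normSq_apply]
  have e3 : ‖a - b‖ ^ 2 = (a.re - b.re) * (a.re - b.re) + (a.im - b.im) * (a.im - b.im) := by
    rw [Complex.sq_norm, Complex.normSq_apply, Complex.sub_re, Complex.sub_im]
  have e4 : (conj (pw e a - pw e b) * (a - b)).re =
      (‖a‖ ^ e * a.re - ‖b‖ ^ e * b.re) * (a.re - b.re) +
      (‖a‖ ^ e * a.im - ‖b‖ ^ e * b.im) * (a.im - b.im) := by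
    unfold pw
    simp only [Complex.mul_re, Complex.mul_im, Complex.conj_re, Complex.conj_im, Complex.sub_re,
      Complex.sub_im, Complex.ofReal_re, Complex.ofReal_im]
    ring
  rw [e1, e2] at h0
  rw [e3, e4]
  nlinarith

theorem sum_rpow {e x y : ℝ} (he : 0 ≤ e) (hx : 0 ≤ x) (hy : 0 ≤ y) :
    (x + y) ^ e ≤ 2 ^ e * (x ^ e + y ^ e) := by
  have hxe := Real.rpow_nonneg hx e
  have hye := Real.rpow_nonneg hy e
  have h2 : (0 : ℝ) ≤ 2 ^ e := by positivity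
  rcases le_total x y with h | h
  · calc (x + y) ^ e ≤ (2 * y) ^ e := Real.rpow_le_rpow (by linarith) (by linarith) he
      _ = 2 ^ e * y ^ e := Real.mul_rpow (by norm_num) hy
      _ ≤ 2 ^ e * (x ^ e + y ^ e) := by gcongr; linarith
  · calc (x + y) ^ e ≤ (2 * x) ^ e := Real.rpow_le_rpow (by linarith) (by linarith) he
      _ = 2 ^ e * x ^ e := Real.mul_rpow (by norm_num) hx
      _ ≤ 2 ^ e * (x ^ e + y ^ e) := by gcongr; linarith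

theorem inner_pw2 {e : ℝ} (he : 0 ≤ e) (a b : ℂ) :
    (‖a‖ + ‖b‖) ^ e * ‖a - b‖ ^ 2 ≤ 2 * 2 ^ e * (conj (pw e a - pw e b) * (a - b)).re := by
  have h1 := inner_pw he a b
  have h2 := sum_rpow he (norm_nonneg a) (norm_nonneg b)
  calc (‖a‖ + ‖b‖) ^ e * ‖a - b‖ ^ 2 ≤ 2 ^ e * (‖a‖ ^ e + ‖b‖ ^ e) * ‖a - b‖ ^ 2 := by gcongr
    _ = 2 * 2 ^ e * ((‖a‖ ^ e + ‖b‖ ^ e) / 2 * ‖a - b‖ ^ 2) := by ring
    _ ≤ _ := by gcongr

theorem inner_le (u w : ℂ) : (conj u * w).re ≤ ‖u‖ * ‖w‖ := by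
  calc (conj u * w).re ≤ ‖conj u * w‖ := Complex.re_le_norm _
    _ = ‖u‖ * ‖w‖ := by rw [norm_mul, RCLike.norm_conj]

theorem lower_pw {e : ℝ} (he : 0 ≤ e) (a b : ℂ) :
    (‖a‖ + ‖b‖) ^ e * ‖a - b‖ ≤ 2 * 2 ^ e * ‖pw e a - pw e b‖ := by
  rcases (norm_nonneg (a - b)).eq_or_lt with h | h
  · rw [← h, mul_zero]
    positivity
  have h1 := inner_pw2 he a b
  have h2 := inner_le (pw e a - pw e b) (a - b)
  have h3 : ((‖a‖ + ‖b‖) ^ e * ‖a - b‖) * ‖a - b‖ ≤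
      (2 * 2 ^ e * ‖pw e a - pw e b‖) * ‖a - b‖ := by
    calc ((‖a‖ + ‖b‖) ^ e * ‖a - b‖) * ‖a - b‖ = (‖a‖ + ‖b‖) ^ e * ‖a - b‖ ^ 2 := by ring
      _ ≤ 2 * 2 ^ e * (conj (pw e a - pw e b) * (a - b)).re := h1
      _ ≤ 2 * 2 ^ e * (‖pw e a - pw e b‖ * ‖a - b‖) := by gcongr
      _ = _ := by ring
  exact le_of_mul_le_mul_right h3 h

theorem main : S_Alg := by
  intro p hp
  set s := p - 2 with hs
  have hs0 : 0 ≤ s := by linarith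
  have hs2 : 0 ≤ s / 2 := by linarith
  have hpos : 0 ≤ s := hs0
  have t1 : (0 : ℝ) < 2 ^ s := by positivity
  have t2 : (0 : ℝ) < 2 ^ (s / 2) := by positivity
  set C1 := (1 + s / 2) ^ 2 * (2 * 2 ^ s) with hC1
  set C2 := (1 + s) * (2 * 2 ^ (s / 2)) with hC2
  set C4 : ℝ := 2 * 2 ^ s with hC4
  have c1 : 0 < C1 := by positivity
  have c2 : 0 < C2 := by positivity
  have c3 : 0 < 1 + s := by positivity
  have c4 : 0 < C4 := by positivity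
  refine ⟨C1 + C2 + (1 + s) + C4, by positivity, fun a b => ?_⟩
  have hN : 0 ≤ ‖a‖ + ‖b‖ := by positivity
  have hNs : 0 ≤ (‖a‖ + ‖b‖) ^ s := Real.rpow_nonneg hN _
  have hNs2 : 0 ≤ (‖a‖ + ‖b‖) ^ (s / 2) := Real.rpow_nonneg hN _
  have hsq : ((‖a‖ + ‖b‖) ^ (s / 2)) ^ 2 = (‖a‖ + ‖b‖) ^ s := by
    rw [← Real.rpow_natCast, ← Real.rpow_mul hN]
    congr 1
    push_cast
    ring
  have u1 := norm_pw_sub hs2 a b
  have u2 := norm_pw_sub hs0 a b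
  have l1 := lower_pw hs2 a b
  have l2 := lower_pw hs0 a b
  have i1 := inner_pw2 hs0 a b
  have hin : 0 ≤ (conj (pw s a - pw s b) * (a - b)).re :=
    le_trans (by positivity) (inner_pw hs0 a b)
  refine ⟨?_, ?_, ?_, ?_, ?_⟩
  · have h1 : ‖pw (s / 2) a - pw (s / 2) b‖ ^ 2 ≤
        C1 * (conj (pw s a - pw s b) * (a - b)).re := by
      calc ‖pw (s / 2) a - pw (s / 2) b‖ ^ 2
          ≤ ((1 + s / 2) * (‖a‖ + ‖b‖) ^ (s / 2) * ‖a - b‖) ^ 2 := by gcongr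
        _ = (1 + s / 2) ^ 2 * ((‖a‖ + ‖b‖) ^ s * ‖a - b‖ ^ 2) := by
            rw [mul_pow, mul_pow, hsq]
            ring
        _ ≤ (1 + s / 2) ^ 2 * (2 * 2 ^ s * (conj (pw s a - pw s b) * (a - b)).re) := by gcongr
        _ = _ := by rw [hC1]; ring
    refine h1.trans ?_
    gcongr
    linarith
  · have h1 : ‖pw s a - pw s b‖ ≤
        C2 * (‖a‖ + ‖b‖) ^ (s / 2) * ‖pw (s / 2) a - pw (s / 2) b‖ := by
      calc ‖pw s a - pw s b‖ ≤ (1 + s) * (‖a‖ + ‖b‖) ^ s * ‖a - b‖ := u2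
        _ = (1 + s) * (‖a‖ + ‖b‖) ^ (s / 2) * ((‖a‖ + ‖b‖) ^ (s / 2) * ‖a - b‖) := by
            rw [← hsq]
            ring
        _ ≤ (1 + s) * (‖a‖ + ‖b‖) ^ (s / 2) *
            (2 * 2 ^ (s / 2) * ‖pw (s / 2) a - pw (s / 2) b‖) := by gcongr
        _ = _ := by rw [hC2]; ring
    refine h1.trans ?_
    gcongr
    linarith
  · have h13 : 1 + s ≤ C1 + C2 + (1 + s) + C4 := by linarith
    exact u2.trans (mul_le_mul_of_nonneg_right (mul_le_mul_of_nonneg_right h13 hNs)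
      (norm_nonneg _))
  · have l2' : (‖a‖ + ‖b‖) ^ s * ‖a - b‖ ≤ C4 * ‖pw s a - pw s b‖ := l2
    refine l2'.trans ?_
    gcongr
    linarith
  · have h1 : ‖a - b‖ ^ (p - 1) = ‖a - b‖ ^ s * ‖a - b‖ := by
      rw [← Real.rpow_add_one' (norm_nonneg _) (by linarith)]
      congr 1
      linarith
    rw [h1]
    calc ‖a - b‖ ^ s * ‖a - b‖ ≤ (‖a‖ + ‖b‖) ^ s * ‖a - b‖ := by
          gcongr
          exact norm_sub_le a b
      _ ≤ C4 * ‖pw s a - pw s b‖ := l2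
      _ ≤ _ := by
          gcongr
          linarith

end Pool.Agent.W597.PHAlg
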