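import Pool.Agent.W796.PH.Defs
import Pool.Agent.Helper366.IV.Stokes

/-!
# Chain rule for smooth maps with bounded derivative (PH-CHAIN)
-/

set_option autoImplicit false

open MeasureTheory Metric Set Filter Topology Complex
open scoped ENNReal ContDiff

namespace Pool.Agent.W597.PHChain

open Pool.Agent.W796.PH Pool.Agent.Helper366.IV

/-- dominated convergence in `L²` -/
theorem dct2 {μ : Measure ℂ} {F : ℕ → ℂ → ℂ} {g : ℂ → ℂ} (hF : ∀ n, AEStronglyMeasurable (F n) μ)
    (hg : MemLp g 2 μ) (C : ℝ) (hb : ∀ n z, ‖F n z‖ ≤ C * ‖g z‖)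
    (hl : ∀ᵐ z ∂μ, Tendsto (fun n => F n z) atTop (𝓝 0)) :
    Tendsto (fun n => eLpNorm (F n) 2 μ) atTop (𝓝 0) := by
  have hC : MemLp (fun z => C • g z) 2 μ := hg.const_smul C
  have h1 : Tendsto (fun n => ∫⁻ z, ‖F n z‖ₑ ^ (2 : ℝ) ∂μ) atTop
      (𝓝 (∫⁻ _, (0 : ℝ≥0∞) ∂μ)) := by
    refine tendsto_lintegral_of_dominated_convergence' (fun z => ‖C • g z‖ₑ ^ (2 : ℝ))
      (fun n => (hF n).enorm.pow_const _) (fun n => ?_) ?_ ?_
    · refine Eventually.of_forall fun z => ?_
      have h2 : ‖F n z‖ ≤ ‖C • g z‖ := by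
        rw [norm_smul]
        exact (hb n z).trans (mul_le_mul_of_nonneg_right (le_abs_self C) (norm_nonneg _))
      have h3 : ‖F n z‖ₑ ≤ ‖C • g z‖ₑ := enorm_le_iff_norm_le.2 h2
      exact ENNReal.rpow_le_rpow h3 (by norm_num)
    · have := hC.2
      rw [eLpNorm_lt_top_iff_lintegral_rpow_enorm_lt_top (by norm_num) (by norm_num)] at this
      simpa using this.ne
    · filter_upwards [hl] with z hz
      have h4 : Tendsto (fun n => ‖F n z‖ₑ) atTop (𝓝 0) := by
        have := hz.enorm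
        simpa using this
      have h5 := h4.ennrpow_const (2 : ℝ)
      simpa using h5
  rw [lintegral_zero] at h1
  have h2 : ∀ n, eLpNorm (F n) 2 μ = (∫⁻ z, ‖F n z‖ₑ ^ (2 : ℝ) ∂μ) ^ (1 / 2 : ℝ) := by
    intro n
    rw [eLpNorm_eq_lintegral_rpow_enorm_toReal (by norm_num) (by norm_num)]
    simp
  simp only [h2]
  have h3 := h1.ennrpow_const (1 / 2 : ℝ)
  rwa [ENNReal.zero_rpow_of_pos (by norm_num)] at h3

theorem meas_D {μ : Measure ℂ} {Θ : ℂ → ℂ} (hΘ : ContDiff ℝ ∞ Θ) {q w : ℂ → ℂ}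
    (hq : AEStronglyMeasurable q μ) (hw : AEStronglyMeasurable w μ) :
    AEStronglyMeasurable (fun z => fderiv ℝ Θ (q z) (w z)) μ := by
  have hc : Continuous (fun p : ℂ × ℂ => fderiv ℝ Θ p.1 p.2) :=
    ((hΘ.continuous_fderiv (by simp)).comp continuous_fst).clm_apply continuous_snd
  exact hc.comp_aestronglyMeasurable (hq.prodMk hw)

theorem mem_D {μ : Measure ℂ} {Θ : ℂ → ℂ} (hΘ : ContDiff ℝ ∞ Θ) {C : ℝ}
    (hC : ∀ v, ‖fderiv ℝ Θ v‖ ≤ C) {q w : ℂ → ℂ}
    (hq : AEStronglyMeasurable q μ) (hw : MemLp w 2 μ) :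
    MemLp (fun z => fderiv ℝ Θ (q z) (w z)) 2 μ :=
  MemLp.of_le_mul (c := C) hw (meas_D hΘ hq hw.1) (Eventually.of_forall fun z =>
    ((fderiv ℝ Θ (q z)).le_opNorm (w z)).trans
      (mul_le_mul_of_nonneg_right (hC _) (norm_nonneg _)))

theorem lip {Θ : ℂ → ℂ} (hΘ : ContDiff ℝ ∞ Θ) {C : ℝ} (hC : ∀ v, ‖fderiv ℝ Θ v‖ ≤ C) (v w : ℂ) :
    ‖Θ v - Θ w‖ ≤ C * ‖v - w‖ :=
  Convex.norm_image_sub_le_of_norm_fderiv_le (𝕜 := ℝ)
    (fun x _ => hΘ.differentiable (by simp) x) (fun x _ => hC x) convex_univ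
    (mem_univ w) (mem_univ v)

theorem main : S_Chain := by
  intro U q qx qy hU h Θ C hΘ hC
  refine ⟨fun K hK hKU => ?_, fun K hK hKU => mem_D hΘ hC (h.mem K hK hKU).1 (h.memx K hK hKU),
    fun K hK hKU => mem_D hΘ hC (h.mem K hK hKU).1 (h.memy K hK hKU), fun K hK hKU => ?_⟩
  · have hfin := j1865_fin hK
    have h1 := h.mem K hK hKU
    have h2 : MemLp (fun z => Θ (q z) - Θ 0) 2 (volume.restrict K) := by
      refine MemLp.of_le_mul (c := C) h1
        ((hΘ.continuous.comp_aestronglyMeasurable h1.1).sub aestronglyMeasurable_const)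
        (Eventually.of_forall fun z => ?_)
      simpa using lip hΘ hC (q z) 0
    have h3 := h2.add (memLp_const (Θ 0) (p := 2) (μ := volume.restrict K))
    refine (memLp_congr_ae (Eventually.of_forall fun z => ?_)).1 h3
    simp
  · obtain ⟨Q, hQ, h0, hx, hy⟩ := h.approx K hK hKU
    have hq := (h.mem K hK hKU).1
    have hQm : ∀ n, AEStronglyMeasurable (Q n) (volume.restrict K) := fun n =>
      (hQ n).continuous.aestronglyMeasurable
    obtain ⟨s, hs, hae⟩ := (tendstoInMeasure_of_tendsto_eLpNorm (two_ne_zero) hQm hq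
      h0).exists_seq_tendsto_ae
    have hst := hs.tendsto_atTop
    have hder : ∀ n z v, fderiv ℝ (fun z => Θ (Q n z)) z v = fderiv ℝ Θ (Q n z) (fderiv ℝ (Q n) z v) := by
      intro n z v
      have := fderiv_comp z (g := Θ) (f := Q n) (hΘ.differentiable (by simp) _)
        ((hQ n).differentiable (by simp) z)
      have e : (fun z => Θ (Q n z)) = Θ ∘ Q n := rfl
      rw [e, this]
      rfl
    -- convergence of the derivatives
    have key : ∀ (v : ℂ) (qv : ℂ → ℂ), MemLp qv 2 (volume.restrict K) →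
        Tendsto (fun n => eLpNorm (fun z => fderiv ℝ (Q n) z v - qv z) 2 (volume.restrict K))
          atTop (𝓝 0) →
        Tendsto (fun n => eLpNorm (fun z => fderiv ℝ (fun z => Θ (Q (s n) z)) z v -
          fderiv ℝ Θ (q z) (qv z)) 2 (volume.restrict K)) atTop (𝓝 0) := by
      intro v qv hqv hlim
      have hQd : ∀ n, Continuous (fun z => fderiv ℝ (Q n) z v) := fun n =>
        ((hQ n).continuous_fderiv (by simp)).clm_apply continuous_const
      have l1 : Tendsto (fun n => eLpNorm (fun z => fderiv ℝ Θ (Q (s n) z)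
          (fderiv ℝ (Q (s n)) z v - qv z)) 2 (volume.restrict K)) atTop (𝓝 0) := by
        have hb : ∀ n, eLpNorm (fun z => fderiv ℝ Θ (Q (s n) z)
            (fderiv ℝ (Q (s n)) z v - qv z)) 2 (volume.restrict K) ≤
            ENNReal.ofReal C * eLpNorm (fun z => fderiv ℝ (Q (s n)) z v - qv z) 2
              (volume.restrict K) := by
          intro n
          apply eLpNorm_le_mul_eLpNorm_of_ae_le_mul
          exact Eventually.of_forall fun z => ((fderiv ℝ Θ (Q (s n) z)).le_opNorm _).trans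
            (mul_le_mul_of_nonneg_right (hC _) (norm_nonneg _))
        have hl := ENNReal.Tendsto.const_mul (a := ENNReal.ofReal C) (hlim.comp hst)
          (Or.inr ENNReal.ofReal_ne_top)
        rw [mul_zero] at hl
        exact tendsto_of_tendsto_of_tendsto_of_le_of_le tendsto_const_nhds hl
          (fun n => zero_le) hb
      have l2 : Tendsto (fun n => eLpNorm (fun z => fderiv ℝ Θ (Q (s n) z) (qv z) -
          fderiv ℝ Θ (q z) (qv z)) 2 (volume.restrict K)) atTop (𝓝 0) := by
        refine dct2 (g := qv) (fun n => (meas_D hΘ (hQm (s n)) hqv.1).sub (meas_D hΘ hq hqv.1))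
          hqv (C + C) (fun n z => ?_) ?_
        · refine (norm_sub_le _ _).trans ?_
          rw [add_mul]
          exact add_le_add (((fderiv ℝ Θ (Q (s n) z)).le_opNorm _).trans
            (mul_le_mul_of_nonneg_right (hC _) (norm_nonneg _)))
            (((fderiv ℝ Θ (q z)).le_opNorm _).trans
            (mul_le_mul_of_nonneg_right (hC _) (norm_nonneg _)))
        · filter_upwards [hae] with z hz
          have hc : Continuous (fun w : ℂ => fderiv ℝ Θ w (qv z)) :=
            (hΘ.continuous_fderiv (by simp)).clm_apply continuous_const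
          have := ((hc.tendsto (q z)).comp hz).sub_const (fderiv ℝ Θ (q z) (qv z))
          rwa [sub_self] at this
      have l3 := l1.add l2
      rw [add_zero] at l3
      refine tendsto_of_tendsto_of_tendsto_of_le_of_le tendsto_const_nhds l3 (fun n => zero_le)
        fun n => ?_
      have e : (fun z => fderiv ℝ (fun z => Θ (Q (s n) z)) z v - fderiv ℝ Θ (q z) (qv z)) =
          (fun z => fderiv ℝ Θ (Q (s n) z) (fderiv ℝ (Q (s n)) z v - qv z)) +
          fun z => fderiv ℝ Θ (Q (s n) z) (qv z) - fderiv ℝ Θ (q z) (qv z) := by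
        funext z
        rw [Pi.add_apply, hder, map_sub]
        ring
      rw [e]
      exact eLpNorm_add_le (meas_D hΘ (hQm (s n))
        ((hQd (s n)).aestronglyMeasurable.sub hqv.1))
        ((meas_D hΘ (hQm (s n)) hqv.1).sub (meas_D hΘ hq hqv.1)) (by norm_num)
    refine ⟨fun n z => Θ (Q (s n) z), fun n => hΘ.comp (hQ (s n)), ?_,
      key 1 qx (h.memx K hK hKU) hx, key I qy (h.memy K hK hKU) hy⟩
    have hb : ∀ n, eLpNorm (fun z => Θ (Q (s n) z) - Θ (q z)) 2 (volume.restrict K) ≤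
        ENNReal.ofReal C * eLpNorm (fun z => Q (s n) z - q z) 2 (volume.restrict K) := by
      intro n
      apply eLpNorm_le_mul_eLpNorm_of_ae_le_mul
      exact Eventually.of_forall fun z => lip hΘ hC _ _
    have hl := ENNReal.Tendsto.const_mul (a := ENNReal.ofReal C) (h0.comp hst)
      (Or.inr ENNReal.ofReal_ne_top)
    rw [mul_zero] at hl
    exact tendsto_of_tendsto_of_tendsto_of_le_of_le tendsto_const_nhds hl (fun n => zero_le) hb

end Pool.Agent.W597.PHChain
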