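import Pool.Agent.W796.PH.Defs
import Pool.Agent.Helper366.IV.Stokes
import Pool.Agent.W597.PHChain

/-!
# Morrey's lemma (PH-HOLD)
-/

set_option autoImplicit false

open MeasureTheory Metric Set Filter Topology Complex
open scoped ENNReal ContDiff NNReal

namespace Pool.Agent.W597.PHHold

open Pool.Agent.W796.PH Pool.Agent.Helper366.IV

theorem vol_cb (y : ℂ) {t : ℝ} (ht : 0 ≤ t) : volume.real (closedBall y t) = Real.pi * t ^ 2 := by
  rw [measureReal_def, Complex.volume_closedBall, ENNReal.toReal_mul, ENNReal.toReal_pow,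
    ENNReal.toReal_ofReal ht]
  simp [mul_comm]

/-- change of variables -/
theorem cov {E : Type*} [NormedAddCommGroup E] [NormedSpace ℝ E] (F : ℂ → E) (y : ℂ) {t : ℝ}
    (ht : 0 < t) :
    ∫ w in closedBall (0 : ℂ) 1, F (y + t • w) = (t ^ 2)⁻¹ • ∫ w in closedBall y t, F w := by
  have h1 := Measure.setIntegral_comp_smul_of_pos (volume : Measure ℂ) (fun w => F (y + w))
    (closedBall 0 1) ht
  rw [h1, Complex.finrank_real_complex, _root_.smul_closedBall _ _ zero_le_one, smul_zero,
    Real.norm_of_nonneg ht.le, mul_one]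
  congr 1
  have h2 : ∫ w in closedBall y t, F w = ∫ w, (closedBall y t).indicator F w :=
    (integral_indicator isClosed_closedBall.measurableSet).symm
  have h3 : ∫ w in closedBall (0 : ℂ) t, F (y + w) =
      ∫ w, (closedBall y t).indicator F (y + w) := by
    rw [← integral_indicator isClosed_closedBall.measurableSet]
    refine integral_congr_ae (Eventually.of_forall fun w => ?_)
    simp only [indicator, mem_closedBall, dist_zero_right, dist_self_add_left]
  rw [h2, h3, integral_add_left_eq_self (fun w => (closedBall y t).indicator F w)]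

theorem cb_sub {y : ℂ} {s t : ℝ} (h : s ≤ t) : closedBall y s ⊆ closedBall y t :=
  closedBall_subset_closedBall h

/-- mean over a closed ball -/
noncomputable def mn (q : ℂ → ℂ) (y : ℂ) (r : ℝ) : ℂ :=
  (Real.pi * r ^ 2)⁻¹ • ∫ w in closedBall y r, q w

/-- the sum of the norms of the partial derivatives -/
noncomputable def gn (Q : ℂ → ℂ) (z : ℂ) : ℝ := ‖fderiv ℝ Q z 1‖ + ‖fderiv ℝ Q z I‖

theorem gn_cont {Q : ℂ → ℂ} (hQ : ContDiff ℝ ∞ Q) : Continuous (gn Q) := by
  have h : ∀ v : ℂ, Continuous (fun z => fderiv ℝ Q z v) := fun v =>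
    (hQ.continuous_fderiv (by simp)).clm_apply continuous_const
  exact (h 1).norm.add (h I).norm

theorem norm_fd_le (Q : ℂ → ℂ) (z w : ℂ) (hw : ‖w‖ ≤ 1) : ‖fderiv ℝ Q z w‖ ≤ gn Q z := by
  have e : fderiv ℝ Q z w = w.re • fderiv ℝ Q z 1 + w.im • fderiv ℝ Q z I := by
    conv_lhs => rw [← Complex.re_add_im w]
    have e1 : ((w.re : ℝ) : ℂ) = w.re • (1 : ℂ) := by simp
    have e2 : ((w.im : ℝ) : ℂ) * I = w.im • I := by simp
    rw [e1, e2, map_add, map_smul, map_smul]
  rw [e]
  refine (norm_add_le _ _).trans ?_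
  rw [norm_smul, norm_smul]
  have h1 : ‖w.re‖ ≤ 1 := (Complex.abs_re_le_norm w).trans hw
  have h2 : ‖w.im‖ ≤ 1 := (Complex.abs_im_le_norm w).trans hw
  unfold gn
  have := norm_nonneg (fderiv ℝ Q z 1)
  have := norm_nonneg (fderiv ℝ Q z I)
  nlinarith

/-- comparison of means, smooth maps -/
theorem mean_smooth {Q : ℂ → ℂ} (hQ : ContDiff ℝ ∞ Q) (y : ℂ) {r : ℝ} (hr : 0 < r) :
    ‖mn Q y (r / 2) - mn Q y r‖ ≤ 2 / (Real.pi * r) * ∫ w in closedBall y r, gn Q w := by
  have hQc := hQ.continuous
  have hgc := gn_cont hQ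
  have hmn : ∀ t : ℝ, 0 < t → mn Q y t = (Real.pi)⁻¹ • ∫ w in closedBall (0 : ℂ) 1, Q (y + t • w) := by
    intro t ht
    rw [cov Q y ht, mn, smul_smul, mul_inv]
  have hr2 : 0 < r / 2 := by linarith
  have hB : IsCompact (closedBall (0 : ℂ) 1) := isCompact_closedBall _ _
  have hi : ∀ t : ℝ, IntegrableOn (fun w => Q (y + t • w)) (closedBall (0 : ℂ) 1) := fun t =>
    (by fun_prop : Continuous fun w : ℂ => Q (y + t • w)).continuousOn.integrableOn_compact hB
  rw [hmn _ hr2, hmn _ hr, ← smul_sub, ← integral_sub (hi _) (hi _), norm_smul,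
    Real.norm_of_nonneg (inv_nonneg.2 Real.pi_pos.le)]
  -- pointwise estimate
  have hpt : ∀ w ∈ closedBall (0 : ℂ) 1, ‖Q (y + (r / 2) • w) - Q (y + r • w)‖ ≤
      ∫ t in (r / 2)..r, gn Q (y + t • w) := by
    intro w hw
    have hw1 : ‖w‖ ≤ 1 := by simpa using hw
    have hd : ∀ t : ℝ, HasDerivAt (fun t : ℝ => Q (y + t • w)) (fderiv ℝ Q (y + t • w) w) t := by
      intro t
      have h1 : HasDerivAt (fun t : ℝ => y + t • w) w t := by
        have := ((hasDerivAt_id t).smul_const w).const_add y
        simpa using this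
      have h2 : HasFDerivAt Q (fderiv ℝ Q (y + t • w)) (y + t • w) :=
        (hQ.differentiable (by simp) _).hasFDerivAt
      exact h2.comp_hasDerivAt t h1
    have hc : Continuous fun t : ℝ => fderiv ℝ Q (y + t • w) w :=
      ((hQ.continuous_fderiv (by simp)).comp (by fun_prop)).clm_apply continuous_const
    have h3 : ∫ t in (r / 2)..r, fderiv ℝ Q (y + t • w) w = Q (y + r • w) - Q (y + (r / 2) • w) :=
      intervalIntegral.integral_eq_sub_of_hasDerivAt (fun t _ => hd t) (hc.intervalIntegrable _ _)
    rw [norm_sub_rev, ← h3]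
    refine (intervalIntegral.norm_integral_le_integral_norm (by linarith)).trans ?_
    refine intervalIntegral.integral_mono_on (by linarith) (hc.norm.intervalIntegrable _ _)
      ((hgc.comp (by fun_prop : Continuous fun t : ℝ => y + t • w)).intervalIntegrable _ _)
      fun t _ => norm_fd_le Q _ w hw1
  -- integrate
  have hcont : Continuous (Function.uncurry fun (t : ℝ) (w : ℂ) => gn Q (y + t • w)) := by
    have : Continuous fun p : ℝ × ℂ => y + p.1 • p.2 := by fun_prop
    exact hgc.comp this
  have hprod : Integrable (Function.uncurry fun (t : ℝ) (w : ℂ) => gn Q (y + t • w))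
      ((volume.restrict (Set.uIoc (r / 2) r)).prod (volume.restrict (closedBall (0 : ℂ) 1))) := by
    rw [Measure.prod_restrict]
    have h1 : IntegrableOn (Function.uncurry fun (t : ℝ) (w : ℂ) => gn Q (y + t • w))
        (Icc (r / 2) r ×ˢ closedBall (0 : ℂ) 1)
        ((volume : Measure ℝ).prod (volume : Measure ℂ)) :=
      hcont.continuousOn.integrableOn_compact (isCompact_Icc.prod hB)
    refine h1.mono_set (prod_mono ?_ Subset.rfl)
    rw [uIoc_of_le (by linarith)]
    exact Ioc_subset_Icc_self
  have hsw := intervalIntegral_integral_swap hprod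
  have hF : ∀ t ∈ Icc (r / 2) r, ∫ w in closedBall (0 : ℂ) 1, gn Q (y + t • w) ≤
      4 / r ^ 2 * ∫ w in closedBall y r, gn Q w := by
    intro t ht
    have ht0 : 0 < t := hr2.trans_le ht.1
    rw [cov (gn Q) y ht0, smul_eq_mul]
    have h1 : ∫ w in closedBall y t, gn Q w ≤ ∫ w in closedBall y r, gn Q w := by
      refine setIntegral_mono_set
        (hgc.continuousOn.integrableOn_compact (isCompact_closedBall _ _))
        (Eventually.of_forall fun w => ?_) (cb_sub ht.2).eventuallyLE
      exact add_nonneg (norm_nonneg _) (norm_nonneg _)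
    have h2 : (t ^ 2)⁻¹ ≤ 4 / r ^ 2 := by
      rw [inv_eq_one_div, div_le_div_iff₀ (by positivity) (by positivity)]
      nlinarith [ht.1]
    have h3 : 0 ≤ ∫ w in closedBall y t, gn Q w :=
      integral_nonneg fun w => add_nonneg (norm_nonneg _) (norm_nonneg _)
    exact mul_le_mul h2 h1 h3 (by positivity)
  have hc1 : Continuous fun w : ℂ => ‖Q (y + (r / 2) • w) - Q (y + r • w)‖ := by fun_prop
  have hfinal : ‖∫ w in closedBall (0 : ℂ) 1, (Q (y + (r / 2) • w) - Q (y + r • w))‖ ≤
      2 / r * ∫ w in closedBall y r, gn Q w := by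
    calc ‖∫ w in closedBall (0 : ℂ) 1, (Q (y + (r / 2) • w) - Q (y + r • w))‖
        ≤ ∫ w in closedBall (0 : ℂ) 1, ‖Q (y + (r / 2) • w) - Q (y + r • w)‖ :=
          norm_integral_le_integral_norm _
      _ ≤ ∫ w in closedBall (0 : ℂ) 1, ∫ t in (r / 2)..r, gn Q (y + t • w) := by
          refine setIntegral_mono_on (hc1.continuousOn.integrableOn_compact hB) ?_
            isClosed_closedBall.measurableSet hpt
          have := hprod.integral_prod_right
          refine this.congr (Eventually.of_forall fun w => ?_)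
          simp only [Function.uncurry]
          rw [intervalIntegral.integral_of_le (by linarith), uIoc_of_le (by linarith)]
      _ = ∫ t in (r / 2)..r, ∫ w in closedBall (0 : ℂ) 1, gn Q (y + t • w) := hsw.symm
      _ ≤ ∫ t in (r / 2)..r, 4 / r ^ 2 * ∫ w in closedBall y r, gn Q w := by
          refine intervalIntegral.integral_mono_on (by linarith) ?_ intervalIntegrable_const hF
          rw [intervalIntegrable_iff]
          exact hprod.integral_prod_left
      _ = 2 / r * ∫ w in closedBall y r, gn Q w := by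
          rw [intervalIntegral.integral_const, smul_eq_mul]
          field_simp
          ring
  calc Real.pi⁻¹ * ‖∫ w in closedBall (0 : ℂ) 1, (Q (y + (r / 2) • w) - Q (y + r • w))‖
      ≤ Real.pi⁻¹ * (2 / r * ∫ w in closedBall y r, gn Q w) := by gcongr
    _ = _ := by
        rw [← mul_assoc]
        congr 1
        field_simp

/-- comparison of means, strong class -/
theorem mean_SW {U : Set ℂ} {q qx qy : ℂ → ℂ} (h : SW U q qx qy) {y : ℂ} {r : ℝ} (hr : 0 < r)
    (hyU : closedBall y r ⊆ U) :
    ‖mn q y (r / 2) - mn q y r‖ ≤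
      2 / (Real.pi * r) * ∫ w in closedBall y r, (‖qx w‖ + ‖qy w‖) := by
  have hK : IsCompact (closedBall y r) := isCompact_closedBall _ _
  have hfin := j1865_fin hK
  obtain ⟨Q, hQ, h0, hx, hy⟩ := h.approx _ hK hyU
  have hm := h.mem _ hK hyU
  have hmx := h.memx _ hK hyU
  have hmy := h.memy _ hK hyU
  have hd : ∀ (v : ℂ) n, Continuous (fun z => fderiv ℝ (Q n) z v) := fun v n =>
    ((hQ n).continuous_fderiv (by simp)).clm_apply continuous_const
  have lim1 : ∀ t : ℝ, t ≤ r → Tendsto (fun n => mn (Q n) y t) atTop (𝓝 (mn q y t)) := by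
    intro t ht
    have hS : IsCompact (closedBall y t) := isCompact_closedBall _ _
    have hfS := j1865_fin hS
    have hsub : closedBall y t ⊆ closedBall y r := cb_sub ht
    have h0S : Tendsto (fun n => eLpNorm (fun z => Q n z - q z) 2
        (volume.restrict (closedBall y t))) atTop (𝓝 0) :=
      tendsto_of_tendsto_of_tendsto_of_le_of_le tendsto_const_nhds h0 (fun _ => zero_le)
        fun n => eLpNorm_mono_measure _ (Measure.restrict_mono_set _ hsub)
    have hqS : MemLp q 2 (volume.restrict (closedBall y t)) :=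
      hm.mono_measure (Measure.restrict_mono_set _ hsub)
    have l := j1865_T2mul (G := fun _ _ => (1 : ℂ)) (g := fun _ => (1 : ℂ)) hqS (memLp_const 1)
      (fun n => j1865_mem hS (hQ n).continuous.continuousOn) (fun _ => memLp_const 1) h0S
      (by simp)
    simp only [mul_one] at l
    exact l.const_smul _
  have lim2 : Tendsto (fun n => ∫ w in closedBall y r, gn (Q n) w) atTop
      (𝓝 (∫ w in closedBall y r, (‖qx w‖ + ‖qy w‖))) := by
    have key : ∀ (v : ℂ) (qv : ℂ → ℂ), MemLp qv 2 (volume.restrict (closedBall y r)) →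
        Tendsto (fun n => eLpNorm (fun z => fderiv ℝ (Q n) z v - qv z) 2
          (volume.restrict (closedBall y r))) atTop (𝓝 0) →
        Tendsto (fun n => ∫ w in closedBall y r, ‖fderiv ℝ (Q n) w v‖) atTop
          (𝓝 (∫ w in closedBall y r, ‖qv w‖)) := by
      intro v qv hqv hlim
      have h1 : Tendsto (fun n => eLpNorm (fun z => ‖fderiv ℝ (Q n) z v‖ - ‖qv z‖) 2
          (volume.restrict (closedBall y r))) atTop (𝓝 0) :=
        j1865_le hlim fun n z => abs_norm_sub_norm_le _ _
      have l := j1865_T2mul (G := fun _ _ => (1 : ℝ)) (g := fun _ => (1 : ℝ)) hqv.norm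
        (memLp_const 1) (fun n => (j1865_mem hK (hd v n).continuousOn).norm)
        (fun _ => memLp_const 1) h1 (by simp)
      simpa only [mul_one] using l
    have l := (key 1 qx hmx hx).add (key I qy hmy hy)
    rw [← integral_add (hmx.integrable (by norm_num)).norm (hmy.integrable (by norm_num)).norm] at l
    refine l.congr fun n => ?_
    rw [← integral_add]
    · rfl
    · exact (hd 1 n).norm.continuousOn.integrableOn_compact hK
    · exact (hd I n).norm.continuousOn.integrableOn_compact hK
  have hl := ((lim1 (r / 2) (by linarith)).sub (lim1 r le_rfl)).norm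
  exact le_of_tendsto_of_tendsto' hl (lim2.const_mul _) fun n => mean_smooth (hQ n) y hr

theorem cb_ae (y : ℂ) {r : ℝ} (hr : 0 < r) : (closedBall y r : Set ℂ) =ᵐ[volume] ball y r :=
  (ae_eq_of_subset_of_measure_ge ball_subset_closedBall
    (by rw [Measure.addHaar_closedBall_eq_addHaar_ball]) measurableSet_ball.nullMeasurableSet
    (isCompact_closedBall y r).measure_lt_top.ne).symm

/-- the estimate with the growth of the Dirichlet integral -/
theorem mean_growth {U : Set ℂ} {q qx qy : ℂ → ℂ} (h : SW U q qx qy) {y : ℂ} {r α M : ℝ}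
    (hr : 0 < r) (hyU : closedBall y r ⊆ U) (hD : Dir qx qy y r ≤ M * r ^ (2 * α)) :
    ‖mn q y (r / 2) - mn q y r‖ ≤ (2 / Real.pi * (Real.pi + M / 2)) * r ^ α := by
  have hK : IsCompact (closedBall y r) := isCompact_closedBall _ _
  have hfin := j1865_fin hK
  have hmx := h.memx _ hK hyU
  have hmy := h.memy _ hK hyU
  have ix := (memLp_two_iff_integrable_sq_norm hmx.1).1 hmx
  have iy := (memLp_two_iff_integrable_sq_norm hmy.1).1 hmy
  set l : ℝ := r ^ (α - 1) with hl
  have hl0 : 0 < l := Real.rpow_pos_of_pos hr _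
  have hrα : 0 < r ^ α := Real.rpow_pos_of_pos hr _
  have hlr : l * r = r ^ α := by
    rw [hl, ← Real.rpow_add_one hr.ne']
    congr 1
    ring
  have h1 : ∫ w in closedBall y r, (‖qx w‖ + ‖qy w‖) ≤
      ∫ w in closedBall y r, (l + (‖qx w‖ ^ 2 + ‖qy w‖ ^ 2) * (1 / (2 * l))) := by
    refine integral_mono ((hmx.integrable (by norm_num)).norm.add
      (hmy.integrable (by norm_num)).norm) ((integrable_const l).add ((ix.add iy).mul_const _))
      fun w => ?_
    have e : l + (‖qx w‖ ^ 2 + ‖qy w‖ ^ 2) * (1 / (2 * l)) - (‖qx w‖ + ‖qy w‖) =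
        ((‖qx w‖ - l) ^ 2 + (‖qy w‖ - l) ^ 2) * (1 / (2 * l)) := by
      field_simp
      ring
    have : 0 ≤ ((‖qx w‖ - l) ^ 2 + (‖qy w‖ - l) ^ 2) * (1 / (2 * l)) := by positivity
    change ‖qx w‖ + ‖qy w‖ ≤ l + (‖qx w‖ ^ 2 + ‖qy w‖ ^ 2) * (1 / (2 * l))
    linarith
  have h2 : ∫ w in closedBall y r, (l + (‖qx w‖ ^ 2 + ‖qy w‖ ^ 2) * (1 / (2 * l))) =
      l * (Real.pi * r ^ 2) + Dir qx qy y r * (1 / (2 * l)) := by
    have i2 : Integrable (fun w => (‖qx w‖ ^ 2 + ‖qy w‖ ^ 2) * (1 / (2 * l)))
        (volume.restrict (closedBall y r)) := (ix.add iy).mul_const _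
    rw [integral_add (integrable_const l) i2, integral_mul_const, integral_const, smul_eq_mul,
      measureReal_restrict_apply_univ, vol_cb y hr.le, Dir,
      setIntegral_congr_set (cb_ae y hr)]
    ring
  have h3 : Dir qx qy y r * (1 / (2 * l)) ≤ M / 2 * (r * r ^ α) := by
    have e : r ^ (2 * α) = r ^ α * r ^ α := by
      rw [← Real.rpow_add hr]
      congr 1
      ring
    calc Dir qx qy y r * (1 / (2 * l)) ≤ (M * r ^ (2 * α)) * (1 / (2 * l)) := by gcongr
      _ = M / 2 * (r * r ^ α) := by
          rw [e, ← hlr]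
          field_simp
  have h4 := mean_SW h hr hyU
  have h5 : ∫ w in closedBall y r, (‖qx w‖ + ‖qy w‖) ≤ (Real.pi + M / 2) * (r * r ^ α) := by
    refine h1.trans ?_
    rw [h2]
    have : l * (Real.pi * r ^ 2) = Real.pi * (r * r ^ α) := by
      rw [← hlr]; ring
    rw [this]
    linarith
  calc ‖mn q y (r / 2) - mn q y r‖ ≤
      2 / (Real.pi * r) * ∫ w in closedBall y r, (‖qx w‖ + ‖qy w‖) := h4
    _ ≤ 2 / (Real.pi * r) * ((Real.pi + M / 2) * (r * r ^ α)) := by
        have := Real.pi_pos
        gcongr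
    _ = _ := by
        have := Real.pi_pos
        field_simp

theorem main : S_Hold := by
  intro c R ρ s α M q qx qy h hρ hs hρs hα hM hD
  set K₀ : Set ℂ := closedBall c (ρ + s) with hK₀
  have hKc : IsCompact K₀ := isCompact_closedBall _ _
  have hfin := j1865_fin hKc
  have hKU : K₀ ⊆ ball c R := closedBall_subset_ball hρs
  set qt : ℂ → ℂ := K₀.indicator q with hqt
  have hqi : Integrable qt := by
    rw [hqt, integrable_indicator_iff hKc.measurableSet]
    exact (h.mem _ hKc hKU).integrable (by norm_num)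
  set rk : ℕ → ℝ := fun k => s * (1 / 2) ^ k with hrk
  have rk_pos : ∀ k, 0 < rk k := fun k => by simp only [hrk]; positivity
  have rk_le : ∀ k, rk k ≤ s := fun k => by
    simp only [hrk]
    have : (1 / 2 : ℝ) ^ k ≤ 1 := pow_le_one₀ (by norm_num) (by norm_num)
    nlinarith
  have rk_succ : ∀ k, rk (k + 1) = rk k / 2 := fun k => by
    simp only [hrk, pow_succ]
    ring
  have hsub : ∀ y ∈ ball c ρ, ∀ k, closedBall y (rk k) ⊆ K₀ := by
    intro y hy k z hz
    rw [hK₀, mem_closedBall]
    rw [mem_closedBall] at hz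
    rw [mem_ball] at hy
    have := dist_triangle z y c
    have := rk_le k
    linarith
  set m : ℕ → ℂ → ℂ := fun k y => mn q y (rk k) with hm
  -- geometric estimate
  set C : ℝ := 2 / Real.pi * (Real.pi + M / 2) with hC
  set θ : ℝ := (1 / 2 : ℝ) ^ α with hθ
  have hθ1 : θ < 1 := Real.rpow_lt_one (by norm_num) (by norm_num) hα
  have hθ0 : 0 < θ := Real.rpow_pos_of_pos (by norm_num) _
  have hrkα : ∀ k, rk k ^ α = s ^ α * θ ^ k := by
    intro k
    simp only [hrk, hθ]
    rw [Real.mul_rpow hs.le (by positivity), ← Real.rpow_natCast, ← Real.rpow_natCast,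
      ← Real.rpow_mul (by norm_num), ← Real.rpow_mul (by norm_num), mul_comm (k : ℝ)]
  have hgeo : ∀ y ∈ ball c ρ, ∀ k, dist (m k y) (m (k + 1) y) ≤ C * s ^ α * θ ^ k := by
    intro y hy k
    have h1 := mean_growth h (rk_pos k) ((hsub y hy k).trans hKU)
      (hD y hy (rk k) (rk_pos k) (rk_le k))
    rw [dist_comm, dist_eq_norm]
    simp only [hm, rk_succ]
    rw [hrkα, ← mul_assoc] at h1
    exact h1
  have hlimex : ∀ y ∈ ball c ρ, ∃ a, Tendsto (fun k => m k y) atTop (𝓝 a) := fun y hy =>
    cauchySeq_tendsto_of_complete (cauchySeq_of_le_geometric θ (C * s ^ α) hθ1 (hgeo y hy))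
  choose! q' hq' using hlimex
  have hunif : TendstoUniformlyOn m q' atTop (ball c ρ) := by
    rw [Metric.tendstoUniformlyOn_iff]
    intro ε hε
    have h1 : Tendsto (fun k : ℕ => C * s ^ α * θ ^ k / (1 - θ)) atTop (𝓝 0) := by
      have h2 := ((tendsto_pow_atTop_nhds_zero_of_lt_one hθ0.le hθ1).const_mul
        (C * s ^ α)).div_const (1 - θ)
      simpa using h2
    filter_upwards [h1.eventually (gt_mem_nhds hε)] with k hk y hy
    rw [dist_comm]
    exact (dist_le_of_le_geometric_of_tendsto θ (C * s ^ α) hθ1 (hgeo y hy) (hq' y hy) k).trans_lt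
      hk
  -- the means are continuous
  have hcont : ∀ k, ContinuousOn (m k) (ball c ρ) := by
    intro k
    have h1 : Continuous (fun y => ∫ x, (closedBall y (rk k)).indicator qt x) := by
      rw [continuous_iff_continuousAt]
      intro y₀
      refine continuousAt_of_dominated (bound := fun x => ‖qt x‖)
        (Eventually.of_forall fun y => hqi.1.indicator isClosed_closedBall.measurableSet)
        (Eventually.of_forall fun y => Eventually.of_forall fun x => norm_indicator_le_norm_self _ _)
        hqi.norm ?_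
      have hsph : ∀ᵐ x : ℂ, x ∉ sphere y₀ (rk k) :=
        measure_eq_zero_iff_ae_notMem.1 (Measure.addHaar_sphere_of_ne_zero _ _ (rk_pos k).ne')
      filter_upwards [hsph] with x hx
      have hc1 : Continuous fun y : ℂ => dist x y := by fun_prop
      rcases lt_trichotomy (dist x y₀) (rk k) with hlt | heq | hgt
      · have : (fun y => (closedBall y (rk k)).indicator qt x) =ᶠ[𝓝 y₀] fun _ => qt x := by
          filter_upwards [hc1.continuousAt.eventually_lt continuousAt_const hlt] with y hy
          rw [indicator_of_mem (mem_closedBall.2 hy.le)]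
        exact continuousAt_const.congr this.symm
      · exact absurd (mem_sphere.2 heq) hx
      · have : (fun y => (closedBall y (rk k)).indicator qt x) =ᶠ[𝓝 y₀] fun _ => 0 := by
          filter_upwards [continuousAt_const.eventually_lt hc1.continuousAt hgt] with y hy
          rw [indicator_of_notMem (fun hmem => by
            rw [mem_closedBall] at hmem
            linarith)]
        exact continuousAt_const.congr this.symm
    have h2 : ContinuousOn (fun y => (Real.pi * rk k ^ 2)⁻¹ •
        ∫ x, (closedBall y (rk k)).indicator qt x) (ball c ρ) := by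
      have h3 : Continuous (fun y => (Real.pi * rk k ^ 2)⁻¹ •
        ∫ x, (closedBall y (rk k)).indicator qt x) := by
        have h4 := h1.const_smul ((Real.pi * rk k ^ 2)⁻¹)
        exact h4
      exact h3.continuousOn
    refine h2.congr fun y hy => ?_
    simp only [hm, mn]
    rw [integral_indicator isClosed_closedBall.measurableSet]
    congr 1
    refine setIntegral_congr_fun isClosed_closedBall.measurableSet fun x hx => ?_
    rw [hqt, indicator_of_mem (hsub y hy k hx)]
  refine ⟨q', hunif.continuousOn (Eventually.of_forall hcont).frequently, ?_⟩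
  -- Lebesgue differentiation
  have hleb := IsUnifLocDoublingMeasure.ae_tendsto_average (μ := (volume : Measure ℂ))
    hqi.locallyIntegrable 1
  rw [ae_restrict_iff' measurableSet_ball]
  filter_upwards [hleb] with x hx hxb
  have hrlim : Tendsto rk atTop (𝓝[>] 0) := by
    refine tendsto_nhdsWithin_iff.2 ⟨?_, Eventually.of_forall fun k => rk_pos k⟩
    have h2 := (tendsto_pow_atTop_nhds_zero_of_lt_one (r := (1 / 2 : ℝ)) (by norm_num)
      (by norm_num)).const_mul s
    rwa [mul_zero] at h2
  have h1 := hx (fun _ : ℕ => x) rk hrlim (Eventually.of_forall fun k => by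
    rw [one_mul]
    exact mem_closedBall_self (rk_pos k).le)
  have hxK : x ∈ K₀ := by
    rw [hK₀, mem_closedBall]
    rw [mem_ball] at hxb
    linarith
  have hqx : qt x = q x := by rw [hqt, indicator_of_mem hxK]
  rw [hqx] at h1
  have h2 : ∀ k, ⨍ y in closedBall x (rk k), qt y = m k x := by
    intro k
    rw [setAverage_eq, vol_cb x (rk_pos k).le]
    simp only [hm, mn]
    congr 1
    refine setIntegral_congr_fun isClosed_closedBall.measurableSet fun z hz => ?_
    rw [hqt, indicator_of_mem (hsub x hxb k hz)]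
  exact tendsto_nhds_unique (h1.congr h2) (hq' x hxb)

end Pool.Agent.W597.PHHold
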