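import Pool.Agent.W796.PH.Defs

/-!
# Two linear algebra inequalities (PH-QRALG)
-/

set_option autoImplicit false

open Complex
open scoped ComplexConjugate

namespace Pool.Agent.W597.PHQRAlg

open Pool.Agent.W796.PH

theorem fr_re (k : ℝ) (n w : ℂ) :
    (fr k n w).re = w.re + (k - 1) * (n.re * w.re + n.im * w.im) * n.re := by
  simp only [fr, Complex.add_re, Complex.mul_re, Complex.ofReal_re, Complex.ofReal_im,
    Complex.conj_re, Complex.conj_im]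
  ring

theorem fr_im (k : ℝ) (n w : ℂ) :
    (fr k n w).im = w.im + (k - 1) * (n.re * w.re + n.im * w.im) * n.im := by
  simp only [fr, Complex.add_im, Complex.mul_im, Complex.mul_re, Complex.ofReal_re,
    Complex.ofReal_im, Complex.conj_re, Complex.conj_im]
  ring

theorem sq_norm' (z : ℂ) : ‖z‖ ^ 2 = z.re ^ 2 + z.im ^ 2 := by
  rw [Complex.sq_norm, Complex.normSq_apply]
  ring

/-- the final scalar inequality -/
theorem scalar {q m τ x x' : ℝ} (hτ : 0 < τ) (hq : 1 ≤ q) (hm1 : 1 ≤ m) (hmq : m ≤ q) :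
    (m * τ) ^ 2 * (x ^ 2 + x' ^ 2) + ((q * τ * x) ^ 2 + (τ * x') ^ 2) ≤
      (q + 1 / q) * (m * τ * (τ * x' ^ 2 + q * τ * x ^ 2)) := by
  have hq0 : 0 < q := by linarith
  have e : (q + 1 / q) * (m * τ * (τ * x' ^ 2 + q * τ * x ^ 2)) -
      ((m * τ) ^ 2 * (x ^ 2 + x' ^ 2) + ((q * τ * x) ^ 2 + (τ * x') ^ 2)) =
      τ ^ 2 * ((m - 1) * (q ^ 2 - m)) * x ^ 2 + τ ^ 2 * ((q - m) * (m - 1 / q)) * x' ^ 2 := by
    field_simp
    ring
  have h1 : 0 ≤ (m - 1) * (q ^ 2 - m) := mul_nonneg (by linarith) (by nlinarith)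
  have h2 : 1 / q ≤ 1 := by rw [div_le_one hq0]; exact hq
  have h3 : 0 ≤ (q - m) * (m - 1 / q) := mul_nonneg (by linarith) (by linarith)
  have h4 : 0 ≤ τ ^ 2 * ((m - 1) * (q ^ 2 - m)) * x ^ 2 := by positivity
  have h5 : 0 ≤ τ ^ 2 * ((q - m) * (m - 1 / q)) * x' ^ 2 := by positivity
  linarith

theorem main1 : S_QRAlg := by
  intro p hp n a b hn h1 h2 k hk1 hk2
  have hn2 : n.re ^ 2 + n.im ^ 2 = 1 := by rw [← sq_norm', hn]; norm_num
  rw [fr_re, fr_im] at h1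
  rw [fr_im, fr_re] at h2
  rw [sq_norm', sq_norm', fr_re, fr_im, fr_re, fr_im]
  generalize n.re = c at *
  generalize n.im = s at *
  generalize a.re = a1 at *
  generalize a.im = a2 at *
  generalize b.re = b1 at *
  generalize b.im = b2 at *
  -- frame coordinates
  obtain ⟨x, hx⟩ : ∃ x, x = c * (c * a1 + s * a2) + s * (c * b1 + s * b2) := ⟨_, rfl⟩
  obtain ⟨x', hx'⟩ : ∃ x', x' = -s * (c * a1 + s * a2) + c * (c * b1 + s * b2) := ⟨_, rfl⟩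
  obtain ⟨y', hy'⟩ : ∃ y', y' = c * (-s * a1 + c * a2) + s * (-s * b1 + c * b2) := ⟨_, rfl⟩
  obtain ⟨y, hy⟩ : ∃ y, y = -s * (-s * a1 + c * a2) + c * (-s * b1 + c * b2) := ⟨_, rfl⟩
  have ea1 : a1 = c * (c * x - s * x') - s * (c * y' - s * y) := by
    rw [hx, hx', hy, hy']
    linear_combination (-a1 * (c ^ 2 + s ^ 2) - a1) * hn2
  have ea2 : a2 = s * (c * x - s * x') + c * (c * y' - s * y) := by
    rw [hx, hx', hy, hy']
    linear_combination (-a2 * (c ^ 2 + s ^ 2) - a2) * hn2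
  have eb1 : b1 = c * (s * x + c * x') - s * (s * y' + c * y) := by
    rw [hx, hx', hy, hy']
    linear_combination (-b1 * (c ^ 2 + s ^ 2) - b1) * hn2
  have eb2 : b2 = s * (s * x + c * x') + c * (s * y' + c * y) := by
    rw [hx, hx', hy, hy']
    linear_combination (-b2 * (c ^ 2 + s ^ 2) - b2) * hn2
  clear hx hx' hy hy'
  have hp0 : 0 < p := by linarith
  obtain ⟨τ, hτ⟩ : ∃ τ, τ = 2 / p := ⟨_, rfl⟩
  have hτ0 : 0 < τ := by rw [hτ]; positivity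
  obtain ⟨q, hq⟩ : ∃ q, q = p - 1 := ⟨_, rfl⟩
  have hq1 : 1 ≤ q := by linarith
  have hqτ : 2 - 2 / p = q * τ := by rw [hq, hτ]; field_simp
  obtain ⟨m, hm⟩ : ∃ m, m = k / τ := ⟨_, rfl⟩
  have hkm : k = m * τ := by rw [hm]; field_simp
  have hm1 : 1 ≤ m := by
    rw [hm, le_div_iff₀ hτ0, one_mul, hτ]
    exact hk1
  have hmq : m ≤ q := by
    rw [hm, div_le_iff₀ hτ0]
    have : q * τ = 2 - 2 / p := hqτ.symm
    rw [this]
    have : 2 / p ≤ 1 := by rw [div_le_one hp0]; exact hp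
    linarith
  have e1 : q * τ * x + y = 0 := by
    rw [hqτ, ea1, ea2, eb1, eb2] at h1
    linear_combination h1 - ((q * τ - 1) * x * (1 + c ^ 2 + s ^ 2) + x + y) * hn2
  have e2 : y' = τ * x' := by
    rw [← hτ, ea1, ea2, eb1, eb2] at h2
    linear_combination h2 - ((τ - 1) * (-x') * (1 + c ^ 2 + s ^ 2) - x' + y') * hn2
  have ey : y = -(q * τ * x) := by linarith
  clear h1 h2 e1
  -- values of `fr` in the frame
  have f1 : a1 + (k - 1) * (c * a1 + s * a2) * c = c * (k * (c * x - s * x')) -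
      s * (c * y' - s * y) := by
    rw [ea1, ea2]
    linear_combination ((k - 1) * c * (c * x - s * x')) * hn2
  have f2 : a2 + (k - 1) * (c * a1 + s * a2) * s = s * (k * (c * x - s * x')) +
      c * (c * y' - s * y) := by
    rw [ea1, ea2]
    linear_combination ((k - 1) * s * (c * x - s * x')) * hn2
  have f3 : b1 + (k - 1) * (c * b1 + s * b2) * c = c * (k * (s * x + c * x')) -
      s * (s * y' + c * y) := by
    rw [eb1, eb2]
    linear_combination ((k - 1) * c * (s * x + c * x')) * hn2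
  have f4 : b2 + (k - 1) * (c * b1 + s * b2) * s = s * (k * (s * x + c * x')) +
      c * (s * y' + c * y) := by
    rw [eb1, eb2]
    linear_combination ((k - 1) * s * (s * x + c * x')) * hn2
  rw [f1, f2, f3, f4]
  have g1 : (c * (k * (c * x - s * x')) - s * (c * y' - s * y)) ^ 2 +
      (s * (k * (c * x - s * x')) + c * (c * y' - s * y)) ^ 2 +
      ((c * (k * (s * x + c * x')) - s * (s * y' + c * y)) ^ 2 +
      (s * (k * (s * x + c * x')) + c * (s * y' + c * y)) ^ 2) =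
      k ^ 2 * (x ^ 2 + x' ^ 2) + (y ^ 2 + y' ^ 2) := by
    linear_combination ((k ^ 2 * (x ^ 2 + x' ^ 2) + (y ^ 2 + y' ^ 2)) * (c ^ 2 + s ^ 2 + 1)) * hn2
  have g2 : (c * (k * (s * x + c * x')) - s * (s * y' + c * y)) *
      (s * (k * (c * x - s * x')) + c * (c * y' - s * y)) -
      (c * (k * (c * x - s * x')) - s * (c * y' - s * y)) *
      (s * (k * (s * x + c * x')) + c * (s * y' + c * y)) = k * (x' * y' - x * y) := by
    linear_combination (k * (x' * y' - x * y) * (c ^ 2 + s ^ 2 + 1)) * hn2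
  rw [g1, g2, ey, e2, ← hq, hkm]
  have h := scalar (x := x) (x' := x') hτ0 hq1 hm1 hmq
  calc (m * τ) ^ 2 * (x ^ 2 + x' ^ 2) + ((-(q * τ * x)) ^ 2 + (τ * x') ^ 2) =
        (m * τ) ^ 2 * (x ^ 2 + x' ^ 2) + ((q * τ * x) ^ 2 + (τ * x') ^ 2) := by ring
    _ ≤ _ := h
    _ = _ := by ring

/-- Cauchy-Schwarz for a symmetric form -/
theorem form_le (u1 u2 v1 v2 a1 a2 b2 : ℝ) :
    (u1 * (a1 * v1 + a2 * v2) + u2 * (a2 * v1 + b2 * v2)) ^ 2 ≤
      (u1 ^ 2 + u2 ^ 2) * (v1 ^ 2 + v2 ^ 2) * (a1 ^ 2 + 2 * a2 ^ 2 + b2 ^ 2) := by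
  have h1 : (u1 * (a1 * v1 + a2 * v2) + u2 * (a2 * v1 + b2 * v2)) ^ 2 ≤
      (u1 ^ 2 + u2 ^ 2) * ((a1 * v1 + a2 * v2) ^ 2 + (a2 * v1 + b2 * v2) ^ 2) := by
    nlinarith [sq_nonneg (u1 * (a2 * v1 + b2 * v2) - u2 * (a1 * v1 + a2 * v2))]
  have h2 : (a1 * v1 + a2 * v2) ^ 2 + (a2 * v1 + b2 * v2) ^ 2 ≤
      (v1 ^ 2 + v2 ^ 2) * (a1 ^ 2 + 2 * a2 ^ 2 + b2 ^ 2) := by
    nlinarith [sq_nonneg (a1 * v2 - a2 * v1), sq_nonneg (a2 * v2 - b2 * v1)]
  calc _ ≤ _ := h1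
    _ ≤ (u1 ^ 2 + u2 ^ 2) * ((v1 ^ 2 + v2 ^ 2) * (a1 ^ 2 + 2 * a2 ^ 2 + b2 ^ 2)) := by gcongr
    _ = _ := by ring

theorem scal2 {ε : ℝ} (h0 : 0 ≤ ε) (h1 : ε ≤ 1 / 2) :
    1 ≤ ((1 + 4 * ε) + 1 / (1 + 4 * ε)) * ((1 - ε ^ 2) / 2) := by
  rw [← sub_nonneg]
  have hK : 0 < 1 + 4 * ε := by linarith
  have : ((1 + 4 * ε) + 1 / (1 + 4 * ε)) * ((1 - ε ^ 2) / 2) - 1 =
      (ε ^ 2 * (14 - 8 * ε - 16 * ε ^ 2)) / (2 * (1 + 4 * ε)) := by
    field_simp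
    ring
  rw [this]
  have : 0 ≤ 14 - 8 * ε - 16 * ε ^ 2 := by nlinarith
  positivity

theorem main2 : S_NdAlg := by
  intro p hp n m a b hn hm h1 h2 ε hε1 hε2 s T X Y
  have hn2 : n.re ^ 2 + n.im ^ 2 = 1 := by rw [← sq_norm', hn]; norm_num
  have hm2 : m.re ^ 2 + m.im ^ 2 = 1 := by rw [← sq_norm', hm]; norm_num
  have hs : s ^ 2 = p - 1 := Real.sq_sqrt (by linarith)
  have hε0 : 0 ≤ ε := le_trans (by have := norm_nonneg (n - m); nlinarith) hε1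
  have hnm : ‖n - m‖ ^ 2 = (n.re - m.re) ^ 2 + (n.im - m.im) ^ 2 := by
    rw [sq_norm', Complex.sub_re, Complex.sub_im]
  rw [fr_re, fr_im] at h1
  have hXre : X.re = s * (s * (m.re * (m.re * a.re + m.im * b.re) +
      m.im * (m.re * a.im + m.im * b.im))) := by
    simp only [X, T, Complex.sub_re, Complex.mul_re, Complex.ofReal_re, Complex.ofReal_im,
      Complex.conj_re, Complex.conj_im, Complex.I_re, Complex.I_im, Complex.add_re,
      Complex.add_im, Complex.smul_re, Complex.smul_im, smul_eq_mul, Complex.mul_im]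
    ring
  have hXim : X.im = -(s * (m.re * (m.re * a.im + m.im * b.im) -
      m.im * (m.re * a.re + m.im * b.re))) := by
    simp only [X, T, Complex.sub_im, Complex.mul_re, Complex.ofReal_re, Complex.ofReal_im,
      Complex.conj_re, Complex.conj_im, Complex.I_re, Complex.I_im, Complex.add_re,
      Complex.add_im, Complex.smul_re, Complex.smul_im, smul_eq_mul, Complex.mul_im]
    ring
  have hYre : Y.re = s * (m.re * (-m.im * a.re + m.re * b.re) +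
      m.im * (-m.im * a.im + m.re * b.im)) := by
    simp only [Y, T, Complex.sub_re, Complex.mul_re, Complex.ofReal_re, Complex.ofReal_im,
      Complex.conj_re, Complex.conj_im, Complex.I_re, Complex.I_im, Complex.add_re,
      Complex.add_im, Complex.smul_re, Complex.smul_im, smul_eq_mul, Complex.mul_im]
    ring
  have hYim : Y.im = -(m.re * (-m.im * a.im + m.re * b.im) -
      m.im * (-m.im * a.re + m.re * b.re)) := by
    simp only [Y, T, Complex.sub_im, Complex.mul_re, Complex.ofReal_re, Complex.ofReal_im,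
      Complex.conj_re, Complex.conj_im, Complex.I_re, Complex.I_im, Complex.add_re,
      Complex.add_im, Complex.smul_re, Complex.smul_im, smul_eq_mul, Complex.mul_im]
    ring
  rw [sq_norm', sq_norm', hXre, hXim, hYre, hYim]
  clear hXre hXim hYre hYim
  clear X Y T
  rw [← h2] at h1 ⊢
  clear h2
  have hε1' : (2 * (p - 2) * ‖n - m‖) ^ 2 ≤ ε ^ 2 :=
    pow_le_pow_left₀ (by have := norm_nonneg (n - m); nlinarith) hε1 2
  have hε3 : 4 * (p - 2) ^ 2 * ((n.re - m.re) ^ 2 + (n.im - m.im) ^ 2) ≤ ε ^ 2 := by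
    rw [← hnm]
    calc _ = (2 * (p - 2) * ‖n - m‖) ^ 2 := by ring
      _ ≤ _ := hε1'
  clear hε1' hnm hε1 hn hm
  generalize n.re = n1 at *
  generalize n.im = n2 at *
  generalize m.re = m1 at *
  generalize m.im = m2 at *
  generalize a.re = a1 at *
  generalize a.im = a2 at *
  generalize b.im = b2 at *
  obtain ⟨A, hA⟩ : ∃ A, A = m1 * (m1 * a1 + m2 * a2) + m2 * (m1 * a2 + m2 * b2) := ⟨_, rfl⟩
  obtain ⟨B, hB⟩ : ∃ B, B = m1 * (m1 * a2 + m2 * b2) - m2 * (m1 * a1 + m2 * a2) := ⟨_, rfl⟩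
  obtain ⟨D, hD⟩ : ∃ D, D = m1 * (-m2 * a2 + m1 * b2) - m2 * (-m2 * a1 + m1 * a2) := ⟨_, rfl⟩
  have hB2 : m1 * (-m2 * a1 + m1 * a2) + m2 * (-m2 * a2 + m1 * b2) = B := by rw [hB]; ring
  rw [hB2, ← hA, ← hB, ← hD]
  -- the trace
  have htr : s ^ 2 * A + D = (p - 2) * (A - (n1 * (a1 * n1 + a2 * n2) + n2 * (a2 * n1 + b2 * n2))) := by
    have : A + D = a1 + b2 := by
      rw [hA, hD]
      linear_combination (a1 + b2) * hm2
    rw [hs]
    linear_combination this + h1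
  have hdiff : A - (n1 * (a1 * n1 + a2 * n2) + n2 * (a2 * n1 + b2 * n2)) =
      -((n1 - m1) * (a1 * (n1 + m1) + a2 * (n2 + m2)) +
        (n2 - m2) * (a2 * (n1 + m1) + b2 * (n2 + m2))) := by
    rw [hA]; ring
  have hfro : A ^ 2 + 2 * B ^ 2 + D ^ 2 = a1 ^ 2 + 2 * a2 ^ 2 + b2 ^ 2 := by
    rw [hA, hB, hD]
    linear_combination ((a1 ^ 2 + 2 * a2 ^ 2 + b2 ^ 2) * (m1 ^ 2 + m2 ^ 2 + 1)) * hm2
  have hsum : (n1 + m1) ^ 2 + (n2 + m2) ^ 2 ≤ 4 := by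
    nlinarith [sq_nonneg (n1 - m1), sq_nonneg (n2 - m2)]
  have hform := form_le (n1 - m1) (n2 - m2) (n1 + m1) (n2 + m2) a1 a2 b2
  have ht : (s ^ 2 * A + D) ^ 2 ≤ ε ^ 2 * (A ^ 2 + 2 * B ^ 2 + D ^ 2) := by
    rw [htr, hdiff, hfro]
    calc ((p - 2) * -((n1 - m1) * (a1 * (n1 + m1) + a2 * (n2 + m2)) +
        (n2 - m2) * (a2 * (n1 + m1) + b2 * (n2 + m2)))) ^ 2 =
        (p - 2) ^ 2 * ((n1 - m1) * (a1 * (n1 + m1) + a2 * (n2 + m2)) +
        (n2 - m2) * (a2 * (n1 + m1) + b2 * (n2 + m2))) ^ 2 := by ring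
      _ ≤ (p - 2) ^ 2 * (((n1 - m1) ^ 2 + (n2 - m2) ^ 2) * ((n1 + m1) ^ 2 + (n2 + m2) ^ 2) *
          (a1 ^ 2 + 2 * a2 ^ 2 + b2 ^ 2)) := by gcongr
      _ ≤ (p - 2) ^ 2 * (((n1 - m1) ^ 2 + (n2 - m2) ^ 2) * 4 *
          (a1 ^ 2 + 2 * a2 ^ 2 + b2 ^ 2)) := by gcongr
      _ = (4 * (p - 2) ^ 2 * ((n1 - m1) ^ 2 + (n2 - m2) ^ 2)) *
          (a1 ^ 2 + 2 * a2 ^ 2 + b2 ^ 2) := by ring
      _ ≤ ε ^ 2 * (a1 ^ 2 + 2 * a2 ^ 2 + b2 ^ 2) := by gcongr
  clear hform hdiff htr hfro hsum hA hB hD hB2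
  -- the norm of the transformed matrix
  have hs1 : 1 ≤ s ^ 2 := by linarith
  have hS : A ^ 2 + 2 * B ^ 2 + D ^ 2 ≤ s ^ 4 * A ^ 2 + 2 * s ^ 2 * B ^ 2 + D ^ 2 := by
    have hs4 : 1 ≤ s ^ 4 := by nlinarith
    nlinarith [sq_nonneg A, sq_nonneg B]
  set N := s ^ 4 * A ^ 2 + 2 * s ^ 2 * B ^ 2 + D ^ 2 with hN
  have hN0 : 0 ≤ N := by positivity
  have e1 : (s * (s * A)) ^ 2 + (-(s * B)) ^ 2 + ((s * B) ^ 2 + (-D) ^ 2) = N := by
    rw [hN]; ring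
  have e2 : s * (s * A) * -D - s * B * -(s * B) = (N - (s ^ 2 * A + D) ^ 2) / 2 := by
    rw [hN]; ring
  have ht2 : (s ^ 2 * A + D) ^ 2 ≤ ε ^ 2 * N := ht.trans (by gcongr)
  rw [e1, e2]
  have hK : 0 < 1 + 4 * ε := by linarith
  have h3 : (1 - ε ^ 2) / 2 * N ≤ (N - (s ^ 2 * A + D) ^ 2) / 2 := by linarith
  have h4 := scal2 hε0 hε2
  calc N = 1 * N := (one_mul N).symm
    _ ≤ (((1 + 4 * ε) + 1 / (1 + 4 * ε)) * ((1 - ε ^ 2) / 2)) * N := by gcongr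
    _ = ((1 + 4 * ε) + 1 / (1 + 4 * ε)) * ((1 - ε ^ 2) / 2 * N) := by ring
    _ ≤ _ := by gcongr

end Pool.Agent.W597.PHQRAlg
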