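import Pool.Agent.W597.PHStr

/-!
# The almost everywhere form of `curl grad h = 0` (PH-STR, second part)
-/

set_option autoImplicit false

open MeasureTheory Metric Set Filter Topology Complex
open scoped ENNReal ContDiff ComplexConjugate

namespace Pool.Agent.W597.PHStr

open Pool.Agent.W796.PH Pool.Agent.Helper366.IV Pool.Agent.W597.PHChain Pool.Agent.W597.PHZero

/-- the gradient is curl free, smooth test functions -/
theorem curl1 {p : ℝ} {Ω : Set ℂ} {h : ℂ → ℝ} {G : ℂ → ℂ} (hG : PHarm p Ω h G) {ψ : ℂ → ℝ}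
    (hψ : ContDiff ℝ ∞ ψ) (hc : HasCompactSupport ψ) (hs : tsupport ψ ⊆ Ω) :
    ∫ z, fderiv ℝ ψ z 1 * (G z).im = ∫ z, fderiv ℝ ψ z I * (G z).re := by
  have hd : ∀ v : ℂ, ContDiff ℝ ∞ (fun z => fderiv ℝ ψ z v) := fun v =>
    (hψ.fderiv_right (m := ∞) (by simp)).clm_apply contDiff_const
  have hdc : ∀ v : ℂ, HasCompactSupport (fun z => fderiv ℝ ψ z v) := fun v => hc.fderiv_apply ℝ v
  have hds : ∀ v : ℂ, tsupport (fun z => fderiv ℝ ψ z v) ⊆ Ω := fun v =>
    (tsupport_fderiv_apply_subset ℝ v).trans hs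
  have h1 := hG.weak _ (hd 1) (hdc 1) (hds 1) I
  have h2 := hG.weak _ (hd I) (hdc I) (hds I) 1
  have hsym : ∀ z, fderiv ℝ (fun z => fderiv ℝ ψ z 1) z I =
      fderiv ℝ (fun z => fderiv ℝ ψ z I) z 1 := by
    intro z
    have hdd : DifferentiableAt ℝ (fderiv ℝ ψ) z :=
      ((hψ.fderiv_right (m := ∞) (by simp)).differentiable (by simp)) z
    have e : ∀ v w : ℂ, fderiv ℝ (fun z => fderiv ℝ ψ z v) z w = fderiv ℝ (fderiv ℝ ψ) z w v := by
      intro v w
      rw [fderiv_clm_apply hdd (differentiableAt_const v)]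
      simp
    rw [e, e]
    exact (hψ.contDiffAt.isSymmSndFDerivAt (by simp; exact ENat.LEInfty.out)) I 1
  simp only [hsym] at h1
  rw [h1] at h2
  have e1 : ∀ z, (conj (G z) * I).re = (G z).im := fun z => by
    simp [Complex.mul_re]
  have e2 : ∀ z, (conj (G z) * 1).re = (G z).re := fun z => by simp
  simp only [e1, e2] at h2
  linarith

/-- the gradient is curl free, Sobolev test functions -/
theorem curl2 {p : ℝ} (hp : 2 ≤ p) {Ω : Set ℂ} {h : ℂ → ℝ} {G : ℂ → ℂ} (hG : PHarm p Ω h G)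
    {U : Set ℂ} (hUΩ : U ⊆ Ω) {u ux uy : ℂ → ℂ} (hu : SW U u ux uy) {η : ℂ → ℝ}
    (hη : ContDiff ℝ ∞ η) (hc : HasCompactSupport η) (hs : tsupport η ⊆ U) :
    (∫ z in tsupport η, ((G z).im * fderiv ℝ η z 1) * (u z).re) +
      (∫ z in tsupport η, ((G z).im * η z) * (ux z).re) =
    (∫ z in tsupport η, ((G z).re * fderiv ℝ η z I) * (u z).re) +
      ∫ z in tsupport η, ((G z).re * η z) * (uy z).re := by
  set K := tsupport η with hKdef
  have hK : IsCompact K := hc
  have hfin := j1865_fin hK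
  obtain ⟨Q, hQ, h0, hx, hy⟩ := hu.approx K hK hs
  have hG2 : MemLp G 2 (volume.restrict K) := by
    refine (hG.gloc K hK (hs.trans hUΩ)).mono_exponent ?_
    rw [← ENNReal.ofReal_ofNat 2]
    exact ENNReal.ofReal_le_ofReal hp
  have hGr : MemLp (fun z => (G z).re) 2 (volume.restrict K) := hG2.re
  have hGi : MemLp (fun z => (G z).im) 2 (volume.restrict K) := hG2.im
  have hηc := hη.continuous
  have hdc : ∀ v : ℂ, Continuous (fun z => fderiv ℝ η z v) := fun v =>
    (hη.continuous_fderiv (by simp)).clm_apply continuous_const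
  -- products with bounded continuous functions
  have hbd : ∀ {f c : ℂ → ℝ}, MemLp f 2 (volume.restrict K) → Continuous c →
      HasCompactSupport c → MemLp (fun z => f z * c z) 2 (volume.restrict K) := by
    intro f c hf hcc hcs
    obtain ⟨C, hC⟩ := hcs.exists_bound_of_continuous hcc
    have := j1865_bmem hf hcc C hC
    refine (memLp_congr_ae (Eventually.of_forall fun z => ?_)).1 this
    exact mul_comm _ _
  have hdcs : ∀ v : ℂ, HasCompactSupport (fun z => fderiv ℝ η z v) := fun v => hc.fderiv_apply ℝ v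
  have m1 := hbd hGi (hdc 1) (hdcs 1)
  have m2 := hbd hGi hηc hc
  have m3 := hbd hGr (hdc I) (hdcs I)
  have m4 := hbd hGr hηc hc
  -- the sequences
  have hQc : ∀ n, Continuous (Q n) := fun n => (hQ n).continuous
  have hQd : ∀ (v : ℂ) n, Continuous (fun z => fderiv ℝ (Q n) z v) := fun v n =>
    ((hQ n).continuous_fderiv (by simp)).clm_apply continuous_const
  have hself : ∀ g : ℂ → ℝ, Tendsto (fun _ : ℕ => eLpNorm (fun z => g z - g z) 2
      (volume.restrict K)) atTop (𝓝 0) := by
    intro g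
    simp only [sub_self]
    simp
  have hre : ∀ {F : ℕ → ℂ → ℂ} {f : ℂ → ℂ}, Tendsto (fun n => eLpNorm (fun z => F n z - f z) 2
      (volume.restrict K)) atTop (𝓝 0) → Tendsto (fun n => eLpNorm (fun z =>
      (F n z).re - (f z).re) 2 (volume.restrict K)) atTop (𝓝 0) := by
    intro F f hF
    refine j1865_le hF fun n z => ?_
    rw [← Complex.sub_re, Real.norm_eq_abs]
    exact Complex.abs_re_le_norm _
  have lim : ∀ {g : ℂ → ℝ} {F : ℕ → ℂ → ℂ} {f : ℂ → ℂ}, MemLp g 2 (volume.restrict K) →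
      (∀ n, Continuous (F n)) → MemLp f 2 (volume.restrict K) →
      Tendsto (fun n => eLpNorm (fun z => F n z - f z) 2 (volume.restrict K)) atTop (𝓝 0) →
      Tendsto (fun n => ∫ z in K, g z * (F n z).re) atTop (𝓝 (∫ z in K, g z * (f z).re)) := by
    intro g F f hg hF hf hFf
    exact j1865_T2mul hg hf.re (fun _ => hg)
      (fun n => (j1865_mem hK (hF n).continuousOn).re) (hself g) (hre hFf)
  have t1 := lim m1 hQc (hu.mem K hK hs) h0
  have t2 := lim m2 (hQd 1) (hu.memx K hK hs) hx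
  have t3 := lim m3 hQc (hu.mem K hK hs) h0
  have t4 := lim m4 (hQd I) (hu.memy K hK hs) hy
  -- the identity for the approximants
  have hid : ∀ n, (∫ z in K, ((G z).im * fderiv ℝ η z 1) * (Q n z).re) +
      (∫ z in K, ((G z).im * η z) * (fderiv ℝ (Q n) z 1).re) =
      (∫ z in K, ((G z).re * fderiv ℝ η z I) * (Q n z).re) +
      ∫ z in K, ((G z).re * η z) * (fderiv ℝ (Q n) z I).re := by
    intro n
    set ψ : ℂ → ℝ := fun z => η z * (Q n z).re with hψdef
    have hQr : ContDiff ℝ ∞ (fun z => (Q n z).re) := reCLM.contDiff.comp (hQ n)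
    have hψ : ContDiff ℝ ∞ ψ := hη.mul hQr
    have hψc : HasCompactSupport ψ := hc.mul_right
    have hψs : tsupport ψ ⊆ K := tsupport_mul_subset_left
    have hψd : ∀ z v, fderiv ℝ ψ z v = fderiv ℝ η z v * (Q n z).re +
        η z * (fderiv ℝ (Q n) z v).re := by
      intro z v
      have d1 : HasFDerivAt η (fderiv ℝ η z) z := (hη.differentiable (by simp) z).hasFDerivAt
      have d2 : HasFDerivAt (fun z => (Q n z).re) (reCLM.comp (fderiv ℝ (Q n) z)) z :=
        reCLM.hasFDerivAt.comp z ((hQ n).differentiable (by simp) z).hasFDerivAt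
      have d3 := d1.mul d2
      have d4 : HasFDerivAt ψ _ z := d3
      rw [d4.fderiv]
      simp only [add_apply, smul_apply, ContinuousLinearMap.comp_apply, reCLM_apply, smul_eq_mul]
      ring
    have hcurl := curl1 hG hψ hψc (hψs.trans (hs.trans hUΩ))
    have z1 : ∀ (F : ℂ → ℝ) (v z : ℂ), z ∉ K → fderiv ℝ ψ z v * F z = 0 := by
      intro F v z hz
      rw [(j1865_fd0 (φ := ψ) (fun hz' => hz (hψs hz'))).2]
      simp
    rw [← setIntegral_eq_integral_of_forall_compl_eq_zero (z1 (fun z => (G z).im) 1),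
      ← setIntegral_eq_integral_of_forall_compl_eq_zero (z1 (fun z => (G z).re) I)] at hcurl
    have i1 : ∫ z in K, fderiv ℝ ψ z 1 * (G z).im =
        (∫ z in K, ((G z).im * fderiv ℝ η z 1) * (Q n z).re) +
        (∫ z in K, ((G z).im * η z) * (fderiv ℝ (Q n) z 1).re) := by
      have j1 : Integrable (fun z => ((G z).im * fderiv ℝ η z 1) * (Q n z).re)
          (volume.restrict K) := m1.integrable_mul (j1865_mem hK (hQc n).continuousOn).re
      have j2 : Integrable (fun z => ((G z).im * η z) * (fderiv ℝ (Q n) z 1).re)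
          (volume.restrict K) := m2.integrable_mul (j1865_mem hK (hQd 1 n).continuousOn).re
      rw [← integral_add j1 j2]
      refine integral_congr_ae (Eventually.of_forall fun z => ?_)
      simp only [hψd]
      ring
    have i2 : ∫ z in K, fderiv ℝ ψ z I * (G z).re =
        (∫ z in K, ((G z).re * fderiv ℝ η z I) * (Q n z).re) +
        (∫ z in K, ((G z).re * η z) * (fderiv ℝ (Q n) z I).re) := by
      have j1 : Integrable (fun z => ((G z).re * fderiv ℝ η z I) * (Q n z).re)
          (volume.restrict K) := m3.integrable_mul (j1865_mem hK (hQc n).continuousOn).re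
      have j2 : Integrable (fun z => ((G z).re * η z) * (fderiv ℝ (Q n) z I).re)
          (volume.restrict K) := m4.integrable_mul (j1865_mem hK (hQd I n).continuousOn).re
      rw [← integral_add j1 j2]
      refine integral_congr_ae (Eventually.of_forall fun z => ?_)
      simp only [hψd]
      ring
    rw [i1, i2] at hcurl
    exact hcurl
  exact tendsto_nhds_unique ((t1.add t2).congr hid) (t3.add t4)

/-! ### cut-off functions -/

/-- cut-off away from zero and infinity -/
noncomputable def cut (k : ℕ) (v : ℂ) : ℝ :=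
  Real.smoothTransition (k * ‖v‖ ^ 2 - 1) * Real.smoothTransition (k - ‖v‖ ^ 2)

lemma contDiff_cut (k : ℕ) : ContDiff ℝ ∞ (cut k) := by
  have h1 : ContDiff ℝ ∞ (fun v : ℂ => ‖v‖ ^ 2) := contDiff_norm_sq ℝ
  have h2 : ContDiff ℝ ∞ (fun v : ℂ => (k : ℝ) * ‖v‖ ^ 2 - 1) :=
    (contDiff_const.mul h1).sub contDiff_const
  have h3 : ContDiff ℝ ∞ (fun v : ℂ => (k : ℝ) - ‖v‖ ^ 2) := contDiff_const.sub h1
  exact (Real.smoothTransition.contDiff.comp h2).mul (Real.smoothTransition.contDiff.comp h3)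

lemma cut_zero_near (k : ℕ) : ∀ᶠ v in 𝓝 (0 : ℂ), cut k v = 0 := by
  have h1 : Continuous (fun v : ℂ => (k : ℝ) * ‖v‖ ^ 2) := by fun_prop
  have h2 : ∀ᶠ v in 𝓝 (0 : ℂ), (k : ℝ) * ‖v‖ ^ 2 < 1 := by
    have := h1.tendsto 0
    simp only [norm_zero, ne_eq, OfNat.ofNat_ne_zero, not_false_eq_true, zero_pow, mul_zero] at this
    exact this.eventually (gt_mem_nhds one_pos)
  filter_upwards [h2] with v hv
  unfold cut
  rw [Real.smoothTransition.zero_of_nonpos (by linarith), zero_mul]

lemma cut_support (k : ℕ) : HasCompactSupport (cut k) := by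
  refine HasCompactSupport.intro (isCompact_closedBall (0 : ℂ) (k + 1)) fun v hv => ?_
  rw [mem_closedBall_zero_iff, not_le] at hv
  unfold cut
  have h0 : (0 : ℝ) ≤ k := Nat.cast_nonneg k
  have : (k : ℝ) - ‖v‖ ^ 2 ≤ 0 := by nlinarith
  rw [Real.smoothTransition.zero_of_nonpos this, mul_zero]

lemma cut_ne {v : ℂ} (hv : v ≠ 0) : ∃ k, cut k v ≠ 0 := by
  have hv0 : 0 < ‖v‖ ^ 2 := by positivity
  obtain ⟨k, hk⟩ := exists_nat_gt (max (1 / ‖v‖ ^ 2) (‖v‖ ^ 2))
  refine ⟨k, ?_⟩
  have h1 : 1 / ‖v‖ ^ 2 < k := (le_max_left _ _).trans_lt hk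
  have h2 : ‖v‖ ^ 2 < k := (le_max_right _ _).trans_lt hk
  rw [div_lt_iff₀ hv0] at h1
  unfold cut
  exact (mul_pos (Real.smoothTransition.pos_of_pos (by linarith))
    (Real.smoothTransition.pos_of_pos (by linarith))).ne'

/-- the cut-off gradient map -/
noncomputable def Cu (k : ℕ) (e : ℝ) (v : ℂ) : ℂ := cut k v • pw e v

lemma Cu_zero_near (k : ℕ) (e : ℝ) : Cu k e =ᶠ[𝓝 0] fun _ => 0 := by
  filter_upwards [cut_zero_near k] with v hv
  unfold Cu
  rw [hv, zero_smul]

lemma contDiff_Cu (hpd : S_PdDer) (k : ℕ) (e : ℝ) : ContDiff ℝ ∞ (Cu k e) := by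
  rw [contDiff_iff_contDiffAt]
  intro v
  by_cases hv : v = 0
  · subst hv
    exact contDiffAt_const.congr_of_eventuallyEq (Cu_zero_near k e)
  · exact (contDiff_cut k).contDiffAt.smul (hpd.2 e v hv).1

lemma Cu_support (k : ℕ) (e : ℝ) : HasCompactSupport (Cu k e) :=
  (cut_support k).smul_right

lemma fderiv_Cu (hpd : S_PdDer) (k : ℕ) (e : ℝ) (v w : ℂ) :
    fderiv ℝ (Cu k e) v w = (fderiv ℝ (cut k) v w) • pw e v + cut k v • fderiv ℝ (pw e) v w := by
  by_cases hv : v = 0
  · subst hv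
    have h1 : fderiv ℝ (Cu k e) 0 = 0 := by
      rw [(Cu_zero_near k e).fderiv_eq]
      simp
    have h2 : fderiv ℝ (cut k) 0 = 0 := by
      have : cut k =ᶠ[𝓝 0] fun _ => 0 := cut_zero_near k
      rw [this.fderiv_eq]
      simp
    have h3 : cut k 0 = 0 := (cut_zero_near k).self_of_nhds
    rw [h1, h2, h3]
    simp
  · have d1 : HasFDerivAt (cut k) (fderiv ℝ (cut k) v) v :=
      ((contDiff_cut k).differentiable (by simp) v).hasFDerivAt
    have d2 : HasFDerivAt (pw e) (fderiv ℝ (pw e) v) v :=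
      ((hpd.2 e v hv).1.differentiableAt (by simp)).hasFDerivAt
    have d3 := d1.smul d2
    have d4 : HasFDerivAt (Cu k e) _ v := d3
    rw [d4.fderiv]
    simp only [add_apply, smul_apply, ContinuousLinearMap.smulRight_apply]
    rw [add_comm]

/-- the curl part -/
theorem curl_ae (hch : S_Chain) (hpd : S_PdDer) {p : ℝ} (hp : 2 ≤ p) {Ω : Set ℂ} {h : ℂ → ℝ}
    {G : ℂ → ℂ} (hG : PHarm p Ω h G) {U : Set ℂ} (hU : IsOpen U) (hUΩ : U ⊆ Ω)
    {Vx Vy : ℂ → ℂ} (hV : SW U (fun z => pw ((p - 2) / 2) (G z)) Vx Vy) :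
    ∀ᵐ z ∂(volume.restrict U), pw ((p - 2) / 2) (G z) ≠ 0 →
      (fr (2 / p) (pw ((p - 2) / 2) (G z) / ‖pw ((p - 2) / 2) (G z)‖) (Vx z)).im =
      (fr (2 / p) (pw ((p - 2) / 2) (G z) / ‖pw ((p - 2) / 2) (G z)‖) (Vy z)).re := by
  set V : ℂ → ℂ := fun z => pw ((p - 2) / 2) (G z) with hVdef
  set e : ℝ := -(1 - 2 / p) with hedef
  have hPV : ∀ z, pw e (V z) = G z := fun z => pw_G hp (G z)
  -- the functions which vanish
  set P' : ℂ → ℂ → ℂ := fun v w => fderiv ℝ (pw e) v w with hP'
  set f : ℕ → ℂ → ℝ := fun k z => cut k (V z) * ((P' (V z) (Vx z)).im - (P' (V z) (Vy z)).re)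
    with hf
  have hbd : ∀ k, ∃ C, ∀ v, ‖fderiv ℝ (Cu k e) v‖ ≤ C := fun k =>
    ((Cu_support k e).fderiv ℝ).exists_bound_of_continuous
      ((contDiff_Cu hpd k e).continuous_fderiv (by simp))
  set cc : ℕ → ℂ → ℂ := fun k v => (cut k v : ℂ) with hcc
  have hccd : ∀ k, ContDiff ℝ ∞ (cc k) := fun k => ofRealCLM.contDiff.comp (contDiff_cut k)
  have hccf : ∀ k v w, fderiv ℝ (cc k) v w = ((fderiv ℝ (cut k) v w : ℝ) : ℂ) := fun k v w =>
    fderiv_ofReal (contDiff_cut k) v w
  have hccs : ∀ k, HasCompactSupport (cc k) := fun k => by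
    rw [HasCompactSupport, hcc, tsupport_ofReal]
    exact cut_support k
  have hbc : ∀ k, ∃ C, ∀ v, ‖fderiv ℝ (cc k) v‖ ≤ C := fun k =>
    ((hccs k).fderiv ℝ).exists_bound_of_continuous ((hccd k).continuous_fderiv (by simp))
  have hGK : ∀ K : Set ℂ, IsCompact K → K ⊆ U → MemLp G 2 (volume.restrict K) := by
    intro K hK hKU
    have := j1865_fin hK
    refine (hG.gloc K hK (hKU.trans hUΩ)).mono_exponent ?_
    rw [← ENNReal.ofReal_ofNat 2]
    exact ENNReal.ofReal_le_ofReal hp
  have main : ∀ k, ∀ᵐ z, z ∈ U → f k z = 0 := by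
    intro k
    obtain ⟨C1, hC1⟩ := hbd k
    obtain ⟨C2, hC2⟩ := hbc k
    have sw1 := hch U V Vx Vy hU hV (Cu k e) C1 (contDiff_Cu hpd k e) hC1
    have sw2 := hch U V Vx Vy hU hV (cc k) C2 (hccd k) hC2
    -- integrability on compact sets
    have mx : ∀ K, IsCompact K → K ⊆ U → MemLp (fun z => fderiv ℝ (Cu k e) (V z) (Vx z)) 2
        (volume.restrict K) := sw1.memx
    have my : ∀ K, IsCompact K → K ⊆ U → MemLp (fun z => fderiv ℝ (Cu k e) (V z) (Vy z)) 2
        (volume.restrict K) := sw1.memy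
    have hfe : ∀ z, f k z = (fderiv ℝ (Cu k e) (V z) (Vx z)).im -
        (fderiv ℝ (Cu k e) (V z) (Vy z)).re -
        ((G z).im * (fderiv ℝ (cc k) (V z) (Vx z)).re -
          (G z).re * (fderiv ℝ (cc k) (V z) (Vy z)).re) := by
      intro z
      rw [fderiv_Cu hpd, fderiv_Cu hpd, hccf, hccf, hPV]
      simp only [hf, hP', Complex.add_im, Complex.add_re, Complex.smul_re, Complex.smul_im,
        smul_eq_mul, Complex.ofReal_re]
      ring
    have iK : ∀ K, IsCompact K → K ⊆ U →
        Integrable (fun z => (fderiv ℝ (Cu k e) (V z) (Vx z))) (volume.restrict K) ∧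
        Integrable (fun z => (fderiv ℝ (Cu k e) (V z) (Vy z))) (volume.restrict K) ∧
        Integrable (fun z => (G z).im * (fderiv ℝ (cc k) (V z) (Vx z)).re)
          (volume.restrict K) ∧
        Integrable (fun z => (G z).re * (fderiv ℝ (cc k) (V z) (Vy z)).re)
          (volume.restrict K) := by
      intro K hK hKU
      have hfin := j1865_fin hK
      refine ⟨(mx K hK hKU).integrable (by norm_num), (my K hK hKU).integrable (by norm_num),
        ?_, ?_⟩
      · exact (hGK K hK hKU).im.integrable_mul (sw2.memx K hK hKU).re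
      · exact (hGK K hK hKU).re.integrable_mul (sw2.memy K hK hKU).re
    have hloc : LocallyIntegrableOn (f k) U := by
      rw [locallyIntegrableOn_iff hU.isLocallyClosed]
      intro K hKU hK
      obtain ⟨i1, i2, i3, i4⟩ := iK K hK hKU
      have := (i1.im.sub i2.re).sub (i3.sub i4)
      refine this.congr (Eventually.of_forall fun z => ?_)
      rw [hfe z]
      rfl
    refine hU.ae_eq_zero_of_integral_contDiff_smul_eq_zero hloc fun η hη hηc hηU => ?_
    have hK : IsCompact (tsupport η) := hηc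
    set φ : ℂ → ℂ := fun z => (η z : ℂ) with hφdef
    have hts : tsupport φ = tsupport η := tsupport_ofReal η
    have hφ : ContDiff ℝ ∞ φ := ofRealCLM.contDiff.comp hη
    have hφc : HasCompactSupport φ := by
      rw [HasCompactSupport, hts]
      exact hηc
    obtain ⟨w1, w2⟩ := SW_weak sw1 φ hφ hφc (by rw [hts]; exact hηU)
    have z1 : ∀ (F : ℂ → ℂ) (v z : ℂ), z ∉ tsupport η → F z * fderiv ℝ φ z v = 0 := by
      intro F v z hz
      rw [← hts] at hz
      rw [(j1865_fd0 hz).2]
      simp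
    have z2 : ∀ (F : ℂ → ℂ) (z : ℂ), z ∉ tsupport η → F z * φ z = 0 := by
      intro F z hz
      rw [← hts] at hz
      rw [(j1865_fd0 hz).1]
      simp
    rw [← setIntegral_eq_integral_of_forall_compl_eq_zero (z1 _ 1),
      ← setIntegral_eq_integral_of_forall_compl_eq_zero (z2 _)] at w1
    rw [← setIntegral_eq_integral_of_forall_compl_eq_zero (z1 _ I),
      ← setIntegral_eq_integral_of_forall_compl_eq_zero (z2 _)] at w2
    have e1 : ∀ z v, fderiv ℝ φ z v = ((fderiv ℝ η z v : ℝ) : ℂ) := fun z v =>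
      fderiv_ofReal hη z v
    simp only [e1] at w1 w2
    have c1 : Continuous (fun z => fderiv ℝ η z 1) :=
      (hη.continuous_fderiv (by simp)).clm_apply continuous_const
    have c2 : Continuous (fun z => fderiv ℝ η z I) :=
      (hη.continuous_fderiv (by simp)).clm_apply continuous_const
    obtain ⟨i1, i2, i3, i4⟩ := iK _ hK hηU
    have hfin := j1865_fin hK
    have i0 : Integrable (fun z => Cu k e (V z)) (volume.restrict (tsupport η)) :=
      (sw1.mem _ hK hηU).integrable (by norm_num)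
    have a1 := re_int hK i0 c1
    have a2 := re_int hK i0 c2
    have b1 := re_int hK i1 hη.continuous
    have b2 := re_int hK i2 hη.continuous
    have r1 := congrArg Complex.im w1
    have r2 := congrArg Complex.re w2
    rw [Complex.neg_im, a1.2.1, b1.2.1] at r1
    rw [Complex.neg_re, a2.1, b2.1] at r2
    have hc2 := curl2 hp hG hUΩ sw2 hη hηc hηU
    -- rewrite the first integrals
    have s1 : ∫ z in tsupport η, ((G z).im * fderiv ℝ η z 1) * (cc k (V z)).re =
        ∫ z in tsupport η, (Cu k e (V z)).im * fderiv ℝ η z 1 := by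
      refine integral_congr_ae (Eventually.of_forall fun z => ?_)
      simp only [Cu, hPV, hcc, Complex.smul_im, smul_eq_mul, Complex.ofReal_re]
      ring
    have s2 : ∫ z in tsupport η, ((G z).re * fderiv ℝ η z I) * (cc k (V z)).re =
        ∫ z in tsupport η, (Cu k e (V z)).re * fderiv ℝ η z I := by
      refine integral_congr_ae (Eventually.of_forall fun z => ?_)
      simp only [Cu, hPV, hcc, Complex.smul_re, smul_eq_mul, Complex.ofReal_re]
      ring
    rw [s1, s2, r1, r2] at hc2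
    -- integrability of the remaining products
    obtain ⟨B, hB⟩ := hηc.exists_bound_of_continuous hη.continuous
    have j3 : Integrable (fun z => ((G z).im * η z) * (fderiv ℝ (cc k) (V z) (Vx z)).re)
        (volume.restrict (tsupport η)) := by
      have := i3.mul_bdd (c := B) hη.continuous.aestronglyMeasurable (Eventually.of_forall hB)
      refine this.congr (Eventually.of_forall fun z => ?_)
      simp only
      ring
    have j4 : Integrable (fun z => ((G z).re * η z) * (fderiv ℝ (cc k) (V z) (Vy z)).re)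
        (volume.restrict (tsupport η)) := by
      have := i4.mul_bdd (c := B) hη.continuous.aestronglyMeasurable (Eventually.of_forall hB)
      refine this.congr (Eventually.of_forall fun z => ?_)
      simp only
      ring
    have htot : ∫ z, η z • f k z =
        ((∫ z in tsupport η, (fderiv ℝ (Cu k e) (V z) (Vx z)).im * η z) -
        ∫ z in tsupport η, (fderiv ℝ (Cu k e) (V z) (Vy z)).re * η z) -
        ((∫ z in tsupport η, ((G z).im * η z) * (fderiv ℝ (cc k) (V z) (Vx z)).re) -
          ∫ z in tsupport η, ((G z).re * η z) * (fderiv ℝ (cc k) (V z) (Vy z)).re) := by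
      have k1 : Integrable (fun z => (fderiv ℝ (Cu k e) (V z) (Vx z)).im * η z -
          (fderiv ℝ (Cu k e) (V z) (Vy z)).re * η z) (volume.restrict (tsupport η)) :=
        b1.2.2.2.sub b2.2.2.1
      have k2 : Integrable (fun z => ((G z).im * η z) * (fderiv ℝ (cc k) (V z) (Vx z)).re -
          ((G z).re * η z) * (fderiv ℝ (cc k) (V z) (Vy z)).re)
          (volume.restrict (tsupport η)) := j3.sub j4
      rw [← integral_sub b1.2.2.2 b2.2.2.1, ← integral_sub j3 j4, ← integral_sub k1 k2,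
        ← setIntegral_eq_integral_of_forall_compl_eq_zero (s := tsupport η)
          (fun z hz => by rw [(j1865_fd0 hz).1]; simp)]
      refine integral_congr_ae (Eventually.of_forall fun z => ?_)
      simp only [hfe z, smul_eq_mul]
      ring
    rw [htot]
    linarith
  rw [ae_restrict_iff' hU.measurableSet]
  filter_upwards [ae_all_iff.2 main] with z hz hzU hVz
  obtain ⟨k, hk⟩ := cut_ne hVz
  have h1 := hz k hzU
  simp only [hf] at h1
  have h2 := (mul_eq_zero.1 h1).resolve_left hk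
  have hn : 0 < ‖V z‖ := norm_pos_iff.2 hVz
  have hne : 0 < ‖V z‖ ^ e := Real.rpow_pos_of_pos hn _
  simp only [hP', (hpd.2 e (V z) hVz).2, Complex.re_ofReal_mul, Complex.im_ofReal_mul] at h2
  rw [← mul_sub] at h2
  have h3 := (mul_eq_zero.1 h2).resolve_left hne.ne'
  have e2 : 1 + e = 2 / p := by rw [hedef]; ring
  rw [e2] at h3
  linarith

theorem main (hch : S_Chain) (hzero : S_Zero) (hpd : S_PdDer) : S_Str := by
  intro p hp Ω h G _ hG U hU hUΩ Vx Vy hV
  refine ⟨?_, hzero U _ Vx Vy hU hV⟩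
  filter_upwards [div_ae hch hzero hp hG hU hUΩ hV, curl_ae hch hpd hp hG hU hUΩ hV]
    with z h1 h2 h3
  exact ⟨h1 h3, h2 h3⟩

end Pool.Agent.W597.PHStr
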