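import Pool.Agent.W796.PH.Defs
import Pool.Agent.Helper366.IV.Stokes
import Pool.Agent.W597.PHChain

/-!
# The derivatives vanish almost everywhere on the zero set (PH-ZERO)
-/

set_option autoImplicit false

open MeasureTheory Metric Set Filter Topology Complex
open scoped ENNReal ContDiff

namespace Pool.Agent.W597.PHZero

open Pool.Agent.W796.PH Pool.Agent.Helper366.IV Pool.Agent.W597.PHChain

/-- integration by parts in the strong class -/
theorem weak_aux {q qv : ℂ → ℂ} (φ : ℂ → ℂ) (hφ : ContDiff ℝ ∞ φ) (hc : HasCompactSupport φ)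
    (hq : MemLp q 2 (volume.restrict (tsupport φ)))
    (hqv : MemLp qv 2 (volume.restrict (tsupport φ)))
    (Q : ℕ → ℂ → ℂ) (hQ : ∀ n, ContDiff ℝ ∞ (Q n))
    (h0 : Tendsto (fun n => eLpNorm (fun z => Q n z - q z) 2
      (volume.restrict (tsupport φ))) atTop (𝓝 0)) (v : ℂ)
    (hv : Tendsto (fun n => eLpNorm (fun z => fderiv ℝ (Q n) z v - qv z) 2
      (volume.restrict (tsupport φ))) atTop (𝓝 0)) :
    ∫ z, q z * fderiv ℝ φ z v = - ∫ z, qv z * φ z := by
  have hK : IsCompact (tsupport φ) := hc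
  have hφc : Continuous φ := hφ.continuous
  have hφ'c : Continuous (fun z => fderiv ℝ φ z v) :=
    (hφ.continuous_fderiv (by simp)).clm_apply continuous_const
  have hz1 : ∀ (F : ℂ → ℂ) z, z ∉ tsupport φ → F z * fderiv ℝ φ z v = 0 := by
    intro F z hz; rw [(j1865_fd0 hz).2]; simp
  have hz2 : ∀ (F : ℂ → ℂ) z, z ∉ tsupport φ → F z * φ z = 0 := by
    intro F z hz; rw [(j1865_fd0 hz).1]; simp
  have hQc : ∀ n, Continuous (Q n) := fun n => (hQ n).continuous
  have hQd : ∀ n, Continuous (fun z => fderiv ℝ (Q n) z v) := fun n =>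
    ((hQ n).continuous_fderiv (by simp)).clm_apply continuous_const
  have hA : ∀ n, ∫ z in tsupport φ, Q n z * fderiv ℝ φ z v =
      - ∫ z in tsupport φ, fderiv ℝ (Q n) z v * φ z := by
    intro n
    rw [setIntegral_eq_integral_of_forall_compl_eq_zero (hz1 (Q n)),
      setIntegral_eq_integral_of_forall_compl_eq_zero (hz2 (fun z => fderiv ℝ (Q n) z v))]
    apply integral_mul_fderiv_eq_neg_fderiv_mul_of_integrable
    · exact j1865_int_of hK ((hQd n).mul hφc).continuousOn (hz2 _)
    · exact j1865_int_of hK ((hQc n).mul hφ'c).continuousOn (hz1 _)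
    · exact j1865_int_of hK ((hQc n).mul hφc).continuousOn (hz2 _)
    · intro z _; exact (hQ n).differentiable (by simp) z
    · intro z _; exact hφ.differentiable (by simp) z
  have hself : ∀ g : ℂ → ℂ, Tendsto (fun _ : ℕ => eLpNorm (fun z => g z - g z) 2
      (volume.restrict (tsupport φ))) atTop (𝓝 0) := by
    intro g
    simp only [sub_self]
    simp
  have l1 := j1865_T2mul hq (j1865_mem hK hφ'c.continuousOn)
    (fun n => j1865_mem hK (hQc n).continuousOn) (fun _ => j1865_mem hK hφ'c.continuousOn)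
    h0 (hself _)
  have l2 := j1865_T2mul hqv (j1865_mem hK hφc.continuousOn)
    (fun n => j1865_mem hK (hQd n).continuousOn) (fun _ => j1865_mem hK hφc.continuousOn)
    hv (hself _)
  have l3 := l2.neg
  have heq := tendsto_nhds_unique (l1.congr hA) l3
  rw [setIntegral_eq_integral_of_forall_compl_eq_zero (hz1 q),
      setIntegral_eq_integral_of_forall_compl_eq_zero (hz2 qv)] at heq
  exact heq

/-- weak derivatives of a function of the strong class -/
theorem SW_weak {U : Set ℂ} {q qx qy : ℂ → ℂ} (h : SW U q qx qy) (φ : ℂ → ℂ)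
    (hφ : ContDiff ℝ ∞ φ) (hc : HasCompactSupport φ) (hs : tsupport φ ⊆ U) :
    ((∫ z, q z * fderiv ℝ φ z 1) = - ∫ z, qx z * φ z) ∧
      ((∫ z, q z * fderiv ℝ φ z I) = - ∫ z, qy z * φ z) := by
  have hK : IsCompact (tsupport φ) := hc
  obtain ⟨Q, hQ, h0, hx, hy⟩ := h.approx (tsupport φ) hK hs
  exact ⟨weak_aux φ hφ hc (h.mem _ hK hs) (h.memx _ hK hs) Q hQ h0 1 hx,
    weak_aux φ hφ hc (h.mem _ hK hs) (h.memy _ hK hs) Q hQ h0 I hy⟩

/-- a smooth compactly supported map which is the identity near zero -/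
theorem exists_psi : ∃ (ψ : ℂ → ℂ) (C : ℝ), ContDiff ℝ ∞ ψ ∧ HasCompactSupport ψ ∧
    (∀ v, ‖fderiv ℝ ψ v‖ ≤ C) ∧ (∀ v, ‖ψ v‖ ≤ C) ∧
    fderiv ℝ ψ 0 = ContinuousLinearMap.id ℝ ℂ := by
  let β : ContDiffBump (0 : ℂ) := ⟨1, 2, one_pos, one_lt_two⟩
  have hβ : ContDiff ℝ ∞ (fun v => β v) := β.contDiff
  have hψ : ContDiff ℝ ∞ (fun v : ℂ => β v • v) := hβ.smul contDiff_id
  have hc : HasCompactSupport (fun v : ℂ => β v • v) := β.hasCompactSupport.smul_right
  obtain ⟨C1, hC1⟩ := (hc.fderiv ℝ).exists_bound_of_continuous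
    (hψ.continuous_fderiv (by simp))
  obtain ⟨C2, hC2⟩ := hc.exists_bound_of_continuous hψ.continuous
  refine ⟨fun v => β v • v, max C1 C2, hψ, hc, fun v => (hC1 v).trans (le_max_left _ _),
    fun v => (hC2 v).trans (le_max_right _ _), ?_⟩
  have he : (fun v : ℂ => β v • v) =ᶠ[𝓝 0] fun v => v := by
    filter_upwards [β.eventuallyEq_one] with v hv
    rw [hv]
    simp
  rw [he.fderiv_eq]
  exact fderiv_fun_id

theorem zero_aux (hch : S_Chain) {U : Set ℂ} {q qx qy : ℂ → ℂ} (hU : IsOpen U)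
    (h : SW U q qx qy) (e : ℂ) (qe : ℂ → ℂ)
    (hme : ∀ K : Set ℂ, IsCompact K → K ⊆ U → MemLp qe 2 (volume.restrict K))
    (hwk : ∀ (Θ : ℂ → ℂ) (C : ℝ), ContDiff ℝ ∞ Θ → (∀ v, ‖fderiv ℝ Θ v‖ ≤ C) →
      ∀ φ : ℂ → ℂ, ContDiff ℝ ∞ φ → HasCompactSupport φ → tsupport φ ⊆ U →
      ∫ z, Θ (q z) * fderiv ℝ φ z e = - ∫ z, fderiv ℝ Θ (q z) (qe z) * φ z) :
    ∀ᵐ z ∂(volume.restrict U), q z = 0 → qe z = 0 := by
  obtain ⟨ψ, C, hψ, hψc, hψd, hψb, hψ0⟩ := exists_psi
  have hC0 : 0 ≤ C := (norm_nonneg _).trans (hψb 0)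
  classical
  set f : ℂ → ℂ := fun z => if q z = 0 then qe z else 0 with hf
  -- the scaled maps
  set Θ : ℕ → ℂ → ℂ := fun m v => ((m : ℝ) + 1)⁻¹ • ψ (((m : ℝ) + 1) • v) with hΘdef
  have hm0 : ∀ m : ℕ, (0 : ℝ) < (m : ℝ) + 1 := fun m => by positivity
  have hΘ : ∀ m, ContDiff ℝ ∞ (Θ m) := fun m => by
    have h1 : ContDiff ℝ ∞ (fun v : ℂ => ((m : ℝ) + 1) • v) := contDiff_id.const_smul _
    exact (hψ.comp h1).const_smul _
  have hΘd : ∀ m v w, fderiv ℝ (Θ m) v w = fderiv ℝ ψ (((m : ℝ) + 1) • v) w := by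
    intro m v w
    have h1 : HasFDerivAt (fun v : ℂ => ((m : ℝ) + 1) • v)
        (((m : ℝ) + 1) • ContinuousLinearMap.id ℝ ℂ) v :=
      (((m : ℝ) + 1) • ContinuousLinearMap.id ℝ ℂ).hasFDerivAt
    have h2 : HasFDerivAt ψ (fderiv ℝ ψ (((m : ℝ) + 1) • v)) (((m : ℝ) + 1) • v) :=
      (hψ.differentiable (by simp) _).hasFDerivAt
    have h3 : HasFDerivAt (Θ m) (((m : ℝ) + 1)⁻¹ • ((fderiv ℝ ψ (((m : ℝ) + 1) • v)).comp
        (((m : ℝ) + 1) • ContinuousLinearMap.id ℝ ℂ))) v := by
      have h4 := (h2.comp v h1).const_smul (((m : ℝ) + 1)⁻¹)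
      exact h4
    rw [h3.fderiv]
    simp only [ContinuousLinearMap.smul_apply, ContinuousLinearMap.comp_apply,
      ContinuousLinearMap.id_apply, map_smul]
    rw [smul_smul, inv_mul_cancel₀ (hm0 m).ne', one_smul]
  have hΘn : ∀ m v, ‖fderiv ℝ (Θ m) v‖ ≤ C := by
    intro m v
    refine ContinuousLinearMap.opNorm_le_bound _ hC0 fun w => ?_
    rw [hΘd]
    exact ((fderiv ℝ ψ _).le_opNorm w).trans
      (mul_le_mul_of_nonneg_right (hψd _) (norm_nonneg _))
  -- pointwise limit
  have hlim : ∀ z, Tendsto (fun m => fderiv ℝ (Θ m) (q z) (qe z)) atTop (𝓝 (f z)) := by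
    intro z
    simp only [hΘd, hf]
    by_cases hz : q z = 0
    · rw [if_pos hz, hz]
      simp only [smul_zero, hψ0, ContinuousLinearMap.id_apply]
      exact tendsto_const_nhds
    · rw [if_neg hz]
      have hnz : 0 < ‖q z‖ := norm_pos_iff.2 hz
      obtain ⟨R, hR⟩ := hψc.isCompact.isBounded.exists_norm_le
      have h1 : ∀ᶠ m : ℕ in atTop, R < ((m : ℝ) + 1) * ‖q z‖ := by
        have h2 : Tendsto (fun m : ℕ => ((m : ℝ) + 1) * ‖q z‖) atTop atTop :=
          (tendsto_atTop_add_const_right _ _ tendsto_natCast_atTop_atTop).atTop_mul_const hnz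
        exact h2.eventually_gt_atTop R
      refine Tendsto.congr' ?_ tendsto_const_nhds
      filter_upwards [h1] with m hm
      have h3 : ((m : ℝ) + 1) • q z ∉ tsupport ψ := by
        intro hin
        have := hR _ hin
        rw [norm_smul, Real.norm_of_nonneg (hm0 m).le] at this
        linarith
      rw [(j1865_fd0 h3).2]
      simp
  have hfb : ∀ z, ‖f z‖ ≤ ‖qe z‖ := by
    intro z
    simp only [hf]
    split_ifs
    · exact le_rfl
    · simp
  have hfK : ∀ K : Set ℂ, IsCompact K → K ⊆ U → MemLp f 2 (volume.restrict K) := by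
    intro K hK hKU
    have hmeas : AEStronglyMeasurable f (volume.restrict K) :=
      aestronglyMeasurable_of_tendsto_ae atTop
        (fun m => meas_D (hΘ m) (h.mem K hK hKU).1 (hme K hK hKU).1)
        (Eventually.of_forall hlim)
    exact MemLp.mono (hme K hK hKU) hmeas (Eventually.of_forall hfb)
  have hloc : LocallyIntegrableOn f U := by
    rw [locallyIntegrableOn_iff hU.isLocallyClosed]
    intro K hKU hK
    have := j1865_fin hK
    exact (hfK K hK hKU).integrable (by norm_num)
  have hzero : ∀ g : ℂ → ℝ, ContDiff ℝ ∞ g → HasCompactSupport g → tsupport g ⊆ U →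
      ∫ z, g z • f z = 0 := by
    intro g hg hgc hgU
    set φ : ℂ → ℂ := fun z => (g z : ℂ) with hφdef
    have hφ : ContDiff ℝ ∞ φ := ofRealCLM.contDiff.comp hg
    have hts : tsupport φ = tsupport g := by
      unfold tsupport
      congr 1
      ext z
      simp [hφdef]
    have hφc : HasCompactSupport φ := by
      rw [HasCompactSupport, hts]
      exact hgc
    have hK : IsCompact (tsupport g) := hgc
    have hfin := j1865_fin hK
    have hw : ∀ m, ∫ z, Θ m (q z) * fderiv ℝ φ z e =
        - ∫ z, fderiv ℝ (Θ m) (q z) (qe z) * φ z := fun m =>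
      hwk (Θ m) C (hΘ m) (hΘn m) φ hφ hφc (by rw [hts]; exact hgU)
    -- the left side tends to zero
    have hφ'c : Continuous (fun z => fderiv ℝ φ z e) :=
      (hφ.continuous_fderiv (by simp)).clm_apply continuous_const
    have hint : Integrable (fun z => ‖fderiv ℝ φ z e‖) := by
      have h1 : Integrable (fun z => fderiv ℝ φ z e) :=
        j1865_int_of hK hφ'c.continuousOn fun z hz => by
          rw [← hts] at hz
          rw [(j1865_fd0 hz).2]
          simp
      exact h1.norm
    have hL : Tendsto (fun m => ∫ z, Θ m (q z) * fderiv ℝ φ z e) atTop (𝓝 0) := by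
      have hb : ∀ m : ℕ, ‖∫ z, Θ m (q z) * fderiv ℝ φ z e‖ ≤
          ((m : ℝ) + 1)⁻¹ * (C * ∫ z, ‖fderiv ℝ φ z e‖) := by
        intro m
        rw [← integral_const_mul, ← integral_const_mul]
        refine norm_integral_le_of_norm_le ((hint.const_mul C).const_mul _)
          (Eventually.of_forall fun z => ?_)
        rw [norm_mul]
        simp only [hΘdef]
        rw [norm_smul, Real.norm_of_nonneg (inv_nonneg.2 (hm0 m).le), mul_assoc]
        have := hψb (((m : ℝ) + 1) • q z)
        have := (hm0 m).le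
        gcongr
      have h2 : Tendsto (fun m : ℕ => ((m : ℝ) + 1)⁻¹ * (C * ∫ z, ‖fderiv ℝ φ z e‖))
          atTop (𝓝 0) := by
        have h3 : Tendsto (fun m : ℕ => ((m : ℝ) + 1)⁻¹) atTop (𝓝 0) :=
          tendsto_inv_atTop_zero.comp
            (tendsto_atTop_add_const_right _ _ tendsto_natCast_atTop_atTop)
        have h4 := h3.mul_const (C * ∫ z, ‖fderiv ℝ φ z e‖)
        rwa [zero_mul] at h4
      exact squeeze_zero_norm hb h2
    -- the right side
    obtain ⟨B, hB⟩ := hφc.exists_bound_of_continuous hφ.continuous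
    have hgI : Integrable (fun z => qe z * φ z) := by
      have h1 : Integrable qe (volume.restrict (tsupport g)) :=
        (hme _ hK hgU).integrable (by norm_num)
      have h2 : IntegrableOn (fun z => qe z * φ z) (tsupport g) :=
        h1.mul_bdd (c := B) hφ.continuous.aestronglyMeasurable (Eventually.of_forall hB)
      rw [integrableOn_iff_integrable_of_support_subset] at h2
      · exact h2
      · intro z hz
        by_contra hcon
        rw [← hts] at hcon
        exact hz (by simp [(j1865_fd0 hcon).1])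
    have hR : Tendsto (fun m => ∫ z, fderiv ℝ (Θ m) (q z) (qe z) * φ z) atTop
        (𝓝 (∫ z, f z * φ z)) := by
      refine tendsto_integral_of_dominated_convergence (fun z => C * ‖qe z * φ z‖)
        (fun m => ?_) (hgI.norm.const_mul C) (fun m => Eventually.of_forall fun z => ?_)
        (Eventually.of_forall fun z => (hlim z).mul_const _)
      · -- measurability
        have h1 : AEStronglyMeasurable (fun z => fderiv ℝ (Θ m) (q z) (qe z) * φ z)
            (volume.restrict (tsupport g)) :=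
          (meas_D (hΘ m) (h.mem _ hK hgU).1 (hme _ hK hgU).1).mul
            hφ.continuous.aestronglyMeasurable
        have h2 : (fun z => fderiv ℝ (Θ m) (q z) (qe z) * φ z) =
            (tsupport g).indicator (fun z => fderiv ℝ (Θ m) (q z) (qe z) * φ z) := by
          funext z
          by_cases hz : z ∈ tsupport g
          · rw [indicator_of_mem hz]
          · rw [indicator_of_notMem hz]
            rw [← hts] at hz
            rw [(j1865_fd0 hz).1, mul_zero]
        rw [h2, aestronglyMeasurable_indicator_iff (isClosed_tsupport g).measurableSet]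
        exact h1
      · rw [norm_mul, norm_mul, ← mul_assoc]
        exact mul_le_mul_of_nonneg_right (((fderiv ℝ (Θ m) (q z)).le_opNorm _).trans
          (mul_le_mul_of_nonneg_right (hΘn m _) (norm_nonneg _))) (norm_nonneg _)
    have heq := tendsto_nhds_unique (hL.congr hw) hR.neg
    have h5 : ∫ z, g z • f z = ∫ z, f z * φ z := by
      refine integral_congr_ae (Eventually.of_forall fun z => ?_)
      simp only [hφdef, real_smul]
      ring
    rw [h5]
    exact neg_eq_zero.1 heq.symm
  have hae := hU.ae_eq_zero_of_integral_contDiff_smul_eq_zero hloc hzero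
  rw [ae_restrict_iff' hU.measurableSet]
  filter_upwards [hae] with z hz hzU hq0
  have := hz hzU
  simp only [hf, if_pos hq0] at this
  exact this

theorem main (hch : S_Chain) : S_Zero := by
  intro U q qx qy hU h
  have hx := zero_aux hch hU h 1 qx h.memx fun Θ C hΘ hC φ hφ hφc hφU =>
    (SW_weak (hch U q qx qy hU h Θ C hΘ hC) φ hφ hφc hφU).1
  have hy := zero_aux hch hU h I qy h.memy fun Θ C hΘ hC φ hφ hφc hφU =>
    (SW_weak (hch U q qx qy hU h Θ C hΘ hC) φ hφ hφc hφU).2
  filter_upwards [hx, hy] with z h1 h2 h3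
  exact ⟨h1 h3, h2 h3⟩

/-- without hypothesis -/
theorem main' : S_Zero := main Pool.Agent.W597.PHChain.main

end Pool.Agent.W597.PHZero
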