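import Mathlib
import Pool.Agent.W25.UB.Stm4

set_option autoImplicit false

/-! The forms of the dichotomy and the local solutions. -/

namespace Pool.Agent.W597.UBC2

open Finset Filter Topology
open Pool.Agent.W25.UN (Fm uB wB)
open Pool.Agent.H410R2 (WW)
open Pool.Agent.W25.UB

/-- Chinese remainder theorem for `CopAt` -/
theorem copAt_exists {k : ℕ} (α h : Fin k → ℤ) (D N : ℕ)
    (H : ∀ p : ℕ, p.Prime → ∃ n : ℤ, ¬ (p : ℤ) ∣ n ∧ ∀ i, ¬ (p : ℤ) ∣ (N + α i * n + h i)) :
    ∃ v, CopAt α h D N v := by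
  classical
  have H' : ∀ p : ℕ, ∃ n : ℤ, p.Prime → ¬ (p : ℤ) ∣ n ∧ ∀ i, ¬ (p : ℤ) ∣ (N + α i * n + h i) := by
    intro p
    by_cases hp : p.Prime
    · obtain ⟨n, hn⟩ := H p hp
      exact ⟨n, fun _ => hn⟩
    · exact ⟨0, fun h' => absurd h' hp⟩
  choose n hn using H'
  set t : Finset ℕ := (Icc 1 D).filter Nat.Prime with ht
  have htp : ∀ p ∈ t, p.Prime := fun p hp => (mem_filter.1 hp).2
  obtain ⟨v, hv⟩ := Nat.chineseRemainderOfFinset (fun p => (n p % (p : ℤ)).toNat) id t
    (fun p hp => (htp p hp).ne_zero) (by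
      intro p hp q hq hpq
      exact (Nat.coprime_primes (htp p hp) (htp q hq)).2 hpq)
  refine ⟨v, ?_⟩
  intro j x hx
  have hWW : ((WW D : ℕ) : ℤ) = ∏ p ∈ t, (p : ℤ) := by
    rw [WW, Nat.cast_prod]
  have hdvd : ∀ p ∈ t, (p : ℤ) ∣ x - n p := by
    intro p hp
    have hp0 : (p : ℤ) ≠ 0 := by exact_mod_cast (htp p hp).ne_zero
    have h1 : (p : ℤ) ∣ x - v := by
      have h2 : ((WW D : ℕ) : ℤ) ∣ x - v := (Int.modEq_iff_dvd.1 hx.symm)
      refine dvd_trans ?_ h2
      rw [hWW]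
      exact dvd_prod_of_mem (fun p : ℕ => (p : ℤ)) hp
    have h3 : (p : ℤ) ∣ (v : ℤ) - n p := by
      have h4 : (v : ℤ) ≡ ((n p % (p : ℤ)).toNat : ℤ) [ZMOD (p : ℤ)] := by
        have := hv p hp
        exact Int.natCast_modEq_iff.2 this
      have h5 : (((n p % (p : ℤ)).toNat : ℕ) : ℤ) = n p % (p : ℤ) :=
        Int.toNat_of_nonneg (Int.emod_nonneg _ hp0)
      rw [h5] at h4
      have h6 : (v : ℤ) ≡ n p [ZMOD (p : ℤ)] := h4.trans (Int.mod_modEq _ _)
      exact Int.modEq_iff_dvd.1 h6.symm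
    have : x - n p = (x - v) + (v - n p) := by ring
    rw [this]
    exact dvd_add h1 h3
  rw [hWW]
  apply IsCoprime.prod_right
  intro p hp
  have hpp := htp p hp
  have hpi : Prime (p : ℤ) := Nat.prime_iff_prime_int.1 hpp
  apply IsCoprime.symm
  rw [hpi.coprime_iff_not_dvd]
  intro hd
  have h7 := hdvd p hp
  rcases j with _ | i
  · have h8 : uB α none * x + wB h N none = x := by
      simp [uB, wB]
    rw [h8] at hd
    apply (hn p hpp).1
    have h9 : n p = x - (x - n p) := by ring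
    rw [h9]
    exact dvd_sub hd h7
  · apply (hn p hpp).2 i
    have h8 : uB α (some i) * x + wB h N (some i) = α i * x + (N + h i) := rfl
    rw [h8] at hd
    have h9 : (N : ℤ) + α i * n p + h i = (α i * x + (N + h i)) - α i * (x - n p) := by ring
    rw [h9]
    exact dvd_sub hd (Dvd.dvd.mul_left h7 _)

/-- slopes -/
def al (K : ℕ) (i : Fin (4 * K)) : ℤ :=
  if (finProdFinEquiv.symm i).1.val < 2 then 1 else -1

/-- shifts -/
def hh (K : ℕ) (r r' : ℕ) (fA fB : Fin K → ℕ) (i : Fin (4 * K)) : ℤ :=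
  (if (finProdFinEquiv.symm i).1.val < 2 then (r : ℤ) else r') +
    2 * (if (finProdFinEquiv.symm i).1.val = 0 ∨ (finProdFinEquiv.symm i).1.val = 3 then
      (fA (finProdFinEquiv.symm i).2 : ℤ) else fB (finProdFinEquiv.symm i).2)

/-- classes -/
def cls (K : ℕ) (i : Fin (4 * K)) : Fin 4 := (finProdFinEquiv.symm i).1

theorem cls_card (K : ℕ) (g : Fin 4) : (univ.filter (fun i => cls K i = g)).card = K := by
  classical
  have : univ.filter (fun i => cls K i = g) = univ.image (fun j : Fin K => finProdFinEquiv (g, j)) := by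
    ext i
    rw [mem_filter, mem_image]
    constructor
    · rintro ⟨-, h⟩
      refine ⟨(finProdFinEquiv.symm i).2, mem_univ _, ?_⟩
      have h1 : g = (finProdFinEquiv.symm i).1 := h.symm
      rw [h1]
      exact finProdFinEquiv.apply_symm_apply i
    · rintro ⟨j, -, rfl⟩
      refine ⟨mem_univ _, ?_⟩
      unfold cls
      rw [finProdFinEquiv.symm_apply_apply]
  rw [this, card_image_of_injective, card_univ, Fintype.card_fin]
  intro a b hab
  have := finProdFinEquiv.injective hab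
  exact (Prod.mk.inj this).2

theorem al_or (K : ℕ) (i : Fin (4 * K)) : al K i = 1 ∨ al K i = -1 := by
  unfold al
  split_ifs
  · exact Or.inl rfl
  · exact Or.inr rfl

theorem distinct (K : ℕ) (r r' : ℕ) (fA fB : Fin K → ℕ) (hA : Function.Injective fA)
    (hB : Function.Injective fB) (hAB : ∀ i j, fA i ≠ fB j) :
    ∀ i j, i ≠ j → ¬ (al K i = al K j ∧ hh K r r' fA fB i = hh K r r' fA fB j) := by
  intro i j hij hc
  obtain ⟨⟨g, a⟩, rfl⟩ := finProdFinEquiv.surjective i
  obtain ⟨⟨g', b⟩, rfl⟩ := finProdFinEquiv.surjective j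
  have hne : ¬ (g = g' ∧ a = b) := by
    rintro ⟨rfl, rfl⟩
    exact hij rfl
  simp only [al, hh, Equiv.symm_apply_apply] at hc
  have e1 : fA a = fA b → a = b := fun h => hA h
  have e2 : fB a = fB b → a = b := fun h => hB h
  have e3 := hAB a b
  have e4 := hAB b a
  fin_cases g <;> fin_cases g' <;> simp at hc hne <;> omega

/-- local solutions -/
theorem local_sol (K W N r r' c : ℕ) (hW : ∀ p : ℕ, p.Prime → p ≤ 4 * K + 2 → p ∣ W)
    (fA fB : Fin K → ℕ) (hfA : ∀ j, W ∣ fA j) (hfB : ∀ j, (W : ℤ) ∣ (fB j : ℤ) - c)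
    (hr : (W : ℤ) ∣ N + r) (hr' : (W : ℤ) ∣ (N + 2 * c) + r') (p : ℕ) (hp : p.Prime) :
    ∃ n : ℤ, ¬ (p : ℤ) ∣ n ∧ ∀ i, ¬ (p : ℤ) ∣ (N + al K i * n + hh K r r' fA fB i) := by
  classical
  by_cases hpW : p ≤ 4 * K + 2
  · have hpd : (p : ℤ) ∣ (W : ℤ) := Int.natCast_dvd_natCast.2 (hW p hp hpW)
    obtain ⟨n, hn1, hn2⟩ : ∃ n : ℤ, ¬ (p : ℤ) ∣ n ∧ ¬ (p : ℤ) ∣ n + 2 * c := by
      have hp1 : ¬ (p : ℤ) ∣ 1 := by
        intro h
        have h1 : (p : ℤ) ∣ ((1 : ℕ) : ℤ) := by simpa using h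
        have h2 : p ∣ 1 := Int.natCast_dvd_natCast.1 h1
        exact hp.one_lt.ne' (Nat.dvd_one.1 h2)
      by_cases h2 : p = 2
      · subst h2
        refine ⟨1, hp1, ?_⟩
        intro h
        push_cast at h
        omega
      · by_cases h3 : (p : ℤ) ∣ 1 + 2 * c
        · refine ⟨2, ?_, ?_⟩
          · intro h
            have h1 : (p : ℤ) ∣ ((2 : ℕ) : ℤ) := by simpa using h
            have h4 : p ∣ 2 := Int.natCast_dvd_natCast.1 h1
            exact h2 ((Nat.prime_dvd_prime_iff_eq hp Nat.prime_two).1 h4)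
          · intro h
            apply hp1
            have h5 : (1 : ℤ) = (2 + 2 * c) - (1 + 2 * c) := by ring
            rw [h5]
            exact dvd_sub h h3
        · exact ⟨1, hp1, h3⟩
    refine ⟨n, hn1, ?_⟩
    intro i
    obtain ⟨⟨g, j⟩, rfl⟩ := finProdFinEquiv.surjective i
    have hA : (p : ℤ) ∣ (fA j : ℤ) := hpd.trans (Int.natCast_dvd_natCast.2 (hfA j))
    have hB : (p : ℤ) ∣ (fB j : ℤ) - c := hpd.trans (hfB j)
    have h1 : (p : ℤ) ∣ N + r := hpd.trans hr
    have h2 : (p : ℤ) ∣ (N + 2 * c) + r' := hpd.trans hr'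
    simp only [al, hh, Equiv.symm_apply_apply]
    intro hd
    fin_cases g
    · simp at hd
      apply hn1
      have e : n = (N + n + (r + 2 * (fA j : ℤ))) - (N + r) - 2 * (fA j : ℤ) := by ring
      rw [e]
      exact dvd_sub (dvd_sub hd h1) (Dvd.dvd.mul_left hA _)
    · simp at hd
      apply hn2
      have e : n + 2 * c = (N + n + (r + 2 * (fB j : ℤ))) - (N + r) - 2 * ((fB j : ℤ) - c) := by ring
      rw [e]
      exact dvd_sub (dvd_sub hd h1) (Dvd.dvd.mul_left hB _)
    · simp at hd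
      apply hn1
      have e : n = ((N + 2 * c) + r') + 2 * ((fB j : ℤ) - c) - (N + -n + (r' + 2 * (fB j : ℤ))) := by
        ring
      rw [e]
      exact dvd_sub (dvd_add h2 (Dvd.dvd.mul_left hB _)) hd
    · simp at hd
      apply hn2
      have e : n + 2 * c = ((N + 2 * c) + r') + 2 * (fA j : ℤ) - (N + -n + (r' + 2 * (fA j : ℤ))) := by
        ring
      rw [e]
      exact dvd_sub (dvd_add h2 (Dvd.dvd.mul_left hA _)) hd
  · have := Fact.mk hp
    set bad : Finset (ZMod p) := insert 0 (univ.image (fun i : Fin (4 * K) =>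
      -((al K i : ℤ) : ZMod p) * (((N : ℤ) + hh K r r' fA fB i : ℤ) : ZMod p))) with hbad
    have hbc : bad.card < (univ : Finset (ZMod p)).card := by
      have h1 : bad.card ≤ 4 * K + 1 := by
        refine (card_insert_le _ _).trans ?_
        have := card_image_le (s := (univ : Finset (Fin (4 * K)))) (f := (fun i : Fin (4 * K) =>
          -((al K i : ℤ) : ZMod p) * (((N : ℤ) + hh K r r' fA fB i : ℤ) : ZMod p)))
        rw [card_univ, Fintype.card_fin] at this
        omega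
      rw [card_univ, ZMod.card]
      omega
    obtain ⟨x, -, hx⟩ := exists_mem_notMem_of_card_lt_card hbc
    have hxv : (((x.val : ℕ) : ℤ) : ZMod p) = x := by
      rw [Int.cast_natCast, ZMod.natCast_zmod_val]
    refine ⟨(x.val : ℤ), ?_, ?_⟩
    · intro hd
      apply hx
      rw [hbad, mem_insert]
      left
      rw [← hxv]
      exact (ZMod.intCast_zmod_eq_zero_iff_dvd _ _).2 hd
    · intro i hd
      apply hx
      rw [hbad, mem_insert]
      right
      rw [mem_image]
      refine ⟨i, mem_univ _, ?_⟩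
      have h1 := (ZMod.intCast_zmod_eq_zero_iff_dvd _ _).2 hd
      push_cast at h1 ⊢
      have hxv' : ((x.val : ℕ) : ZMod p) = x := ZMod.natCast_zmod_val x
      rw [hxv'] at h1
      rcases al_or K i with h2 | h2
      · rw [h2] at h1 ⊢
        push_cast at h1 ⊢
        linear_combination (-1 : ZMod p) * h1
      · rw [h2] at h1 ⊢
        push_cast at h1 ⊢
        linear_combination h1

end Pool.Agent.W597.UBC2
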