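import Mathlib
import Pool.Agent.W25.UB.Stm4
import Pool.Agent.W597.UBForms

set_option autoImplicit false

/-! Counting lemmas for the dichotomy. -/

namespace Pool.Agent.W597.UBC2

open Finset Filter Topology
open Pool.Agent.W25.UN (Fm uB wB)
open Pool.Agent.H410R2 (WW)
open Pool.Agent.W25.UB

open Classical in
/-- the set of `n` for which the forms `i`, `i'` are both prime -/
noncomputable def TT (K N : ℕ) (h : Fin (4 * K) → ℤ) (i i' : Fin (4 * K)) : Finset ℕ :=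
  (Icc 1 N).filter (fun n : ℕ => (n : ℝ) ≤ N / 2 ∧ (Fm (al K) h N i n).toNat.Prime ∧
    (Fm (al K) h N i' n).toNat.Prime)

open Classical in
theorem pigeon (K N v D : ℕ) (h : Fin (4 * K) → ℤ) (X Y : ℝ) (hY : 0 ≤ Y)
    (hX : X ≤ (((Icc 1 N).filter (fun n : ℕ => n ≡ v [MOD (WW D)] ∧
        (N : ℝ) / 16 ≤ n ∧ (n : ℝ) ≤ N / 2 ∧
        2 ≤ (univ.filter (fun g : Fin 4 => ∃ i, cls K i = g ∧
          (Fm (al K) h N i n).toNat.Prime)).card)).card : ℝ))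
    (hXY : 16 * (K : ℝ) ^ 2 * Y < X) :
    ∃ i i', cls K i < cls K i' ∧ Y ≤ ((TT K N h i i').card : ℝ) := by
  by_contra hcon
  push Not at hcon
  set P : Finset (Fin (4 * K) × Fin (4 * K)) := univ.filter (fun p => cls K p.1 < cls K p.2)
    with hP
  have hsub : ((Icc 1 N).filter (fun n : ℕ => n ≡ v [MOD (WW D)] ∧
        (N : ℝ) / 16 ≤ n ∧ (n : ℝ) ≤ N / 2 ∧
        2 ≤ (univ.filter (fun g : Fin 4 => ∃ i, cls K i = g ∧
          (Fm (al K) h N i n).toNat.Prime)).card)) ⊆ P.biUnion (fun p => TT K N h p.1 p.2) := by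
    intro n hn
    obtain ⟨hn1, -, -, hn2, hn3⟩ := mem_filter.1 hn
    obtain ⟨g, hg, g', hg', hne⟩ := one_lt_card.1 (Nat.lt_of_lt_of_le (by norm_num) hn3)
    obtain ⟨-, i, hi, hip⟩ := mem_filter.1 hg
    obtain ⟨-, i', hi', hip'⟩ := mem_filter.1 hg'
    rw [mem_biUnion]
    rcases lt_or_gt_of_ne hne with hlt | hlt
    · refine ⟨(i, i'), mem_filter.2 ⟨mem_univ _, ?_⟩, mem_filter.2 ⟨hn1, hn2, hip, hip'⟩⟩
      show cls K i < cls K i'
      rw [hi, hi']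
      exact hlt
    · refine ⟨(i', i), mem_filter.2 ⟨mem_univ _, ?_⟩, mem_filter.2 ⟨hn1, hn2, hip', hip⟩⟩
      show cls K i' < cls K i
      rw [hi, hi']
      exact hlt
  have h1 := (card_le_card hsub).trans card_biUnion_le
  have h2 : ((∑ p ∈ P, (TT K N h p.1 p.2).card : ℕ) : ℝ) ≤ P.card * Y := by
    push_cast
    calc ∑ p ∈ P, ((TT K N h p.1 p.2).card : ℝ) ≤ ∑ p ∈ P, Y :=
          sum_le_sum fun p hp => (hcon p.1 p.2 (mem_filter.1 hp).2).le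
      _ = P.card * Y := by rw [sum_const, nsmul_eq_mul]
  have h3 : (P.card : ℝ) ≤ 16 * (K : ℝ) ^ 2 := by
    have h4 : P.card ≤ (4 * K) * (4 * K) := by
      refine (card_filter_le _ _).trans ?_
      rw [card_univ, Fintype.card_prod, Fintype.card_fin]
    have h5 : (P.card : ℝ) ≤ (((4 * K) * (4 * K) : ℕ) : ℝ) := by exact_mod_cast h4
    refine h5.trans (le_of_eq ?_)
    push_cast
    ring
  have h6 : X ≤ 16 * (K : ℝ) ^ 2 * Y := by
    refine hX.trans ?_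
    refine le_trans ?_ (h2.trans (mul_le_mul_of_nonneg_right h3 hY))
    exact_mod_cast h1
  linarith

open Classical in
/-- two forms of the same slope -/
theorem same (N : ℕ) (s : ℤ) (hs : s = 1 ∨ s = -1) (ρ a b : ℕ) (hab : a ≤ b)
    (hN : ρ + 2 * b ≤ N) :
    ((Icc 1 N).filter (fun n : ℕ => (n : ℝ) ≤ N / 2 ∧
      ((N : ℤ) + s * n + ((ρ : ℤ) + 2 * (a : ℤ))).toNat.Prime ∧
      ((N : ℤ) + s * n + ((ρ : ℤ) + 2 * (b : ℤ))).toNat.Prime)).card ≤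
    ((Icc 1 (3 * N)).filter (fun p : ℕ => p.Prime ∧ (p + 2 * (b - a)).Prime)).card := by
  refine card_le_card_of_injOn (fun n : ℕ => ((N : ℤ) + s * n + ((ρ : ℤ) + 2 * (a : ℤ))).toNat)
    ?_ ?_
  · intro n hn
    obtain ⟨hn1, hn2, hn3, hn4⟩ := mem_filter.1 hn
    have h2n : 2 * n ≤ N := by
      have : 2 * (n : ℝ) ≤ N := by linarith
      exact_mod_cast this
    have hn1' := mem_Icc.1 hn1
    refine mem_filter.2 ⟨mem_Icc.2 ⟨hn3.one_lt.le, ?_⟩, hn3, ?_⟩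
    · show ((N : ℤ) + s * n + ((ρ : ℤ) + 2 * (a : ℤ))).toNat ≤ 3 * N
      rcases hs with rfl | rfl <;> omega
    · have e : ((N : ℤ) + s * n + ((ρ : ℤ) + 2 * (a : ℤ))).toNat + 2 * (b - a) =
          ((N : ℤ) + s * n + ((ρ : ℤ) + 2 * (b : ℤ))).toNat := by
        rcases hs with rfl | rfl <;> omega
      show (((N : ℤ) + s * n + ((ρ : ℤ) + 2 * (a : ℤ))).toNat + 2 * (b - a)).Prime
      rw [e]
      exact hn4
  · intro n hn n' hn' h
    have hn1 := mem_Icc.1 (mem_filter.1 hn).1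
    have hn1' := mem_Icc.1 (mem_filter.1 hn').1
    have h' : ((N : ℤ) + s * n + ((ρ : ℤ) + 2 * (a : ℤ))).toNat =
      ((N : ℤ) + s * n' + ((ρ : ℤ) + 2 * (a : ℤ))).toNat := h
    rcases hs with rfl | rfl <;> omega

open Classical in
/-- two forms of different slopes -/
theorem mixed (N : ℕ) (h1 h2 : ℤ) (h10 : 0 ≤ h1) (h1N : h1 ≤ N) (h20 : 0 ≤ h2) :
    ((Icc 1 N).filter (fun n : ℕ => (n : ℝ) ≤ N / 2 ∧
      ((N : ℤ) + 1 * n + h1).toNat.Prime ∧ ((N : ℤ) + (-1) * n + h2).toNat.Prime)).card ≤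
    ((Icc 1 (3 * N)).filter (fun p : ℕ =>
      p.Prime ∧ ∃ q : ℕ, q.Prime ∧ (p : ℤ) + q = 2 * N + (h1 + h2))).card := by
  refine card_le_card_of_injOn (fun n : ℕ => ((N : ℤ) + 1 * n + h1).toNat) ?_ ?_
  · intro n hn
    obtain ⟨hn1, hn2, hn3, hn4⟩ := mem_filter.1 hn
    have h2n : 2 * n ≤ N := by
      have : 2 * (n : ℝ) ≤ N := by linarith
      exact_mod_cast this
    have hn1' := mem_Icc.1 hn1
    refine mem_filter.2 ⟨mem_Icc.2 ⟨hn3.one_lt.le, ?_⟩, hn3, ?_⟩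
    · show ((N : ℤ) + 1 * n + h1).toNat ≤ 3 * N
      omega
    · refine ⟨((N : ℤ) + (-1) * n + h2).toNat, hn4, ?_⟩
      show (((N : ℤ) + 1 * n + h1).toNat : ℤ) + (((N : ℤ) + (-1) * n + h2).toNat : ℤ) = _
      omega
  · intro n hn n' hn' h
    have h' : ((N : ℤ) + 1 * n + h1).toNat = ((N : ℤ) + 1 * n' + h1).toNat := h
    omega

/-- growth -/
theorem growth (C η : ℝ) (hη : 0 < η) :
    ∀ᶠ N : ℕ in atTop, C * (N : ℝ) ^ (1 - η) < (N : ℝ) ^ (1 - η / 2) := by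
  have h1 : Tendsto (fun N : ℕ => (N : ℝ) ^ (η / 2)) atTop atTop :=
    (tendsto_rpow_atTop (by linarith : 0 < η / 2)).comp tendsto_natCast_atTop_atTop
  filter_upwards [h1.eventually_gt_atTop C, eventually_gt_atTop 0] with N hN hN0
  have hNr : (0 : ℝ) < N := by exact_mod_cast hN0
  have h2 : (N : ℝ) ^ (1 - η / 2) = (N : ℝ) ^ (η / 2) * (N : ℝ) ^ (1 - η) := by
    rw [← Real.rpow_add hNr]
    congr 1
    ring
  rw [h2]
  exact mul_lt_mul_of_pos_right hN (Real.rpow_pos_of_pos hNr _)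

/-- residues -/
theorem exists_res (W : ℕ) (hW : 0 < W) (x : ℤ) : ∃ r : ℕ, r < W ∧ (W : ℤ) ∣ x + r := by
  have hW0 : (W : ℤ) ≠ 0 := by exact_mod_cast hW.ne'
  refine ⟨((-x) % W).toNat, ?_, ?_⟩
  · have h1 := Int.emod_lt_of_pos (-x) (by exact_mod_cast hW : (0 : ℤ) < W)
    have h2 := Int.emod_nonneg (-x) hW0
    omega
  · have h2 := Int.emod_nonneg (-x) hW0
    rw [Int.toNat_of_nonneg h2]
    have h3 := Int.emod_add_mul_ediv (-x) W
    refine ⟨-((-x) / W), ?_⟩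
    linarith

end Pool.Agent.W597.UBC2
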