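import Mathlib

set_option autoImplicit false

/-! Complete bipartite configurations in dense subsets of windows (Kovari-Sos-Turan). -/

namespace Pool.Agent.W597.UBC2

open Finset

theorem kst (K W : ℕ) (hK : 1 ≤ K) (hW : 1 ≤ W) (ε : ℝ) (hε : 0 < ε) : ∃ m L₀ : ℕ,
    ∀ L, L₀ ≤ L → ∀ (u : ℕ) (E : Finset ℕ), E ⊆ Ioc u (u + L) → ε * (L : ℝ) < (E.card : ℝ) →
    ∃ (c : ℕ) (A B : Finset ℕ), A.card = K ∧ B.card = K ∧ (∀ a ∈ A, W ∣ a ∧ a < m * W) ∧
      (∀ b ∈ B, b % W = c ∧ b ≤ u + L + m * W) ∧ ∀ a ∈ A, ∀ b ∈ B, a ≤ b ∧ b - a ∈ E := by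
  classical
  obtain ⟨m, hm⟩ := exists_nat_ge (2 * (K : ℝ) / ε)
  have hKr : (1 : ℝ) ≤ K := by exact_mod_cast hK
  have hm2 : 2 * (K : ℝ) ≤ m * ε := by rwa [div_le_iff₀ hε] at hm
  have hm0 : (0 : ℝ) < m := by
    by_contra hneg
    push Not at hneg
    nlinarith
  obtain ⟨L₀, hL₀⟩ := exists_nat_ge (2 * ((K : ℝ) * W + K * W * 2 ^ m) / ε)
  refine ⟨m, L₀, fun L hL u E hE hEc => ?_⟩
  have hL₀' : 2 * ((K : ℝ) * W + K * W * 2 ^ m) ≤ L * ε := by
    rw [div_le_iff₀ hε] at hL₀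
    refine hL₀.trans (mul_le_mul_of_nonneg_right ?_ hε.le)
    exact_mod_cast hL
  set A0 : Finset ℕ := (range m).image (fun j => j * W) with hA0
  have hA0c : A0.card = m := by
    rw [hA0, card_image_of_injective, card_range]
    intro a b hab
    exact Nat.eq_of_mul_eq_mul_right hW hab
  have hA0m : ∀ a ∈ A0, W ∣ a ∧ a < m * W := by
    intro a ha
    rw [hA0, mem_image] at ha
    obtain ⟨j, hj, rfl⟩ := ha
    exact ⟨Dvd.intro_left j rfl, Nat.mul_lt_mul_of_pos_right (mem_range.1 hj) hW⟩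
  set S : Finset ℕ := Ioc u (u + L + m * W) with hS
  have hSc : S.card = L + m * W := by
    rw [hS, Nat.card_Ioc]; omega
  set Nb : ℕ → Finset ℕ := fun b => A0.filter (fun a => a ≤ b ∧ b - a ∈ E) with hNb
  set G : Finset ℕ := S.filter (fun b => K ≤ (Nb b).card) with hG
  have h1 : m * E.card ≤ ∑ b ∈ S, (Nb b).card := by
    have e1 : ∑ b ∈ S, (Nb b).card = ∑ a ∈ A0, (S.filter (fun b => a ≤ b ∧ b - a ∈ E)).card := by
      simp only [hNb, card_filter]
      exact sum_comm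
    rw [e1]
    calc m * E.card = ∑ a ∈ A0, E.card := by rw [sum_const, hA0c, smul_eq_mul]
      _ ≤ _ := by
        refine sum_le_sum fun a ha => ?_
        refine card_le_card_of_injOn (fun e => e + a) ?_ ?_
        · intro e he
          have h2 := mem_Ioc.1 (hE he)
          have h3 := (hA0m a ha).2
          simp only [hS, coe_filter, Set.mem_ofPred_eq, mem_Ioc]
          refine ⟨⟨by omega, by omega⟩, by omega, ?_⟩
          rw [Nat.add_sub_cancel]
          exact he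
        · intro e _ e' _ h
          exact Nat.add_right_cancel h
  have h2 : ∑ b ∈ S, (Nb b).card ≤ m * G.card + K * S.card := by
    have e2 : ∀ b ∈ S, (Nb b).card ≤ (if K ≤ (Nb b).card then m else 0) + K := by
      intro b _
      split_ifs with h
      · have : (Nb b).card ≤ A0.card := card_le_card (filter_subset _ _)
        omega
      · omega
    calc ∑ b ∈ S, (Nb b).card ≤ ∑ b ∈ S, ((if K ≤ (Nb b).card then m else 0) + K) := sum_le_sum e2
      _ = m * G.card + K * S.card := by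
        rw [sum_add_distrib, ← sum_filter, sum_const, sum_const, smul_eq_mul, smul_eq_mul]
        ring
  have h3 : (m : ℝ) * E.card ≤ m * G.card + K * (L + m * W) := by
    have := h1.trans h2
    rw [hSc] at this
    exact_mod_cast this
  have h4 : (K : ℝ) * W * 2 ^ m < G.card := by
    have h5 : (m : ℝ) * (ε * L) < m * E.card := mul_lt_mul_of_pos_left hEc hm0
    have h6 : (0 : ℝ) ≤ L := Nat.cast_nonneg L
    have h7 : 2 * (K : ℝ) * L ≤ m * ε * L := mul_le_mul_of_nonneg_right hm2 h6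
    have h8 : (m : ℝ) * (2 * (K * W + K * W * 2 ^ m)) ≤ m * (L * ε) :=
      mul_le_mul_of_nonneg_left hL₀' hm0.le
    have h9 : (m : ℝ) * (K * W * 2 ^ m) < m * G.card := by nlinarith
    exact lt_of_mul_lt_mul_left h9 hm0.le
  have h4' : W * 2 ^ m * K < G.card := by
    have : (K : ℝ) * W * 2 ^ m = ((W * 2 ^ m * K : ℕ) : ℝ) := by push_cast; ring
    rw [this] at h4
    exact_mod_cast h4
  have hch : ∀ b, ∃ t : Finset ℕ, K ≤ (Nb b).card → t ⊆ Nb b ∧ t.card = K := by
    intro b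
    by_cases h : K ≤ (Nb b).card
    · obtain ⟨t, ht, htc⟩ := exists_subset_card_eq h
      exact ⟨t, fun _ => ⟨ht, htc⟩⟩
    · exact ⟨∅, fun h' => absurd h' h⟩
  choose F hF using hch
  have hpg := exists_lt_card_fiber_of_mul_lt_card_of_maps_to (s := G)
    (t := (range W) ×ˢ A0.powerset) (f := fun b => (b % W, F b)) (n := K) (by
      intro b hb
      refine mem_product.2 ⟨mem_range.2 (Nat.mod_lt _ hW), mem_powerset.2 ?_⟩
      have hb' : K ≤ (Nb b).card := (mem_filter.1 hb).2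
      exact (hF b hb').1.trans (filter_subset _ _)) (by
      rw [card_product, card_range, card_powerset, hA0c]
      exact h4')
  obtain ⟨⟨c, A⟩, -, hfib⟩ := hpg
  obtain ⟨B, hBs, hBc⟩ := exists_subset_card_eq hfib.le
  have hB : ∀ b ∈ B, b ∈ S ∧ K ≤ (Nb b).card ∧ b % W = c ∧ F b = A := by
    intro b hb
    have h5 := mem_filter.1 (hBs hb)
    have h6 := mem_filter.1 h5.1
    have h7 : (b % W, F b) = (c, A) := h5.2
    rw [Prod.mk.injEq] at h7
    exact ⟨h6.1, h6.2, h7.1, h7.2⟩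
  have hBne : B.Nonempty := by
    rw [← card_pos, hBc]; omega
  obtain ⟨b0, hb0⟩ := hBne
  have hb0' := hB b0 hb0
  have hAc : A.card = K := by
    rw [← hb0'.2.2.2]
    exact (hF b0 hb0'.2.1).2
  have hAA : A ⊆ A0 := by
    rw [← hb0'.2.2.2]
    exact (hF b0 hb0'.2.1).1.trans (filter_subset _ _)
  refine ⟨c, A, B, hAc, hBc, fun a ha => hA0m a (hAA ha), fun b hb => ?_, fun a ha b hb => ?_⟩
  · have h5 := hB b hb
    exact ⟨h5.2.2.1, (mem_Ioc.1 h5.1).2⟩
  · have h5 := hB b hb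
    rw [← h5.2.2.2] at ha
    exact (mem_filter.1 ((hF b h5.2.1).1 ha)).2

end Pool.Agent.W597.UBC2
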