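import Mathlib
import Pool.Agent.W25.UB.Stm4
import Pool.Agent.W597.UBKst
import Pool.Agent.W597.UBForms
import Pool.Agent.W597.UBCnt

set_option autoImplicit false

/-! UB-C2: the dichotomy. -/

namespace Pool.Agent.W597.UBC2

open Finset Filter Topology
open Pool.Agent.W25.UN (Fm uB wB)
open Pool.Agent.H410R2 (WW)
open Pool.Agent.W25.UB

theorem Fm_eval (K N r r' : ℕ) (fA fB : Fin K → ℕ) (g : Fin 4) (j : Fin K) (n : ℤ) :
    Fm (al K) (hh K r r' fA fB) N (finProdFinEquiv (g, j)) n =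
      (N : ℤ) + (if g.val < 2 then 1 else -1) * n + ((if g.val < 2 then (r : ℤ) else r') +
        2 * (if g.val = 0 ∨ g.val = 3 then (fA j : ℤ) else fB j)) := by
  simp only [Fm, al, hh, Equiv.symm_apply_apply]

theorem hh_bound (K r r' W X : ℕ) (fA fB : Fin K → ℕ) (hr : r ≤ W) (hr' : r' ≤ W)
    (hA : ∀ j, fA j ≤ X) (hB : ∀ j, fB j ≤ X) (i : Fin (4 * K)) :
    0 ≤ hh K r r' fA fB i ∧ hh K r r' fA fB i ≤ W + 2 * X := by
  have h1 := hA (finProdFinEquiv.symm i).2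
  have h2 := hB (finProdFinEquiv.symm i).2
  unfold hh
  split_ifs <;> constructor <;> omega

open Classical in
theorem main (hV : ThmV) : St_C2 := by
  obtain ⟨K, hK2, hV⟩ := hV
  set W : ℕ := (4 * K + 2).factorial with hWdef
  have hW0 : 0 < W := Nat.factorial_pos _
  have hWp : ∀ p : ℕ, p.Prime → p ≤ 4 * K + 2 → p ∣ W := fun p hp hle => (hp.dvd_factorial).2 hle
  intro ε hε
  obtain ⟨m, L₀, hkst⟩ := kst K W (by omega) hW0 ε hε
  refine ⟨L₀, fun L hL u => ?_⟩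
  set X : ℕ := u + L + m * W + 1 with hX
  refine ⟨2 * (W + 2 * X), fun η hη => ?_⟩
  have hD : ∀ x : (Fin W × Fin W) × ((Fin K → Fin X) × (Fin K → Fin X)), ∃ D₀ : ℕ,
      (Function.Injective x.2.1 ∧ Function.Injective x.2.2 ∧ ∀ i j, x.2.1 i ≠ x.2.2 j) →
      ∀ D : ℕ, D₀ ≤ D → ∀ η : ℝ, 0 < η → ∀ᶠ N : ℕ in atTop, ∀ v : ℕ,
      CopAt (al K) (hh K x.1.1 x.1.2 (fun j => x.2.1 j) (fun j => x.2.2 j)) D N v →
      (N : ℝ) ^ (1 - η) ≤ (((Icc 1 N).filter (fun n : ℕ => n ≡ v [MOD (WW D)] ∧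
        (N : ℝ) / 16 ≤ n ∧ (n : ℝ) ≤ N / 2 ∧
        2 ≤ (univ.filter (fun g : Fin 4 => ∃ i, cls K i = g ∧
          (Fm (al K) (hh K x.1.1 x.1.2 (fun j => x.2.1 j) (fun j => x.2.2 j)) N i
            n).toNat.Prime)).card)).card : ℝ) := by
    intro x
    by_cases hx : (Function.Injective x.2.1 ∧ Function.Injective x.2.2 ∧ ∀ i j, x.2.1 i ≠ x.2.2 j)
    · obtain ⟨D₀, h⟩ := hV (al K) (hh K x.1.1 x.1.2 (fun j => x.2.1 j) (fun j => x.2.2 j)) (cls K)
        (by intro g; convert cls_card K g) (al_or K)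
        (distinct K _ _ _ _ (fun a b hab => hx.1 (Fin.ext hab)) (fun a b hab => hx.2.1 (Fin.ext hab))
          (fun i j hij => hx.2.2 i j (Fin.ext hij)))
      exact ⟨D₀, fun _ => h⟩
    · exact ⟨0, fun h => absurd h hx⟩
  choose D₀ hD₀ using hD
  set D : ℕ := univ.sup D₀ with hDdef
  have hev : ∀ᶠ N : ℕ in atTop, ∀ x : (Fin W × Fin W) × ((Fin K → Fin X) × (Fin K → Fin X)),
      (Function.Injective x.2.1 ∧ Function.Injective x.2.2 ∧ ∀ i j, x.2.1 i ≠ x.2.2 j) → ∀ v : ℕ,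
      CopAt (al K) (hh K x.1.1 x.1.2 (fun j => x.2.1 j) (fun j => x.2.2 j)) D N v →
      (N : ℝ) ^ (1 - η / 2) ≤ (((Icc 1 N).filter (fun n : ℕ => n ≡ v [MOD (WW D)] ∧
        (N : ℝ) / 16 ≤ n ∧ (n : ℝ) ≤ N / 2 ∧
        2 ≤ (univ.filter (fun g : Fin 4 => ∃ i, cls K i = g ∧
          (Fm (al K) (hh K x.1.1 x.1.2 (fun j => x.2.1 j) (fun j => x.2.2 j)) N i
            n).toNat.Prime)).card)).card : ℝ) := by
    rw [Filter.eventually_all]
    intro x
    by_cases hx : (Function.Injective x.2.1 ∧ Function.Injective x.2.2 ∧ ∀ i j, x.2.1 i ≠ x.2.2 j)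
    · filter_upwards [hD₀ x hx D (le_sup (mem_univ x)) (η / 2) (by linarith)] with N hN _ v hv
      exact hN v hv
    · exact Eventually.of_forall (fun N h => absurd h hx)
  filter_upwards [hev, growth (16 * (K : ℝ) ^ 2) η hη, eventually_ge_atTop (2 * (W + 2 * X))]
    with N hN hgr hNbig
  rw [or_iff_not_imp_right]
  intro hnot
  push Not at hnot
  set E : Finset ℕ := (Ioc u (u + L)).filter (fun k : ℕ => ¬ ((N : ℝ) ^ (1 - η) ≤
      (((Icc 1 (3 * N)).filter (fun p : ℕ => p.Prime ∧ (p + 2 * k).Prime)).card : ℝ))) with hE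
  have hEc : ε * (L : ℝ) < (E.card : ℝ) := by
    have h1 := card_filter_add_card_filter_not (s := Ioc u (u + L)) (fun k : ℕ => (N : ℝ) ^ (1 - η) ≤
      (((Icc 1 (3 * N)).filter (fun p : ℕ => p.Prime ∧ (p + 2 * k).Prime)).card : ℝ))
    rw [Nat.card_Ioc, Nat.add_sub_cancel_left] at h1
    have h2 : (((Ioc u (u + L)).filter (fun k : ℕ => (N : ℝ) ^ (1 - η) ≤
      (((Icc 1 (3 * N)).filter (fun p : ℕ => p.Prime ∧ (p + 2 * k).Prime)).card : ℝ))).card : ℝ) +
      (E.card : ℝ) = L := by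
      rw [hE]
      exact_mod_cast h1
    linarith
  obtain ⟨c, A, B, hAc, hBc, hA, hB, hAB⟩ := hkst L hL u E (filter_subset _ _) hEc
  set fA : Fin K → ℕ := fun j => A.orderEmbOfFin hAc j with hfA
  set fB : Fin K → ℕ := fun j => B.orderEmbOfFin hBc j with hfB
  have hfAm : ∀ j, fA j ∈ A := fun j => A.orderEmbOfFin_mem hAc j
  have hfBm : ∀ j, fB j ∈ B := fun j => B.orderEmbOfFin_mem hBc j
  have hfAX : ∀ j, fA j < X := by
    intro j
    have := (hA _ (hfAm j)).2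
    omega
  have hfBX : ∀ j, fB j < X := by
    intro j
    have := (hB _ (hfBm j)).2
    omega
  obtain ⟨r, hrW, hr⟩ := exists_res W hW0 N
  obtain ⟨r', hrW', hr'⟩ := exists_res W hW0 (N + 2 * c)
  have hEab : ∀ i j, fA i ≤ fB j ∧ fB j - fA i ∈ E := fun i j => hAB _ (hfAm i) _ (hfBm j)
  obtain ⟨v, hv⟩ := copAt_exists (al K) (hh K r r' fA fB) D N (local_sol K W N r r' c hWp fA fB
    (fun j => (hA _ (hfAm j)).1) (by
      intro j
      have h1 := (hB _ (hfBm j)).1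
      have h2 := Nat.div_add_mod (fB j) W
      rw [h1] at h2
      refine ⟨((fB j / W : ℕ) : ℤ), ?_⟩
      have h3 : ((W * (fB j / W) + c : ℕ) : ℤ) = (fB j : ℤ) := by rw [h2]
      push_cast at h3 ⊢
      linarith) hr hr')
  have hmain := hN ((⟨r, hrW⟩, ⟨r', hrW'⟩), (fun j => ⟨fA j, hfAX j⟩, fun j => ⟨fB j, hfBX j⟩))
    ⟨by
      intro a b hab
      have h1 : fA a = fA b := congrArg Fin.val hab
      exact (A.orderEmbOfFin hAc).injective h1, by
      intro a b hab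
      have h1 : fB a = fB b := congrArg Fin.val hab
      exact (B.orderEmbOfFin hBc).injective h1, by
      intro i j hij
      have h1 : fA i = fB j := congrArg Fin.val hij
      have h2 := (hEab i j).2
      rw [hE, mem_filter, mem_Ioc] at h2
      omega⟩ v hv
  obtain ⟨i, i', hlt, hcard⟩ := pigeon K N v D (hh K r r' fA fB) ((N : ℝ) ^ (1 - η / 2))
    ((N : ℝ) ^ (1 - η)) (Real.rpow_nonneg (Nat.cast_nonneg N) _) hmain hgr
  obtain ⟨⟨g, j⟩, rfl⟩ := finProdFinEquiv.surjective i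
  obtain ⟨⟨g', j'⟩, rfl⟩ := finProdFinEquiv.surjective i'
  simp only [cls, Equiv.symm_apply_apply] at hlt
  have hcases : (g = 0 ∧ g' = 1) ∨ (g = 2 ∧ g' = 3) ∨ (g.val < 2 ∧ ¬ g'.val < 2) := by
    revert hlt
    fin_cases g <;> fin_cases g' <;> simp
  have hEnot : ∀ k ∈ E, (((Icc 1 (3 * N)).filter (fun p : ℕ =>
      p.Prime ∧ (p + 2 * k).Prime)).card : ℝ) < (N : ℝ) ^ (1 - η) := by
    intro k hk
    rw [hE, mem_filter] at hk
    exact not_le.1 hk.2
  rcases hcases with ⟨rfl, rfl⟩ | ⟨rfl, rfl⟩ | ⟨hg, hg'⟩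
  · exfalso
    have h1 := hEab j j'
    have h2 := same N 1 (Or.inl rfl) r (fA j) (fB j') h1.1 (by
      have := hfBX j'
      omega)
    have h3 : TT K N (hh K r r' fA fB) (finProdFinEquiv (0, j)) (finProdFinEquiv (1, j')) =
        (Icc 1 N).filter (fun n : ℕ => (n : ℝ) ≤ N / 2 ∧
      ((N : ℤ) + 1 * n + ((r : ℤ) + 2 * (fA j : ℤ))).toNat.Prime ∧
      ((N : ℤ) + 1 * n + ((r : ℤ) + 2 * (fB j' : ℤ))).toNat.Prime) := by
      unfold TT
      simp only [Fm_eval]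
      simp
    rw [h3] at hcard
    have h4 := hEnot _ h1.2
    have h5 : ((((Icc 1 N).filter (fun n : ℕ => (n : ℝ) ≤ N / 2 ∧
      ((N : ℤ) + 1 * n + ((r : ℤ) + 2 * (fA j : ℤ))).toNat.Prime ∧
      ((N : ℤ) + 1 * n + ((r : ℤ) + 2 * (fB j' : ℤ))).toNat.Prime)).card : ℕ) : ℝ) ≤ _ :=
      Nat.cast_le.2 h2
    linarith
  · exfalso
    have h1 := hEab j' j
    have h2 := same N (-1) (Or.inr rfl) r' (fA j') (fB j) h1.1 (by
      have := hfBX j
      omega)
    have h3 : TT K N (hh K r r' fA fB) (finProdFinEquiv (2, j)) (finProdFinEquiv (3, j')) =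
        (Icc 1 N).filter (fun n : ℕ => (n : ℝ) ≤ N / 2 ∧
      ((N : ℤ) + -1 * n + ((r' : ℤ) + 2 * (fA j' : ℤ))).toNat.Prime ∧
      ((N : ℤ) + -1 * n + ((r' : ℤ) + 2 * (fB j : ℤ))).toNat.Prime) := by
      unfold TT
      simp only [Fm_eval]
      apply filter_congr
      intro n _
      simp
      tauto
    rw [h3] at hcard
    have h4 := hEnot _ h1.2
    have h5 : ((((Icc 1 N).filter (fun n : ℕ => (n : ℝ) ≤ N / 2 ∧
      ((N : ℤ) + -1 * n + ((r' : ℤ) + 2 * (fA j' : ℤ))).toNat.Prime ∧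
      ((N : ℤ) + -1 * n + ((r' : ℤ) + 2 * (fB j : ℤ))).toNat.Prime)).card : ℕ) : ℝ) ≤ _ :=
      Nat.cast_le.2 h2
    linarith
  · set h1 : ℤ := hh K r r' fA fB (finProdFinEquiv (g, j)) with hh1
    set h2 : ℤ := hh K r r' fA fB (finProdFinEquiv (g', j')) with hh2
    have hb1 := hh_bound K r r' W X fA fB hrW.le hrW'.le (fun j => (hfAX j).le)
      (fun j => (hfBX j).le) (finProdFinEquiv (g, j))
    have hb2 := hh_bound K r r' W X fA fB hrW.le hrW'.le (fun j => (hfAX j).le)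
      (fun j => (hfBX j).le) (finProdFinEquiv (g', j'))
    rw [← hh1] at hb1
    rw [← hh2] at hb2
    refine ⟨h1 + h2, ?_, ?_⟩
    · rw [abs_of_nonneg (by linarith)]
      push_cast
      linarith
    · have h3 : TT K N (hh K r r' fA fB) (finProdFinEquiv (g, j)) (finProdFinEquiv (g', j')) =
          (Icc 1 N).filter (fun n : ℕ => (n : ℝ) ≤ N / 2 ∧
            ((N : ℤ) + 1 * n + h1).toNat.Prime ∧ ((N : ℤ) + (-1) * n + h2).toNat.Prime) := by
        have e1 : al K (finProdFinEquiv (g, j)) = 1 := by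
          simp only [al, Equiv.symm_apply_apply, if_pos hg]
        have e2 : al K (finProdFinEquiv (g', j')) = -1 := by
          simp only [al, Equiv.symm_apply_apply, if_neg hg']
        unfold TT Fm
        rw [e1, e2]
      rw [h3] at hcard
      refine hcard.trans ?_
      exact Nat.cast_le.2 (mixed N h1 h2 hb1.1 (by omega) hb2.1)

end Pool.Agent.W597.UBC2
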