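import Pool.Agent.W997.CF.Stm

/-!
# A program over the positions gives a program over the variables
-/

set_option autoImplicit false

namespace Pool.Agent.W597.CFTRANS

open Pool.Agent.W997.CF Pool.Agent.W997.TS

/-- the variable of a letter of a template -/
def qv {V : Type} (v0 : V) : TL V → V
  | .inl _ => v0
  | .inr (u, _) => u

/-- the letter of the word, from the letter at the variable -/
def lt {V : Type} {k : ℕ} (c : Fin k) : TL V → Fin 6
  | .inl a => a
  | .inr (_, e) => if c.val.testBit e then 1 else 0

lemma lt_ev {V : Type} {k : ℕ} (v0 : V) (x : V → Fin k) (a : TL V) :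
    lt (x (qv v0 a)) a = ev x a := by
  rcases a with a | ⟨u, e⟩ <;> rfl

/-- the translated program -/
def tr {V : Type} (k : ℕ) {m : ℕ} (P : DBP (Fin m) 6) (T : Fin m → TL V) (v0 : V) : DBP V k where
  State := P.State
  start := P.start
  query q := qv v0 (T (P.query q))
  next q c := P.next q (lt c (T (P.query q)))

lemma tr_path {V : Type} {k m : ℕ} (P : DBP (Fin m) 6) (T : Fin m → TL V) (v0 : V) (x : V → Fin k)
    (w : Fin m → Fin 6) (h : ∀ i, w i = ev x (T i)) (r : Bool) (l : List P.State) :
    ∀ q : P.State, P.IsPath w q l r → (tr k P T v0).IsPath x q l r := by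
  have hn : ∀ q : P.State, (tr k P T v0).next q (x ((tr k P T v0).query q)) =
      P.next q (w (P.query q)) := by
    intro q
    show P.next q (lt (x (qv v0 (T (P.query q)))) (T (P.query q))) = _
    rw [lt_ev, h]
  induction l with
  | nil =>
    intro q hq
    show (tr k P T v0).next q (x ((tr k P T v0).query q)) = Sum.inr r
    rw [hn]
    exact hq
  | cons q' l ih =>
    intro q hq
    refine ⟨?_, ih q' hq.2⟩
    rw [hn]
    exact hq.1

theorem main : S_TRANS := by
  intro V _ k m P T v0
  refine ⟨tr k P T v0, rfl, ?_⟩
  intro x w h t s r ⟨l, h1, h2, h3⟩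
  refine ⟨_, ?_, l, tr_path P T v0 x w h r l _ h1, h2, rfl⟩
  rw [← h3]
  have e : ((tr k P T v0).start :: l).map (tr k P T v0).query =
      ((P.start :: l).map P.query).map (fun i => qv v0 (T i)) := by
    rw [List.map_map]
    rfl
  have e2 : (((P.start :: l).map P.query).map (fun i => qv v0 (T i))).toFinset =
      ((P.start :: l).map P.query).toFinset.image (fun i => qv v0 (T i)) := by
    ext u
    simp
  rw [e, e2]
  exact Finset.card_image_le

end Pool.Agent.W597.CFTRANS
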