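import Pool.Agent.W597.SquareB

set_option autoImplicit false

namespace Pool.Agent.W597.Square

open FreeGroup List MatrixGroups Matrix Pool.Agent.W597

/-- the open unit square -/
def InQ (v : Fin 2 → ℝ) : Prop := ∀ k, 0 < v k ∧ v k < 1

theorem inQ_t (i : Fin 15) (v : Fin 2 → ℝ)
    (h1 : 0 < (mA i : ℝ) * v 0 + mB i * v 1) (h2 : (mA i : ℝ) * v 0 + mB i * v 1 < 101)
    (h3 : 0 < (mC i : ℝ) * v 0 + mD i * v 1) (h4 : (mC i : ℝ) * v 0 + mD i * v 1 < 101) :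
    InQ ((t i).1.mulVec v) := by
  have e0 : ((t i).1.mulVec v) 0 = ((mA i : ℝ) * v 0 + mB i * v 1) / 101 := by
    simp [t, Matrix.mulVec, dotProduct, Fin.sum_univ_two]; ring
  have e1 : ((t i).1.mulVec v) 1 = ((mC i : ℝ) * v 0 + mD i * v 1) / 101 := by
    simp [t, Matrix.mulVec, dotProduct, Fin.sum_univ_two]; ring
  intro k
  fin_cases k
  · show 0 < ((t i).1.mulVec v) 0 ∧ ((t i).1.mulVec v) 0 < 1
    rw [e0]
    exact ⟨by positivity, by rw [div_lt_one (by norm_num)]; exact h2⟩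
  · show 0 < ((t i).1.mulVec v) 1 ∧ ((t i).1.mulVec v) 1 < 1
    rw [e1]
    exact ⟨by positivity, by rw [div_lt_one (by norm_num)]; exact h4⟩

theorem cover (v : Fin 2 → ℝ) (hv : InQ v) : ∃ i j k : Fin 15, i ≠ j ∧ i ≠ k ∧ j ≠ k ∧
    InQ ((t i).1.mulVec v) ∧ InQ ((t j).1.mulVec v) ∧ InQ ((t k).1.mulVec v) := by
  obtain ⟨hx0, hx1⟩ := hv 0
  obtain ⟨hy0, hy1⟩ := hv 1
  rcases lt_or_ge (v 0) (7 / 8) with hx | hx
  · rcases lt_or_ge (v 1) (7 / 8) with hy | hy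
    · refine ⟨12, 13, 14, by decide, by decide, by decide, ?_, ?_, ?_⟩ <;> apply inQ_t <;>
        simp [mA, mB, mC, mD] <;> linarith
    · rcases le_total (v 0) (1 / 2) with h | h
      · refine ⟨6, 7, 8, by decide, by decide, by decide, ?_, ?_, ?_⟩ <;> apply inQ_t <;>
          simp [mA, mB, mC, mD] <;> linarith
      · refine ⟨9, 10, 11, by decide, by decide, by decide, ?_, ?_, ?_⟩ <;> apply inQ_t <;>
          simp [mA, mB, mC, mD] <;> linarith
  · rcases le_total (v 1) (1 / 2) with h | h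
    · refine ⟨0, 1, 2, by decide, by decide, by decide, ?_, ?_, ?_⟩ <;> apply inQ_t <;>
        simp [mA, mB, mC, mD] <;> linarith
    · refine ⟨3, 4, 5, by decide, by decide, by decide, ?_, ?_, ?_⟩ <;> apply inQ_t <;>
        simp [mA, mB, mC, mD] <;> linarith

/-- **Two disjoint copies.** There are two maps of the square into itself, given piecewise by the
fifteen matrices, and a function which recovers the matrix used from the image. -/
theorem exists_two : ∃ (i₁ i₂ : (Fin 2 → ℝ) → Fin 15) (m : (Fin 2 → ℝ) → Fin 15),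
    ∀ v, InQ v → i₁ v ≠ i₂ v ∧ InQ ((t (i₁ v)).1.mulVec v) ∧ InQ ((t (i₂ v)).1.mulVec v) ∧
      m ((t (i₁ v)).1.mulVec v) = i₁ v ∧ m ((t (i₂ v)).1.mulVec v) = i₂ v := by
  classical
  obtain ⟨l, hl⟩ := exists_par
  let m : (Fin 2 → ℝ) → Fin 15 := fun v => if h : v ≠ 0 then (l ⟨v, h⟩).1 else 0
  have hne : ∀ v, InQ v → v ≠ 0 := by
    intro v hv h0
    have := (hv 0).1
    rw [h0] at this
    simp at this
  have hm : ∀ v (hv : InQ v) (i : Fin 15), InQ ((t i).1.mulVec v) →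
      l ⟨v, hne v hv⟩ ≠ (i, true) → m ((t i).1.mulVec v) = i := by
    intro v hv i hi h
    have h1 := (hl ⟨v, hne v hv⟩ i).resolve_left h
    show (if h : (t i).1.mulVec v ≠ 0 then (l ⟨_, h⟩).1 else 0) = i
    rw [dif_pos (hne _ hi)]
    have h2 : l (⟨(t i).1.mulVec v, hne _ hi⟩ : Vec) = (i, false) := h1
    rw [h2]
  have hex : ∀ v, InQ v → ∃ i j : Fin 15, i ≠ j ∧ InQ ((t i).1.mulVec v) ∧
      InQ ((t j).1.mulVec v) ∧ m ((t i).1.mulVec v) = i ∧ m ((t j).1.mulVec v) = j := by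
    intro v hv
    obtain ⟨i, j, k, hij, hik, hjk, h1, h2, h3⟩ := cover v hv
    by_cases ci : l ⟨v, hne v hv⟩ = (i, true)
    · have cj : l ⟨v, hne v hv⟩ ≠ (j, true) := by
        rw [ci]; intro h; exact hij (congrArg Prod.fst h)
      have ck : l ⟨v, hne v hv⟩ ≠ (k, true) := by
        rw [ci]; intro h; exact hik (congrArg Prod.fst h)
      exact ⟨j, k, hjk, h2, h3, hm v hv j h2 cj, hm v hv k h3 ck⟩
    · by_cases cj : l ⟨v, hne v hv⟩ = (j, true)
      · have ck : l ⟨v, hne v hv⟩ ≠ (k, true) := by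
          rw [cj]; intro h; exact hjk (congrArg Prod.fst h)
        exact ⟨i, k, hik, h1, h3, hm v hv i h1 ci, hm v hv k h3 ck⟩
      · exact ⟨i, j, hij, h1, h2, hm v hv i h1 ci, hm v hv j h2 cj⟩
  choose! i₁ i₂ h using hex
  exact ⟨i₁, i₂, m, h⟩

theorem mulVec_inv (g : SL(2, ℝ)) (v : Fin 2 → ℝ) : (g⁻¹).1.mulVec (g.1.mulVec v) = v := by
  rw [Matrix.mulVec_mulVec, ← Matrix.SpecialLinearGroup.coe_mul, inv_mul_cancel]
  simp

theorem square_paradoxical :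
    ∃ (n m : ℕ) (A : Fin n → Set (Fin 2 → ℝ)) (B : Fin m → Set (Fin 2 → ℝ))
      (g : Fin n → Matrix.SpecialLinearGroup (Fin 2) ℝ)
      (h : Fin m → Matrix.SpecialLinearGroup (Fin 2) ℝ),
      (∀ i, A i ⊆ {v : Fin 2 → ℝ | ∀ k, 0 < v k ∧ v k < 1}) ∧
      (∀ j, B j ⊆ {v : Fin 2 → ℝ | ∀ k, 0 < v k ∧ v k < 1}) ∧
      Pairwise (fun i i' => Disjoint (A i) (A i')) ∧
      Pairwise (fun j j' => Disjoint (B j) (B j')) ∧
      (∀ i j, Disjoint (A i) (B j)) ∧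
      (⋃ i, (fun v => Matrix.mulVec ((g i : Matrix (Fin 2) (Fin 2) ℝ)) v) '' A i)
        = {v : Fin 2 → ℝ | ∀ k, 0 < v k ∧ v k < 1} ∧
      (⋃ j, (fun v => Matrix.mulVec ((h j : Matrix (Fin 2) (Fin 2) ℝ)) v) '' B j)
        = {v : Fin 2 → ℝ | ∀ k, 0 < v k ∧ v k < 1} := by
  obtain ⟨i₁, i₂, m, H⟩ := exists_two
  let A : Fin 15 → Set (Fin 2 → ℝ) := fun i => {u | ∃ v, InQ v ∧ i₁ v = i ∧ u = (t i).1.mulVec v}
  let B : Fin 15 → Set (Fin 2 → ℝ) := fun i => {u | ∃ v, InQ v ∧ i₂ v = i ∧ u = (t i).1.mulVec v}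
  have hA : ∀ i u, u ∈ A i → m u = i := by
    rintro i u ⟨v, hv, rfl, rfl⟩
    exact (H v hv).2.2.2.1
  have hB : ∀ i u, u ∈ B i → m u = i := by
    rintro i u ⟨v, hv, rfl, rfl⟩
    exact (H v hv).2.2.2.2
  refine ⟨15, 15, A, B, fun i => (t i)⁻¹, fun i => (t i)⁻¹, ?_, ?_, ?_, ?_, ?_, ?_, ?_⟩
  · rintro i u ⟨v, hv, rfl, rfl⟩
    exact (H v hv).2.1
  · rintro i u ⟨v, hv, rfl, rfl⟩
    exact (H v hv).2.2.1
  · intro i j hij
    rw [Set.disjoint_left]
    intro u h1 h2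
    exact hij ((hA i u h1).symm.trans (hA j u h2))
  · intro i j hij
    rw [Set.disjoint_left]
    intro u h1 h2
    exact hij ((hB i u h1).symm.trans (hB j u h2))
  · intro i j
    rw [Set.disjoint_left]
    intro u h1 h2
    have h3 : i = j := (hA i u h1).symm.trans (hB j u h2)
    subst h3
    obtain ⟨v, hv, hi, rfl⟩ := h1
    obtain ⟨v', hv', hi', h4⟩ := h2
    have h5 : v = v' := by
      have := congrArg ((t i)⁻¹).1.mulVec h4
      rwa [mulVec_inv, mulVec_inv] at this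
    subst h5
    exact (H v hv).1 (hi.trans hi'.symm)
  · ext u
    rw [Set.mem_iUnion]
    constructor
    · rintro ⟨i, w, ⟨v, hv, hi, rfl⟩, rfl⟩
      show InQ _
      simp only [mulVec_inv]
      exact hv
    · intro hu
      exact ⟨i₁ u, _, ⟨u, hu, rfl, rfl⟩, mulVec_inv _ _⟩
  · ext u
    rw [Set.mem_iUnion]
    constructor
    · rintro ⟨i, w, ⟨v, hv, hi, rfl⟩, rfl⟩
      show InQ _
      simp only [mulVec_inv]
      exact hv
    · intro hu
      exact ⟨i₂ u, _, ⟨u, hu, rfl, rfl⟩, mulVec_inv _ _⟩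

end Pool.Agent.W597.Square
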