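import Mathlib

set_option autoImplicit false

namespace Pool.Agent.W597

open Matrix MatrixGroups UpperHalfPlane

theorem fixed_form (g : SL(2, ℝ)) (z : ℍ) (h : g • z = z) :
    g.1 0 0 - g.1 1 1 = 2 * g.1 1 0 * z.re ∧ g.1 0 1 = - (g.1 1 0 * (z.re ^ 2 + z.im ^ 2)) := by
  have h1 := coe_specialLinearGroup_apply g z
  rw [h] at h1
  have hden : (((algebraMap ℝ ℝ) (g 1 0) : ℝ) : ℂ) * z + (((algebraMap ℝ ℝ) (g 1 1) : ℝ) : ℂ) ≠ 0 := by
    intro h2
    have him := congrArg Complex.im h2
    have hre := congrArg Complex.re h2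
    simp only [Algebra.algebraMap_self, RingHom.id_apply, Complex.add_im, Complex.mul_im,
      Complex.ofReal_re, Complex.ofReal_im, Complex.zero_im, Complex.add_re, Complex.mul_re,
      Complex.zero_re, zero_mul, add_zero, sub_zero, coe_im, coe_re] at him hre
    have hz := z.im_pos
    have h10 : g 1 0 = 0 := by
      rcases mul_eq_zero.1 him with h | h
      · exact h
      · linarith
    have h11 : g 1 1 = 0 := by rw [h10] at hre; linarith
    have hdet := g.det_coe
    rw [Matrix.det_fin_two] at hdet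
    rw [h10, h11] at hdet
    simp at hdet
  rw [eq_div_iff hden] at h1
  have him := congrArg Complex.im h1
  have hre := congrArg Complex.re h1
  simp only [Algebra.algebraMap_self, RingHom.id_apply, Complex.add_im, Complex.mul_im,
    Complex.ofReal_re, Complex.ofReal_im, Complex.zero_im, Complex.add_re, Complex.mul_re,
    Complex.zero_re, zero_mul, add_zero, sub_zero, coe_im, coe_re] at him hre
  have hz := z.im_pos
  have e1 : g.1 0 0 - g.1 1 1 = 2 * g.1 1 0 * z.re := by
    have : z.im * (g.1 0 0 - g.1 1 1 - 2 * g.1 1 0 * z.re) = 0 := by linear_combination -him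
    rcases mul_eq_zero.1 this with h | h
    · linarith
    · linarith
  refine ⟨e1, ?_⟩
  linear_combination -hre - z.re * e1

theorem fixed_comm (g h : SL(2, ℝ)) (z : ℍ) (hg : g • z = z) (hh : h • z = z) : g * h = h * g := by
  obtain ⟨a1, a2⟩ := fixed_form g z hg
  obtain ⟨b1, b2⟩ := fixed_form h z hh
  apply Subtype.ext
  apply Matrix.ext
  have a1' : g.1 0 0 = g.1 1 1 + 2 * g.1 1 0 * z.re := by linarith
  have b1' : h.1 0 0 = h.1 1 1 + 2 * h.1 1 0 * z.re := by linarith
  intro i j
  fin_cases i <;> fin_cases j <;>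
    simp [Matrix.mul_apply, Fin.sum_univ_two] <;> simp only [a1', a2, b1', b2] <;> ring

theorem sym_fixed (g : SL(2, ℝ)) (hs : g.1 0 1 = g.1 1 0) (z : ℍ) (hg : g • z = z) :
    g * g = 1 := by
  obtain ⟨a1, a2⟩ := fixed_form g z hg
  have hc : g.1 1 0 = 0 := by
    have : g.1 1 0 * (1 + z.re ^ 2 + z.im ^ 2) = 0 := by rw [hs] at a2; linarith
    rcases mul_eq_zero.1 this with h | h
    · exact h
    · nlinarith [sq_nonneg z.re, sq_nonneg z.im]
  have hb : g.1 0 1 = 0 := by rw [hs, hc]
  have had : g.1 0 0 = g.1 1 1 := by rw [hc] at a1; linarith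
  have hdet := g.det_coe
  rw [Matrix.det_fin_two, hb, hc, had] at hdet
  apply Subtype.ext
  apply Matrix.ext
  intro i j
  fin_cases i <;> fin_cases j <;>
    simp [Matrix.mul_apply, Fin.sum_univ_two, hb, hc, had] <;> linarith

/-- symmetric matrices commuting with each other: powers of a symmetric matrix are symmetric -/
theorem pow_symm (g : SL(2, ℝ)) (hs : g.1 0 1 = g.1 1 0) (n : ℕ) :
    (g ^ n).1 0 1 = (g ^ n).1 1 0 := by
  have h1 : g.1ᵀ = g.1 := by
    apply Matrix.ext
    intro i j
    fin_cases i <;> fin_cases j <;> simp [hs]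
  have h2 : ((g ^ n).1)ᵀ = (g ^ n).1 := by
    rw [Matrix.SpecialLinearGroup.coe_pow, Matrix.transpose_pow, h1]
  have := congrFun (congrFun h2 1) 0
  simpa using this

end Pool.Agent.W597
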