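import Mathlib

set_option autoImplicit false

namespace Pool.Agent.W597

open Matrix MatrixGroups

/-- the symmetric matrix `(1+x² x; x 1)` of determinant one -/
def sym {R : Type*} [CommRing R] (x : R) : SL(2, R) :=
  ⟨!![1 + x ^ 2, x; x, 1], by rw [Matrix.det_fin_two_of]; ring⟩

theorem map_sym {R S : Type*} [CommRing R] [CommRing S] (f : R →+* S) (x : R) :
    Matrix.SpecialLinearGroup.map f (sym x) = sym (f x) := by
  apply Subtype.ext
  apply Matrix.ext
  intro i j
  rw [Matrix.SpecialLinearGroup.map_apply_coe]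
  fin_cases i <;> fin_cases j <;> simp [sym]

/-! ### ping-pong -/

/-- nonzero vectors of the plane -/
def Vec := {v : Fin 2 → ℝ // v ≠ 0}

instance : MulAction SL(2, ℝ) Vec where
  smul g v := ⟨g.1.mulVec v.1, by
    intro h
    apply v.2
    have h2 : (g⁻¹).1.mulVec (g.1.mulVec v.1) = 0 := by rw [h, Matrix.mulVec_zero]
    rw [Matrix.mulVec_mulVec, ← Matrix.SpecialLinearGroup.coe_mul, inv_mul_cancel] at h2
    simpa using h2⟩
  one_smul v := by
    apply Subtype.ext
    show (1 : SL(2, ℝ)).1.mulVec v.1 = v.1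
    simp
  mul_smul g h v := by
    apply Subtype.ext
    show (g * h).1.mulVec v.1 = g.1.mulVec (h.1.mulVec v.1)
    rw [Matrix.mulVec_mulVec, Matrix.SpecialLinearGroup.coe_mul]

theorem smul_zero' (x : ℝ) (v : Vec) : (sym x • v).1 0 = (1 + x ^ 2) * v.1 0 + x * v.1 1 := by
  show ((sym x).1.mulVec v.1) 0 = _
  simp [sym, Matrix.mulVec, dotProduct, Fin.sum_univ_two]

theorem smul_one' (x : ℝ) (v : Vec) : (sym x • v).1 1 = x * v.1 0 + v.1 1 := by
  show ((sym x).1.mulVec v.1) 1 = _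
  simp [sym, Matrix.mulVec, dotProduct, Fin.sum_univ_two]

/-- attracting sets -/
def PX (a : ℝ) : Set Vec := {v | 2 * |a * v.1 1 - v.1 0| ≤ |v.1 0|}
/-- repelling sets -/
def PY (a : ℝ) : Set Vec := {v | |(1 + a ^ 2) * v.1 0 + a * v.1 1| < 2 * |v.1 0|}

theorem px_of_not_py (a : ℝ) (v : Vec) (h : v ∉ PY a) : sym a • v ∈ PX a := by
  show 2 * |a * (sym a • v).1 1 - (sym a • v).1 0| ≤ |(sym a • v).1 0|
  rw [smul_zero', smul_one']
  have h1 : ¬ |(1 + a ^ 2) * v.1 0 + a * v.1 1| < 2 * |v.1 0| := h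
  have h2 : a * (a * v.1 0 + v.1 1) - ((1 + a ^ 2) * v.1 0 + a * v.1 1) = - v.1 0 := by ring
  rw [h2, abs_neg]
  linarith

theorem px_pos {a : ℝ} (ha : 0 < a) {v : Vec} (h : v ∈ PX a) :
    v.1 0 ≠ 0 ∧ (v.1 0) ^ 2 ≤ 2 * (a * (v.1 0 * v.1 1)) ∧
      2 * (a * (v.1 0 * v.1 1)) ≤ 3 * (v.1 0) ^ 2 := by
  have h1 : 2 * |a * v.1 1 - v.1 0| ≤ |v.1 0| := h
  have h0 : v.1 0 ≠ 0 := by
    intro h0
    rw [h0] at h1
    simp only [sub_zero, abs_zero] at h1
    have h2 : |a * v.1 1| = 0 := le_antisymm (by linarith) (abs_nonneg _)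
    rw [abs_eq_zero] at h2
    have h3 : v.1 1 = 0 := by
      rcases mul_eq_zero.1 h2 with h | h
      · linarith
      · exact h
    apply v.2
    ext i
    fin_cases i
    · exact h0
    · exact h3
  refine ⟨h0, ?_⟩
  have h4 : 2 * |(a * v.1 1 - v.1 0) * v.1 0| ≤ |v.1 0 * v.1 0| := by
    rw [abs_mul, abs_mul]
    nlinarith [abs_nonneg (v.1 0)]
  rw [abs_of_nonneg (mul_self_nonneg (v.1 0))] at h4
  have h5 := (abs_le.1 (show |(a * v.1 1 - v.1 0) * v.1 0| ≤ v.1 0 * v.1 0 / 2 by linarith))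
  constructor <;> nlinarith [h5.1, h5.2]

theorem py_neg {a : ℝ} {v : Vec} (h : v ∈ PY a) :
    v.1 0 ≠ 0 ∧ a * (v.1 0 * v.1 1) < (1 - a ^ 2) * (v.1 0) ^ 2 := by
  have h1 : |(1 + a ^ 2) * v.1 0 + a * v.1 1| < 2 * |v.1 0| := h
  have h0 : v.1 0 ≠ 0 := by
    intro h0
    rw [h0] at h1
    simp only [mul_zero, zero_add, abs_zero] at h1
    exact absurd h1 (not_lt.2 (abs_nonneg _))
  refine ⟨h0, ?_⟩
  have h4 : |((1 + a ^ 2) * v.1 0 + a * v.1 1) * v.1 0| < 2 * |v.1 0 * v.1 0| := by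
    rw [abs_mul, abs_mul]
    have : 0 < |v.1 0| := abs_pos.2 h0
    nlinarith
  rw [abs_of_nonneg (mul_self_nonneg (v.1 0))] at h4
  have h5 := (abs_lt.1 h4)
  nlinarith [h5.2]

/-- a sparse sequence -/
def seq (k : ℕ) : ℝ := 4 ^ (k + 1)

theorem seq_ge (k : ℕ) : 4 ≤ seq k := by
  unfold seq
  have : (1 : ℝ) ≤ 4 ^ k := one_le_pow₀ (by norm_num)
  rw [pow_succ]; linarith

theorem seq_lt {k l : ℕ} (h : k < l) : 4 * seq k ≤ seq l := by
  unfold seq
  have : (4 : ℝ) ^ (k + 1) * 4 ^ 1 ≤ 4 ^ (l + 1) := by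
    rw [← pow_add]
    exact pow_le_pow_right₀ (by norm_num) (by omega)
  linarith

theorem px_disj {a b : ℝ} (ha : 4 ≤ a) (hab : 4 * a ≤ b) : Disjoint (PX a) (PX b) := by
  rw [Set.disjoint_left]
  intro v h1 h2
  obtain ⟨h0, h3, h4⟩ := px_pos (by linarith) h1
  obtain ⟨-, h5, h6⟩ := px_pos (by linarith) h2
  have h7 : 0 < (v.1 0) ^ 2 := by positivity
  have h8 : 0 < v.1 0 * v.1 1 := by
    by_contra h
    push Not at h
    nlinarith
  nlinarith

theorem py_disj {a b : ℝ} (ha : 4 ≤ a) (hab : 4 * a ≤ b) : Disjoint (PY a) (PY b) := by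
  rw [Set.disjoint_left]
  intro v h1 h2
  have h0 := (py_neg h1).1
  have h3 : |(1 + a ^ 2) * v.1 0 + a * v.1 1| < 2 * |v.1 0| := h1
  have h4 : |(1 + b ^ 2) * v.1 0 + b * v.1 1| < 2 * |v.1 0| := h2
  have hv : 0 < |v.1 0| := abs_pos.2 h0
  have h5 : b * ((1 + a ^ 2) * v.1 0 + a * v.1 1) - a * ((1 + b ^ 2) * v.1 0 + b * v.1 1) =
      -(((b - a) * (a * b - 1)) * v.1 0) := by ring
  have h6 : |b * ((1 + a ^ 2) * v.1 0 + a * v.1 1) - a * ((1 + b ^ 2) * v.1 0 + b * v.1 1)| ≤
      b * |(1 + a ^ 2) * v.1 0 + a * v.1 1| + a * |(1 + b ^ 2) * v.1 0 + b * v.1 1| := by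
    refine (abs_sub _ _).trans ?_
    rw [abs_mul, abs_mul, abs_of_pos (show (0:ℝ) < b by linarith),
      abs_of_pos (show (0:ℝ) < a by linarith)]
  rw [h5, abs_neg, abs_mul] at h6
  have h7 : 0 < (b - a) * (a * b - 1) := by
    apply mul_pos
    · linarith
    · nlinarith
  rw [abs_of_pos h7] at h6
  have h8 : (b - a) * (a * b - 1) * |v.1 0| < 2 * (a + b) * |v.1 0| := by
    nlinarith
  have h9 : (b - a) * (a * b - 1) < 2 * (a + b) := lt_of_mul_lt_mul_right h8 hv.le
  have h10 : 63 ≤ a * b - 1 := by nlinarith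
  have h11 : 3 * b ≤ 4 * (b - a) := by linarith
  nlinarith

theorem pxy_disj {a b : ℝ} (ha : 4 ≤ a) (hb : 4 ≤ b) : Disjoint (PX a) (PY b) := by
  rw [Set.disjoint_left]
  intro v h1 h2
  obtain ⟨h0, h3, -⟩ := px_pos (by linarith) h1
  obtain ⟨-, h5⟩ := py_neg h2
  have h7 : 0 < (v.1 0) ^ 2 := by positivity
  have h8 : 0 < v.1 0 * v.1 1 := by
    by_contra h
    push Not at h
    nlinarith
  have h9 : 0 < b * (v.1 0 * v.1 1) := by positivity
  nlinarith [mul_pos (show (0:ℝ) < b ^ 2 - 1 by nlinarith) h7]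

theorem lift_seq_injective :
    Function.Injective (FreeGroup.lift (fun k : ℕ => (sym (seq k) : SL(2, ℝ)))) := by
  apply FreeGroup.injective_lift_of_ping_pong (fun k : ℕ => (sym (seq k) : SL(2, ℝ)))
    (fun k => PX (seq k)) (fun k => PY (seq k))
  · intro k
    refine ⟨⟨![seq k, 1], ?_⟩, ?_⟩
    · intro h
      have := congrFun h 1
      simp at this
    · show 2 * |seq k * 1 - seq k| ≤ |seq k|
      simp
  · intro k l hkl
    rcases lt_or_gt_of_ne hkl with h | h
    · exact px_disj (seq_ge k) (seq_lt h)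
    · exact (px_disj (seq_ge l) (seq_lt h)).symm
  · intro k l hkl
    rcases lt_or_gt_of_ne hkl with h | h
    · exact py_disj (seq_ge k) (seq_lt h)
    · exact (py_disj (seq_ge l) (seq_lt h)).symm
  · intro k l
    exact pxy_disj (seq_ge k) (seq_ge l)
  · intro k
    rintro _ ⟨v, hv, rfl⟩
    exact px_of_not_py _ v hv
  · intro k
    rintro _ ⟨v, hv, rfl⟩
    by_contra h
    apply hv
    have := px_of_not_py (seq k) _ h
    simpa [smul_smul] using this

/-! ### algebraically independent parameters -/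

theorem free_of_algInd {X : Type*} (x : X → ℝ) (hx : AlgebraicIndependent ℤ x) :
    Function.Injective (FreeGroup.lift (fun i : X => (sym (x i) : SL(2, ℝ)))) := by
  classical
  let φ : FreeGroup X →* SL(2, MvPolynomial X ℤ) := FreeGroup.lift fun i => sym (MvPolynomial.X i)
  have h1 : (FreeGroup.lift (fun i : X => (sym (x i) : SL(2, ℝ)))) =
      (Matrix.SpecialLinearGroup.map (MvPolynomial.aeval x : MvPolynomial X ℤ →ₐ[ℤ] ℝ).toRingHom).comp
        φ := by
    ext1 i
    simp only [MonoidHom.comp_apply, FreeGroup.lift_apply_of, φ, map_sym]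
    congr 1
    simp
  have hinj : Function.Injective (Matrix.SpecialLinearGroup.map (n := Fin 2)
      (MvPolynomial.aeval x : MvPolynomial X ℤ →ₐ[ℤ] ℝ).toRingHom) := by
    intro A B h
    apply Subtype.ext
    apply Matrix.ext
    intro i j
    have h2 := congrArg (fun M : SL(2, ℝ) => M.1 i j) h
    simp only [Matrix.SpecialLinearGroup.map_apply_coe, RingHom.mapMatrix_apply,
      Matrix.map_apply] at h2
    exact hx h2
  rw [h1, MonoidHom.coe_comp]
  refine hinj.comp ?_
  rw [injective_iff_map_eq_one]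
  intro w hw
  -- reduce to finitely many generators
  obtain ⟨L, rfl⟩ := Quot.exists_rep w
  let S : Finset X := (L.map Prod.fst).toFinset
  let e : S ≃ Fin S.card := S.equivFin
  let n : X → ℕ := fun i => if h : i ∈ S then (e ⟨i, h⟩ : ℕ) else 0
  have hn : Function.Injective (fun i : S => n i) := by
    intro i j hij
    simp only [n, i.2, j.2, dif_pos] at hij
    exact e.injective (Fin.ext hij)
  -- the word comes from the subgroup generated by `S`
  have hlift : ∃ w' : FreeGroup S, FreeGroup.map (Subtype.val : S → X) w' = FreeGroup.mk L := by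
    have : ∀ M : List (X × Bool), (∀ a ∈ M, a.1 ∈ S) →
        ∃ w' : FreeGroup S, FreeGroup.map (Subtype.val : S → X) w' = FreeGroup.mk M := by
      intro M
      induction M with
      | nil => intro _; exact ⟨1, by simp [FreeGroup.one_eq_mk]⟩
      | cons a M ih =>
        intro h
        obtain ⟨w', hw'⟩ := ih fun b hb => h b (by simp [hb])
        refine ⟨FreeGroup.mk [(⟨a.1, h a (by simp)⟩, a.2)] * w', ?_⟩
        rw [map_mul, hw', FreeGroup.map.mk, FreeGroup.mul_mk]
        simp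
    apply this
    intro a ha
    simp only [S, List.mem_toFinset, List.mem_map]
    exact ⟨a, ha, rfl⟩
  obtain ⟨w', hw'⟩ := hlift
  have hmk : (Quot.mk _ L : FreeGroup X) = FreeGroup.mk L := rfl
  rw [hmk] at hw ⊢
  rw [← hw'] at hw ⊢
  -- specialise
  let ev : MvPolynomial X ℤ →+* ℝ := (MvPolynomial.aeval (fun i => seq (n i))).toRingHom
  have h3 : Matrix.SpecialLinearGroup.map (n := Fin 2) ev (φ (FreeGroup.map Subtype.val w')) = 1 := by
    rw [hw, map_one]
  have h4 : ((Matrix.SpecialLinearGroup.map (n := Fin 2) ev).comp φ).comp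
      (FreeGroup.map (Subtype.val : S → X)) =
      (FreeGroup.lift (fun k : ℕ => (sym (seq k) : SL(2, ℝ)))).comp
        (FreeGroup.map (fun i : S => n i)) := by
    ext1 i
    simp only [MonoidHom.comp_apply, FreeGroup.lift_apply_of, φ, map_sym, FreeGroup.map.of]
    congr 1
    simp [ev]
  have h5 : (FreeGroup.lift (fun k : ℕ => (sym (seq k) : SL(2, ℝ))))
      (FreeGroup.map (fun i : S => n i) w') = 1 := by
    have := DFunLike.congr_fun h4 w'
    simp only [MonoidHom.comp_apply] at this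
    rw [← this]
    exact h3
  have h6 : FreeGroup.map (fun i : S => n i) w' = 1 := lift_seq_injective (by rw [h5, map_one])
  have h7 : w' = 1 := FreeGroup.map_injective hn (by rw [h6, map_one])
  rw [h7, map_one]

theorem exists_algInd (X : Type) (hX : Cardinal.mk X ≤ Cardinal.continuum) :
    ∃ x : X → ℝ, AlgebraicIndependent ℤ x := by
  obtain ⟨ι, x, hx⟩ := exists_isTranscendenceBasis' ℤ ℝ
  have hne : Nonempty ι := by
    by_contra h
    rw [not_nonempty_iff] at h
    have h1 : Algebra.IsAlgebraic ℤ ℝ := hx.isEmpty_iff_isAlgebraic.1 h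
    have h3 := Algebra.IsAlgebraic.cardinalMk_le_max ℤ ℝ
    rw [Cardinal.mk_real, Cardinal.mk_int, max_self] at h3
    exact absurd h3 (not_le.2 Cardinal.aleph0_lt_continuum)
  have hc := hx.lift_cardinalMk_eq_max_lift
  rw [Cardinal.mk_real, Cardinal.mk_int] at hc
  simp only [Cardinal.lift_continuum, Cardinal.lift_aleph0, Cardinal.lift_id] at hc
  have hι : Cardinal.continuum ≤ Cardinal.mk ι := by
    by_contra h
    push Not at h
    have : Cardinal.continuum < Cardinal.continuum := by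
      conv_lhs => rw [hc]
      rw [max_lt_iff, max_lt_iff]
      exact ⟨⟨Cardinal.aleph0_lt_continuum, by simpa using h⟩, Cardinal.aleph0_lt_continuum⟩
    exact lt_irrefl _ this
  obtain ⟨f⟩ := Cardinal.le_def X ι |>.1 (hX.trans hι)
  exact ⟨x ∘ f, hx.1.comp f f.injective⟩

end Pool.Agent.W597
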