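import Pool.Agent.W597.StarSystem
import Pool.Agent.W597.SymRep
import Pool.Agent.W597.HypFix

set_option autoImplicit false

namespace Pool.Agent.W597

open FreeGroup List MatrixGroups UpperHalfPlane

/-- a commutative free group is cyclic -/
theorem cyclic_of_comm {X : Type*} (h : ∀ a b : FreeGroup X, a * b = b * a) :
    ∃ g : FreeGroup X, ∀ x : FreeGroup X, x ∈ Subgroup.zpowers g := by
  classical
  have hsub : ∀ a b : X, a = b := by
    intro a b
    have h1 := congrArg FreeGroup.toWord (h (of a) (of b))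
    rw [toWord_mul, toWord_mul, toWord_of, toWord_of] at h1
    by_contra hab
    have r1 : FreeGroup.IsReduced [(a, true), (b, true)] := by simp [FreeGroup.IsReduced]
    have r2 : FreeGroup.IsReduced [(b, true), (a, true)] := by simp [FreeGroup.IsReduced]
    have h2 : reduce ([(a, true)] ++ [(b, true)]) = [(a, true), (b, true)] := r1.reduce_eq
    have h3 : reduce ([(b, true)] ++ [(a, true)]) = [(b, true), (a, true)] := r2.reduce_eq
    rw [h2, h3] at h1
    simp only [List.cons.injEq, Prod.mk.injEq] at h1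
    exact hab h1.1.1
  by_cases hX : Nonempty X
  · obtain ⟨a⟩ := hX
    refine ⟨of a, fun x => ?_⟩
    induction x using FreeGroup.induction_on with
    | C1 => exact one_mem _
    | of b => rw [hsub b a]; exact Subgroup.mem_zpowers _
    | inv_of b hb => exact inv_mem hb
    | mul x y hx hy => exact mul_mem hx hy
  · refine ⟨1, fun x => ?_⟩
    induction x using FreeGroup.induction_on with
    | C1 => exact one_mem _
    | of b => exact absurd ⟨b⟩ hX
    | inv_of b hb => exact inv_mem hb
    | mul x y hx hy => exact mul_mem hx hy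

theorem subgroup_cyclic {X : Type*} (S : Subgroup (FreeGroup X))
    (h : ∀ a ∈ S, ∀ b ∈ S, a * b = b * a) : ∃ g, S = Subgroup.zpowers g := by
  let e := IsFreeGroup.toFreeGroup S
  obtain ⟨g, hg⟩ := cyclic_of_comm (X := IsFreeGroup.Generators S) (by
    intro a b
    have h1 := h (e.symm a) (e.symm a).2 (e.symm b) (e.symm b).2
    apply e.symm.injective
    rw [_root_.map_mul, _root_.map_mul]
    exact Subtype.ext h1)
  refine ⟨e.symm g, ?_⟩
  ext x
  constructor
  · intro hx
    obtain ⟨k, hk⟩ := Subgroup.mem_zpowers_iff.1 (hg (e ⟨x, hx⟩))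
    refine Subgroup.mem_zpowers_iff.2 ⟨k, ?_⟩
    have h2 : e.symm g ^ k = ⟨x, hx⟩ := by
      apply e.injective
      rw [map_zpow, e.apply_symm_apply, hk]
    have h3 := congrArg (Subtype.val) h2
    simpa using h3
  · intro hx
    obtain ⟨k, hk⟩ := Subgroup.mem_zpowers_iff.1 hx
    rw [← hk]
    exact S.zpow_mem (e.symm g).2 k

theorem exists_cyc_rep {X H : Type*} [MulAction (FreeGroup X) H] (z : H)
    (h : ∀ a ∈ MulAction.stabilizer (FreeGroup X) z, ∀ b ∈ MulAction.stabilizer (FreeGroup X) z,
      a * b = b * a) :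
    ∃ z' ∈ MulAction.orbit (FreeGroup X) z, ∃ w : List (X × Bool), IsCyclicallyReduced w ∧
      MulAction.stabilizer (FreeGroup X) z' = Subgroup.zpowers (mk w) := by
  classical
  obtain ⟨g, hg⟩ := subgroup_cyclic _ h
  let L := g.toWord
  let c := reduceCyclically.conjugator L
  let r := reduceCyclically L
  have hL : mk c * mk r * (mk c)⁻¹ = g := by
    have h1 := reduceCyclically.conj_conjugator_reduceCyclically L
    have h2 : mk (c ++ r ++ invRev c) = mk L := by rw [h1]
    rw [← mul_mk, ← mul_mk, ← inv_mk] at h2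
    rw [h2]
    exact mk_toWord
  refine ⟨(mk c)⁻¹ • z, MulAction.mem_orbit _ _, r,
    reduceCyclically.isCyclicallyReduced isReduced_toWord, ?_⟩
  ext x
  rw [MulAction.mem_stabilizer_iff, ← mul_smul, ← smul_left_cancel_iff (mk c), ← mul_smul,
    smul_inv_smul]
  have h1 : mk c * (x * (mk c)⁻¹) ∈ MulAction.stabilizer (FreeGroup X) z ↔
      x ∈ Subgroup.zpowers (mk r) := by
    rw [hg, Subgroup.mem_zpowers_iff, Subgroup.mem_zpowers_iff]
    constructor
    · rintro ⟨k, hk⟩
      refine ⟨k, ?_⟩
      rw [← hL, conj_zpow] at hk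
      have h3 : (mk c)⁻¹ * (mk c * mk r ^ k * (mk c)⁻¹) * mk c =
          (mk c)⁻¹ * (mk c * (x * (mk c)⁻¹)) * mk c := by rw [hk]
      simpa [mul_assoc] using h3
    · rintro ⟨k, hk⟩
      refine ⟨k, ?_⟩
      rw [← hL, conj_zpow, hk, mul_assoc]
  rw [← h1, MulAction.mem_stabilizer_iff]

theorem mem_zpowers_of_all {Y : Type*} (w : List (Option Y × Bool)) (h : ∀ a ∈ w, a.1 = none) :
    mk w ∈ Subgroup.zpowers (of (none : Option Y)) := by
  induction w with
  | nil => exact one_mem _
  | cons a w ih =>
    have h1 : (mk (a :: w) : FreeGroup (Option Y)) = mk [a] * mk w := by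
      rw [mul_mk]; rfl
    rw [h1]
    refine mul_mem ?_ (ih fun b hb => h b (by simp [hb]))
    have h2 : a.1 = none := h a (by simp)
    obtain ⟨x, b⟩ := a
    simp only at h2
    subst h2
    cases b
    · have : (mk [((none : Option Y), false)]) = (of none)⁻¹ := rfl
      rw [this]
      exact inv_mem (Subgroup.mem_zpowers _)
    · exact Subgroup.mem_zpowers _

/-- **All congruences at once.** For any family of at most continuum many proper nonempty subsets
of a set of labels there is a labelling of the hyperbolic plane for which all preimages of these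
subsets are congruent. -/
theorem all_congruent (I : Type) [Nonempty I] (F : Set (Set I))
    (hF : Cardinal.mk F ≤ Cardinal.continuum) (hP : ∀ S ∈ F, Prp S) :
    ∃ J : ℍ → I, ∀ S ∈ F, ∀ T ∈ F, ∃ g : SL(2, ℝ), (g • ·) '' (J ⁻¹' S) = J ⁻¹' T := by
  classical
  rcases F.eq_empty_or_nonempty with hF0 | ⟨S0, hS0⟩
  · subst hF0
    exact ⟨fun _ => Classical.arbitrary I, by simp⟩
  let i0 : I := Classical.arbitrary I
  let pos : Set I → Set I := fun S => if i0 ∈ S then S else Sᶜ
  have hpos : ∀ S, i0 ∈ pos S := by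
    intro S
    by_cases h : i0 ∈ S
    · simp [pos, h]
    · simp [pos, h]
  have hposP : ∀ S, Prp S → Prp (pos S) := by
    intro S hS
    by_cases h : i0 ∈ S
    · simpa [pos, h] using hS
    · simpa [pos, h] using hS.compl
  set B : Set I := pos S0 with hBdef
  let Y : Type := {S : Set I // S ∈ pos '' F ∧ S ≠ B}
  let C : Y → Set I := fun y => y.1
  have hB : Prp B := hposP _ (hP _ hS0)
  have hC : ∀ y, Prp (C y) := by
    rintro ⟨_, ⟨T, hT, rfl⟩, _⟩
    exact hposP _ (hP _ hT)
  have hiB : i0 ∈ B := hpos _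
  have hiC : ∀ y, i0 ∈ C y := by
    rintro ⟨_, ⟨T, hT, rfl⟩, _⟩
    exact hpos _
  have hCB : ∀ y, C y ≠ B := fun y => y.2.2
  have hCB' : ∀ y, C y ≠ Bᶜ := by
    intro y h
    have := hiC y
    rw [h] at this
    exact this hiB
  have hCC : ∀ y y', C y ≠ (C y')ᶜ := by
    intro y y' h
    have := hiC y
    rw [h] at this
    exact this (hiC y')
  have hCi : Function.Injective C := Subtype.val_injective
  have hcard : Cardinal.mk (Option Y) ≤ Cardinal.continuum := by
    rw [Cardinal.mk_option]
    have h1 : Cardinal.mk Y ≤ Cardinal.mk (pos '' F) := by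
      apply Cardinal.mk_le_of_injective (f := fun y : Y => (⟨y.1, y.2.1⟩ : (pos '' F : Set (Set I))))
      intro a b h
      apply Subtype.ext
      simpa using h
    have h2 : Cardinal.mk Y ≤ Cardinal.continuum := h1.trans (Cardinal.mk_image_le.trans hF)
    calc Cardinal.mk Y + 1 ≤ Cardinal.continuum + Cardinal.continuum := by
          gcongr
          exact (Cardinal.one_lt_aleph0.trans Cardinal.aleph0_lt_continuum).le
      _ = Cardinal.continuum := Cardinal.continuum_add_self
  obtain ⟨x, hx⟩ := exists_algInd (Option Y) hcard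
  let ρ : FreeGroup (Option Y) →* SL(2, ℝ) := FreeGroup.lift fun i => sym (x i)
  have hρ : Function.Injective ρ := free_of_algInd x hx
  letI : MulAction (FreeGroup (Option Y)) ℍ := MulAction.compHom ℍ ρ
  have hsm : ∀ (g : FreeGroup (Option Y)) (z : ℍ), g • z = ρ g • z := fun g z => rfl
  have hst : ∀ z : ℍ, ∃ z' ∈ MulAction.orbit (FreeGroup (Option Y)) z,
      ∃ w : List (Option Y × Bool), IsCyclicallyReduced w ∧
      MulAction.stabilizer (FreeGroup (Option Y)) z' = Subgroup.zpowers (mk w) ∧
      (w ≠ [] → ∃ j, wordRel (starRel B C) w j j) := by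
    intro z
    obtain ⟨z', hz', w, hw, hs⟩ := exists_cyc_rep (X := Option Y) z (by
      intro a ha b hb
      apply hρ
      rw [_root_.map_mul, _root_.map_mul]
      exact fixed_comm (ρ a) (ρ b) z ha hb)
    refine ⟨z', hz', w, hw, hs, ?_⟩
    intro hw0
    by_contra hno
    have hall := all_none hB hC hCB hCB' hCi hCC w hw0 hw hno
    obtain ⟨k, hk⟩ := Subgroup.mem_zpowers_iff.1 (mem_zpowers_of_all w hall)
    have hfix : (of (none : Option Y)) ^ k ∈ MulAction.stabilizer (FreeGroup (Option Y)) z' := by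
      rw [hk, hs]
      exact Subgroup.mem_zpowers _
    have hfix' : (of (none : Option Y)) ^ k.natAbs ∈
        MulAction.stabilizer (FreeGroup (Option Y)) z' := by
      rcases Int.natAbs_eq k with h | h
      · rw [h, zpow_natCast] at hfix
        exact hfix
      · rw [h, zpow_neg, zpow_natCast] at hfix
        exact inv_mem_iff.1 hfix
    have h1 : ρ ((of (none : Option Y)) ^ k.natAbs) • z' = z' := hfix'
    have h2 : ρ (of (none : Option Y)) = sym (x none) := by simp [ρ]
    rw [map_pow, h2] at h1
    have h3 := sym_fixed _ (pow_symm (sym (x none)) (by simp [sym]) k.natAbs) z' h1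
    rw [← h2, ← map_pow, ← _root_.map_mul, ← pow_add] at h3
    have h4 : (of (none : Option Y)) ^ (k.natAbs + k.natAbs) = 1 := hρ (by rw [h3, _root_.map_one])
    have h5 := congrArg FreeGroup.toWord h4
    rw [toWord_of_pow, toWord_one] at h5
    have h6 : k.natAbs + k.natAbs = 0 := by simpa using h5
    have h7 : k = 0 := by omega
    rw [h7, zpow_zero] at hk
    apply hw0
    have h8 : mk w = mk ([] : List (Option Y × Bool)) := hk.symm
    exact red_eq hw.isReduced (by simp) h8
  obtain ⟨J, hJ⟩ := exists_labelling (starRel B C) (fun x j => by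
      simpa [letterRel] using letter_total hB hC (x, true) j) (fun x k => by
      simpa [letterRel] using letter_surj hB hC (x, true) k) hst
  refine ⟨J, ?_⟩
  -- every member of the family is congruent to `B`
  have key : ∀ (S : Set I) (g : SL(2, ℝ)), (∀ z, J z ∈ B ↔ J (g • z) ∈ S) →
      (g • ·) '' (J ⁻¹' B) = J ⁻¹' S := by
    intro S g h
    ext z
    constructor
    · rintro ⟨y, hy, rfl⟩
      exact (h y).1 hy
    · intro hz
      refine ⟨g⁻¹ • z, ?_, smul_inv_smul g z⟩
      show J (g⁻¹ • z) ∈ B
      rw [h, smul_inv_smul]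
      exact hz
  have hnone : ∀ z : ℍ, J z ∈ B ↔ J (sym (x none) • z) ∉ B := by
    intro z
    have h1 := hJ z none
    have h2 : (of (none : Option Y)) • z = sym (x none) • z := by
      rw [hsm]; simp [ρ]
    rw [h2] at h1
    exact h1
  have hbase : ∀ S ∈ F, ∃ g : SL(2, ℝ), ∀ z, J z ∈ B ↔ J (g • z) ∈ pos S := by
    intro S hS
    by_cases h : pos S = B
    · refine ⟨1, fun z => ?_⟩
      rw [h, one_smul]
    · let y : Y := ⟨pos S, ⟨S, hS, rfl⟩, h⟩
      refine ⟨sym (x (some y)), fun z => ?_⟩
      have h1 := hJ z (some y)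
      have h2 : (of (some y : Option Y)) • z = sym (x (some y)) • z := by
        rw [hsm]; simp [ρ]
      rw [h2] at h1
      exact h1
  have hall : ∀ S ∈ F, ∃ g : SL(2, ℝ), (g • ·) '' (J ⁻¹' B) = J ⁻¹' S := by
    intro S hS
    obtain ⟨g, hg⟩ := hbase S hS
    by_cases h : i0 ∈ S
    · have e : pos S = S := by simp [pos, h]
      rw [e] at hg
      exact ⟨g, key S g hg⟩
    · have e : pos S = Sᶜ := by simp [pos, h]
      rw [e] at hg
      refine ⟨g * sym (x none), key S _ fun z => ?_⟩
      rw [hnone z, hg, mul_smul]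
      simp
  intro S hS T hT
  obtain ⟨g, hg⟩ := hall S hS
  obtain ⟨h, hh⟩ := hall T hT
  refine ⟨h * g⁻¹, ?_⟩
  rw [← hg, ← hh, Set.image_image]
  congr 1
  ext1 z
  simp [mul_smul]

end Pool.Agent.W597
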