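import Pool.Agent.W503.EH.Stmts
import Pool.Agent.W503.EH.Basic
import Pool.Agent.H212R2.KLS.T1

/-!
# Multiplicative Brunn-Minkowski inequality
-/

namespace Pool.Agent.W597.EHBM

open MeasureTheory Set Pool.Agent.W503.EH
open scoped ENNReal

theorem bm_ennreal {n : ℕ} (t : ℝ) (ht0 : 0 < t) (ht1 : t < 1) (A C D : Set (Fin n → ℝ))
    (hA : IsCompact A) (hC : IsCompact C) (hD : IsCompact D)
    (h : ∀ x ∈ A, ∀ y ∈ C, (1 - t) • x + t • y ∈ D) :
    (volume A) ^ (1 - t) * (volume C) ^ t ≤ volume D := by
  have hPL := Pool.Agent.H212R2.KLS.PL (volume : Measure (Fin n → ℝ)) t ht0 ht1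
    (A.indicator 1) (C.indicator 1)
    (D.indicator 1) (measurable_one.indicator hA.measurableSet)
    (measurable_one.indicator hC.measurableSet) (measurable_one.indicator hD.measurableSet) ?_
  · rw [lintegral_indicator_one hA.measurableSet, lintegral_indicator_one hC.measurableSet,
      lintegral_indicator_one hD.measurableSet] at hPL
    exact hPL
  · intro x y
    by_cases hx : x ∈ A
    · by_cases hy : y ∈ C
      · rw [indicator_of_mem hx, indicator_of_mem hy, indicator_of_mem (h x hx y hy)]
        simp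
      · rw [indicator_of_notMem hy, ENNReal.zero_rpow_of_pos ht0, mul_zero]
        exact zero_le
    · rw [indicator_of_notMem hx, ENNReal.zero_rpow_of_pos (by linarith), zero_mul]
      exact zero_le

theorem t_BM : S_BM := by
  intro m A B C hA hB hC _ _ t ht0 ht1 h
  have h1 := ENNReal.toReal_mono hC.measure_ne_top (bm_ennreal t ht0 ht1 A B C hA hB hC h)
  rw [ENNReal.toReal_mul, ← ENNReal.toReal_rpow, ← ENNReal.toReal_rpow] at h1
  exact h1

end Pool.Agent.W597.EHBM
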