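import Pool.Agent.W503.EH.Stmts
import Pool.Agent.W503.EH.Basic

/-!
# Volume of the sum of a convex body and a segment
-/

namespace Pool.Agent.W597.EHSEG

open MeasureTheory Set Pool.Agent.W503.EH

/-- the fibre of the sum -/
theorem fibre_sum {m : ℕ} (L : Set (Fin (m + 1) → ℝ)) (η z : Fin m → ℝ) (s : ℝ) :
    {t : ℝ | cs t (z + t • η) ∈
      {z | ∃ x ∈ L, ∃ r : ℝ, 0 ≤ r ∧ r ≤ s ∧ z = x + r • cs 1 η}} =
    {t : ℝ | ∃ u, u ∈ {t : ℝ | cs t (z + t • η) ∈ L} ∧ u ≤ t ∧ t ≤ u + s} := by
  ext t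
  simp only [mem_ofPred_eq]
  constructor
  · rintro ⟨x, hx, r, hr, hrs, h⟩
    refine ⟨t - r, ?_, by linarith, by linarith⟩
    have : x = cs (t - r) (z + (t - r) • η) := by
      have h2 : x = cs t (z + t • η) - r • cs 1 η := by rw [h]; simp
      rw [h2, cs_smul, sub_eq_add_neg, cs_neg, cs_add]
      congr 1
      · ring
      · module
    rwa [← this]
  · rintro ⟨u, hu, h1, h2⟩
    refine ⟨_, hu, t - u, by linarith, by linarith, ?_⟩
    rw [cs_smul, cs_add]
    congr 1
    · ring
    · module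

theorem isCompact_sum {m : ℕ} {L : Set (Fin (m + 1) → ℝ)} (hL : IsCompact L) (η : Fin m → ℝ)
    (s : ℝ) : IsCompact {z | ∃ x ∈ L, ∃ r : ℝ, 0 ≤ r ∧ r ≤ s ∧ z = x + r • cs 1 η} := by
  have h := (hL.prod (isCompact_Icc (a := (0 : ℝ)) (b := s))).image
    (f := fun p : (Fin (m + 1) → ℝ) × ℝ => p.1 + p.2 • cs 1 η) (by fun_prop)
  convert h using 1
  ext z
  constructor
  · rintro ⟨x, hx, r, h0, h1, rfl⟩
    exact ⟨(x, r), ⟨hx, h0, h1⟩, rfl⟩
  · rintro ⟨⟨x, r⟩, ⟨hx, h0, h1⟩, rfl⟩
    exact ⟨x, hx, r, h0, h1, rfl⟩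

/-- the fibre of a compact convex set is a compact interval -/
theorem fibre_Icc {m : ℕ} {L : Set (Fin (m + 1) → ℝ)} (hL : IsCompact L) (hc : Convex ℝ L)
    (η z : Fin m → ℝ) (hz : z ∈ pr η L) :
    ∃ a b : ℝ, a ≤ b ∧ {t : ℝ | cs t (z + t • η) ∈ L} = Icc a b := by
  set F := {t : ℝ | cs t (z + t • η) ∈ L} with hF
  have hne : F.Nonempty := hz
  have hcont : Continuous (fun t : ℝ => cs t (z + t • η)) :=
    continuous_cs.comp (by fun_prop : Continuous (fun t : ℝ => (t, z + t • η)))
  have hcl : IsClosed F := hL.isClosed.preimage hcont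
  have hconv : Convex ℝ F := by
    intro x hx y hy a b ha hb hab
    have := hc hx hy ha hb hab
    rw [comb_cs] at this
    change cs (a • x + b • y) _ ∈ L
    have e : z + (a * x + b * y) • η = a • (z + x • η) + b • (z + y • η) := by
      calc z + (a * x + b * y) • η = (a + b) • z + (a * x + b * y) • η := by rw [hab, one_smul]
        _ = _ := by module
    simp only [smul_eq_mul]
    rw [e]
    exact this
  have hbd : Bornology.IsBounded F := by
    obtain ⟨R, hR⟩ := hL.isBounded.exists_norm_le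
    refine (Metric.isBounded_Icc (-R) R).subset fun t ht => ?_
    have h1 := norm_le_pi_norm (cs t (z + t • η)) 0
    have h2 := hR _ ht
    rw [cs_zero] at h1
    have := abs_le.1 ((Real.norm_eq_abs t ▸ h1).trans h2)
    exact ⟨this.1, this.2⟩
  have hcomp : IsCompact F := Metric.isCompact_of_isClosed_isBounded hcl hbd
  obtain h := eq_Icc_of_connected_compact ⟨hne, hconv.isPreconnected⟩ hcomp
  refine ⟨sInf F, sSup F, ?_, h⟩
  obtain ⟨x, hx⟩ := hne
  have := hx
  rw [h] at this
  exact this.1.trans this.2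

theorem t_SEG : S_SEG := by
  intro m L hL hc hne η s hs
  have hM := isCompact_sum hL η s
  have key : volume {z | ∃ x ∈ L, ∃ r : ℝ, 0 ≤ r ∧ r ≤ s ∧ z = x + r • cs 1 η} =
      volume L + ENNReal.ofReal s * volume (pr η L) := by
    rw [volume_fibres hM.measurableSet η, volume_fibres hL.measurableSet η]
    have hpr : MeasurableSet (pr η L) := (isCompact_pr hL η).measurableSet
    have h1 : ∫⁻ z, (pr η L).indicator (fun _ => ENNReal.ofReal s) z =
        ENNReal.ofReal s * volume (pr η L) := by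
      rw [lintegral_indicator hpr, setLIntegral_const]
    rw [← h1, ← lintegral_add_right _ (measurable_const.indicator hpr)]
    refine lintegral_congr fun z => ?_
    rw [fibre_sum]
    by_cases hz : z ∈ pr η L
    · obtain ⟨a, b, hab, he⟩ := fibre_Icc hL hc η z hz
      rw [indicator_of_mem hz, he]
      have : {t : ℝ | ∃ u, u ∈ Icc a b ∧ u ≤ t ∧ t ≤ u + s} = Icc a (b + s) := by
        ext t
        constructor
        · rintro ⟨u, ⟨h1, h2⟩, h3, h4⟩
          exact ⟨h1.trans h3, by linarith⟩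
        · rintro ⟨h1, h2⟩
          refine ⟨min t b, ⟨le_min h1 hab, min_le_right _ _⟩, min_le_left _ _, ?_⟩
          rcases min_cases t b with h | h <;> linarith [h.1]
      rw [this, Real.volume_Icc, Real.volume_Icc, ← ENNReal.ofReal_add (by linarith) hs]
      congr 1
      ring
    · rw [indicator_of_notMem hz]
      have h0 : {t : ℝ | cs t (z + t • η) ∈ L} = ∅ := by
        ext t
        simp only [mem_ofPred_eq, mem_empty_iff_false, iff_false]
        exact fun h => hz ⟨t, h⟩
      rw [h0]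
      simp
  unfold vol
  rw [measureReal_def, key, ENNReal.toReal_add hL.measure_ne_top
    (ENNReal.mul_ne_top ENNReal.ofReal_ne_top (isCompact_pr hL η).measure_ne_top),
    ENNReal.toReal_mul, ENNReal.toReal_ofReal hs]
  rfl

end Pool.Agent.W597.EHSEG
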