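import Pool.Agent.W503.EH.Stmts
import Pool.Agent.W503.EH.Basic
import Pool.Agent.W597.EH_SEG

/-!
# Elementary symmetric polynomials and projections of boxes
-/

namespace Pool.Agent.W597.EHBOX

open MeasureTheory Set Pool.Agent.W503.EH

theorem sum_split {m : ℕ} (f : Finset (Fin (m + 1)) → ℝ) :
    ∑ s, f s = ∑ s : Finset (Fin m), f (s.image Fin.succ) +
      ∑ s : Finset (Fin m), f (insert 0 (s.image Fin.succ)) := by
  have hu : (Finset.univ : Finset (Fin (m + 1))) = insert 0 (Finset.univ.image Fin.succ) := by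
    ext i
    refine Fin.cases ?_ (fun i => ?_) i <;> simp
  have h0 : (0 : Fin (m + 1)) ∉ (Finset.univ.image Fin.succ : Finset (Fin (m + 1))) := by
    simp
  have hinj : Function.Injective (Finset.image (Fin.succ : Fin m → Fin (m + 1))) :=
    Finset.image_injective (Fin.succ_injective m)
  rw [← Finset.powerset_univ, hu, Finset.sum_powerset_insert h0, Finset.powerset_image,
    Finset.sum_image hinj.injOn, Finset.sum_image hinj.injOn, Finset.powerset_univ]

theorem card_img {m : ℕ} (s : Finset (Fin m)) : (s.image Fin.succ).card = s.card :=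
  Finset.card_image_of_injective _ (Fin.succ_injective m)

theorem card_ins {m : ℕ} (s : Finset (Fin m)) :
    (insert 0 (s.image Fin.succ) : Finset (Fin (m + 1))).card = s.card + 1 := by
  rw [Finset.card_insert_of_notMem (by simp), card_img]

theorem prod_img {m : ℕ} (n0 : ℝ) (n : Fin m → ℝ) (s : Finset (Fin m)) :
    ∏ j ∈ s.image Fin.succ, cs n0 n j = ∏ j ∈ s, n j := by
  rw [Finset.prod_image (Fin.succ_injective m).injOn]
  rfl

theorem prod_ins {m : ℕ} (n0 : ℝ) (n : Fin m → ℝ) (s : Finset (Fin m)) :
    ∏ j ∈ insert 0 (s.image Fin.succ), cs n0 n j = n0 * ∏ j ∈ s, n j := by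
  rw [Finset.prod_insert (by simp), prod_img]
  rfl

theorem t_REC : S_REC := by
  intro m n0 n
  constructor
  · unfold el
    rw [Finset.sum_filter, sum_split, Finset.sum_filter, Finset.mul_sum]
    simp only [card_img, card_ins, prod_img, prod_ins]
    congr 1
    · rw [Finset.sum_eq_single (Finset.univ : Finset (Fin m))]
      · simp
      · intro s _ hs
        rw [if_neg]
        intro h
        exact hs (Finset.card_eq_iff_eq_univ s |>.1 (by simpa using h))
      · simp
    · refine Finset.sum_congr rfl fun s _ => ?_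
      by_cases h : s.card + 1 = m
      · simp [h]
      · rw [if_neg (by omega), if_neg h, mul_zero]
  · unfold lo el
    rw [Finset.sum_filter, sum_split, Finset.sum_filter, Finset.sum_filter, Finset.mul_sum]
    simp only [card_img, card_ins, prod_img, prod_ins]
    congr 1
    · rw [← Finset.sum_add_distrib]
      refine Finset.sum_congr rfl fun s _ => ?_
      by_cases h : s.card + 2 ≤ m
      · rw [if_pos (by omega), if_pos h, if_neg (by omega), add_zero]
      · by_cases h1 : s.card + 1 = m
        · rw [if_pos (by omega), if_neg h, if_pos h1, zero_add]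
        · rw [if_neg (by omega), if_neg h, if_neg h1, add_zero]
    · refine Finset.sum_congr rfl fun s _ => ?_
      by_cases h : s.card + 2 ≤ m
      · rw [if_pos (by omega), if_pos h]
      · rw [if_neg (by omega), if_neg h, mul_zero]

theorem bx_eq {m : ℕ} (a : Fin m → ℤ) (n : Fin m → ℕ) :
    bx a n = Icc (fun i => (a i : ℝ)) (fun i => (a i : ℝ) + n i) := by
  ext x
  exact ⟨fun h => ⟨fun i => (h i).1, fun i => (h i).2⟩, fun h i => ⟨h.1 i, h.2 i⟩⟩

theorem vol_bx {m : ℕ} (a : Fin m → ℤ) (n : Fin m → ℕ) : vol (bx a n) = ∏ i, (n i : ℝ) := by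
  rw [bx_eq, vol, measureReal_def, Real.volume_Icc_pi_toReal]
  · simp
  · intro i
    simp

theorem isCompact_bx {m : ℕ} (a : Fin m → ℤ) (n : Fin m → ℕ) : IsCompact (bx a n) := by
  rw [bx_eq]
  exact isCompact_Icc

theorem convex_bx {m : ℕ} (a : Fin m → ℤ) (n : Fin m → ℕ) : Convex ℝ (bx a n) := by
  rw [bx_eq]
  exact convex_Icc _ _

theorem bx_nonempty {m : ℕ} (a : Fin m → ℤ) (n : Fin m → ℕ) : (bx a n).Nonempty :=
  ⟨fun i => a i, fun i => ⟨le_rfl, by simp⟩⟩

theorem t_BOX (h : S_SEG) (h' : S_REC) : S_BOX := by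
  intro m
  induction m with
  | zero =>
    intro a n η _
    have e : (fun i : Fin 1 => (n i : ℝ)) = cs (n 0 : ℝ) (fun i : Fin 0 => (n i.succ : ℝ)) := by
      rw [← cs_eta (fun i : Fin 1 => (n i : ℝ))]
    rw [e, (h' 0 _ _).1]
    have h0 : el 1 (fun i : Fin 0 => (n i.succ : ℝ)) = 0 := by
      simp [el]
    rw [h0, mul_zero, add_zero, Finset.univ_eq_empty, Finset.prod_empty]
    exact (vol_eq_one_of_nonempty (pr_nonempty (bx_nonempty a n) η)).le
  | succ m ih =>
    intro a n η hη
    set a' : Fin (m + 1) → ℤ := fun i => a i.succ with ha'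
    set n' : Fin (m + 1) → ℕ := fun i => n i.succ with hn'
    have e : (fun i : Fin (m + 2) => (n i : ℝ)) = cs (n 0 : ℝ) (fun i => (n' i : ℝ)) := by
      rw [← cs_eta (fun i : Fin (m + 2) => (n i : ℝ))]
    rw [e, (h' (m + 1) _ _).1]
    -- the sign vector
    obtain ⟨ε, hε, η', hη', hηe⟩ : ∃ ε : ℝ, (ε = 1 ∨ ε = -1) ∧ ∃ η' : Fin m → ℝ, Sgn η' ∧
        η = ε • cs 1 η' := by
      rcases hη 0 with h1 | h1
      · refine ⟨1, Or.inl rfl, fun i => η i.succ, fun i => hη i.succ, ?_⟩
        conv_lhs => rw [← cs_eta η]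
        rw [h1, one_smul]
      · refine ⟨-1, Or.inr rfl, fun i => - η i.succ, fun i => ?_, ?_⟩
        · rcases hη i.succ with h2 | h2 <;> simp [h2]
        · conv_lhs => rw [← cs_eta η]
          rw [h1, cs_smul]
          congr 1
          · norm_num
          · ext i
            simp
    have hseg := h m (bx a' n') (isCompact_bx a' n') (convex_bx a' n') (bx_nonempty a' n') η'
      (n 0 : ℝ) (Nat.cast_nonneg _)
    set M := {z | ∃ x ∈ bx a' n', ∃ r : ℝ, 0 ≤ r ∧ r ≤ (n 0 : ℝ) ∧ z = x + r • cs 1 η'} with hM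
    have hMc : IsCompact M := Pool.Agent.W597.EHSEG.isCompact_sum (isCompact_bx a' n') η' _
    -- the projection is contained in a translate of `M`
    have hsub : ∃ v : Fin (m + 1) → ℝ, pr η (bx a n) ⊆ (fun z => z + v) ⁻¹' M := by
      rcases hε with rfl | rfl
      · refine ⟨((a 0 : ℝ) + n 0) • cs 1 η', ?_⟩
        rintro z ⟨s, hs⟩
        refine ⟨z + s • η, fun i => hs i.succ, (a 0 : ℝ) + n 0 - s, ?_, ?_, ?_⟩
        · have := (hs 0).2
          rw [cs_zero] at this
          linarith
        · have := (hs 0).1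
          rw [cs_zero] at this
          linarith
        · rw [hηe]
          module
      · refine ⟨-((a 0 : ℝ)) • cs 1 η', ?_⟩
        rintro z ⟨s, hs⟩
        refine ⟨z + s • η, fun i => hs i.succ, s - (a 0 : ℝ), ?_, ?_, ?_⟩
        · have := (hs 0).1
          rw [cs_zero] at this
          linarith
        · have := (hs 0).2
          rw [cs_zero] at this
          linarith
        · rw [hηe]
          module
    obtain ⟨v, hv⟩ := hsub
    have h1 : vol (pr η (bx a n)) ≤ vol M := by
      have h2 : vol ((fun z => z + v) ⁻¹' M) = vol M := by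
        unfold vol
        rw [measureReal_def, measureReal_def, measure_preimage_add_right]
      rw [← h2]
      refine measureReal_mono hv ?_
      rw [measure_preimage_add_right]
      exact hMc.measure_ne_top
    refine h1.trans ?_
    rw [hseg, vol_bx]
    have := ih a' n' η' hη'
    have h0 : (0 : ℝ) ≤ n 0 := Nat.cast_nonneg _
    gcongr

end Pool.Agent.W597.EHBOX
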