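import Pool.Agent.W503.EH.Stmts
import Pool.Agent.W503.EH.Basic

/-!
# Lower bound for two opposite projections
-/

namespace Pool.Agent.W597.EHCOS

open MeasureTheory Set Pool.Agent.W503.EH

/-- the planar inequality -/
theorem planar (T : Set (ℝ × ℝ)) (hT : IsCompact T) (hc : Convex ℝ T) (c : ℝ)
    (hTc : ∀ p ∈ T, c ≤ p.2 ∧ p.2 ≤ c + 1) :
    volume {s : ℝ | (s, c) ∈ T} + volume {s : ℝ | (s, c + 1) ∈ T} +
      2 * volume {t : ℝ | ∃ s, (s, t) ∈ T} ≤
    volume {u : ℝ | ∃ t, (u + t, t) ∈ T} + volume {u : ℝ | ∃ t, (u - t, t) ∈ T} := by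
  rcases T.eq_empty_or_nonempty with rfl | hne
  · simp
  -- minimal and maximal height
  obtain ⟨p0, hp0, hmin⟩ := hT.exists_isMinOn hne continuous_snd.continuousOn
  obtain ⟨p1, hp1, hmax⟩ := hT.exists_isMaxOn hne continuous_snd.continuousOn
  have hmin' : ∀ p ∈ T, p0.2 ≤ p.2 := fun p hp => hmin hp
  have hmax' : ∀ p ∈ T, p.2 ≤ p1.2 := fun p hp => hmax hp
  set t0 := p0.2 with ht0
  set t1 := p1.2 with ht1
  -- the end slices
  have slice : ∀ t : ℝ, (∃ s, (s, t) ∈ T) → ∃ a b : ℝ, (a, t) ∈ T ∧ (b, t) ∈ T ∧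
      ∀ s, (s, t) ∈ T → a ≤ s ∧ s ≤ b := by
    rintro t ⟨s0, hs0⟩
    have hTt : IsCompact (T ∩ {p | p.2 = t}) :=
      hT.inter_right (isClosed_eq (by fun_prop) (by fun_prop))
    have hnt : (T ∩ {p | p.2 = t}).Nonempty := ⟨(s0, t), hs0, rfl⟩
    obtain ⟨q0, ⟨hq0, hq0t⟩, h0⟩ := hTt.exists_isMinOn hnt continuous_fst.continuousOn
    obtain ⟨q1, ⟨hq1, hq1t⟩, h1⟩ := hTt.exists_isMaxOn hnt continuous_fst.continuousOn
    have e0 : q0 = (q0.1, t) := by ext <;> simp [show q0.2 = t from hq0t]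
    have e1 : q1 = (q1.1, t) := by ext <;> simp [show q1.2 = t from hq1t]
    refine ⟨q0.1, q1.1, e0 ▸ hq0, e1 ▸ hq1, fun s hs => ?_⟩
    exact ⟨h0 (show (s, t) ∈ T ∩ {p | p.2 = t} from ⟨hs, rfl⟩),
      h1 (show (s, t) ∈ T ∩ {p | p.2 = t} from ⟨hs, rfl⟩)⟩
  obtain ⟨a1, a2, ha1, ha2, ha⟩ := slice t0 ⟨p0.1, hp0⟩
  obtain ⟨b1, b2, hb1, hb2, hb⟩ := slice t1 ⟨p1.1, hp1⟩
  have h01 : t0 ≤ t1 := hmin' p1 hp1
  have ha12 : a1 ≤ a2 := (ha a2 ha2).1
  have hb12 : b1 ≤ b2 := (hb b2 hb2).1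
  have hct0 : c ≤ t0 := (hTc p0 hp0).1
  have hct1 : t1 ≤ c + 1 := (hTc p1 hp1).2
  -- upper bounds for the left side
  have u1 : volume {s : ℝ | (s, c) ∈ T} ≤ ENNReal.ofReal (a2 - a1) := by
    rw [← Real.volume_Icc]
    refine measure_mono fun s hs => ?_
    have hs : (s, c) ∈ T := hs
    have : t0 = c := le_antisymm (hmin' _ hs) hct0
    rw [← this] at hs
    exact ha s hs
  have u2 : volume {s : ℝ | (s, c + 1) ∈ T} ≤ ENNReal.ofReal (b2 - b1) := by
    rw [← Real.volume_Icc]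
    refine measure_mono fun s hs => ?_
    have hs : (s, c + 1) ∈ T := hs
    have : t1 = c + 1 := le_antisymm hct1 (hmax' _ hs)
    rw [← this] at hs
    exact hb s hs
  have u3 : volume {t : ℝ | ∃ s, (s, t) ∈ T} ≤ ENNReal.ofReal (t1 - t0) := by
    rw [← Real.volume_Icc]
    refine measure_mono fun t ht => ?_
    obtain ⟨s, hs⟩ := ht
    exact ⟨hmin' _ hs, hmax' _ hs⟩
  -- lower bounds for the right side
  have comb : ∀ {x y : ℝ × ℝ}, x ∈ T → y ∈ T → ∀ {a b : ℝ}, 0 ≤ a → 0 ≤ b → a + b = 1 →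
      (a * x.1 + b * y.1, a * x.2 + b * y.2) ∈ T := by
    intro x y hx hy a b h1 h2 h3
    exact hc hx hy h1 h2 h3
  have hD : Convex ℝ {u : ℝ | ∃ t, (u + t, t) ∈ T} := by
    rintro x ⟨t, ht⟩ y ⟨t', ht'⟩ a b h1 h2 h3
    refine ⟨a * t + b * t', ?_⟩
    have := comb ht ht' h1 h2 h3
    convert this using 2
    simp only [smul_eq_mul]
    ring
  have hE : Convex ℝ {u : ℝ | ∃ t, (u - t, t) ∈ T} := by
    rintro x ⟨t, ht⟩ y ⟨t', ht'⟩ a b h1 h2 h3
    refine ⟨a * t + b * t', ?_⟩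
    have := comb ht ht' h1 h2 h3
    convert this using 2
    simp only [smul_eq_mul]
    ring
  have l1 : ENNReal.ofReal ((a2 - t0) - (b1 - t1)) ≤ volume {u : ℝ | ∃ t, (u + t, t) ∈ T} := by
    rw [← Real.volume_Icc]
    exact measure_mono (hD.ordConnected.out ⟨t1, by simpa using hb1⟩ ⟨t0, by simpa using ha2⟩)
  have l2 : ENNReal.ofReal ((b2 + t1) - (a1 + t0)) ≤ volume {u : ℝ | ∃ t, (u - t, t) ∈ T} := by
    rw [← Real.volume_Icc]
    exact measure_mono (hE.ordConnected.out ⟨t0, by simpa using ha1⟩ ⟨t1, by simpa using hb2⟩)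
  calc volume {s : ℝ | (s, c) ∈ T} + volume {s : ℝ | (s, c + 1) ∈ T} +
        2 * volume {t : ℝ | ∃ s, (s, t) ∈ T}
      ≤ ENNReal.ofReal (a2 - a1) + ENNReal.ofReal (b2 - b1) + 2 * ENNReal.ofReal (t1 - t0) := by
        gcongr
    _ = ENNReal.ofReal (((a2 - t0) - (b1 - t1)) + ((b2 + t1) - (a1 + t0))) := by
        rw [← ENNReal.ofReal_ofNat 2, ← ENNReal.ofReal_mul (by norm_num),
          ← ENNReal.ofReal_add (by linarith) (by linarith),
          ← ENNReal.ofReal_add (by linarith) (by nlinarith)]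
        congr 1
        ring
    _ ≤ ENNReal.ofReal ((a2 - t0) - (b1 - t1)) + ENNReal.ofReal ((b2 + t1) - (a1 + t0)) :=
        ENNReal.ofReal_add_le
    _ ≤ _ := add_le_add l1 l2

/-- the planar section of `K` -/
def TT2 {m : ℕ} (K : Set (Fin (m + 2) → ℝ)) (η z : Fin m → ℝ) : Set (ℝ × ℝ) :=
  {p | cs p.2 (cs p.1 (z + p.1 • η)) ∈ K}

theorem isCompact_TT2 {m : ℕ} {K : Set (Fin (m + 2) → ℝ)} (hK : IsCompact K) (η z : Fin m → ℝ) :
    IsCompact (TT2 K η z) := by
  have hcont : Continuous (fun p : ℝ × ℝ => cs p.2 (cs p.1 (z + p.1 • η))) := by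
    have h1 : Continuous (fun p : ℝ × ℝ => cs p.1 (z + p.1 • η)) :=
      continuous_cs.comp (by fun_prop : Continuous (fun p : ℝ × ℝ => (p.1, z + p.1 • η)))
    exact continuous_cs.comp (continuous_snd.prodMk h1)
  have hcl : IsClosed (TT2 K η z) := hK.isClosed.preimage hcont
  have hbd : Bornology.IsBounded (TT2 K η z) := by
    obtain ⟨R, hR⟩ := hK.isBounded.exists_norm_le
    have h2 : TT2 K η z ⊆ Icc (-R) R ×ˢ Icc (-R) R := by
      intro p hp
      have h2 := hR _ hp
      have h1 := norm_le_pi_norm (cs p.2 (cs p.1 (z + p.1 • η))) 0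
      have h3 := norm_le_pi_norm (cs p.2 (cs p.1 (z + p.1 • η))) (Fin.succ 0)
      rw [cs_zero] at h1
      rw [cs_succ, cs_zero] at h3
      have i1 := abs_le.1 ((Real.norm_eq_abs p.2 ▸ h1).trans h2)
      have i3 := abs_le.1 ((Real.norm_eq_abs p.1 ▸ h3).trans h2)
      exact ⟨⟨i3.1, i3.2⟩, ⟨i1.1, i1.2⟩⟩
    exact ((Metric.isBounded_Icc (-R) R).prod (Metric.isBounded_Icc (-R) R)).subset h2
  exact Metric.isCompact_of_isClosed_isBounded hcl hbd

theorem convex_TT2 {m : ℕ} {K : Set (Fin (m + 2) → ℝ)} (hK : Convex ℝ K) (η z : Fin m → ℝ) :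
    Convex ℝ (TT2 K η z) := by
  intro x hx y hy a b ha hb hab
  have := hK hx hy ha hb hab
  rw [comb_cs, comb_cs] at this
  change cs (a • x + b • y).2 (cs (a • x + b • y).1 (z + (a • x + b • y).1 • η)) ∈ K
  have e : z + (a * x.1 + b * y.1) • η = a • (z + x.1 • η) + b • (z + y.1 • η) := by
    calc z + (a * x.1 + b * y.1) • η = (a + b) • z + (a * x.1 + b * y.1) • η := by
          rw [hab, one_smul]
      _ = _ := by module
  simp only [Prod.fst_add, Prod.snd_add, Prod.smul_fst, Prod.smul_snd, smul_eq_mul]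
  rw [e]
  exact this

/-- the set of pairs (height, projection of the slice) -/
def PP {m : ℕ} (K : Set (Fin (m + 2) → ℝ)) (η : Fin m → ℝ) : Set (Fin (m + 1) → ℝ) :=
  {x | ∃ s : ℝ, cs (x 0) (cs s ((fun i => x i.succ) + s • η)) ∈ K}

theorem sl_PP {m : ℕ} (K : Set (Fin (m + 2) → ℝ)) (η : Fin m → ℝ) (t : ℝ) :
    sl (PP K η) t = pr η (sl K t) := rfl

theorem isCompact_PP {m : ℕ} {K : Set (Fin (m + 2) → ℝ)} (hK : IsCompact K) (η : Fin m → ℝ) :
    IsCompact (PP K η) := by
  have : PP K η = (fun x : Fin (m + 2) → ℝ =>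
      cs (x 0) (fun i : Fin m => x i.succ.succ - x (Fin.succ 0) * η i)) '' K := by
    ext x
    constructor
    · rintro ⟨s, hs⟩
      refine ⟨_, hs, ?_⟩
      conv_rhs => rw [← cs_eta x]
      simp only [cs_zero, cs_succ]
      congr 1
      ext i
      simp
    · rintro ⟨x, hx, rfl⟩
      refine ⟨x (Fin.succ 0), ?_⟩
      simp only [cs_zero, cs_succ]
      convert hx
      conv_rhs => rw [← cs_eta x, ← cs_eta (fun i : Fin (m + 1) => x i.succ)]
      congr 2
      ext i
      simp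
  rw [this]
  refine hK.image ?_
  exact continuous_cs.comp (by fun_prop : Continuous (fun x : Fin (m + 2) → ℝ =>
    (x 0, fun i : Fin m => x i.succ.succ - x (Fin.succ 0) * η i)))

theorem measurable_fibre {m : ℕ} {K : Set (Fin (m + 1) → ℝ)} (hK : MeasurableSet K)
    (η : Fin m → ℝ) :
    Measurable (fun z : Fin m → ℝ => volume {s : ℝ | cs s (z + s • η) ∈ K}) := by
  have hm : MeasurableSet {p : ℝ × (Fin m → ℝ) | cs p.1 (p.2 + p.1 • η) ∈ K} := by
    have : Measurable (fun p : ℝ × (Fin m → ℝ) => cs p.1 (p.2 + p.1 • η)) :=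
      (continuous_cs.comp (by fun_prop : Continuous
        (fun p : ℝ × (Fin m → ℝ) => (p.1, p.2 + p.1 • η)))).measurable
    exact this hK
  exact measurable_measure_prodMk_right hm

theorem measurable_slice {m : ℕ} {K : Set (Fin (m + 1) → ℝ)} (hK : MeasurableSet K) :
    Measurable (fun t : ℝ => volume (sl K t)) :=
  measurable_measure_prodMk_left (measurable_cs hK)

theorem t_COS : S_COS := by
  intro m K hK hc c hKc η
  have hD : IsCompact (pr (cs 1 η) K) := isCompact_pr hK _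
  have hE : IsCompact (pr (-cs 1 η) K) := isCompact_pr hK _
  have hA : IsCompact (sl K c) := isCompact_sl hK _
  have hB : IsCompact (sl K (c + 1)) := isCompact_sl hK _
  have hP : IsCompact (PP K η) := isCompact_PP hK η
  have key : volume (sl K c) + volume (sl K (c + 1)) + 2 * volume (PP K η) ≤
      volume (pr (cs 1 η) K) + volume (pr (-cs 1 η) K) := by
    rw [volume_fibres hA.measurableSet η, volume_fibres hB.measurableSet η,
      volume_fibres hP.measurableSet 0, volume_fibres hD.measurableSet η,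
      volume_fibres hE.measurableSet η, ← lintegral_add_left (measurable_fibre hD.measurableSet η)]
    refine (add_le_add (le_lintegral_add _ _) (lintegral_const_mul_le _ _)).trans
      ((le_lintegral_add _ _).trans (lintegral_mono fun z => ?_))
    have h := planar (TT2 K η z) (isCompact_TT2 hK η z) (convex_TT2 hc η z) c
      (fun p hp => by simpa using hKc hp)
    have e3 : {t : ℝ | cs t (z + t • (0 : Fin m → ℝ)) ∈ PP K η} =
        {t : ℝ | ∃ s, (s, t) ∈ TT2 K η z} := by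
      ext t
      simp only [smul_zero, add_zero]
      rfl
    have e4 : {u : ℝ | cs u (z + u • η) ∈ pr (cs 1 η) K} =
        {u : ℝ | ∃ t, (u + t, t) ∈ TT2 K η z} := by
      ext u
      refine exists_congr fun t => ?_
      change _ ↔ cs t (cs (u + t) (z + (u + t) • η)) ∈ K
      have : cs u (z + u • η) + t • cs 1 η = cs (u + t) (z + (u + t) • η) := by
        rw [cs_smul, cs_add]
        congr 1
        · ring
        · module
      rw [this]
    have e5 : {u : ℝ | cs u (z + u • η) ∈ pr (-cs 1 η) K} =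
        {u : ℝ | ∃ t, (u - t, t) ∈ TT2 K η z} := by
      ext u
      refine exists_congr fun t => ?_
      change _ ↔ cs t (cs (u - t) (z + (u - t) • η)) ∈ K
      have : cs u (z + u • η) + t • -cs 1 η = cs (u - t) (z + (u - t) • η) := by
        rw [cs_neg, cs_smul, cs_add]
        congr 1
        · ring
        · module
      rw [this]
    rw [e3, e4, e5]
    exact h
  have hint : (∫ t in c..(c + 1), vol (pr η (sl K t))) ≤ vol (PP K η) := by
    rw [intervalIntegral.integral_of_le (by linarith)]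
    have hfin : ∀ t, volume (pr η (sl K t)) < ⊤ := fun t =>
      (isCompact_pr (isCompact_sl hK t) η).measure_lt_top
    have h1 : ∫ t in Ioc c (c + 1), vol (pr η (sl K t)) =
        (∫⁻ t in Ioc c (c + 1), volume (pr η (sl K t))).toReal :=
      integral_toReal (measurable_slice hP.measurableSet).aemeasurable
        (Filter.Eventually.of_forall hfin)
    rw [h1, vol, measureReal_def, volume_slices hP.measurableSet]
    refine ENNReal.toReal_mono ?_ (setLIntegral_le_lintegral _ _)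
    rw [← volume_slices hP.measurableSet]
    exact hP.measure_ne_top
  have key2 := ENNReal.toReal_mono
    (ENNReal.add_ne_top.2 ⟨hD.measure_ne_top, hE.measure_ne_top⟩) key
  rw [ENNReal.toReal_add hD.measure_ne_top hE.measure_ne_top,
    ENNReal.toReal_add (ENNReal.add_ne_top.2 ⟨hA.measure_ne_top, hB.measure_ne_top⟩)
      (ENNReal.mul_ne_top (by norm_num) hP.measure_ne_top),
    ENNReal.toReal_add hA.measure_ne_top hB.measure_ne_top, ENNReal.toReal_mul] at key2
  have : (2 : ENNReal).toReal = 2 := by norm_num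
  rw [this] at key2
  change vol (sl K c) + vol (sl K (c + 1)) + 2 * vol (PP K η) ≤
    vol (pr (cs 1 η) K) + vol (pr (-cs 1 η) K) at key2
  linarith

end Pool.Agent.W597.EHCOS
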