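import Pool.Agent.W503.EH.Stmts
import Pool.Agent.W503.EH.Basic
import Pool.Agent.W597.EH_SEG

/-!
# The functional `TT` is at most half the surface area
-/

namespace Pool.Agent.W597.EHTHICK

open MeasureTheory Set Pool.Agent.W503.EH

theorem bes_aux : ∀ (m : ℕ) (s : (Fin m → ℝ) → ℝ),
    (av m s) ^ 2 + ∑ i, (av m (fun η => s η * η i)) ^ 2 ≤ av m (fun η => s η ^ 2)
  | 0, s => by simp [av]
  | m + 1, s => by
    have h1 := bes_aux m (fun η => s (cs 1 η))
    have h2 := bes_aux m (fun η => s (-cs 1 η))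
    rw [Fin.sum_univ_succ]
    simp only [av, cs_zero, cs_succ, Pi.neg_apply, mul_one, mul_neg]
    have e1 : av m (fun η => -s (-cs 1 η)) = - av m (fun η => s (-cs 1 η)) := by
      have := av_const_mul (-1) (fun η : Fin m → ℝ => s (-cs 1 η))
      simp only [neg_one_mul] at this
      exact this
    have e2 : ∀ i : Fin m, av m (fun η => -(s (-cs 1 η) * η i)) =
        - av m (fun η => s (-cs 1 η) * η i) := by
      intro i
      have := av_const_mul (-1) (fun η : Fin m → ℝ => s (-cs 1 η) * η i)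
      simp only [neg_one_mul] at this
      exact this
    rw [e1]
    simp only [e2]
    have h3 : ∑ i : Fin m, ((av m (fun η => s (cs 1 η) * η i) +
        -av m (fun η => s (-cs 1 η) * η i)) / 2) ^ 2 ≤
        (∑ i : Fin m, (av m (fun η => s (cs 1 η) * η i)) ^ 2 +
          ∑ i : Fin m, (av m (fun η => s (-cs 1 η) * η i)) ^ 2) / 2 := by
      rw [← Finset.sum_add_distrib, Finset.sum_div]
      refine Finset.sum_le_sum fun i _ => ?_
      nlinarith [sq_nonneg (av m (fun η => s (cs 1 η) * η i) + av m (fun η => s (-cs 1 η) * η i))]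
    nlinarith

theorem t_BES : S_BES := by
  intro m s hs
  refine (bes_aux m s).trans ?_
  rw [← av_const m 1]
  refine av_mono fun η hη => ?_
  have := hs η hη
  rw [← sq_abs]
  have h0 := abs_nonneg (s η)
  nlinarith

/-- adding a centred segment -/
theorem seg_centred (h : S_SEG) {m : ℕ} (L : Set (Fin (m + 1) → ℝ)) (hL : IsCompact L)
    (hc : Convex ℝ L) (hne : L.Nonempty) (η : Fin m → ℝ) (w : ℝ) (hw : 0 ≤ w) :
    ∃ L' : Set (Fin (m + 1) → ℝ), IsCompact L' ∧ Convex ℝ L' ∧ L ⊆ L' ∧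
      vol L' = vol L + 2 * w * vol (pr η L) ∧
      ∀ z ∈ L', ∃ x ∈ L, ∃ r : ℝ, |r| ≤ w ∧ z = x + r • cs 1 η := by
  set M := {z | ∃ x ∈ L, ∃ r : ℝ, 0 ≤ r ∧ r ≤ 2 * w ∧ z = x + r • cs 1 η} with hM
  have hMc : IsCompact M := Pool.Agent.W597.EHSEG.isCompact_sum hL η (2 * w)
  have hMx : Convex ℝ M := by
    rintro z ⟨x, hx, r, h0, h1, rfl⟩ z' ⟨x', hx', r', h0', h1', rfl⟩ a b ha hb hab
    refine ⟨a • x + b • x', hc hx hx' ha hb hab, a * r + b * r', by positivity, ?_, by module⟩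
    have : a * r + b * r' ≤ a * (2 * w) + b * (2 * w) := by gcongr
    rwa [← add_mul, hab, one_mul] at this
  refine ⟨(fun z => z + w • cs 1 η) ⁻¹' M, ?_, ?_, ?_, ?_, ?_⟩
  · have := hMc.image (f := fun z => z + (-w) • cs 1 η) (by fun_prop)
    convert this using 1
    ext z
    constructor
    · intro hz
      exact ⟨_, hz, by simp⟩
    · rintro ⟨y, hy, rfl⟩
      simpa using hy
  · intro x hx y hy a b ha hb hab
    have := hMx hx hy ha hb hab
    change a • x + b • y + w • cs 1 η ∈ M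
    have e : a • x + b • y + w • cs 1 η = a • (x + w • cs 1 η) + b • (y + w • cs 1 η) := by
      calc a • x + b • y + w • cs 1 η = a • x + b • y + (a + b) • (w • cs 1 η) := by
            rw [hab, one_smul]
        _ = _ := by module
    rw [e]
    exact this
  · intro x hx
    exact ⟨x, hx, w, hw, by linarith, rfl⟩
  · have h1 : vol ((fun z => z + w • cs 1 η) ⁻¹' M) = vol M := by
      unfold vol
      rw [measureReal_def, measureReal_def, measure_preimage_add_right]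
    rw [h1, hM, h m L hL hc hne η (2 * w) (by linarith)]
  · rintro z ⟨x, hx, r, h0, h1, h2⟩
    refine ⟨x, hx, r - w, abs_le.2 ⟨by linarith, by linarith⟩, ?_⟩
    have : z = (z + w • cs 1 η) - w • cs 1 η := by simp
    rw [this]
    have h2 : z + w • cs 1 η = x + r • cs 1 η := h2
    rw [h2]
    module

theorem thick_aux (h : S_SEG) {m : ℕ} : ∀ (k : ℕ) (φ : (Fin k → ℝ) → (Fin m → ℝ)) (w : ℝ),
    0 ≤ w → ∀ L : Set (Fin (m + 1) → ℝ), IsCompact L → Convex ℝ L → L.Nonempty →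
    ∃ L' : Set (Fin (m + 1) → ℝ), IsCompact L' ∧ Convex ℝ L' ∧ L ⊆ L' ∧
      vol L + 2 * w * av k (fun ζ => vol (pr (φ ζ) L)) ≤ vol L' ∧
      ∀ z ∈ L', ∃ x ∈ L, ∃ s : (Fin k → ℝ) → ℝ, (∀ ζ, |s ζ| ≤ 1) ∧
        ∀ i, z i = x i + w * av k (fun ζ => s ζ * cs 1 (φ ζ) i)
  | 0, φ, w, hw, L, hL, hc, hne => by
    obtain ⟨L', h1, h2, h3, h4, h5⟩ := seg_centred h L hL hc hne (φ 0) w hw
    refine ⟨L', h1, h2, h3, h4.ge, fun z hz => ?_⟩
    obtain ⟨x, hx, r, hr, rfl⟩ := h5 z hz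
    refine ⟨x, hx, fun _ => r / w, fun _ => ?_, fun i => ?_⟩
    · rw [abs_div, abs_of_nonneg hw]
      exact div_le_one_of_le₀ hr hw
    · simp only [av, Pi.add_apply, Pi.smul_apply, smul_eq_mul]
      rcases hw.eq_or_lt with rfl | hw0
      · have : r = 0 := abs_eq_zero.1 (le_antisymm hr (abs_nonneg _))
        simp [this]
      · field_simp
  | k + 1, φ, w, hw, L, hL, hc, hne => by
    obtain ⟨L1, a1, a2, a3, a4, a5⟩ := thick_aux h k (fun ζ => φ (cs 1 ζ)) (w / 2) (by linarith)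
      L hL hc hne
    obtain ⟨L2, b1, b2, b3, b4, b5⟩ := thick_aux h k (fun ζ => φ (-cs 1 ζ)) (w / 2) (by linarith)
      L1 a1 a2 (hne.mono a3)
    refine ⟨L2, b1, b2, a3.trans b3, ?_, fun z hz => ?_⟩
    · have hm : av k (fun ζ => vol (pr (φ (-cs 1 ζ)) L)) ≤
          av k (fun ζ => vol (pr (φ (-cs 1 ζ)) L1)) :=
        av_mono fun ζ _ => vol_mono (pr_mono a3 _) (isCompact_pr a1 _)
      simp only [av]
      nlinarith
    · obtain ⟨y, hy, s2, hs2, e2⟩ := b5 z hz
      obtain ⟨x, hx, s1, hs1, e1⟩ := a5 y hy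
      refine ⟨x, hx, fun v => if v 0 = 1 then s1 (fun i => v i.succ) else
        s2 (fun i => -v i.succ), fun v => ?_, fun i => ?_⟩
      · dsimp only
        split_ifs
        · exact hs1 _
        · exact hs2 _
      · rw [e2 i, e1 i]
        have n1 : ¬ ((-1 : ℝ) = 1) := by norm_num
        simp only [av, cs_zero, cs_succ, Pi.neg_apply, if_true, neg_neg, if_neg n1]
        ring

theorem t_THICK (h : S_SEG) (h' : S_BES) : S_THICK := by
  intro m K D hK hc hne hD ρ hρ hKD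
  obtain ⟨L', h1, h2, h3, h4, h5⟩ := thick_aux h m (fun η => η) ρ hρ K hK hc hne
  refine h4.trans (vol_mono ?_ hD)
  intro z hz
  obtain ⟨x, hx, s, hs, e⟩ := h5 z hz
  have hz' : z = x + fun i => ρ * av m (fun ζ => s ζ * cs 1 ζ i) := by
    ext i
    rw [e i]
    rfl
  rw [hz']
  refine hKD x hx _ ?_
  have hb := h' m s fun η _ => hs η
  rw [Fin.sum_univ_succ]
  simp only [cs_zero, cs_succ, mul_one, mul_pow]
  rw [← Finset.mul_sum, ← mul_add]
  have : ρ ^ 2 * ((av m fun ζ => s ζ) ^ 2 + ∑ i, (av m fun ζ => s ζ * ζ i) ^ 2) ≤ ρ ^ 2 * 1 := by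
    gcongr
  linarith

end Pool.Agent.W597.EHTHICK
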