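import Pool.Agent.W527.CL.Stm

/-!
# Project CL: arbitrarily small vectors
-/

namespace Pool.Agent.W597.CLS

open Pool.Agent.W527.CL NumberField

section
variable {K : Type} [Field K] [NumberField K] (D : FieldData K)

/-- the sign of the imaginary part -/
noncomputable def sg (k : Fin 5) : ℂ := if k = 3 then 1 else if k = 4 then -1 else 0

theorem sg_norm (k : Fin 5) : ‖sg k‖ ≤ 1 := by
  unfold sg
  split_ifs <;> simp

theorem lgc_eq (hL : S_LGC) (j : Fin 4) (k : Fin 5) :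
    D.lgc j k = (D.lam j k : ℂ) + ((D.lgc j 3).im : ℂ) * Complex.I * sg k := by
  have h1 := (hL K D j k).1
  have h2 := (hL K D j k).2.1
  have h3 := (hL K D j 3).2.1
  apply Complex.ext
  · rw [h1]
    have : (((D.lgc j 3).im : ℂ) * Complex.I * sg k).re = 0 := by
      unfold sg
      split_ifs <;> simp
    rw [Complex.add_re, Complex.ofReal_re, this, add_zero]
  · rw [Complex.add_im, Complex.ofReal_im, zero_add]
    have h4 := congrArg Complex.im h2
    have h5 := congrArg Complex.im h3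
    rw [Complex.conj_im] at h4 h5
    have e3 : (Equiv.swap (3 : Fin 5) 4) 3 = 4 := by decide
    rw [e3] at h5
    fin_cases k
    · have e : (Equiv.swap (3 : Fin 5) 4) 0 = 0 := by decide
      simp only [Fin.zero_eta, e] at h4 ⊢
      simp [sg]
      linarith
    · have e : (Equiv.swap (3 : Fin 5) 4) 1 = 1 := by decide
      simp only [Fin.mk_one, e] at h4 ⊢
      simp [sg]
      linarith
    · have e : (Equiv.swap (3 : Fin 5) 4) 2 = 2 := by decide
      simp only [Fin.reduceFinMk, e] at h4 ⊢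
      simp [sg]
      linarith
    · simp [sg]
    · simp [sg]
      linarith

theorem lam34 (hL : S_LGC) (j : Fin 4) : D.lam j 4 = D.lam j 3 := by
  have h1 := (hL K D j 3).1
  have h2 := (hL K D j 4).1
  have h3 := (hL K D j 3).2.1
  have e3 : (Equiv.swap (3 : Fin 5) 4) 3 = 4 := by decide
  rw [e3] at h3
  rw [← h1, ← h2, ← h3, Complex.conj_re]

theorem dep (hL : S_LGC) : ∃ (s : Fin 4 → ℝ) (i0 : Fin 4) (κ : ℝ), s i0 = 2 ∧
    ∀ k, ∑ j, s j * D.lam j k = κ := by
  obtain ⟨M, hM⟩ : ∃ M : Matrix (Fin 3) (Fin 4) ℝ,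
      M = Matrix.of fun k j => D.lam j k.castSucc.castSucc - D.lam j 3 := ⟨_, rfl⟩
  have hk : LinearMap.ker M.mulVecLin ≠ ⊥ := by
    apply LinearMap.ker_ne_bot_of_finrank_lt
    simp
  obtain ⟨v, hv, hv0⟩ := Submodule.exists_mem_ne_zero_of_ne_bot hk
  have hMv : M.mulVec v = 0 := by
    simpa using hv
  obtain ⟨i0, hi0⟩ : ∃ i, v i ≠ 0 := by
    by_contra h
    push Not at h
    exact hv0 (funext h)
  have hrow : ∀ k : Fin 3, ∑ j, v j * D.lam j k.castSucc.castSucc = ∑ j, v j * D.lam j 3 := by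
    intro k
    have h1 := congrFun hMv k
    rw [hM] at h1
    simp only [Matrix.mulVec, dotProduct, Matrix.of_apply, Pi.zero_apply] at h1
    rw [← sub_eq_zero, ← Finset.sum_sub_distrib, ← h1]
    refine Finset.sum_congr rfl fun j _ => ?_
    ring
  have hall : ∀ k : Fin 5, ∑ j, v j * D.lam j k = ∑ j, v j * D.lam j 3 := by
    intro k
    fin_cases k
    · exact hrow 0
    · exact hrow 1
    · exact hrow 2
    · rfl
    · exact Finset.sum_congr rfl fun j _ => by
        show v j * D.lam j 4 = v j * D.lam j 3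
        rw [lam34 D hL j]
  refine ⟨fun j => 2 / v i0 * v j, i0, 2 / v i0 * ∑ j, v j * D.lam j 3, ?_, ?_⟩
  · field_simp
  · intro k
    rw [← hall k, Finset.mul_sum]
    refine Finset.sum_congr rfl fun j _ => ?_
    ring

theorem perm_surj (p : Equiv.Perm (Fin 5)) : ∃ φ, D.perm φ = p := by
  obtain ⟨φ, hφ⟩ := D.surj p
  refine ⟨φ, ?_⟩
  ext k
  have h1 := D.perm_spec φ k
  rw [hφ k] at h1
  rw [D.inj h1]

end

theorem t_SMALL (hD : S_DIR) (hL : S_LGC) (hI : S_INDEP) (hZ : S_ZERO) : S_SMALL := by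
  intro K _ _ D ε hε
  obtain ⟨s, i0, κ, hs, hκ⟩ := dep D hL
  obtain ⟨θ, hθ⟩ : ∃ θ : ℝ, θ = ∑ j, s j * (D.lgc j 3).im := ⟨_, rfl⟩
  obtain ⟨t, ht⟩ : ∃ t : Fin 4 → ℝ, t = fun i => - s i * θ / (2 * Real.pi) := ⟨_, rfl⟩
  have hpi : (Real.pi : ℂ) ≠ 0 := Complex.ofReal_ne_zero.2 Real.pi_ne_zero
  have hsum : ∀ k, ∑ j, (s j : ℂ) * D.lgc j k = (κ : ℂ) + (θ : ℂ) * Complex.I * sg k := by
    intro k
    have e1 : ∀ j, (s j : ℂ) * D.lgc j k =
        ((s j * D.lam j k : ℝ) : ℂ) + ((s j * (D.lgc j 3).im : ℝ) : ℂ) * (Complex.I * sg k) := by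
      intro j
      conv_lhs => rw [lgc_eq D hL j k]
      push_cast
      ring
    rw [Finset.sum_congr rfl fun j _ => e1 j, Finset.sum_add_distrib, ← Finset.sum_mul,
      ← Complex.ofReal_sum, ← Complex.ofReal_sum, hκ k, ← hθ]
    ring
  have htc : ∀ i, (t i : ℂ) * (2 * Real.pi * Complex.I) = -((s i : ℂ) * θ * Complex.I) := by
    intro i
    rw [ht]
    push_cast
    field_simp
  obtain ⟨M, hM⟩ : ∃ M : ℝ, M = ∑ j, ∑ k, ‖D.lgc j k‖ := ⟨_, rfl⟩
  have hMb : ∀ j k, ‖D.lgc j k‖ ≤ M := by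
    intro j k
    rw [hM]
    refine (Finset.single_le_sum (f := fun k => ‖D.lgc j k‖) (fun k _ => norm_nonneg _)
      (Finset.mem_univ k)).trans ?_
    exact Finset.single_le_sum (f := fun j => ∑ k, ‖D.lgc j k‖)
      (fun j _ => Finset.sum_nonneg fun k _ => norm_nonneg _) (Finset.mem_univ j)
  have hM0 : 0 ≤ M := (norm_nonneg _).trans (hMb 0 0)
  obtain ⟨η, hη⟩ : ∃ η : ℝ, η = min (1 / 2) (ε / (64 * M + 57)) := ⟨_, rfl⟩
  have hη0 : 0 < η := by rw [hη]; positivity
  have hη1 : η ≤ 1 / 2 := by rw [hη]; exact min_le_left _ _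
  have hη2 : η * (64 * M + 57) ≤ ε := by
    rw [← le_div_iff₀ (by positivity), hη]
    exact min_le_right _ _
  obtain ⟨q, hq, m, hm⟩ := hD ((Fin 4 × Fin 4) ⊕ Fin 4)
    (Sum.elim (fun ij => s ij.1 * s ij.2 / 2) t) η hη0
  have hmC : ∀ i j, |(q : ℝ) * (s i * s j / 2) - m (Sum.inl (i, j))| < η := fun i j =>
    hm (Sum.inl (i, j))
  have hmr : ∀ i, |(q : ℝ) * t i - m (Sum.inr i)| < η := fun i => hm (Sum.inr i)
  refine ⟨Matrix.of fun i j => m (Sum.inl (i, j)), fun i => m (Sum.inr i), ?_, ?_⟩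
  · intro h0
    have hev : ∀ p, ev (D.muc (fun i j => ((m (Sum.inl (i, j)) + m (Sum.inl (j, i)) : ℤ) : ℝ))
        (fun i => ((m (Sum.inr i) : ℤ) : ℝ))) p = 0 := by
      intro p
      obtain ⟨φ, rfl⟩ := perm_surj D p
      exact congrFun h0 φ
    have h1 := hZ ℂ _ hev i0 0 1
    have e0 : ∀ k : Fin 5, (k = 0 ∨ k = 1) →
        D.muc (fun i j => ((m (Sum.inl (i, j)) + m (Sum.inl (j, i)) : ℤ) : ℝ))
        (fun i => ((m (Sum.inr i) : ℤ) : ℝ)) i0 k =
        ∑ j, ((m (Sum.inl (i0, j)) + m (Sum.inl (j, i0)) : ℤ) : ℂ) * D.lgc j k := by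
      intro k hk
      unfold FieldData.muc
      have : (if k = 3 then (1 : ℂ) else if k = 4 then -1 else 0) = 0 := by
        rcases hk with rfl | rfl <;> simp
      rw [this, mul_zero, add_zero]
      refine Finset.sum_congr rfl fun j _ => ?_
      push_cast
      ring
    rw [e0 0 (Or.inl rfl), e0 1 (Or.inr rfl)] at h1
    have h2 := congrArg Complex.exp h1
    have hex : ∀ k, Complex.exp (∑ j, ((m (Sum.inl (i0, j)) + m (Sum.inl (j, i0)) : ℤ) : ℂ) *
        D.lgc j k) = ∏ j, (D.β k + (nn j : ℂ)) ^ (m (Sum.inl (i0, j)) + m (Sum.inl (j, i0))) := by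
      intro k
      rw [Complex.exp_sum]
      refine Finset.prod_congr rfl fun j _ => ?_
      rw [Complex.exp_int_mul, (hL K D j k).2.2]
    rw [hex 0, hex 1] at h2
    have h3 := congrFun (hI K D (fun j => m (Sum.inl (i0, j)) + m (Sum.inl (j, i0))) h2) i0
    have h4 : m (Sum.inl (i0, i0)) = 0 := by
      have : m (Sum.inl (i0, i0)) + m (Sum.inl (i0, i0)) = 0 := h3
      omega
    have h5 := hmC i0 i0
    rw [h4, hs] at h5
    have hq1 : (1 : ℝ) ≤ q := by exact_mod_cast hq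
    have h6 := (abs_lt.1 h5).2
    push_cast at h6
    linarith
  · rw [pi_norm_lt_iff hε]
    intro φ
    obtain ⟨p, hp⟩ : ∃ p, p = D.perm φ := ⟨_, rfl⟩
    show ‖ev (D.muc (fun i j => ((m (Sum.inl (i, j)) + m (Sum.inl (j, i)) : ℤ) : ℝ))
        (fun i => ((m (Sum.inr i) : ℤ) : ℝ))) (D.perm φ)‖ < ε
    rw [← hp]
    -- deviation from the constant
    have hdev : ∀ i k, ‖D.muc (fun i j => ((m (Sum.inl (i, j)) + m (Sum.inl (j, i)) : ℤ) : ℝ))
        (fun i => ((m (Sum.inr i) : ℤ) : ℝ)) i k - (q : ℂ) * (s i * κ)‖ ≤ η * (8 * M + 7) := by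
      intro i k
      have e1 : D.muc (fun i j => ((m (Sum.inl (i, j)) + m (Sum.inl (j, i)) : ℤ) : ℝ))
        (fun i => ((m (Sum.inr i) : ℤ) : ℝ)) i k - (q : ℂ) * (s i * κ) =
          ∑ j, (((m (Sum.inl (i, j)) + m (Sum.inl (j, i)) : ℤ) : ℝ) - q * (s i * s j) : ℝ) *
            D.lgc j k + ((((m (Sum.inr i) : ℤ) : ℝ) - q * t i : ℝ) : ℂ) *
              (2 * Real.pi * Complex.I) * sg k := by
        have e2 : (q : ℂ) * (s i * κ) = (q : ℂ) * s i * (∑ j, (s j : ℂ) * D.lgc j k) +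
            (q : ℂ) * ((t i : ℂ) * (2 * Real.pi * Complex.I)) * sg k := by
          rw [hsum, htc]
          ring
        rw [e2]
        unfold FieldData.muc
        have e3 : ∑ j, ((((m (Sum.inl (i, j)) + m (Sum.inl (j, i)) : ℤ) : ℝ) -
            q * (s i * s j) : ℝ) : ℂ) * D.lgc j k =
            ∑ j, ((((m (Sum.inl (i, j)) + m (Sum.inl (j, i)) : ℤ) : ℝ)) : ℂ) * D.lgc j k -
              (q : ℂ) * s i * (∑ j, (s j : ℂ) * D.lgc j k) := by
          rw [Finset.mul_sum, ← Finset.sum_sub_distrib]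
          refine Finset.sum_congr rfl fun j _ => ?_
          push_cast
          ring
        rw [e3]
        unfold sg
        push_cast
        ring
      rw [e1]
      have b1 : ‖∑ j, (((m (Sum.inl (i, j)) + m (Sum.inl (j, i)) : ℤ) : ℝ) -
          q * (s i * s j) : ℝ) * D.lgc j k‖ ≤ ∑ j : Fin 4, 2 * η * M := by
        refine (norm_sum_le _ _).trans (Finset.sum_le_sum fun j _ => ?_)
        rw [norm_mul, Complex.norm_real, Real.norm_eq_abs]
        refine mul_le_mul ?_ (hMb j k) (norm_nonneg _) (by positivity)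
        have a1 := abs_lt.1 (hmC i j)
        have a2 := abs_lt.1 (hmC j i)
        rw [abs_le]
        push_cast
        constructor <;> nlinarith
      have b2 : ‖((((m (Sum.inr i) : ℤ) : ℝ) - q * t i : ℝ) : ℂ) *
              (2 * Real.pi * Complex.I) * sg k‖ ≤ η * 7 := by
        rw [norm_mul, norm_mul, Complex.norm_real, Real.norm_eq_abs]
        have a1 : |((m (Sum.inr i) : ℤ) : ℝ) - q * t i| ≤ η := by
          rw [abs_sub_comm]
          exact (hmr i).le
        have a2 : ‖(2 * Real.pi * Complex.I : ℂ)‖ ≤ 7 := by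
          rw [norm_mul, norm_mul, Complex.norm_I, Complex.norm_real, Real.norm_eq_abs,
            abs_of_pos Real.pi_pos]
          simp only [Complex.norm_ofNat, mul_one]
          have := Real.pi_lt_d2
          linarith
        calc _ ≤ η * 7 * 1 := mul_le_mul (mul_le_mul a1 a2 (norm_nonneg _) hη0.le) (sg_norm k)
              (norm_nonneg _) (by positivity)
          _ = η * 7 := by ring
      refine (norm_add_le _ _).trans ?_
      rw [Finset.sum_const, Finset.card_univ, Fintype.card_fin, nsmul_eq_mul] at b1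
      have h4 : ((4 : ℕ) : ℝ) * (2 * η * M) + η * 7 = η * (8 * M + 7) := by
        push_cast
        ring
      rw [← h4]
      exact add_le_add b1 b2
    unfold ev
    have hterm : ∀ i : Fin 4, ‖D.muc (fun i j => ((m (Sum.inl (i, j)) + m (Sum.inl (j, i)) : ℤ) : ℝ))
        (fun i => ((m (Sum.inr i) : ℤ) : ℝ)) i (p i.castSucc) -
        D.muc (fun i j => ((m (Sum.inl (i, j)) + m (Sum.inl (j, i)) : ℤ) : ℝ))
        (fun i => ((m (Sum.inr i) : ℤ) : ℝ)) i (p (Fin.last 4))‖ ≤ 2 * (η * (8 * M + 7)) := by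
      intro i
      have h1 := hdev i (p i.castSucc)
      have h2 := hdev i (p (Fin.last 4))
      rw [← sub_sub_sub_cancel_right _ _ ((q : ℂ) * (s i * κ))]
      refine (norm_sub_le _ _).trans ?_
      linarith
    refine lt_of_le_of_lt ((norm_sum_le _ _).trans (Finset.sum_le_sum fun i _ => hterm i)) ?_
    rw [Finset.sum_const, Finset.card_univ, Fintype.card_fin, nsmul_eq_mul]
    push_cast
    nlinarith

end Pool.Agent.W597.CLS
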