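import Pool.Agent.W503.EH.Stmts
import Pool.Agent.W503.EH.Basic
import Pool.Agent.W597.EH_COS

/-!
# Volumes of slices and projections of slices
-/

namespace Pool.Agent.W597.EHFUB

open MeasureTheory Set Pool.Agent.W503.EH Pool.Agent.W597.EHCOS

theorem integrable_slice {m : ℕ} {K : Set (Fin (m + 1) → ℝ)} (hK : IsCompact K) :
    Integrable (fun t => vol (sl K t)) := by
  refine integrable_toReal_of_lintegral_ne_top (measurable_slice hK.measurableSet).aemeasurable ?_
  rw [← volume_slices hK.measurableSet]
  exact hK.measure_ne_top

theorem t_FUB : S_FUB := by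
  refine ⟨fun m K hK c hKc => ⟨(integrable_slice hK).intervalIntegrable, ?_⟩,
    fun m K hK c η => ?_, fun m K hK η h => ?_⟩
  · have h1 : vol K = ∫ t, vol (sl K t) := by
      have h2 : ∫ t, vol (sl K t) = (∫⁻ t, volume (sl K t)).toReal :=
        integral_toReal (measurable_slice hK.measurableSet).aemeasurable
          (Filter.Eventually.of_forall fun t => (isCompact_sl hK t).measure_lt_top)
      rw [h2, ← volume_slices hK.measurableSet]
      rfl
    rw [intervalIntegral.integral_of_le (by linarith), ← integral_Icc_eq_integral_Ioc, h1]
    symm
    refine setIntegral_eq_integral_of_forall_compl_eq_zero fun t ht => ?_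
    have : sl K t = ∅ := by
      ext x
      simp only [mem_empty_iff_false, iff_false]
      intro hx
      have := hKc hx
      exact ht (by simpa using this)
    rw [this, vol_empty]
  · exact (integrable_slice (isCompact_PP hK η)).intervalIntegrable
  · have h0 : volume (pr η K) = 0 := by
      have := (ENNReal.toReal_eq_zero_iff _).1 h
      exact this.resolve_right (isCompact_pr hK η).measure_ne_top
    have h1 : volume K = 0 := by
      rw [volume_fibres hK.measurableSet η]
      refine (lintegral_eq_zero_of_ae_eq_zero ?_)
      have h2 : ∀ᵐ z : Fin m → ℝ, z ∉ pr η K := measure_eq_zero_iff_ae_notMem.1 h0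
      filter_upwards [h2] with z hz
      have h3 : {s : ℝ | cs s (z + s • η) ∈ K} = ∅ := by
        ext t
        simp only [mem_empty_iff_false, iff_false]
        exact fun h => hz ⟨t, h⟩
      rw [h3]
      simp
    unfold vol
    rw [measureReal_def, h1]
    rfl

end Pool.Agent.W597.EHFUB
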