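import Mathlib

set_option autoImplicit false

namespace Pool.Agent.W597

open FreeGroup List

variable {X I H : Type*}

/-- the relation attached to a letter -/
def letterRel (T : X → I → I → Prop) (a : X × Bool) (j k : I) : Prop :=
  if a.2 then T a.1 j k else T a.1 k j

/-- the relation attached to a word (leftmost letter applied last) -/
def wordRel (T : X → I → I → Prop) : List (X × Bool) → I → I → Prop
  | [] => fun j k => j = k
  | a :: w => fun j k => ∃ m, wordRel T w j m ∧ letterRel T a m k

theorem exists_path (T : X → I → I → Prop) (w : List (X × Bool)) :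
    ∀ j k, wordRel T w j k → ∃ κ : ℕ → I, κ 0 = j ∧ κ w.length = k ∧
      ∀ l (hl : l < w.length), letterRel T (w.reverse[l]'(by simpa using hl)) (κ l) (κ (l + 1)) := by
  induction w with
  | nil =>
    intro j k h
    exact ⟨fun _ => j, rfl, h, by simp⟩
  | cons a w ih =>
    intro j k h
    obtain ⟨m, h1, h2⟩ := h
    obtain ⟨κ, k0, kn, hk⟩ := ih j m h1
    refine ⟨fun l => if l ≤ w.length then κ l else k, by simp [k0], by simp, ?_⟩
    intro l hl
    simp only [List.length_cons] at hl
    rcases Nat.lt_or_ge l w.length with h | h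
    · have h' : l ≤ w.length := h.le
      have h'' : l + 1 ≤ w.length := h
      simp only [h', h'', if_true]
      have := hk l h
      simpa [List.getElem_append, h] using this
    · have : l = w.length := by omega
      subst this
      simp [List.getElem_append, kn, h2]

/-- `perSuffix per m` is the word with letters `per (m-1), ..., per 0`. -/
def perSuffix (per : ℕ → X × Bool) (m : ℕ) : List (X × Bool) := ((List.range m).map per).reverse

theorem perSuffix_succ (per : ℕ → X × Bool) (m : ℕ) :
    perSuffix per (m + 1) = per m :: perSuffix per m := by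
  simp [perSuffix, List.range_succ]

theorem perSuffix_zero (per : ℕ → X × Bool) : perSuffix per 0 = [] := rfl

open Classical in
/-- labels of words: periodic words get the periodic labels, all others are labelled step by step -/
noncomputable def lab (nxt : X × Bool → I → I) (per : ℕ → X × Bool) (κ : ℕ → I) :
    List (X × Bool) → I
  | [] => κ 0
  | a :: u => if a :: u = perSuffix per (u.length + 1) then κ (u.length + 1)
      else nxt a (lab nxt per κ u)

theorem lab_per (nxt : X × Bool → I → I) (per : ℕ → X × Bool) (κ : ℕ → I)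
    (u : List (X × Bool)) (h : u = perSuffix per u.length) : lab nxt per κ u = κ u.length := by
  cases u with
  | nil => rfl
  | cons a u =>
    rw [lab, if_pos]
    · rfl
    · exact h

open Classical in
theorem exists_lab (T : X → I → I → Prop) (htot : ∀ x j, ∃ k, T x j k)
    (hsur : ∀ x k, ∃ j, T x j k) (w : List (X × Bool)) (hw : w ≠ [])
    (hj : ∃ j, wordRel T w j j) :
    ∃ lb : List (X × Bool) → I, (∀ a u, letterRel T a (lb u) (lb (a :: u))) ∧
      ∀ u, lb (u ++ w) = lb u := by
  have hn : ∀ a : X × Bool, ∀ j, ∃ k, letterRel T a j k := by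
    rintro ⟨x, b⟩ j
    cases b
    · simpa [letterRel] using hsur x j
    · simpa [letterRel] using htot x j
  choose nxt hnxt using hn
  obtain ⟨j, hj⟩ := hj
  obtain ⟨κ, k0, kn, hk⟩ := exists_path T w j j hj
  have hpos : 0 < w.length := List.length_pos_iff.2 hw
  set n := w.length with hn
  let per : ℕ → X × Bool := fun l => w.reverse[l % n]'(by simpa using Nat.mod_lt l hpos)
  let κ' : ℕ → I := fun l => κ (l % n)
  have hper : ∀ l, letterRel T (per l) (κ' l) (κ' (l + 1)) := by
    intro l
    have h1 := hk (l % n) (Nat.mod_lt l hpos)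
    have h2 : κ (l % n + 1) = κ' (l + 1) := by
      show κ (l % n + 1) = κ ((l + 1) % n)
      rcases Nat.lt_or_ge (l % n + 1) n with h | h
      · congr 1
        rw [Nat.add_mod, Nat.mod_eq_of_lt (a := 1) (by omega), Nat.mod_eq_of_lt h]
      · have h3 : l % n + 1 = n := le_antisymm (Nat.mod_lt l hpos) h
        have h4 : (l + 1) % n = 0 := by
          rw [← Nat.mod_add_div l n, add_right_comm, h3]
          simp
        rw [h3, h4, k0]
        exact kn
    rw [h2] at h1
    exact h1
  have hκ' : ∀ l, κ' (l + n) = κ' l := by intro l; simp [κ']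
  have hpern : perSuffix per n = w := by
    unfold perSuffix
    rw [List.reverse_eq_iff]
    apply List.ext_getElem
    · simp [hn]
    · intro i h1 h2
      simp only [List.length_map, List.length_range] at h1
      simp [per, Nat.mod_eq_of_lt h1]
  have hperadd : ∀ m, perSuffix per (m + n) = perSuffix per m ++ w := by
    intro m
    induction m with
    | zero => simpa [perSuffix_zero] using hpern
    | succ m ih =>
      rw [show m + 1 + n = (m + n) + 1 by ring, perSuffix_succ, perSuffix_succ, ih]
      simp [per]
  refine ⟨lab nxt per κ', ?_, ?_⟩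
  · intro a u
    rw [show lab nxt per κ' (a :: u) = if a :: u = perSuffix per (u.length + 1)
      then κ' (u.length + 1) else nxt a (lab nxt per κ' u) from rfl]
    split_ifs with h
    · rw [perSuffix_succ] at h
      simp only [List.cons.injEq] at h
      rw [lab_per nxt per κ' u h.2, h.1]
      exact hper _
    · exact hnxt _ _
  · intro u
    induction u with
    | nil =>
      rw [List.nil_append, lab_per nxt per κ' w (by rw [← hn, hpern]), ← hn]
      show κ' n = κ' 0
      simpa using hκ' 0
    | cons a u ih =>
      rw [List.cons_append,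
        show lab nxt per κ' (a :: (u ++ w)) = if a :: (u ++ w) = perSuffix per ((u ++ w).length + 1)
        then κ' ((u ++ w).length + 1) else nxt a (lab nxt per κ' (u ++ w)) from rfl,
        show lab nxt per κ' (a :: u) = if a :: u = perSuffix per (u.length + 1)
        then κ' (u.length + 1) else nxt a (lab nxt per κ' u) from rfl, ih]
      have e1 : (u ++ w).length + 1 = (u.length + 1) + n := by simp; omega
      have e2 : (a :: (u ++ w) = perSuffix per ((u ++ w).length + 1)) ↔
          (a :: u = perSuffix per (u.length + 1)) := by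
        rw [e1, hperadd, ← List.cons_append, List.append_left_inj]
      rw [e1, hκ']
      simp only [← e1, e2]

theorem exists_lab_free [Nonempty I] (T : X → I → I → Prop) (htot : ∀ x j, ∃ k, T x j k)
    (hsur : ∀ x k, ∃ j, T x j k) :
    ∃ lb : List (X × Bool) → I, (∀ a u, letterRel T a (lb u) (lb (a :: u))) := by
  have hn : ∀ a : X × Bool, ∀ j, ∃ k, letterRel T a j k := by
    rintro ⟨x, b⟩ j
    cases b
    · simpa [letterRel] using hsur x j
    · simpa [letterRel] using htot x j
  choose nxt hnxt using hn
  exact ⟨fun u => u.foldr nxt (Classical.arbitrary I), fun a u => by simpa using hnxt a _⟩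

theorem red_eq {u v : List (X × Bool)} (hu : IsReduced u) (hv : IsReduced v)
    (h : mk u = mk v) : u = v := by
  classical
  rw [← hu.reduce_eq, ← hv.reduce_eq]
  exact reduce.sound h

theorem red_left {u v : List (X × Bool)} (h : IsReduced (u ++ v)) : IsReduced u :=
  List.IsChain.left_of_append h

theorem mk_cancel {a b : X × Bool} (v : List (X × Bool)) (h1 : a.1 = b.1) (h2 : a.2 ≠ b.2) :
    mk (a :: b :: v) = mk v := by
  obtain ⟨x, p⟩ := a
  obtain ⟨y, q⟩ := b
  simp only at h1 h2
  subst h1
  have : q = !p := by cases p <;> cases q <;> simp_all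
  subst this
  exact Quot.sound Red.Step.cons_not

theorem cons_smul [MulAction (FreeGroup X) H] (a : X × Bool) (u : List (X × Bool)) (z : H) :
    mk [a] • mk u • z = mk (a :: u) • z := by
  rw [← mul_smul, mul_mk]; rfl

section localsec

variable [MulAction (FreeGroup X) H] (z0 : H) (w : List (X × Bool))
  (hw : IsCyclicallyReduced w)
  (hst : MulAction.stabilizer (FreeGroup X) z0 = Subgroup.zpowers (mk w))

include hw hst

theorem mk_w_smul : mk w • z0 = z0 := by
  have : mk w ∈ MulAction.stabilizer (FreeGroup X) z0 := by
    rw [hst]; exact Subgroup.mem_zpowers _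
  exact this

theorem red_ww : IsReduced (w ++ w) := by
  have := (hw.flatten_replicate 2).isReduced
  simpa [List.replicate] using this

/-- each point of the orbit has a good representative, nonempty if `w` is nonempty -/
theorem exists_rep (L : List (X × Bool)) :
    ∃ u, IsReduced (u ++ w) ∧ mk u • z0 = mk L • z0 ∧ (w ≠ [] → u ≠ []) := by
  induction L with
  | nil => exact ⟨w, red_ww z0 w hw hst, by rw [mk_w_smul z0 w hw hst]; exact (one_smul _ z0).symm, id⟩
  | cons a L ih =>
    obtain ⟨u, h1, h2, h3⟩ := ih
    have key : ∃ v, IsReduced (v ++ w) ∧ mk v • z0 = mk (a :: L) • z0 := by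
      cases u with
      | nil =>
        have hw0 : w = [] := by
          by_contra h
          exact h3 h rfl
        subst hw0
        refine ⟨[a], by simp [FreeGroup.IsReduced], ?_⟩
        rw [← cons_smul a L, ← h2, cons_smul]
      | cons b v =>
        by_cases hab : a.1 = b.1 ∧ a.2 ≠ b.2
        · refine ⟨v, ?_, ?_⟩
          · rw [List.cons_append] at h1
            exact List.IsChain.tail h1
          · rw [← mk_cancel v hab.1 hab.2, ← cons_smul a (b :: v), h2, cons_smul]
        · refine ⟨a :: b :: v, ?_, ?_⟩
          · rw [List.cons_append, List.cons_append, FreeGroup.isReduced_cons_cons]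
            rw [List.cons_append] at h1
            refine ⟨?_, h1⟩
            intro h
            by_contra h'
            exact hab ⟨h, h'⟩
          · rw [← cons_smul a (b :: v), h2, cons_smul]
    obtain ⟨v, hv1, hv2⟩ := key
    by_cases hv : v = [] ∧ w ≠ []
    · obtain ⟨rfl, hwn⟩ := hv
      refine ⟨w, red_ww z0 w hw hst, ?_, fun _ => hwn⟩
      rw [mk_w_smul z0 w hw hst, ← hv2]
      exact (one_smul _ z0).symm
    · refine ⟨v, hv1, hv2, ?_⟩
      intro h h'
      exact hv ⟨h', h⟩

theorem red_append_pow (u : List (X × Bool)) (hu : IsReduced (u ++ w)) (n : ℕ) :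
    IsReduced (u ++ (List.replicate n w).flatten) := by
  rcases Nat.eq_zero_or_pos n with h | h
  · subst h
    simpa using red_left hu
  · have := IsReduced.append_flatten_replicate_append (L₃ := []) hw (by simpa using hu) h.ne'
    simpa using this

theorem lab_append_pow (lb : List (X × Bool) → I) (hB : ∀ u, lb (u ++ w) = lb u)
    (u : List (X × Bool)) (n : ℕ) : lb (u ++ (List.replicate n w).flatten) = lb u := by
  induction n with
  | zero => simp
  | succ n ih =>
    rw [List.replicate_succ', List.flatten_concat, ← List.append_assoc, hB, ih]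

theorem lab_unique (lb : List (X × Bool) → I) (hB : ∀ u, lb (u ++ w) = lb u)
    (u v : List (X × Bool)) (hu : IsReduced (u ++ w)) (hv : IsReduced (v ++ w))
    (h : mk u • z0 = mk v • z0) : lb u = lb v := by
  have hmem : (mk v)⁻¹ * mk u ∈ MulAction.stabilizer (FreeGroup X) z0 := by
    rw [MulAction.mem_stabilizer_iff, mul_smul, h, inv_smul_smul]
  rw [hst, Subgroup.mem_zpowers_iff] at hmem
  obtain ⟨k, hk⟩ := hmem
  have hpow : ∀ n : ℕ, (mk w) ^ n = mk (List.replicate n w).flatten := by
    intro n; rw [pow_mk]
  rcases k.eq_nat_or_neg with ⟨n, rfl | rfl⟩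
  · have h1 : mk u = mk (v ++ (List.replicate n w).flatten) := by
      rw [← mul_mk, ← hpow, ← zpow_natCast, hk]; group
    have h2 := red_eq (red_left hu) (red_append_pow z0 w hw hst v hv n) h1
    rw [h2, lab_append_pow z0 w hw hst lb hB]
  · have h1 : mk v = mk (u ++ (List.replicate n w).flatten) := by
      rw [← mul_mk, ← hpow, ← zpow_natCast]
      rw [zpow_neg] at hk
      rw [inv_eq_iff_eq_inv] at hk
      rw [hk]; group
    have h2 := red_eq (red_left hv) (red_append_pow z0 w hw hst u hu n) h1
    rw [h2, lab_append_pow z0 w hw hst lb hB]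

theorem local_labelling [Nonempty I] (T : X → I → I → Prop) (lb : List (X × Bool) → I)
    (hA : ∀ a u, letterRel T a (lb u) (lb (a :: u))) (hB : ∀ u, lb (u ++ w) = lb u) :
    ∃ J : H → I, ∀ y ∈ MulAction.orbit (FreeGroup X) z0, ∀ x, T x (J y) (J (of x • y)) := by
  classical
  let J : H → I := fun y => if h : ∃ u, IsReduced (u ++ w) ∧ mk u • z0 = y then lb h.choose
    else Classical.arbitrary I
  have hJ : ∀ u, IsReduced (u ++ w) → J (mk u • z0) = lb u := by
    intro u hu
    have h : ∃ v, IsReduced (v ++ w) ∧ mk v • z0 = mk u • z0 := ⟨u, hu, rfl⟩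
    show (if h : ∃ v, IsReduced (v ++ w) ∧ mk v • z0 = mk u • z0 then lb h.choose
      else Classical.arbitrary I) = lb u
    rw [dif_pos h]
    exact lab_unique z0 w hw hst lb hB _ _ h.choose_spec.1 hu h.choose_spec.2
  refine ⟨J, ?_⟩
  rintro y ⟨f, rfl⟩ x
  obtain ⟨L, rfl⟩ := Quot.exists_rep f
  obtain ⟨u, h1, h2, h3⟩ := exists_rep z0 w hw hst L
  show T x (J (mk L • z0)) (J (of x • mk L • z0))
  rw [← h2, hJ u h1, show (of x : FreeGroup X) = mk [(x, true)] from rfl, cons_smul]
  cases u with
  | nil =>
    have hw0 : w = [] := by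
      by_contra h
      exact h3 h rfl
    subst hw0
    rw [hJ [(x, true)] (by simp [FreeGroup.IsReduced])]
    simpa [letterRel] using hA (x, true) []
  | cons b v =>
    by_cases hab : (x, true).1 = b.1 ∧ (x, true).2 ≠ b.2
    · rw [mk_cancel v hab.1 hab.2, hJ v (List.IsChain.tail h1)]
      have := hA b v
      obtain ⟨b1, b2⟩ := b
      simp only at hab
      obtain ⟨h4, h5⟩ := hab
      subst h4
      have : b2 = false := by cases b2 <;> simp_all
      subst this
      simpa [letterRel] using hA (x, false) v
    · rw [hJ ((x, true) :: b :: v) ?_]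
      · simpa [letterRel] using hA (x, true) (b :: v)
      · rw [List.cons_append, List.cons_append, FreeGroup.isReduced_cons_cons]
        rw [List.cons_append] at h1
        refine ⟨?_, h1⟩
        intro h
        by_contra h'
        exact hab ⟨h, h'⟩

end localsec

/-- Labellings of a set with an action of a free group, all stabilisers of which are cyclic. -/
theorem exists_labelling [Nonempty I] [MulAction (FreeGroup X) H] (T : X → I → I → Prop)
    (htot : ∀ x j, ∃ k, T x j k) (hsur : ∀ x k, ∃ j, T x j k)
    (hst : ∀ z : H, ∃ z' ∈ MulAction.orbit (FreeGroup X) z, ∃ w : List (X × Bool),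
      IsCyclicallyReduced w ∧ MulAction.stabilizer (FreeGroup X) z' = Subgroup.zpowers (mk w) ∧
      (w ≠ [] → ∃ j, wordRel T w j j)) :
    ∃ J : H → I, ∀ z x, T x (J z) (J (of x • z)) := by
  classical
  have hloc : ∀ z : H, ∃ J : H → I, ∀ y ∈ MulAction.orbit (FreeGroup X) z, ∀ x,
      T x (J y) (J (of x • y)) := by
    intro z
    obtain ⟨z', hz', w, hw, hs, hj⟩ := hst z
    obtain ⟨lb, hA, hB⟩ : ∃ lb : List (X × Bool) → I,
        (∀ a u, letterRel T a (lb u) (lb (a :: u))) ∧ ∀ u, lb (u ++ w) = lb u := by
      by_cases hw0 : w = []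
      · subst hw0
        obtain ⟨lb, h⟩ := exists_lab_free T htot hsur
        exact ⟨lb, h, by simp⟩
      · exact exists_lab T htot hsur w hw0 (hj hw0)
    obtain ⟨J, hJ⟩ := local_labelling z' w hw hs T lb hA hB
    refine ⟨J, ?_⟩
    rw [← MulAction.orbit_eq_iff.2 hz']
    exact hJ
  choose J hJ using hloc
  let r : H → H := fun z => (Quotient.out (Quotient.mk (MulAction.orbitRel (FreeGroup X) H) z))
  have hr : ∀ z, z ∈ MulAction.orbit (FreeGroup X) (r z) := by
    intro z
    have : (MulAction.orbitRel (FreeGroup X) H).r (r z) z := Quotient.mk_out z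
    exact MulAction.mem_orbit_symm.1 this
  have hr' : ∀ z (x : X), r (of x • z) = r z := by
    intro z x
    show Quotient.out _ = Quotient.out _
    congr 1
    apply Quotient.sound
    exact MulAction.mem_orbit _ _
  refine ⟨fun z => J (r z) z, ?_⟩
  intro z x
  show T x (J (r z) z) (J (r (of x • z)) (of x • z))
  rw [hr']
  exact hJ (r z) z (hr z) x

end Pool.Agent.W597
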