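import Pool.Agent.W700.KK.Defs

open Filter Topology W700.KK
open scoped ENNReal

namespace Pool.Agent.W597.KKX

section
variable {Y : Type} [NormedAddCommGroup Y] [NormedSpace ℂ Y]

/-- quotient seminorm -/
noncomputable def qn (D : TrD Y) (α : ℕ → ℕ) (r : ℕ) (y : Y) : ℝ :=
  ‖(Submodule.Quotient.mk y : Y ⧸ D.Yk (AA α r))‖

lemma qn_nonneg (D : TrD Y) (α : ℕ → ℕ) (r : ℕ) (y : Y) : 0 ≤ qn D α r y := norm_nonneg _

lemma qn_le (D : TrD Y) (α : ℕ → ℕ) (r : ℕ) (y : Y) : qn D α r y ≤ ‖y‖ :=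
  Submodule.Quotient.norm_mk_le _ y

lemma qn_add (D : TrD Y) (α : ℕ → ℕ) (r : ℕ) (y z : Y) : qn D α r (y + z) ≤ qn D α r y + qn D α r z := by
  unfold qn
  rw [Submodule.Quotient.mk_add]
  exact norm_add_le _ _

lemma qn_smul (D : TrD Y) (α : ℕ → ℕ) (r : ℕ) (c : ℂ) (y : Y) : qn D α r (c • y) = ‖c‖ * qn D α r y := by
  unfold qn
  rw [Submodule.Quotient.mk_smul]
  exact norm_smul c _

lemma qn_zero_of_mem (D : TrD Y) (α : ℕ → ℕ) (r : ℕ) (y : Y) (hy : y ∈ D.Yk (AA α r)) : qn D α r y = 0 := by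
  unfold qn
  rw [(Submodule.Quotient.mk_eq_zero _).2 hy, norm_zero]

/-- the building blocks -/
def FF (D : TrD Y) (p : (ℕ → ℕ) × ℕ) : Type := D.Yk p.2

instance (D : TrD Y) (p : (ℕ → ℕ) × ℕ) : AddCommGroup (FF D p) := inferInstanceAs (AddCommGroup (D.Yk p.2))

instance (D : TrD Y) (p : (ℕ → ℕ) × ℕ) : Module ℂ (FF D p) := inferInstanceAs (Module ℂ (D.Yk p.2))

/-- inclusion in `Y` -/
def val (D : TrD Y) (p : (ℕ → ℕ) × ℕ) : FF D p →ₗ[ℂ] Y := (D.Yk p.2).subtype

/-- the map into the block -/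
def toF (D : TrD Y) (p : (ℕ → ℕ) × ℕ) : D.Yk p.2 →ₗ[ℂ] FF D p := LinearMap.id

lemma val_toF (D : TrD Y) (p : (ℕ → ℕ) × ℕ) (y : D.Yk p.2) : val D p (toF D p y) = (y : Y) := rfl

lemma val_mem (D : TrD Y) (p : (ℕ → ℕ) × ℕ) (y : FF D p) : val D p y ∈ D.Yk p.2 := Subtype.prop y

lemma val_inj (D : TrD Y) (p : (ℕ → ℕ) × ℕ) (y : FF D p) (h : val D p y = 0) : y = 0 := by
  apply (D.Yk p.2).injective_subtype
  exact h

noncomputable instance (D : TrD Y) (p : (ℕ → ℕ) × ℕ) : Norm (FF D p) :=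
  ⟨fun y => ‖val D p y‖ + ∑ r ∈ Finset.range p.2, 2 ^ r * qn D p.1 r (val D p y)⟩

lemma norm_def (D : TrD Y) (p : (ℕ → ℕ) × ℕ) (y : FF D p) :
    ‖y‖ = ‖val D p y‖ + ∑ r ∈ Finset.range p.2, 2 ^ r * qn D p.1 r (val D p y) := rfl

lemma core (D : TrD Y) (p : (ℕ → ℕ) × ℕ) : NormedSpace.Core ℂ (FF D p) where
  norm_nonneg y := by
    rw [norm_def]
    exact add_nonneg (norm_nonneg _) (Finset.sum_nonneg fun r _ => mul_nonneg (by positivity) (qn_nonneg _ _ _ _))
  norm_smul c y := by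
    rw [norm_def, norm_def, map_smul, norm_smul, mul_add, Finset.mul_sum]
    congr 1
    refine Finset.sum_congr rfl fun r _ => ?_
    rw [qn_smul]; ring
  norm_triangle y z := by
    rw [norm_def, norm_def, norm_def, map_add]
    have h1 := norm_add_le (val D p y) (val D p z)
    have h2 : ∑ r ∈ Finset.range p.2, 2 ^ r * qn D p.1 r (val D p y + val D p z) ≤
        ∑ r ∈ Finset.range p.2, 2 ^ r * qn D p.1 r (val D p y) +
        ∑ r ∈ Finset.range p.2, 2 ^ r * qn D p.1 r (val D p z) := by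
      rw [← Finset.sum_add_distrib]
      refine Finset.sum_le_sum fun r _ => ?_
      rw [← mul_add]
      exact mul_le_mul_of_nonneg_left (qn_add _ _ _ _ _) (by positivity)
    linarith
  norm_eq_zero_iff y := by
    rw [norm_def]
    constructor
    · intro h
      have h1 : 0 ≤ ∑ r ∈ Finset.range p.2, 2 ^ r * qn D p.1 r (val D p y) :=
        Finset.sum_nonneg fun r _ => mul_nonneg (by positivity) (qn_nonneg _ _ _ _)
      have h2 : ‖val D p y‖ = 0 := le_antisymm (by linarith) (norm_nonneg _)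
      exact val_inj D p y (norm_eq_zero.1 h2)
    · rintro rfl
      rw [map_zero, norm_zero, zero_add]
      refine Finset.sum_eq_zero fun r _ => ?_
      rw [qn_zero_of_mem D p.1 r 0 (Submodule.zero_mem _), mul_zero]

noncomputable instance (D : TrD Y) (p : (ℕ → ℕ) × ℕ) : NormedAddCommGroup (FF D p) :=
  NormedAddCommGroup.ofCore (core D p)

noncomputable instance (D : TrD Y) (p : (ℕ → ℕ) × ℕ) : NormedSpace ℂ (FF D p) :=
  NormedSpace.ofCore (core D p)

instance (D : TrD Y) (p : (ℕ → ℕ) × ℕ) : FiniteDimensional ℂ (FF D p) := D.fd p.2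

instance (D : TrD Y) (p : (ℕ → ℕ) × ℕ) : CompleteSpace (FF D p) := FiniteDimensional.complete ℂ _

lemma norm_val_le (D : TrD Y) (p : (ℕ → ℕ) × ℕ) (y : FF D p) : ‖val D p y‖ ≤ ‖y‖ := by
  rw [norm_def]
  exact le_add_of_nonneg_right (Finset.sum_nonneg fun r _ => mul_nonneg (by positivity) (qn_nonneg _ _ _ _))

lemma qn_val_le (D : TrD Y) (p : (ℕ → ℕ) × ℕ) (y : FF D p) (r : ℕ) :
    2 ^ r * qn D p.1 r (val D p y) ≤ ‖y‖ := by
  have hn : ∀ r, 0 ≤ 2 ^ r * qn D p.1 r (val D p y) := fun r => mul_nonneg (by positivity) (qn_nonneg _ _ _ _)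
  rw [norm_def]
  rcases lt_or_ge r p.2 with h | h
  · have := Finset.single_le_sum (f := fun r => 2 ^ r * qn D p.1 r (val D p y)) (fun r _ => hn r)
      (Finset.mem_range.2 h)
    have h2 := norm_nonneg (val D p y)
    linarith
  · rw [qn_zero_of_mem, mul_zero]
    · exact add_nonneg (norm_nonneg _) (Finset.sum_nonneg fun r _ => hn r)
    · refine D.mono ?_ (val_mem D p y)
      unfold AA
      omega

lemma norm_toF_le (D : TrD Y) (α : ℕ → ℕ) (n R : ℕ) (y : D.Yk n) (hy : (y : Y) ∈ D.Yk (AA α R)) :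
    ‖toF D (α, n) y‖ ≤ 2 ^ R * ‖(y : Y)‖ := by
  rw [norm_def]
  have h1 : ∑ r ∈ Finset.range n, 2 ^ r * qn D α r (y : Y) ≤ ∑ r ∈ Finset.range R, 2 ^ r * ‖(y : Y)‖ := by
    have h2 : ∀ r, R ≤ r → qn D α r (y : Y) = 0 := by
      intro r hr
      refine qn_zero_of_mem D α r _ (D.mono ?_ hy)
      unfold AA
      have : ∑ i ∈ Finset.range (R + 1), α i ≤ ∑ i ∈ Finset.range (r + 1), α i :=
        Finset.sum_le_sum_of_subset (Finset.range_subset_range.2 (by omega))
      omega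
    calc ∑ r ∈ Finset.range n, 2 ^ r * qn D α r (y : Y)
        ≤ ∑ r ∈ Finset.range (max n R), 2 ^ r * qn D α r (y : Y) :=
          Finset.sum_le_sum_of_subset_of_nonneg (Finset.range_subset_range.2 (le_max_left _ _))
            fun r _ _ => mul_nonneg (by positivity) (qn_nonneg _ _ _ _)
      _ = ∑ r ∈ Finset.range R, 2 ^ r * qn D α r (y : Y) := by
          symm
          refine Finset.sum_subset (Finset.range_subset_range.2 (le_max_right _ _)) fun r _ hr => ?_
          rw [h2 r (by rw [Finset.mem_range] at hr; omega), mul_zero]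
      _ ≤ ∑ r ∈ Finset.range R, 2 ^ r * ‖(y : Y)‖ :=
          Finset.sum_le_sum fun r _ => mul_le_mul_of_nonneg_left (qn_le _ _ _ _) (by positivity)
  have h3 : ∑ r ∈ Finset.range R, (2 : ℝ) ^ r * ‖(y : Y)‖ = (2 ^ R - 1) * ‖(y : Y)‖ := by
    rw [← Finset.sum_mul, geom_sum_eq (by norm_num)]
    norm_num
  show ‖(y : Y)‖ + ∑ r ∈ Finset.range n, 2 ^ r * qn D α r (y : Y) ≤ _
  linarith

/-- the space `X` -/
abbrev XX (D : TrD Y) : Type := lp (FF D) 1

lemma hs (D : TrD Y) (x : XX D) : HasSum (fun i => ‖x i‖) ‖x‖ := by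
  have := lp.hasSum_norm (p := 1) (by simp) x
  simpa using this

lemma inj_pair (α : ℕ → ℕ) : Function.Injective (fun n : ℕ => (α, n)) := fun n m h => (Prod.ext_iff.1 h).2

lemma sm (D : TrD Y) (α : ℕ → ℕ) (x : XX D) : Summable (fun n : ℕ => ‖x (α, n)‖) :=
  (hs D x).summable.comp_injective (inj_pair α)

lemma sm_le (D : TrD Y) (α : ℕ → ℕ) (x : XX D) : ∑' n : ℕ, ‖x (α, n)‖ ≤ ‖x‖ := by
  rw [← (hs D x).tsum_eq]
  exact tsum_comp_le_tsum_of_inj (hs D x).summable (fun i => norm_nonneg _) (inj_pair α)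

lemma smv [CompleteSpace Y] (D : TrD Y) (α : ℕ → ℕ) (x : XX D) :
    Summable (fun n : ℕ => val D (α, n) (x (α, n))) :=
  Summable.of_norm_bounded (sm D α x) fun n => norm_val_le D (α, n) _

/-- the operator `T` -/
noncomputable def TT [CompleteSpace Y] (D : TrD Y) (α : ℕ → ℕ) : XX D →L[ℂ] Y :=
  LinearMap.mkContinuous
    { toFun := fun x => ∑' n : ℕ, val D (α, n) (x (α, n))
      map_add' := by
        intro x y
        rw [← (smv D α x).tsum_add (smv D α y)]
        congr 1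
      map_smul' := by
        intro c x
        rw [RingHom.id_apply, ← (smv D α x).tsum_const_smul]
        congr 1 } 1 (by
    intro x
    rw [one_mul]
    refine (norm_tsum_le_tsum_norm ?_).trans ((Summable.tsum_le_tsum (fun n => norm_val_le D (α, n) _) ?_
      (sm D α x)).trans (sm_le D α x))
    · exact Summable.of_nonneg_of_le (fun n => norm_nonneg _) (fun n => norm_val_le D (α, n) _) (sm D α x)
    · exact Summable.of_nonneg_of_le (fun n => norm_nonneg _) (fun n => norm_val_le D (α, n) _) (sm D α x))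

lemma TT_apply [CompleteSpace Y] (D : TrD Y) (α : ℕ → ℕ) (x : XX D) :
    TT D α x = ∑' n : ℕ, val D (α, n) (x (α, n)) := rfl

lemma TT_norm [CompleteSpace Y] (D : TrD Y) (α : ℕ → ℕ) (x : XX D) : ‖TT D α x‖ ≤ ‖x‖ := by
  have := (TT D α).le_of_opNorm_le (LinearMap.mkContinuous_norm_le _ zero_le_one _) x
  rwa [one_mul] at this

lemma TT_qn [CompleteSpace Y] (D : TrD Y) (α : ℕ → ℕ) (r : ℕ) (x : XX D) :
    2 ^ r * qn D α r (TT D α x) ≤ ‖x‖ := by
  have h1 : HasSum (fun n : ℕ => val D (α, n) (x (α, n))) (TT D α x) := (smv D α x).hasSum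
  have hc : Continuous (fun y : Y => (Submodule.Quotient.mk y : Y ⧸ D.Yk (AA α r))) := by
    refine AddMonoidHomClass.continuous_of_bound (D.Yk (AA α r)).mkQ 1 fun y => ?_
    rw [one_mul]
    exact Submodule.Quotient.norm_mk_le _ y
  have hb : ∀ s : Finset ℕ, 2 ^ r * qn D α r (∑ n ∈ s, val D (α, n) (x (α, n))) ≤ ‖x‖ := by
    intro s
    have e1 : ∀ s : Finset ℕ, 2 ^ r * qn D α r (∑ n ∈ s, val D (α, n) (x (α, n))) ≤ ∑ n ∈ s, ‖x (α, n)‖ := by
      intro s
      induction s using Finset.induction_on with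
      | empty =>
        rw [Finset.sum_empty, Finset.sum_empty, qn_zero_of_mem D α r 0 (Submodule.zero_mem _), mul_zero]
      | insert a s ha ih =>
        rw [Finset.sum_insert ha, Finset.sum_insert ha]
        have e2 := qn_add D α r (val D (α, a) (x (α, a))) (∑ n ∈ s, val D (α, n) (x (α, n)))
        have e3 := qn_val_le D (α, a) (x (α, a)) r
        have e4 : (0 : ℝ) < 2 ^ r := by positivity
        simp only at e3
        nlinarith
    refine (e1 s).trans (((sm D α x).sum_le_tsum s fun n _ => norm_nonneg _).trans (sm_le D α x))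
  have hlim : Tendsto (fun s : Finset ℕ => 2 ^ r * qn D α r (∑ n ∈ s, val D (α, n) (x (α, n)))) atTop
      (𝓝 (2 ^ r * qn D α r (TT D α x))) := by
    have : Continuous (fun y : Y => 2 ^ r * qn D α r y) := continuous_const.mul (continuous_norm.comp hc)
    exact (this.tendsto _).comp h1
  exact le_of_tendsto' hlim hb

lemma TT_compact [CompleteSpace Y] (D : TrD Y) (α : ℕ → ℕ) : IsCompactOperator (TT D α) := by
  refine (isCompactOperator_iff_isCompact_closure_image_closedBall (TT D α).toLinearMap one_pos).2 ?_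
  refine TotallyBounded.isCompact_of_isClosed ?_ isClosed_closure
  refine TotallyBounded.closure ?_
  rw [Metric.totallyBounded_iff]
  intro ε hε
  obtain ⟨r, hr⟩ : ∃ r : ℕ, (1 / 2 : ℝ) ^ r < ε / 2 := exists_pow_lt_of_lt_one (by positivity) (by norm_num)
  have hfd := D.fd (AA α r)
  have hprop : ProperSpace (D.Yk (AA α r)) := FiniteDimensional.proper ℂ _
  have hB : IsCompact ((fun y : D.Yk (AA α r) => (y : Y)) '' Metric.closedBall 0 (1 + ε)) :=
    (isCompact_closedBall _ _).image continuous_subtype_val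
  obtain ⟨t, ht, htB⟩ := Metric.totallyBounded_iff.1 hB.totallyBounded (ε / 2) (by positivity)
  refine ⟨t, ht, ?_⟩
  rintro z ⟨x, hx, rfl⟩
  rw [mem_closedBall_zero_iff] at hx
  have h1 := TT_norm D α x
  have h2 := TT_qn D α r x
  have h3 : ‖(Submodule.Quotient.mk (TT D α x) : Y ⧸ D.Yk (AA α r))‖ < ε / 2 := by
    have e1 : qn D α r (TT D α x) ≤ (1 / 2) ^ r := by
      rw [one_div, inv_pow, ← one_div, le_div_iff₀ (by positivity)]
      linarith
    exact lt_of_le_of_lt e1 hr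
  obtain ⟨w, hw1, hw2⟩ := Submodule.Quotient.norm_mk_lt
    (Submodule.Quotient.mk (TT D α x) : Y ⧸ D.Yk (AA α r)) (ε := ε / 2 - ‖(Submodule.Quotient.mk (TT D α x) :
      Y ⧸ D.Yk (AA α r))‖) (by linarith)
  have hw3 : ‖w‖ < ε / 2 := by linarith
  have hw4 : TT D α x - w ∈ D.Yk (AA α r) := by
    rw [Submodule.Quotient.eq, ← Submodule.neg_mem_iff, neg_sub] at hw1
    exact hw1
  have hw5 : TT D α x - w ∈ (fun y : D.Yk (AA α r) => (y : Y)) '' Metric.closedBall 0 (1 + ε) := by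
    refine ⟨⟨_, hw4⟩, ?_, rfl⟩
    rw [mem_closedBall_zero_iff]
    show ‖TT D α x - w‖ ≤ 1 + ε
    have := norm_sub_le (TT D α x) w
    linarith
  obtain ⟨c, hc, hc2⟩ := Set.mem_iUnion₂.1 (htB hw5)
  refine Set.mem_iUnion₂.2 ⟨c, hc, ?_⟩
  rw [Metric.mem_ball, dist_eq_norm] at hc2 ⊢
  have e1 : (TT D α).toLinearMap x - c = (TT D α x - w - c) + w := by
    show TT D α x - c = _
    abel
  rw [e1]
  have := norm_add_le (TT D α x - w - c) w
  linarith

end

theorem main : S_KX := by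
  classical
  intro hKA Y _ _ _ D
  refine ⟨XX D, inferInstance, inferInstance, inferInstance, ⟨?_⟩⟩
  exact
  { inj := fun α n => (lp.lsingle (𝕜 := ℂ) (E := FF D) 1 (α, n)).comp (toF D (α, n))
    T := fun α => TT D α
    compT := fun α => TT_compact D α
    T_inj := by
      intro α n y
      rw [TT_apply]
      rw [tsum_eq_single n]
      · show val D (α, n) (lp.single 1 (α, n) (toF D (α, n) y) (α, n)) = y
        rw [lp.single_apply_self]
        rfl
      · intro m hm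
        show val D (α, m) (lp.single 1 (α, n) (toF D (α, n) y) (α, m)) = 0
        rw [lp.single_apply_ne _ _ _ (fun h => hm (Prod.ext_iff.1 h).2), map_zero]
    norm_inj := by
      intro α n R y hy
      show ‖lp.single (E := FF D) 1 (α, n) (toF D (α, n) y)‖ ≤ _
      rw [lp.norm_single one_pos]
      exact norm_toF_le D α n R y hy
    approx := fun S hS ε hε => hKA _ (FF D) S hS ε hε }

end Pool.Agent.W597.KKX
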