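import Pool.Agent.W557.NC.Defs

/-!
# Rotated frames
-/

set_option autoImplicit false

open scoped BigOperators

namespace Pool.Agent.W597.NC3

open Pool.Agent.W557.NC

lemma u0_eq0 {b : ZMod 5} (h : b = 0) : u0 b = 4 / 5 := by
  unfold u0; rw [if_pos h]; norm_num

lemma u0_ne0 {b : ZMod 5} (h : b ≠ 0) : u0 b = -(1 / 5) := by
  unfold u0; rw [if_neg h]; norm_num

lemma u0_abs (b : ZMod 5) : |u0 b| ≤ 1 := by
  by_cases h : b = 0
  · rw [u0_eq0 h]; norm_num
  · rw [u0_ne0 h]; norm_num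

lemma al_rot (r : ZMod 5) (hr : r ≠ 0) :
    u0 (0 - r) - (u0 (2 - r) + u0 (3 - r)) / 2 = 0 ∨
    u0 (0 - r) - (u0 (2 - r) + u0 (3 - r)) / 2 = -(1 / 2) := by
  have : r = 0 ∨ r = 1 ∨ r = 2 ∨ r = 3 ∨ r = 4 := by revert r; decide
  rcases this with rfl | rfl | rfl | rfl | rfl
  · exact absurd rfl hr
  · left
    rw [u0_ne0 (by decide), u0_ne0 (by decide), u0_ne0 (by decide)]; norm_num
  · right
    rw [u0_ne0 (by decide), u0_eq0 (by decide), u0_ne0 (by decide)]; norm_num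
  · right
    rw [u0_ne0 (by decide), u0_ne0 (by decide), u0_eq0 (by decide)]; norm_num
  · left
    rw [u0_ne0 (by decide), u0_ne0 (by decide), u0_ne0 (by decide)]; norm_num

lemma emb0 (z : Fin 8 → ℝ) (b : ZMod 5) :
    emb z 0 b = z 0 * u0 b + z 2 * u0 (b - 1) + z 5 * u0 (b + 1) := rfl
lemma emb1 (z : Fin 8 → ℝ) (b : ZMod 5) :
    emb z 1 b = z 1 * u0 b + z 3 * u0 (b - 1) + z 6 * u0 (b + 1) := rfl
lemma emb2 (z : Fin 8 → ℝ) (b : ZMod 5) :
    emb z 2 b = z 7 * (if b = 0 then 1 else 0) + z 4 * (if b = 1 then 1 else 0) := rfl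

lemma phi_emb (l z : Fin 8 → ℝ) : phi l (emb z) = pair l z := by
  unfold phi pair al0 al1 alm
  simp only [emb0, emb1, emb2]
  have a0 : u0 (0 : ZMod 5) = 4 / 5 := u0_eq0 rfl
  have a1 : u0 (1 : ZMod 5) = -(1 / 5) := u0_ne0 (by decide)
  have a2 : u0 (2 : ZMod 5) = -(1 / 5) := u0_ne0 (by decide)
  have a3 : u0 (3 : ZMod 5) = -(1 / 5) := u0_ne0 (by decide)
  have a4 : u0 (4 : ZMod 5) = -(1 / 5) := u0_ne0 (by decide)
  have b0 : u0 (0 - 1 : ZMod 5) = -(1 / 5) := u0_ne0 (by decide)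
  have b1 : u0 (1 - 1 : ZMod 5) = 4 / 5 := u0_eq0 (by decide)
  have b2 : u0 (2 - 1 : ZMod 5) = -(1 / 5) := u0_ne0 (by decide)
  have b3 : u0 (3 - 1 : ZMod 5) = -(1 / 5) := u0_ne0 (by decide)
  have b4 : u0 (4 - 1 : ZMod 5) = -(1 / 5) := u0_ne0 (by decide)
  have c0 : u0 (0 + 1 : ZMod 5) = -(1 / 5) := u0_ne0 (by decide)
  have c1 : u0 (1 + 1 : ZMod 5) = -(1 / 5) := u0_ne0 (by decide)
  have c2 : u0 (2 + 1 : ZMod 5) = -(1 / 5) := u0_ne0 (by decide)
  have c3 : u0 (3 + 1 : ZMod 5) = -(1 / 5) := u0_ne0 (by decide)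
  have c4 : u0 (4 + 1 : ZMod 5) = 4 / 5 := u0_eq0 (by decide)
  rw [a0, a1, a2, a3, a4, b0, b1, b2, b3, b4, c0, c1, c2, c3, c4]
  simp only [if_true, if_neg (by decide : ¬ (0 : ZMod 5) = 1),
    if_neg (by decide : ¬ (1 : ZMod 5) = 0)]
  ring

lemma emb_sub (z w : Fin 8 → ℝ) : emb z - emb w = emb (z - w) := by
  funext c b
  fin_cases c
  · change emb z 0 b - emb w 0 b = emb (z - w) 0 b
    simp only [emb0, Pi.sub_apply]; ring
  · change emb z 1 b - emb w 1 b = emb (z - w) 1 b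
    simp only [emb1, Pi.sub_apply]; ring
  · change emb z 2 b - emb w 2 b = emb (z - w) 2 b
    simp only [emb2, Pi.sub_apply]; ring

lemma emb_smul (r : ℝ) (z : Fin 8 → ℝ) : r • emb z = emb (r • z) := by
  funext c b
  fin_cases c
  · change r * emb z 0 b = emb (r • z) 0 b
    simp only [emb0, Pi.smul_apply, smul_eq_mul]; ring
  · change r * emb z 1 b = emb (r • z) 1 b
    simp only [emb1, Pi.smul_apply, smul_eq_mul]; ring
  · change r * emb z 2 b = emb (r • z) 2 b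
    simp only [emb2, Pi.smul_apply, smul_eq_mul]; ring

lemma rot_apply (a : ZMod 5) (v : V) (c : Fin 3) (b : ZMod 5) : rot a v c b = v c (b - a) := rfl

lemma rot_rot (a b : ZMod 5) (v : V) : rot a (rot b v) = rot (a + b) v := by
  funext c t
  simp only [rot_apply]
  congr 1
  ring

lemma rot_zero (v : V) : rot 0 v = v := by
  funext c t
  simp only [rot_apply, sub_zero]

lemma eta_rot (a : ZMod 5) (v : V) : eta (rot a v) = eta v := by
  unfold eta
  refine Finset.sum_congr rfl fun c _ => ?_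
  simp only [rot_apply]
  exact (Equiv.subRight a).sum_comp (fun b => v c b ^ 4)

lemma eta_neg (v : V) : eta (-v) = eta v := by
  unfold eta
  refine Finset.sum_congr rfl fun c _ => Finset.sum_congr rfl fun b _ => ?_
  change (-(v c b)) ^ 4 = v c b ^ 4
  ring

lemma eta_le (v : V) (R : ℝ) (h : ∀ c b, |v c b| ≤ R) : eta v ≤ 15 * R ^ 4 := by
  unfold eta
  have h1 : ∀ c b, v c b ^ 4 ≤ R ^ 4 := by
    intro c b
    have e : v c b ^ 4 = |v c b| ^ 4 := by
      rw [show (4 : ℕ) = 2 * 2 from rfl, pow_mul, pow_mul, sq_abs]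
    rw [e]
    exact pow_le_pow_left₀ (abs_nonneg _) (h c b) 4
  calc ∑ c, ∑ b, v c b ^ 4 ≤ ∑ c : Fin 3, ∑ b : ZMod 5, R ^ 4 :=
        Finset.sum_le_sum fun c _ => Finset.sum_le_sum fun b _ => h1 c b
    _ = 15 * R ^ 4 := by
        simp only [Finset.sum_const, Finset.card_univ, Fintype.card_fin, ZMod.card,
          nsmul_eq_mul]
        push_cast
        ring

lemma three_pow (x y z u v w : ℝ) :
    (x * u + y * v + z * w) ^ 4 ≤ 27 * (x ^ 4 * u ^ 4 + y ^ 4 * v ^ 4 + z ^ 4 * w ^ 4) := by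
  have h : ∀ a b c : ℝ, (a + b + c) ^ 4 ≤ 27 * (a ^ 4 + b ^ 4 + c ^ 4) := by
    intro a b c
    have h1 : (a + b + c) ^ 2 ≤ 3 * (a ^ 2 + b ^ 2 + c ^ 2) := by
      nlinarith [sq_nonneg (a - b), sq_nonneg (b - c), sq_nonneg (a - c)]
    have h2 : (a ^ 2 + b ^ 2 + c ^ 2) ^ 2 ≤ 3 * (a ^ 4 + b ^ 4 + c ^ 4) := by
      nlinarith [sq_nonneg (a ^ 2 - b ^ 2), sq_nonneg (b ^ 2 - c ^ 2), sq_nonneg (a ^ 2 - c ^ 2)]
    have h3 : ((a + b + c) ^ 2) ^ 2 ≤ (3 * (a ^ 2 + b ^ 2 + c ^ 2)) ^ 2 :=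
      pow_le_pow_left₀ (sq_nonneg _) h1 2
    nlinarith
  have := h (x * u) (y * v) (z * w)
  simpa only [mul_pow] using this

lemma sum_u0_pow (f : ZMod 5 ≃ ZMod 5) : ∑ b, u0 (f b) ^ 4 ≤ 1 := by
  rw [f.sum_comp (fun b => u0 b ^ 4)]
  have : ∀ b : ZMod 5, u0 b ^ 4 ≤ (if b = 0 then (256 : ℝ) / 625 else 1 / 625) := by
    intro b
    by_cases h : b = 0
    · rw [u0_eq0 h, if_pos h]; norm_num
    · rw [u0_ne0 h, if_neg h]; norm_num
  refine (Finset.sum_le_sum fun b _ => this b).trans ?_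
  rw [Finset.sum_ite]
  simp only [Finset.sum_const, nsmul_eq_mul]
  have c1 : (Finset.univ.filter (fun b : ZMod 5 => b = 0)).card = 1 := by decide
  have c2 : (Finset.univ.filter (fun b : ZMod 5 => ¬ b = 0)).card = 4 := by decide
  rw [c1, c2]
  norm_num

lemma eta_emb (w : Fin 8 → ℝ) : eta (emb w) ≤ 27 * ∑ c, w c ^ 4 := by
  have key : ∀ x y z : ℝ, ∑ b : ZMod 5, (x * u0 b + y * u0 (b - 1) + z * u0 (b + 1)) ^ 4 ≤
      27 * (x ^ 4 + y ^ 4 + z ^ 4) := by
    intro x y z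
    calc ∑ b : ZMod 5, (x * u0 b + y * u0 (b - 1) + z * u0 (b + 1)) ^ 4
        ≤ ∑ b : ZMod 5, 27 * (x ^ 4 * u0 b ^ 4 + y ^ 4 * u0 (b - 1) ^ 4 +
            z ^ 4 * u0 (b + 1) ^ 4) := Finset.sum_le_sum fun b _ => three_pow _ _ _ _ _ _
      _ = 27 * (x ^ 4 * ∑ b : ZMod 5, u0 b ^ 4 + y ^ 4 * ∑ b : ZMod 5, u0 (b - 1) ^ 4 +
            z ^ 4 * ∑ b : ZMod 5, u0 (b + 1) ^ 4) := by
          rw [← Finset.mul_sum, Finset.sum_add_distrib, Finset.sum_add_distrib,
            ← Finset.mul_sum, ← Finset.mul_sum, ← Finset.mul_sum]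
      _ ≤ 27 * (x ^ 4 * 1 + y ^ 4 * 1 + z ^ 4 * 1) := by
          have s1 := sum_u0_pow (Equiv.refl _)
          have s2 := sum_u0_pow (Equiv.subRight 1)
          have s3 := sum_u0_pow (Equiv.addRight 1)
          simp only [Equiv.refl_apply, Equiv.subRight_apply, Equiv.coe_addRight] at s1 s2 s3
          gcongr
      _ = _ := by ring
  have key2 : ∑ b : ZMod 5, (w 7 * (if b = 0 then 1 else 0) + w 4 * (if b = 1 then 1 else 0)) ^ 4 ≤
      27 * (w 7 ^ 4 + w 4 ^ 4) := by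
    have e : ∀ b : ZMod 5, (w 7 * (if b = 0 then 1 else 0) + w 4 * (if b = 1 then 1 else 0)) ^ 4 =
        (if b = 0 then w 7 ^ 4 else 0) + (if b = 1 then w 4 ^ 4 else 0) := by
      intro b
      by_cases h0 : b = 0
      · subst h0
        rw [if_pos rfl, if_neg (by decide), if_pos rfl, if_neg (by decide)]; ring
      · by_cases h1 : b = 1
        · subst h1
          rw [if_neg (by decide), if_pos rfl, if_neg (by decide), if_pos rfl]; ring
        · rw [if_neg h0, if_neg h1, if_neg h0, if_neg h1]; ring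
    simp only [e]
    rw [Finset.sum_add_distrib, Finset.sum_ite_eq' , Finset.sum_ite_eq',
      if_pos (Finset.mem_univ _), if_pos (Finset.mem_univ _)]
    have h7 : 0 ≤ w 7 ^ 4 := by positivity
    have h4 : 0 ≤ w 4 ^ 4 := by positivity
    linarith
  unfold eta
  rw [Fin.sum_univ_three]
  simp only [emb0, emb1, emb2]
  have k0 := key (w 0) (w 2) (w 5)
  have k1 := key (w 1) (w 3) (w 6)
  rw [Fin.sum_univ_eight]
  linarith

/-- `phi l` as a linear map -/
noncomputable def phiL (l : Fin 8 → ℝ) : V →ₗ[ℝ] ℝ where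
  toFun := phi l
  map_add' v w := by
    simp only [phi, al0, al1, alm, Pi.add_apply]; ring
  map_smul' r v := by
    simp only [phi, al0, al1, alm, Pi.smul_apply, smul_eq_mul, RingHom.id_apply]; ring

lemma phiL_apply (l : Fin 8 → ℝ) (v : V) : phiL l v = phi l v := rfl

/-- bound for a vector with all coordinates bounded -/
lemma three_abs (x y z a b c M : ℝ) (ha : |a| ≤ 1) (hb : |b| ≤ 1) (hc : |c| ≤ 1)
    (h : |x| + |y| + |z| ≤ M) : |x * a + y * b + z * c| ≤ M := by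
  calc |x * a + y * b + z * c| ≤ |x * a| + |y * b| + |z * c| := abs_add_three _ _ _
    _ = |x| * |a| + |y| * |b| + |z| * |c| := by rw [abs_mul, abs_mul, abs_mul]
    _ ≤ |x| * 1 + |y| * 1 + |z| * 1 := by gcongr
    _ ≤ M := by linarith

lemma comb_abs (x y z M : ℝ) (hx : |x| ≤ M) (hy : |y| ≤ M) (hz : |z| ≤ M) :
    |x - (y + z) / 2| ≤ 2 * M := by
  rw [abs_le] at *
  constructor <;> linarith

/-- small coordinates -/
def Sm (z : Fin 8 → ℝ) : Prop := |z 0 - 1| ≤ 1 / 1000 ∧ ∀ c : Fin 8, c ≠ 0 → |z c| ≤ 1 / 1000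

lemma Sm.abs0 {z : Fin 8 → ℝ} (h : Sm z) : |z 0| ≤ 1001 / 1000 := by
  have := h.1
  rw [abs_le] at *
  constructor <;> linarith

lemma emb_abs {z : Fin 8 → ℝ} (h : Sm z) (c : Fin 3) (b : ZMod 5) : |emb z c b| ≤ 2 := by
  have h0 := h.abs0
  have h' : ∀ c : Fin 8, c ≠ 0 → |z c| ≤ 1 / 1000 := h.2
  fin_cases c
  · change |emb z 0 b| ≤ 2
    rw [emb0]
    refine three_abs _ _ _ _ _ _ _ (u0_abs _) (u0_abs _) (u0_abs _) ?_
    have := h' 2 (by decide)
    have := h' 5 (by decide)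
    linarith
  · change |emb z 1 b| ≤ 2
    rw [emb1]
    refine three_abs _ _ _ _ _ _ _ (u0_abs _) (u0_abs _) (u0_abs _) ?_
    have := h' 1 (by decide)
    have := h' 3 (by decide)
    have := h' 6 (by decide)
    linarith
  · change |emb z 2 b| ≤ 2
    rw [emb2]
    have h1 : ∀ p : Prop, ∀ _ : Decidable p, |(if p then (1 : ℝ) else 0)| ≤ 1 := by
      intro p _
      split_ifs <;> norm_num
    have := three_abs (z 7) (z 4) 0 (if b = 0 then 1 else 0) (if b = 1 then 1 else 0) 0 2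
      (h1 _ _) (h1 _ _) (by norm_num) (by
        have := h' 7 (by decide)
        have := h' 4 (by decide)
        simp only [abs_zero]
        linarith)
    simpa using this

lemma emb1_abs {z : Fin 8 → ℝ} (h : Sm z) (b : ZMod 5) : |emb z 1 b| ≤ 3 / 1000 := by
  rw [emb1]
  refine three_abs _ _ _ _ _ _ _ (u0_abs _) (u0_abs _) (u0_abs _) ?_
  have := h.2 1 (by decide)
  have := h.2 3 (by decide)
  have := h.2 6 (by decide)
  linarith

/-- the value of the functional on a rotated vector -/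
lemma phi_rot {l z : Fin 8 → ℝ} (hl : Sm l) (hz : Sm z) (r : ZMod 5) :
    |phi l (rot r (emb z)) - l 0 * z 0 * (u0 (0 - r) - (u0 (2 - r) + u0 (3 - r)) / 2)| ≤
      1 / 50 := by
  set v := rot r (emb z) with hv
  have hv2 : ∀ c b, |v c b| ≤ 2 := fun c b => emb_abs hz c _
  have hv1 : ∀ b, |v 1 b| ≤ 3 / 1000 := fun b => emb1_abs hz _
  have e0 : ∀ b, v 0 b = z 0 * u0 (b - r) + (z 2 * u0 (b - r - 1) + z 5 * u0 (b - r + 1)) := by
    intro b
    have : v 0 b = emb z 0 (b - r) := rfl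
    rw [this, emb0]
    ring
  have hE : ∀ b : ZMod 5, |z 2 * u0 (b - r - 1) + z 5 * u0 (b - r + 1)| ≤ 2 / 1000 := by
    intro b
    have := three_abs (z 2) (z 5) 0 (u0 (b - r - 1)) (u0 (b - r + 1)) 0 (2 / 1000)
      (u0_abs _) (u0_abs _) (by norm_num) (by
        have := hz.2 2 (by decide)
        have := hz.2 5 (by decide)
        simp only [abs_zero]
        linarith)
    simpa using this
  have key : phi l v - l 0 * z 0 * (u0 (0 - r) - (u0 (2 - r) + u0 (3 - r)) / 2) =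
      l 0 * ((z 2 * u0 (0 - r - 1) + z 5 * u0 (0 - r + 1)) -
        ((z 2 * u0 (2 - r - 1) + z 5 * u0 (2 - r + 1)) +
        (z 2 * u0 (3 - r - 1) + z 5 * u0 (3 - r + 1))) / 2) +
      l 1 * al0 (v 1) + l 2 * al1 (v 0) + l 6 * alm (v 1) + l 7 * v 2 0 + l 4 * v 2 1 := by
    unfold phi
    have : al0 (v 0) = z 0 * (u0 (0 - r) - (u0 (2 - r) + u0 (3 - r)) / 2) +
      ((z 2 * u0 (0 - r - 1) + z 5 * u0 (0 - r + 1)) -
        ((z 2 * u0 (2 - r - 1) + z 5 * u0 (2 - r + 1)) +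
        (z 2 * u0 (3 - r - 1) + z 5 * u0 (3 - r + 1))) / 2) := by
      unfold al0
      rw [e0 0, e0 2, e0 3]
      ring
    rw [this]
    ring
  rw [key]
  have b1 := comb_abs _ _ _ _ (hE 0) (hE 2) (hE 3)
  have b2 : |al0 (v 1)| ≤ 2 * (3 / 1000) := comb_abs _ _ _ _ (hv1 0) (hv1 2) (hv1 3)
  have b3 : |al1 (v 0)| ≤ 2 * 2 := comb_abs _ _ _ _ (hv2 0 1) (hv2 0 2) (hv2 0 3)
  have b4 : |alm (v 1)| ≤ 2 * (3 / 1000) := comb_abs _ _ _ _ (hv1 4) (hv1 2) (hv1 3)
  have b5 := hv2 2 0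
  have b6 := hv2 2 1
  have l0 := hl.abs0
  have l1 := hl.2 1 (by decide)
  have l2 := hl.2 2 (by decide)
  have l6 := hl.2 6 (by decide)
  have l7 := hl.2 7 (by decide)
  have l4 := hl.2 4 (by decide)
  have mm : ∀ x y X Y : ℝ, |x| ≤ X → |y| ≤ Y → |x * y| ≤ X * Y := by
    intro x y X Y hx hy
    rw [abs_mul]
    exact mul_le_mul hx hy (abs_nonneg _) ((abs_nonneg _).trans hx)
  have c1 := abs_le.1 (mm _ _ _ _ l0 b1)
  have c2 := abs_le.1 (mm _ _ _ _ l1 b2)
  have c3 := abs_le.1 (mm _ _ _ _ l2 b3)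
  have c4 := abs_le.1 (mm _ _ _ _ l6 b4)
  have c5 := abs_le.1 (mm _ _ _ _ l7 b5)
  have c6 := abs_le.1 (mm _ _ _ _ l4 b6)
  rw [abs_le]
  constructor <;> linarith [c1.1, c1.2, c2.1, c2.2, c3.1, c3.2, c4.1, c4.2, c5.1, c5.2, c6.1, c6.2]

/-- index set -/
structure Idx where
  a : ZMod 5
  sg : Bool
  i : ℕ
  j : ℕ
  s : ℕ
  s' : ℕ
  h : i < j

/-- sign -/
def sgn (b : Bool) : ℝ := if b then 1 else -1

lemma sgn_true : sgn true = 1 := by simp [sgn]

lemma sgn_false : sgn false = -1 := by simp [sgn]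

lemma sgn_not (b : Bool) : sgn (!b) = - sgn b := by cases b <;> simp [sgn]

lemma sgn_mul (b : Bool) : sgn b * sgn b = 1 := by cases b <;> simp [sgn]

lemma sgn_ne {b c : Bool} (h : b ≠ c) : sgn b * sgn c = -1 := by
  cases b <;> cases c <;> simp_all [sgn]

lemma sgn_abs (b : Bool) : |sgn b| = 1 := by cases b <;> simp [sgn]

/-- normalised coordinates -/
noncomputable def zv (x : Idx) : Fin 8 → ℝ :=
  fun c => (Zc x.i x.s - Zc x.j x.s') c / dd x.i x.j

/-- the vectors -/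
noncomputable def XX (x : Idx) : V := sgn x.sg • rot x.a (emb (zv x))

/-- the functionals -/
noncomputable def NU (l : Idx → Fin 8 → ℝ) (x : Idx) : V →ₗ[ℝ] ℝ :=
  sgn x.sg • (phiL (l x)).comp (rot (-x.a))

lemma NU_apply (l : Idx → Fin 8 → ℝ) (x : Idx) (v : V) :
    NU l x v = sgn x.sg * phi (l x) (rot (-x.a) v) := rfl

lemma sm_zv (hbd : S_bd) (x : Idx) : Sm (zv x) := by
  obtain ⟨h0, h1, h2⟩ := hbd x.i x.j x.s x.s' x.h
  constructor
  · unfold zv
    rw [div_sub_one h0.ne', abs_div, abs_of_pos h0, div_le_iff₀ h0]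
    linarith
  · intro c hc
    unfold zv
    rw [abs_div, abs_of_pos h0, div_le_iff₀ h0]
    linarith [h2 c hc]

lemma rot_smul (a : ZMod 5) (r : ℝ) (v : V) : rot a (r • v) = r • rot a v := map_smul _ _ _

lemma phi_smul (l : Fin 8 → ℝ) (r : ℝ) (v : V) : phi l (r • v) = r * phi l v :=
  (phiL l).map_smul r v

lemma sum_rot (a : ZMod 5) (v : V) (c : Fin 3) : ∑ b, |rot a v c b| = ∑ b, |v c b| := by
  simp only [rot_apply]
  exact (Equiv.subRight a).sum_comp (fun b => |v c b|)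

lemma phi_abs {l : Fin 8 → ℝ} (hl : Sm l) (v : V) : |phi l v| ≤ 10 * ∑ c, ∑ b, |v c b| := by
  set S := ∑ c, ∑ b, |v c b| with hS
  have hle : ∀ c b, |v c b| ≤ S := by
    intro c b
    have h1 : |v c b| ≤ ∑ b, |v c b| :=
      Finset.single_le_sum (f := fun b => |v c b|) (fun _ _ => abs_nonneg _) (Finset.mem_univ b)
    have h2 : ∑ b, |v c b| ≤ S :=
      Finset.single_le_sum (f := fun c => ∑ b, |v c b|)
        (fun _ _ => Finset.sum_nonneg fun _ _ => abs_nonneg _) (Finset.mem_univ c)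
    exact h1.trans h2
  have b1 : |al0 (v 0)| ≤ 2 * S := comb_abs _ _ _ _ (hle 0 0) (hle 0 2) (hle 0 3)
  have b2 : |al0 (v 1)| ≤ 2 * S := comb_abs _ _ _ _ (hle 1 0) (hle 1 2) (hle 1 3)
  have b3 : |al1 (v 0)| ≤ 2 * S := comb_abs _ _ _ _ (hle 0 1) (hle 0 2) (hle 0 3)
  have b4 : |alm (v 1)| ≤ 2 * S := comb_abs _ _ _ _ (hle 1 4) (hle 1 2) (hle 1 3)
  have b5 := hle 2 0
  have b6 := hle 2 1
  have l0 := hl.abs0
  have l1 := hl.2 1 (by decide)
  have l2 := hl.2 2 (by decide)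
  have l6 := hl.2 6 (by decide)
  have l7 := hl.2 7 (by decide)
  have l4 := hl.2 4 (by decide)
  have mm : ∀ x y X Y : ℝ, |x| ≤ X → |y| ≤ Y → |x * y| ≤ X * Y := by
    intro x y X Y hx hy
    rw [abs_mul]
    exact mul_le_mul hx hy (abs_nonneg _) ((abs_nonneg _).trans hx)
  have c1 := abs_le.1 (mm _ _ _ _ l0 b1)
  have c2 := abs_le.1 (mm _ _ _ _ l1 b2)
  have c3 := abs_le.1 (mm _ _ _ _ l2 b3)
  have c4 := abs_le.1 (mm _ _ _ _ l6 b4)
  have c5 := abs_le.1 (mm _ _ _ _ l7 b5)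
  have c6 := abs_le.1 (mm _ _ _ _ l4 b6)
  have hS0 : 0 ≤ S := (abs_nonneg _).trans b5
  unfold phi
  rw [abs_le]
  constructor <;> linarith [c1.1, c1.2, c2.1, c2.2, c3.1, c3.2, c4.1, c4.2, c5.1, c5.2, c6.1, c6.2]

theorem main : S_bd → S_same → S_frame := by
  intro hbd hsame
  choose l0 hl0 using hsame
  set l : Idx → Fin 8 → ℝ := fun x => l0 x.i x.j x.s x.s' x.h with hldef
  have hl := fun x : Idx => hl0 x.i x.j x.s x.s' x.h
  have hlS : ∀ x, Sm (l x) := fun x => ⟨(hl x).1, (hl x).2.1⟩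
  have hz := sm_zv hbd
  have hd : ∀ x : Idx, 0 < dd x.i x.j := fun x => (hbd x.i x.j x.s x.s' x.h).1
  have hXabs : ∀ x c b, |XX x c b| ≤ 2 := by
    intro x c b
    change |sgn x.sg * emb (zv x) c (b - x.a)| ≤ 2
    rw [abs_mul, sgn_abs, one_mul]
    exact emb_abs (hz x) _ _
  -- the pairing with a vector of the same or another frame
  have hval : ∀ x y, NU l x (XX y) =
      sgn x.sg * sgn y.sg * phi (l x) (rot (-x.a + y.a) (emb (zv y))) := by
    intro x y
    rw [NU_apply, XX, rot_smul, phi_smul, rot_rot]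
    ring
  have hpair : ∀ x y : Idx, pair (l x) (zv y) =
      pair (l x) (Zc y.i y.s - Zc y.j y.s') / dd y.i y.j := by
    intro x y
    unfold pair zv
    ring
  refine ⟨Idx, ⟨⟨0, true, 0, 1, 0, 0, by norm_num⟩⟩, XX, NU l, 1 / 10 ^ 6, 10, by norm_num,
    ?_, ?_, ?_, ?_, ?_, ?_, ?_⟩
  · intro x
    rw [hval, sgn_mul, one_mul, neg_add_cancel, rot_zero, phi_emb, hpair, (hl x).2.2.1,
      div_self (hd x).ne']
  · intro x y
    by_cases hsg : x.sg = y.sg
    · by_cases ha : x.a = y.a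
      · -- same frame
        rw [hval, hsg, sgn_mul, one_mul, ha, neg_add_cancel, rot_zero, phi_emb, hpair]
        have e : XX y - XX x = sgn y.sg • rot y.a (emb (zv y - zv x)) := by
          rw [XX, XX, hsg, ha, ← smul_sub, ← map_sub, emb_sub]
        have e2 : eta (XX y - XX x) = eta (emb (zv y - zv x)) := by
          rw [e]
          cases y.sg
          · rw [sgn_false, neg_one_smul, eta_neg, eta_rot]
          · rw [sgn_true, one_smul, eta_rot]
        rw [e2]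
        have h1 := eta_emb (zv y - zv x)
        have h2 := (hl x).2.2.2 y.i y.j y.s y.s' y.h
        have hdy := hd y
        have h3 : ∑ c : Fin 8, ((Zc y.i y.s - Zc y.j y.s') c / dd y.i y.j -
            (Zc x.i x.s - Zc x.j x.s') c / dd x.i x.j) ^ 4 = ∑ c, (zv y - zv x) c ^ 4 := rfl
        rw [h3] at h2
        have hT : 0 ≤ ∑ c, (zv y - zv x) c ^ 4 :=
          Finset.sum_nonneg fun c _ => by positivity
        set T := ∑ c, (zv y - zv x) c ^ 4 with hTdef
        have h4 : pair (l x) (Zc y.i y.s - Zc y.j y.s') / dd y.i y.j ≤ 1 - T / 1000 := by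
          rw [div_le_iff₀ hdy]
          have : (1 - T / 1000) * dd y.i y.j = dd y.i y.j - dd y.i y.j / 1000 * T := by ring
          rw [this]
          linarith
        have h5 : 1 / 10 ^ 6 * eta (emb (zv y - zv x)) ≤ T / 1000 := by
          have : (1 : ℝ) / 10 ^ 6 * eta (emb (zv y - zv x)) ≤ 1 / 10 ^ 6 * (27 * T) := by gcongr
          refine this.trans ?_
          norm_num
          linarith
        linarith
      · -- different rotation, same sign
        have hr : -x.a + y.a ≠ 0 := by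
          intro h
          exact ha (neg_add_eq_zero.1 h)
        rw [hval, hsg, sgn_mul, one_mul]
        have h1 := abs_le.1 (phi_rot (hlS x) (hz y) (-x.a + y.a))
        have h2 : eta (XX y - XX x) ≤ 15 * 4 ^ 4 := eta_le _ 4 fun c b => by
          have := hXabs x c b
          have := hXabs y c b
          change |XX y c b - XX x c b| ≤ 4
          rw [abs_le] at *
          constructor <;> linarith
        have l0 := abs_le.1 (hlS x).1
        have z0 := abs_le.1 (hz y).1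
        have hp : 0 ≤ l x 0 * zv y 0 := mul_nonneg (by linarith [l0.1]) (by linarith [z0.1])
        have h3 : 1 / 10 ^ 6 * eta (XX y - XX x) ≤ 1 / 10 ^ 6 * (15 * 4 ^ 4) := by gcongr
        norm_num at h3
        rcases al_rot _ hr with h | h <;> rw [h] at h1 <;> linarith [h1.2]
    · -- different sign
      rw [hval, sgn_ne hsg]
      have h1 := abs_le.1 (phi_rot (hlS x) (hz y) (-x.a + y.a))
      have h2 : eta (XX y - XX x) ≤ 15 * 4 ^ 4 := eta_le _ 4 fun c b => by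
        have := hXabs x c b
        have := hXabs y c b
        change |XX y c b - XX x c b| ≤ 4
        rw [abs_le] at *
        constructor <;> linarith
      have l0 := abs_le.1 (hlS x).1
      have z0 := abs_le.1 (hz y).1
      have hp : 0 ≤ l x 0 * zv y 0 := mul_nonneg (by linarith [l0.1]) (by linarith [z0.1])
      have hp2 : l x 0 * zv y 0 ≤ 1001 / 1000 * (1001 / 1000) :=
        mul_le_mul (by linarith [l0.2]) (by linarith [z0.2]) (by linarith [z0.1]) (by norm_num)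
      have h3 : 1 / 10 ^ 6 * eta (XX y - XX x) ≤ 1 / 10 ^ 6 * (15 * 4 ^ 4) := by gcongr
      norm_num at h3
      by_cases hr : -x.a + y.a = 0
      · rw [hr] at h1 ⊢
        have : u0 (0 - 0 : ZMod 5) - (u0 (2 - 0 : ZMod 5) + u0 (3 - 0 : ZMod 5)) / 2 = 1 := by
          rw [u0_eq0 (by decide), u0_ne0 (by decide), u0_ne0 (by decide)]; norm_num
        rw [this] at h1
        linarith [h1.1]
      · rcases al_rot _ hr with h | h <;> rw [h] at h1 <;> linarith [h1.1]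
  · intro x
    have h2 : eta (XX x) ≤ 15 * 2 ^ 4 := eta_le _ 2 (hXabs x)
    have h3 : 1 / 10 ^ 6 * eta (XX x) ≤ 1 / 10 ^ 6 * (15 * 2 ^ 4) := by gcongr
    norm_num at h3
    linarith
  · intro x v
    rw [NU_apply, abs_mul, sgn_abs, one_mul]
    refine (phi_abs (hlS x) _).trans ?_
    simp only [sum_rot]
    exact le_rfl
  · intro x c b
    exact (hXabs x c b).trans (by norm_num)
  · intro x
    refine ⟨⟨x.a, !x.sg, x.i, x.j, x.s, x.s', x.h⟩, ?_, ?_⟩
    · have : zv ⟨x.a, !x.sg, x.i, x.j, x.s, x.s', x.h⟩ = zv x := rfl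
      rw [XX, XX, this, sgn_not, neg_smul]
    · have : l ⟨x.a, !x.sg, x.i, x.j, x.s, x.s', x.h⟩ = l x := rfl
      refine LinearMap.ext fun v => ?_
      change sgn (!x.sg) * phi (l x) (rot (-x.a) v) = -(sgn x.sg * phi (l x) (rot (-x.a) v))
      rw [sgn_not]
      ring
  · intro a i j s s' h
    refine ⟨⟨a, true, i, j, s, s', h⟩, ?_⟩
    change sgn true • _ = _
    rw [sgn_true, one_smul, ← rot_smul, emb_smul]
    congr 2
    funext c
    simp only [zv, Pi.smul_apply, smul_eq_mul]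
    ring

end Pool.Agent.W597.NC3
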