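import Pool.Agent.W527.PC.Stm

/-!
# Project PC: the linear algebra
-/

set_option autoImplicit false

namespace Pool.Agent.W597.PCLIN

open Pool.Agent.W527.CL Pool.Agent.W527.PC

/-! ### the lemma ZERO (proof of `Pool.Agent.W923.CLCOMB`) -/

theorem t_DIFF : S_DIFF := by
  intro F _ _ μ i p
  unfold ev
  rw [← Finset.sum_sub_distrib]
  have key : ∀ j : Fin 4, (μ j (p j.castSucc) - μ j (p (Fin.last 4))) -
      (μ j ((Equiv.swap (p i.castSucc) (p (Fin.last 4)) * p) j.castSucc) -
        μ j ((Equiv.swap (p i.castSucc) (p (Fin.last 4)) * p) (Fin.last 4))) =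
      (if j = i then (μ i (p i.castSucc) - μ i (p (Fin.last 4))) else 0) +
        (μ j (p i.castSucc) - μ j (p (Fin.last 4))) := by
    intro j
    rw [Equiv.Perm.mul_apply, Equiv.Perm.mul_apply, Equiv.swap_apply_right]
    by_cases h : j = i
    · subst h
      rw [Equiv.swap_apply_left, if_pos rfl]
      ring
    · rw [if_neg h, Equiv.swap_apply_of_ne_of_ne]
      · ring
      · intro h1
        exact h (Fin.castSucc_injective _ (p.injective h1))
      · intro h1
        exact absurd (p.injective h1) (Fin.castSucc_lt_last j).ne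
  rw [Finset.sum_congr rfl fun j _ => key j, Finset.sum_add_distrib, Finset.sum_ite_eq' Finset.univ i]
  simp

lemma exists_perm (i : Fin 4) (k k' : Fin 5) (h : k ≠ k') :
    ∃ p : Equiv.Perm (Fin 5), p i.castSucc = k ∧ p (Fin.last 4) = k' := by
  set p1 : Equiv.Perm (Fin 5) := Equiv.swap (Fin.last 4) k' with hp1
  have h1 : p1 (Fin.last 4) = k' := Equiv.swap_apply_left _ _
  have h2 : p1 i.castSucc ≠ k' := by
    rw [← h1]
    intro h3
    exact absurd (p1.injective h3) (Fin.castSucc_lt_last i).ne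
  refine ⟨Equiv.swap (p1 i.castSucc) k * p1, ?_, ?_⟩
  · rw [Equiv.Perm.mul_apply, Equiv.swap_apply_left]
  · rw [Equiv.Perm.mul_apply, h1, Equiv.swap_apply_of_ne_of_ne h2.symm h.symm]

lemma diff_eq {F : Type} [Field F] [CharZero F] (μ : Fin 4 → Fin 5 → F) (k k' : Fin 5) (h : k ≠ k') :
    ∃ p : Fin 4 → Equiv.Perm (Fin 5), ∀ i, μ i k - μ i k' =
      (ev μ (p i) - ev μ (Equiv.swap k k' * p i)) -
        (∑ j, (ev μ (p j) - ev μ (Equiv.swap k k' * p j))) / 5 := by
  choose p h1 h2 using fun i => exists_perm i k k' h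
  have e : ∀ i, ev μ (p i) - ev μ (Equiv.swap k k' * p i) =
      (μ i k - μ i k') + ∑ i', (μ i' k - μ i' k') := by
    intro i
    have := t_DIFF F μ i (p i)
    rw [h1, h2] at this
    exact this
  refine ⟨p, fun i => ?_⟩
  rw [Finset.sum_congr rfl fun j _ => e j, e i, Finset.sum_add_distrib, Finset.sum_const,
    Finset.card_univ, Fintype.card_fin]
  have h5 : (5 : F) ≠ 0 := by norm_num
  field_simp
  rw [nsmul_eq_mul]
  push_cast
  ring

theorem t_ZERO : S_ZERO := by
  intro F _ _ μ h i k k'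
  by_cases hk : k = k'
  · rw [hk]
  · obtain ⟨p, hp⟩ := diff_eq μ k k' hk
    have := hp i
    simp only [h, sub_zero, Finset.sum_const_zero, zero_div] at this
    exact sub_eq_zero.1 this

/-! ### ranks over `ℤ` and `ℚ` -/

theorem finrank_le_rat {M V : Type} [AddCommGroup M] [AddCommGroup V] [Module ℚ V]
    [FiniteDimensional ℚ V] (f : M →+ V) (hf : Function.Injective f) :
    Module.finrank ℤ M ≤ Module.finrank ℚ V := by
  have h : Module.rank ℤ M ≤ (Module.finrank ℚ V : ℕ) := by
    refine rank_le fun s hs => ?_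
    have h1 : LinearIndependent ℤ (fun i : s => f (i : M)) := by
      have := hs.map' f.toIntLinearMap (by
        rw [LinearMap.ker_eq_bot]
        exact hf)
      exact this
    have h2 : LinearIndependent ℚ (fun i : s => f (i : M)) :=
      (LinearIndependent.iff_fractionRing ℤ ℚ).1 h1
    have h3 := h2.fintype_card_le_finrank
    rwa [Fintype.card_coe] at h3
  exact Module.finrank_le_of_rank_le h

/-! ### the space of the columns -/

/-- The column `j` of `X`. -/
def col (X : Matrix (Fin 4) (Fin 5) ℤ) (j : Fin 5) : Fin 4 → ℚ := fun i => (X i j : ℚ)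

/-- The space spanned by the columns. -/
def WW (S : AddSubgroup (Matrix (Fin 4) (Fin 5) ℤ)) : Submodule ℚ (Fin 4 → ℚ) :=
  Submodule.span ℚ {v | ∃ X ∈ S, ∃ j, v = col X j}

theorem col_mem {S : AddSubgroup (Matrix (Fin 4) (Fin 5) ℤ)} {X : Matrix (Fin 4) (Fin 5) ℤ}
    (hX : X ∈ S) (j : Fin 5) : col X j ∈ WW S := Submodule.subset_span ⟨X, hX, j, rfl⟩

theorem col_add (X Y : Matrix (Fin 4) (Fin 5) ℤ) (j : Fin 5) : col (X + Y) j = col X j + col Y j := by
  funext i
  simp [col]

theorem col_zero (j : Fin 5) : col 0 j = 0 := by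
  funext i
  simp [col]

/-- The map for `W ≠ ⊤`. -/
def mapU (S : AddSubgroup (Matrix (Fin 4) (Fin 5) ℤ)) (u : Fin 4 → ℚ) : S →+ (Fin 4 → WW S) where
  toFun X k := ⟨col X k.castSucc + u k • col X (Fin.last 4),
    (WW S).add_mem (col_mem X.2 _) ((WW S).smul_mem _ (col_mem X.2 _))⟩
  map_zero' := by
    funext k
    apply Subtype.ext
    simp [col_zero]
  map_add' X Y := by
    funext k
    apply Subtype.ext
    simp only [AddSubgroup.coe_add, col_add, smul_add, Pi.add_apply, Submodule.coe_add]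
    abel

theorem mapU_inj (S : AddSubgroup (Matrix (Fin 4) (Fin 5) ℤ)) (hS : S ≤ USym) (u : Fin 4 → ℚ)
    (hu : u ∉ WW S) : Function.Injective (mapU S u) := by
  rw [injective_iff_map_eq_zero]
  intro X hX
  have h1 : ∀ i k : Fin 4, (X.1 i k.castSucc : ℚ) + u k * (X.1 i (Fin.last 4) : ℚ) = 0 := by
    intro i k
    have h2 := congrArg Subtype.val (congrFun hX k)
    have h3 := congrFun h2 i
    simpa [mapU, col] using h3
  have hsym : ∀ i k : Fin 4, (X.1 i k.castSucc : ℚ) = X.1 k i.castSucc := by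
    intro i k
    exact_mod_cast hS X.2 i k
  have hb : ∀ i, (X.1 i (Fin.last 4) : ℚ) = 0 := by
    by_contra hcon
    push Not at hcon
    obtain ⟨i0, hi0⟩ := hcon
    apply hu
    have h4 : u = (u i0 / (X.1 i0 (Fin.last 4) : ℚ)) • col X.1 (Fin.last 4) := by
      funext k
      simp only [Pi.smul_apply, smul_eq_mul, col]
      have h5 := h1 i0 k
      have h6 := h1 k i0
      rw [hsym] at h6
      rw [hsym] at h5
      have h7 := hsym i0 k
      have h8 : u k * (X.1 i0 (Fin.last 4) : ℚ) = u i0 * (X.1 k (Fin.last 4) : ℚ) := by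
        linarith
      field_simp
      linarith
    rw [h4]
    exact (WW S).smul_mem _ (col_mem X.2 _)
  apply Subtype.ext
  funext i j
  refine Fin.lastCases ?_ (fun k => ?_) j
  · have := hb i
    exact_mod_cast this
  · have h5 := h1 i k
    rw [hb i, mul_zero, add_zero] at h5
    exact_mod_cast h5

/-- The antisymmetric matrix with entries `b`. -/
def asy (b : Fin 4 → ℚ) (i k : Fin 4) : ℚ :=
  !![0, b 0, b 1, b 2; -b 0, 0, b 3, 0; -b 1, -b 3, 0, 0; -b 2, 0, 0, 0] i k

theorem asy_anti (b : Fin 4 → ℚ) (i k : Fin 4) : asy b i k = - asy b k i := by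
  fin_cases i <;> fin_cases k <;> simp [asy]

theorem asy_zero (b : Fin 4 → ℚ) (h : ∀ i k, asy b i k = 0) : ∀ i, b i = 0 := by
  have h0 := h 0 1
  have h1 := h 0 2
  have h2 := h 0 3
  have h3 := h 1 2
  simp [asy] at h0 h1 h2 h3
  intro i
  fin_cases i
  · exact h0
  · exact h1
  · exact h2
  · exact h3

theorem asy_add (b c : Fin 4 → ℚ) (i k : Fin 4) : asy (b + c) i k = asy b i k + asy c i k := by
  fin_cases i <;> fin_cases k <;> simp [asy] <;> ring

/-- The map for `W = ⊤`. -/
def mapA (S : AddSubgroup (Matrix (Fin 4) (Fin 5) ℤ)) : S →+ (Fin 4 → Fin 4 → ℚ) where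
  toFun X k i := (X.1 i k.castSucc : ℚ) + asy (col X.1 (Fin.last 4)) i k
  map_zero' := by
    funext k i
    have : asy (0 : Fin 4 → ℚ) i k = 0 := by fin_cases i <;> fin_cases k <;> simp [asy]
    simp [col_zero, this]
  map_add' X Y := by
    funext k i
    simp only [AddSubgroup.coe_add, col_add, asy_add, Pi.add_apply, Matrix.add_apply]
    push_cast
    ring

theorem mapA_inj (S : AddSubgroup (Matrix (Fin 4) (Fin 5) ℤ)) (hS : S ≤ USym) :
    Function.Injective (mapA S) := by
  rw [injective_iff_map_eq_zero]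
  intro X hX
  have h1 : ∀ i k : Fin 4, (X.1 i k.castSucc : ℚ) + asy (col X.1 (Fin.last 4)) i k = 0 :=
    fun i k => congrFun (congrFun hX k) i
  have hsym : ∀ i k : Fin 4, (X.1 i k.castSucc : ℚ) = X.1 k i.castSucc := by
    intro i k
    exact_mod_cast hS X.2 i k
  have h2 : ∀ i k, asy (col X.1 (Fin.last 4)) i k = 0 := by
    intro i k
    have e1 := h1 i k
    have e2 := h1 k i
    rw [asy_anti] at e2
    rw [hsym] at e1
    linarith
  have hb := asy_zero _ h2
  apply Subtype.ext
  funext i j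
  refine Fin.lastCases ?_ (fun k => ?_) j
  · have := hb i
    simp only [col] at this
    exact_mod_cast this
  · have h5 := h1 i k
    rw [h2, add_zero] at h5
    exact_mod_cast h5

theorem partA (S : AddSubgroup (Matrix (Fin 4) (Fin 5) ℤ)) (hS : S ≤ USym) :
    Module.finrank ℤ S ≤ 4 * Module.finrank ℚ (WW S) := by
  by_cases h : WW S = ⊤
  · have h1 := finrank_le_rat (mapA S) (mapA_inj S hS)
    rw [Module.finrank_pi_fintype] at h1
    simp only [Module.finrank_fintype_fun_eq_card, Fintype.card_fin, Finset.sum_const,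
      Finset.card_univ, smul_eq_mul] at h1
    rw [h, finrank_top]
    simp only [Module.finrank_fintype_fun_eq_card, Fintype.card_fin]
    exact h1
  · have h2 : ∃ u, u ∉ WW S := by
      by_contra hcon
      push Not at hcon
      exact h (eq_top_iff.2 fun x _ => hcon x)
    obtain ⟨u, hu⟩ := h2
    have h1 := finrank_le_rat (mapU S u) (mapU_inj S hS u hu)
    rw [Module.finrank_pi_fintype] at h1
    simpa using h1

/-! ### the dual side -/

/-- The completion of a vector by the opposite of its sum. -/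
def hq (x : Fin 4 → ℚ) (i : Fin 5) : ℚ :=
  Fin.lastCases (motive := fun _ => ℚ) (-∑ i', x i') (fun i' => x i') i

theorem hq_last (x : Fin 4 → ℚ) : hq x (Fin.last 4) = -∑ i', x i' := by
  unfold hq
  rw [Fin.lastCases_last]

theorem hq_cast (x : Fin 4 → ℚ) (i : Fin 4) : hq x i.castSucc = x i := by
  unfold hq
  rw [Fin.lastCases_castSucc]

theorem hq_add (x y : Fin 4 → ℚ) (i : Fin 5) : hq (x + y) i = hq x i + hq y i := by
  refine Fin.lastCases ?_ (fun k => ?_) i
  · rw [hq_last, hq_last, hq_last]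
    simp only [Pi.add_apply, Finset.sum_add_distrib]
    ring
  · rw [hq_cast, hq_cast, hq_cast]
    rfl

theorem hq_smul (c : ℚ) (x : Fin 4 → ℚ) (i : Fin 5) : hq (c • x) i = c * hq x i := by
  refine Fin.lastCases ?_ (fun k => ?_) i
  · rw [hq_last, hq_last]
    simp only [Pi.smul_apply, smul_eq_mul, ← Finset.mul_sum]
    ring
  · rw [hq_cast, hq_cast]
    rfl

theorem hq_col (X : Matrix (Fin 4) (Fin 5) ℤ) (j i : Fin 5) : hq (col X j) i = (hat X i j : ℤ) := by
  refine Fin.lastCases ?_ (fun k => ?_) i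
  · rw [hq_last]
    unfold hat col
    rw [Fin.lastCases_last]
    push_cast
    ring
  · rw [hq_cast]
    unfold hat col
    rw [Fin.lastCases_castSucc]

variable {Φ : Type} [Fintype Φ] (π : Φ → Equiv.Perm (Fin 5))

/-- The map `Θ`. -/
def Th (W : Submodule ℚ (Fin 4 → ℚ)) : (Fin 4 → W) →ₗ[ℚ] (Φ → ℚ) where
  toFun x φ := ∑ k : Fin 4, hq (x k : Fin 4 → ℚ) ((π φ).symm k.castSucc)
  map_add' x y := by
    funext φ
    simp only [Pi.add_apply, Submodule.coe_add, hq_add, Finset.sum_add_distrib]
  map_smul' c x := by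
    funext φ
    simp only [Pi.smul_apply, Submodule.coe_smul, hq_smul, Finset.mul_sum, smul_eq_mul,
      RingHom.id_apply]

theorem ev_hq (x : Fin 4 → Fin 4 → ℚ) (p : Equiv.Perm (Fin 5)) :
    ev (fun i k => Fin.lastCases (motive := fun _ => ℚ) 0 (fun k' => x k' i) k) p =
      ∑ k : Fin 4, hq (x k) (p.symm k.castSucc) := by
  set xx : Fin 5 → Fin 4 → ℚ := fun k i => Fin.lastCases (motive := fun _ => ℚ) 0
    (fun k' => x k' i) k with hxx
  have hxl : xx (Fin.last 4) = 0 := by
    funext i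
    rw [hxx]
    simp only [Fin.lastCases_last]
    rfl
  have hxc : ∀ k : Fin 4, xx k.castSucc = x k := by
    intro k
    funext i
    rw [hxx]
    simp only [Fin.lastCases_castSucc]
  have h1 : ∑ i : Fin 5, hq (xx (p i)) i = ∑ k : Fin 5, hq (xx k) (p.symm k) := by
    rw [← Equiv.sum_comp p fun k => hq (xx k) (p.symm k)]
    refine Finset.sum_congr rfl fun i _ => ?_
    rw [Equiv.symm_apply_apply]
  have h1l : ∑ i : Fin 5, hq (xx (p i)) i = ∑ i : Fin 4, hq (xx (p i.castSucc)) i.castSucc +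
      hq (xx (p (Fin.last 4))) (Fin.last 4) := Fin.sum_univ_castSucc _
  have h1r : ∑ k : Fin 5, hq (xx k) (p.symm k) = ∑ k : Fin 4, hq (xx k.castSucc) (p.symm k.castSucc) +
      hq (xx (Fin.last 4)) (p.symm (Fin.last 4)) := Fin.sum_univ_castSucc _
  rw [h1l, h1r, hxl] at h1
  have h2 : hq (0 : Fin 4 → ℚ) (p.symm (Fin.last 4)) = 0 := by
    have := hq_smul 0 0 (p.symm (Fin.last 4))
    simpa using this
  rw [h2, add_zero, hq_last] at h1
  simp only [hq_cast, hxc] at h1
  rw [← h1]
  unfold ev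
  rw [Finset.sum_sub_distrib, sub_eq_add_neg]

omit [Fintype Φ] in
theorem Th_inj (hπ : Function.Surjective π) (W : Submodule ℚ (Fin 4 → ℚ)) :
    Function.Injective (Th π W) := by
  rw [← LinearMap.ker_eq_bot, LinearMap.ker_eq_bot']
  intro x hx
  have h1 : ∀ p, ev (fun i k => Fin.lastCases (motive := fun _ => ℚ) 0
      (fun k' => (x k' : Fin 4 → ℚ) i) k) p = 0 := by
    intro p
    obtain ⟨φ, hφ⟩ := hπ p
    rw [ev_hq (fun k => (x k : Fin 4 → ℚ)) p, ← hφ]
    exact congrFun hx φ
  have h2 := t_ZERO ℚ _ h1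
  funext k
  apply Subtype.ext
  funext i
  have h3 := h2 i k.castSucc (Fin.last 4)
  simp only [Fin.lastCases_castSucc, Fin.lastCases_last] at h3
  exact h3

/-- The orthogonal of a subspace. -/
def orth (R : Submodule ℚ (Φ → ℚ)) : Submodule ℚ (Φ → ℚ) where
  carrier := {χ | ∀ y ∈ R, ∑ φ, χ φ * y φ = 0}
  zero_mem' := fun y _ => by simp
  add_mem' {a b} ha hb := fun y hy => by
    simp only [Pi.add_apply, add_mul, Finset.sum_add_distrib, ha y hy, hb y hy, add_zero]
  smul_mem' c a ha := fun y hy => by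
    simp only [Pi.smul_apply, smul_eq_mul, mul_assoc, ← Finset.mul_sum, ha y hy, mul_zero]

theorem orth_disj (R : Submodule ℚ (Φ → ℚ)) : Disjoint R (orth R) := by
  rw [Submodule.disjoint_def]
  intro x hx hx'
  have h1 := hx' x hx
  have h2 := (Finset.sum_eq_zero_iff_of_nonneg (fun φ _ => mul_self_nonneg (x φ))).1 h1
  funext φ
  exact mul_self_eq_zero.1 (h2 φ (Finset.mem_univ φ))

theorem t_LIN : S_LIN := by
  intro Φ _ π hπ S N hS hN
  -- orthogonality on the space of the columns
  have hort : ∀ χ ∈ N, ∀ k : Fin 5, ∀ x ∈ WW S,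
      ∑ φ, (χ φ : ℚ) * hq x ((π φ).symm k) = 0 := by
    intro χ hχ k x hx
    induction hx using Submodule.span_induction with
    | mem x hx =>
      obtain ⟨X, hX, j, rfl⟩ := hx
      simp only [hq_col]
      exact_mod_cast hN χ hχ X hX k j
    | zero =>
      refine Finset.sum_eq_zero fun φ _ => ?_
      have := hq_smul 0 0 ((π φ).symm k)
      rw [zero_smul, zero_mul] at this
      rw [this, mul_zero]
    | add x y _ _ hx hy =>
      simp only [hq_add, mul_add, Finset.sum_add_distrib, hx, hy, add_zero]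
    | smul c x _ hx =>
      simp only [hq_smul]
      have : ∀ φ, (χ φ : ℚ) * (c * hq x ((π φ).symm k)) = c * ((χ φ : ℚ) * hq x ((π φ).symm k)) :=
        fun φ => by ring
      simp only [this, ← Finset.mul_sum, hx, mul_zero]
  set R : Submodule ℚ (Φ → ℚ) := LinearMap.range (Th π (WW S)) with hR
  have hRf : Module.finrank ℚ R = 4 * Module.finrank ℚ (WW S) := by
    rw [hR, LinearMap.finrank_range_of_inj (Th_inj π hπ (WW S)), Module.finrank_pi_fintype]
    simp
  have hNq : ∀ χ ∈ N, (fun φ => (χ φ : ℚ)) ∈ orth R := by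
    intro χ hχ y hy
    obtain ⟨x, rfl⟩ := hy
    simp only [Th, LinearMap.coe_mk, AddHom.coe_mk, Finset.mul_sum]
    rw [Finset.sum_comm]
    exact Finset.sum_eq_zero fun k _ => hort χ hχ k.castSucc (x k) (x k).2
  let f : N →+ orth R :=
    { toFun := fun χ => ⟨fun φ => (χ.1 φ : ℚ), hNq χ.1 χ.2⟩
      map_zero' := by
        apply Subtype.ext
        funext φ
        simp
      map_add' := fun χ ψ => by
        apply Subtype.ext
        funext φ
        simp }
  have hf : Function.Injective f := by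
    intro χ ψ h
    apply Subtype.ext
    funext φ
    have h1 := congrFun (congrArg Subtype.val h) φ
    have h2 : (χ.1 φ : ℚ) = (ψ.1 φ : ℚ) := h1
    exact_mod_cast h2
  have h1 := finrank_le_rat f hf
  have h2 := Submodule.finrank_add_finrank_le_of_disjoint (orth_disj R)
  rw [hRf, Module.finrank_fintype_fun_eq_card] at h2
  have h3 := partA S hS
  omega

end Pool.Agent.W597.PCLIN
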