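import Pool.Agent.W597.PHStrDiv

/-!
# The almost everywhere form of `div A = 0` and `curl grad h = 0` (PH-STR)
-/

set_option autoImplicit false

open MeasureTheory Metric Set Filter Topology Complex
open scoped ENNReal ContDiff ComplexConjugate

namespace Pool.Agent.W597.PHStr

open Pool.Agent.W796.PH Pool.Agent.Helper366.IV Pool.Agent.W597.PHChain Pool.Agent.W597.PHZero

/-! ### powers -/

lemma pw_zero (e : ℝ) : pw e 0 = 0 := by simp [pw]

lemma norm_pw (e : ℝ) {g : ℂ} (hg : g ≠ 0) : ‖pw e g‖ = ‖g‖ ^ (e + 1) := by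
  have hg0 : 0 < ‖g‖ := norm_pos_iff.2 hg
  unfold pw
  rw [norm_mul, Complex.norm_real, Real.norm_of_nonneg (Real.rpow_nonneg hg0.le _),
    Real.rpow_add_one hg0.ne']

lemma pw_pw (e e' : ℝ) {g : ℂ} (hg : g ≠ 0) : pw e (pw e' g) = pw (e * (e' + 1) + e') g := by
  have hg0 : 0 < ‖g‖ := norm_pos_iff.2 hg
  have h1 : pw e (pw e' g) = ((‖pw e' g‖ ^ e : ℝ) : ℂ) * pw e' g := rfl
  rw [h1, norm_pw e' hg, ← Real.rpow_mul hg0.le]
  unfold pw
  rw [← mul_assoc, ← Complex.ofReal_mul, ← Real.rpow_add hg0]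
  congr 3
  ring

lemma pw_A {p : ℝ} (hp : 2 ≤ p) (g : ℂ) :
    pw (1 - 2 / p) (pw ((p - 2) / 2) g) = pw (p - 2) g := by
  by_cases hg : g = 0
  · subst hg; simp only [pw_zero]
  · rw [pw_pw _ _ hg]
    congr 1
    field_simp
    ring

lemma pw_G {p : ℝ} (hp : 2 ≤ p) (g : ℂ) :
    pw (-(1 - 2 / p)) (pw ((p - 2) / 2) g) = g := by
  by_cases hg : g = 0
  · subst hg; simp only [pw_zero]
  · rw [pw_pw _ _ hg]
    have : -(1 - 2 / p) * ((p - 2) / 2 + 1) + (p - 2) / 2 = 0 := by
      field_simp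
      ring
    rw [this]
    simp [pw]

lemma pw_ne {e : ℝ} {g : ℂ} (h : pw e g ≠ 0) : g ≠ 0 := by
  rintro rfl
  exact h (pw_zero e)

/-! ### integrability -/

theorem LL_mem {K : Set ℂ} (hK : IsCompact K) {V Ve : ℂ → ℂ} (hV : MemLp V 2 (volume.restrict K))
    (hVe : MemLp Ve 2 (volume.restrict K)) {s : ℝ} (hs : 0 ≤ s) (hs1 : s ≤ 1)
    (hz : ∀ᵐ z ∂(volume.restrict K), V z = 0 → Ve z = 0) :
    Integrable (fun z => LL s (V z) (Ve z)) (volume.restrict K) := by
  have hfin := j1865_fin hK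
  have hl : ∀ᵐ z ∂(volume.restrict K),
      Tendsto (fun n => fderiv ℝ (Th (ep n) s) (V z) (Ve z)) atTop (𝓝 (LL s (V z) (Ve z))) := by
    filter_upwards [hz] with z hz
    exact (tendsto_fderiv_Th (V z) (Ve z) hz).comp tendsto_ep
  have hm : AEStronglyMeasurable (fun z => LL s (V z) (Ve z)) (volume.restrict K) :=
    aestronglyMeasurable_of_tendsto_ae atTop
      (fun n => meas_D (contDiff_Th (ep_pos n)) hV.1 hVe.1) hl
  have hb : Integrable (fun z => 1 + ‖V z‖ ^ 2 + ‖Ve z‖ ^ 2) (volume.restrict K) :=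
    ((integrable_const 1).add (int_sq hV)).add (int_sq hVe)
  refine hb.mono' hm ?_
  filter_upwards [hl] with z hz
  exact le_of_tendsto' hz.norm fun n => norm_fderiv_Th_le (ep_pos n) (ep_le n) hs hs1 _ _

theorem pw_mem {K : Set ℂ} (hK : IsCompact K) {V : ℂ → ℂ} (hV : MemLp V 2 (volume.restrict K))
    {s : ℝ} (hs : 0 ≤ s) (hs1 : s ≤ 1) :
    Integrable (fun z => pw s (V z)) (volume.restrict K) := by
  have hfin := j1865_fin hK
  have hl : ∀ z, Tendsto (fun n => Th (ep n) s (V z)) atTop (𝓝 (pw s (V z))) := fun z =>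
    (tendsto_Th (V z)).comp tendsto_ep
  have hm : AEStronglyMeasurable (fun z => pw s (V z)) (volume.restrict K) :=
    aestronglyMeasurable_of_tendsto_ae atTop
      (fun n => (contDiff_Th (ep_pos n)).continuous.comp_aestronglyMeasurable hV.1)
      (Eventually.of_forall hl)
  have hb : Integrable (fun z => 1 + ‖V z‖ ^ 2) (volume.restrict K) :=
    (integrable_const 1).add (int_sq hV)
  refine hb.mono' hm (Eventually.of_forall fun z => ?_)
  exact le_of_tendsto' (hl z).norm fun n => norm_Th_le (ep_pos n) (ep_le n) hs hs1 _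

/-- real and imaginary part of an integral against a real function -/
theorem re_int {K : Set ℂ} (hK : IsCompact K) {f : ℂ → ℂ} (hf : Integrable f (volume.restrict K))
    {B : ℂ → ℝ} (hB : Continuous B) :
    (∫ z in K, f z * (B z : ℂ)).re = ∫ z in K, (f z).re * B z ∧
    (∫ z in K, f z * (B z : ℂ)).im = ∫ z in K, (f z).im * B z ∧
    Integrable (fun z => (f z).re * B z) (volume.restrict K) ∧
    Integrable (fun z => (f z).im * B z) (volume.restrict K) := by
  obtain ⟨C, hC⟩ := hK.exists_bound_of_continuousOn hB.continuousOn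
  have hfB : Integrable (fun z => f z * (B z : ℂ)) (volume.restrict K) := by
    refine hf.mul_bdd (c := C) (continuous_ofReal.comp hB).aestronglyMeasurable ?_
    rw [ae_restrict_iff' hK.measurableSet]
    refine Eventually.of_forall fun z hz => ?_
    rw [Complex.norm_real]
    exact hC z hz
  have h1 := integral_re hfB
  have h2 := integral_im hfB
  have h3 := hfB.re
  have h4 := hfB.im
  simp only [RCLike.re_to_complex, RCLike.im_to_complex, Complex.re_mul_ofReal,
    Complex.im_mul_ofReal] at h1 h2 h3 h4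
  exact ⟨h1.symm, h2.symm, h3, h4⟩

theorem tsupport_ofReal (g : ℂ → ℝ) : tsupport (fun z => (g z : ℂ)) = tsupport g := by
  unfold tsupport
  congr 1
  ext z
  simp

theorem fderiv_ofReal {g : ℂ → ℝ} (hg : ContDiff ℝ ∞ g) (z v : ℂ) :
    fderiv ℝ (fun z => (g z : ℂ)) z v = ((fderiv ℝ g z v : ℝ) : ℂ) := by
  have h1 : HasFDerivAt g (fderiv ℝ g z) z := (hg.differentiable (by simp) z).hasFDerivAt
  have h2 : HasFDerivAt (fun z => (g z : ℂ)) (ofRealCLM.comp (fderiv ℝ g z)) z :=
    ofRealCLM.hasFDerivAt.comp z h1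
  rw [h2.fderiv]
  rfl

theorem fderiv_split {g : ℂ → ℝ} (z a : ℂ) :
    fderiv ℝ g z a = a.re * fderiv ℝ g z 1 + a.im * fderiv ℝ g z I := by
  conv_lhs => rw [← Complex.re_add_im a]
  have e1 : ((a.re : ℝ) : ℂ) = a.re • (1 : ℂ) := by simp
  have e2 : ((a.im : ℝ) : ℂ) * I = a.im • I := by simp
  rw [e1, e2, map_add, map_smul, map_smul, smul_eq_mul, smul_eq_mul]

/-- the divergence part -/
theorem div_ae (hch : S_Chain) (hzero : S_Zero) {p : ℝ} (hp : 2 ≤ p) {Ω : Set ℂ} {h : ℂ → ℝ}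
    {G : ℂ → ℂ} (hG : PHarm p Ω h G) {U : Set ℂ} (hU : IsOpen U) (hUΩ : U ⊆ Ω)
    {Vx Vy : ℂ → ℂ} (hV : SW U (fun z => pw ((p - 2) / 2) (G z)) Vx Vy) :
    ∀ᵐ z ∂(volume.restrict U), pw ((p - 2) / 2) (G z) ≠ 0 →
      (fr (2 - 2 / p) (pw ((p - 2) / 2) (G z) / ‖pw ((p - 2) / 2) (G z)‖) (Vx z)).re +
      (fr (2 - 2 / p) (pw ((p - 2) / 2) (G z) / ‖pw ((p - 2) / 2) (G z)‖) (Vy z)).im = 0 := by
  set V : ℂ → ℂ := fun z => pw ((p - 2) / 2) (G z) with hVdef
  set s : ℝ := 1 - 2 / p with hsdef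
  have hp0 : 0 < p := by linarith
  have hs : 0 ≤ s := by
    have : 2 / p ≤ 1 := by rw [div_le_one hp0]; exact hp
    linarith
  have hs1 : s ≤ 1 := by
    have : 0 < 2 / p := by positivity
    linarith
  have hz := hzero U V Vx Vy hU hV
  have hzx : ∀ᵐ z ∂(volume.restrict U), V z = 0 → Vx z = 0 := by
    filter_upwards [hz] with z h1 h2 using (h1 h2).1
  have hzy : ∀ᵐ z ∂(volume.restrict U), V z = 0 → Vy z = 0 := by
    filter_upwards [hz] with z h1 h2 using (h1 h2).2
  have hzK : ∀ K ⊆ U, (∀ᵐ z ∂(volume.restrict K), V z = 0 → Vx z = 0) ∧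
      (∀ᵐ z ∂(volume.restrict K), V z = 0 → Vy z = 0) := fun K hKU =>
    ⟨ae_restrict_of_ae_restrict_of_subset hKU hzx, ae_restrict_of_ae_restrict_of_subset hKU hzy⟩
  set f : ℂ → ℝ := fun z => (LL s (V z) (Vx z)).re + (LL s (V z) (Vy z)).im with hf
  have hLx : ∀ K, IsCompact K → K ⊆ U → Integrable (fun z => LL s (V z) (Vx z))
      (volume.restrict K) := fun K hK hKU =>
    LL_mem hK (hV.mem K hK hKU) (hV.memx K hK hKU) hs hs1 (hzK K hKU).1
  have hLy : ∀ K, IsCompact K → K ⊆ U → Integrable (fun z => LL s (V z) (Vy z))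
      (volume.restrict K) := fun K hK hKU =>
    LL_mem hK (hV.mem K hK hKU) (hV.memy K hK hKU) hs hs1 (hzK K hKU).2
  have hloc : LocallyIntegrableOn f U := by
    rw [locallyIntegrableOn_iff hU.isLocallyClosed]
    intro K hKU hK
    exact (hLx K hK hKU).re.add (hLy K hK hKU).im
  have hint : ∀ g : ℂ → ℝ, ContDiff ℝ ∞ g → HasCompactSupport g → tsupport g ⊆ U →
      ∫ z, g z • f z = 0 := by
    intro g hg hgc hgU
    set φ : ℂ → ℂ := fun z => (g z : ℂ) with hφdef
    have hts : tsupport φ = tsupport g := tsupport_ofReal g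
    have hφ : ContDiff ℝ ∞ φ := ofRealCLM.contDiff.comp hg
    have hφc : HasCompactSupport φ := by
      rw [HasCompactSupport, hts]
      exact hgc
    have hK : IsCompact (tsupport g) := hgc
    have hw := weak_pw hch hU hV hs hs1 hzx hzy φ hφ hφc (by rw [hts]; exact hgU)
    rw [hts] at hw
    obtain ⟨w1, w2⟩ := hw
    have c1 : Continuous (fun z => fderiv ℝ g z 1) :=
      (hg.continuous_fderiv (by simp)).clm_apply continuous_const
    have c2 : Continuous (fun z => fderiv ℝ g z I) :=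
      (hg.continuous_fderiv (by simp)).clm_apply continuous_const
    have e1 : ∀ z v, fderiv ℝ φ z v = ((fderiv ℝ g z v : ℝ) : ℂ) := fun z v =>
      fderiv_ofReal hg z v
    simp only [e1] at w1 w2
    have hA := pw_mem hK (hV.mem _ hK hgU) hs hs1
    have a1 := re_int hK hA c1
    have a2 := re_int hK hA c2
    have b1 := re_int hK (hLx _ hK hgU) hg.continuous
    have b2 := re_int hK (hLy _ hK hgU) hg.continuous
    have r1 := congrArg Complex.re w1
    have r2 := congrArg Complex.im w2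
    rw [Complex.neg_re, a1.1, b1.1] at r1
    rw [Complex.neg_im, a2.2.1, b2.2.1] at r2
    have heq := hG.eq g hg hgc (hgU.trans hUΩ)
    have h3 : ∫ z, fderiv ℝ g z (pw (p - 2) (G z)) =
        (∫ z in tsupport g, (pw s (V z)).re * fderiv ℝ g z 1) +
          ∫ z in tsupport g, (pw s (V z)).im * fderiv ℝ g z I := by
      rw [← integral_add a1.2.2.1 a2.2.2.2, ← setIntegral_eq_integral_of_forall_compl_eq_zero
        (s := tsupport g) (fun z hz => by rw [(j1865_fd0 hz).2]; simp)]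
      refine integral_congr_ae (Eventually.of_forall fun z => ?_)
      change fderiv ℝ g z (pw (p - 2) (G z)) = _
      rw [← pw_A hp, fderiv_split]
    have h4 : ∫ z, g z • f z = (∫ z in tsupport g, (LL s (V z) (Vx z)).re * g z) +
        ∫ z in tsupport g, (LL s (V z) (Vy z)).im * g z := by
      rw [← integral_add b1.2.2.1 b2.2.2.2, ← setIntegral_eq_integral_of_forall_compl_eq_zero
        (s := tsupport g) (fun z hz => by rw [(j1865_fd0 hz).1]; simp)]
      refine integral_congr_ae (Eventually.of_forall fun z => ?_)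
      simp only [hf, smul_eq_mul]
      ring
    rw [h3] at heq
    rw [h4]
    linarith
  have hae := hU.ae_eq_zero_of_integral_contDiff_smul_eq_zero hloc hint
  rw [ae_restrict_iff' hU.measurableSet]
  filter_upwards [hae] with z hz hzU hVz
  have h1 := hz hzU
  have hn : 0 < ‖V z‖ := norm_pos_iff.2 hVz
  have hns : 0 < ‖V z‖ ^ s := Real.rpow_pos_of_pos hn _
  simp only [hf, LL, Complex.re_ofReal_mul, Complex.im_ofReal_mul] at h1
  rw [← mul_add] at h1
  have h2 := (mul_eq_zero.1 h1).resolve_left hns.ne'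
  have e : 1 + s = 2 - 2 / p := by rw [hsdef]; ring
  rwa [e] at h2

end Pool.Agent.W597.PHStr
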