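import Pool.Agent.W796.PH.Defs
import Pool.Agent.Helper366.IV.Stokes
import Pool.Agent.W597.PHChain
import Pool.Agent.W597.PHZero

/-!
# The almost everywhere form of the equation `div A = 0` (PH-STR, first part)
-/

set_option autoImplicit false

open MeasureTheory Metric Set Filter Topology Complex
open scoped ENNReal ContDiff ComplexConjugate

namespace Pool.Agent.W597.PHStr

open Pool.Agent.W796.PH Pool.Agent.Helper366.IV Pool.Agent.W597.PHChain Pool.Agent.W597.PHZero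

/-- regularised variable -/
noncomputable def rr (ε t : ℝ) : ℝ := (t + ε) / (1 + ε * t)

/-- its derivative -/
noncomputable def rd (ε t : ℝ) : ℝ := (1 - ε ^ 2) / (1 + ε * t) ^ 2

section
variable {ε t : ℝ}

lemma den_pos (hε : 0 < ε) (ht : 0 ≤ t) : 0 < 1 + ε * t := by positivity

lemma rr_pos (hε : 0 < ε) (ht : 0 ≤ t) : 0 < rr ε t := by
  unfold rr; positivity

lemma rr_le (hε : 0 < ε) (h1 : ε ≤ 1) (ht : 0 ≤ t) : rr ε t ≤ 1 + t := by
  unfold rr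
  rw [div_le_iff₀ (den_pos hε ht)]
  nlinarith [mul_nonneg hε.le ht, mul_nonneg (mul_nonneg hε.le ht) ht]

lemma rr_le' (hε : 0 < ε) (h1 : ε ≤ 1) (ht : 0 ≤ t) : rr ε t ≤ 1 / ε := by
  unfold rr
  rw [div_le_div_iff₀ (den_pos hε ht) hε]
  nlinarith

lemma rd_nonneg (hε : 0 < ε) (h1 : ε ≤ 1) (ht : 0 ≤ t) : 0 ≤ rd ε t := by
  unfold rd
  have := den_pos hε ht
  have : 0 ≤ 1 - ε ^ 2 := by nlinarith
  positivity

lemma t_rd_le (hε : 0 < ε) (ht : 0 ≤ t) : rd ε t * t ≤ rr ε t := by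
  unfold rd rr
  have hd := den_pos hε ht
  rw [div_mul_eq_mul_div, div_le_div_iff₀ (by positivity) hd]
  have h1 : (1 - ε ^ 2) * t ≤ t := by nlinarith [mul_nonneg (sq_nonneg ε) ht]
  have h2 : t ≤ (t + ε) * (1 + ε * t) := by
    nlinarith [mul_nonneg hε.le ht, mul_nonneg (mul_nonneg hε.le ht) ht,
      mul_nonneg (mul_nonneg hε.le hε.le) ht]
  calc (1 - ε ^ 2) * t * (1 + ε * t) ≤ ((t + ε) * (1 + ε * t)) * (1 + ε * t) :=
        mul_le_mul_of_nonneg_right (h1.trans h2) hd.le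
    _ = _ := by ring

lemma hasDerivAt_rr (hε : 0 < ε) (ht : 0 ≤ t) : HasDerivAt (rr ε) (rd ε t) t := by
  have hd := den_pos hε ht
  have h1 : HasDerivAt (fun t : ℝ => t + ε) 1 t := (hasDerivAt_id t).add_const ε
  have h2 : HasDerivAt (fun t : ℝ => 1 + ε * t) ε t := by
    have := ((hasDerivAt_id t).const_mul ε).const_add 1
    simpa using this
  have h3 := h1.div h2 hd.ne'
  have e : (1 * (1 + ε * t) - (t + ε) * ε) / (1 + ε * t) ^ 2 = rd ε t := by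
    unfold rd
    congr 1
    ring
  rw [e] at h3
  exact h3

lemma tendsto_rr : Tendsto (fun ε => rr ε t) (𝓝 0) (𝓝 t) := by
  have h : ContinuousAt (fun ε => rr ε t) 0 := by
    unfold rr
    refine ContinuousAt.div (by fun_prop) (by fun_prop) (by simp)
  have := h.tendsto
  simpa [rr] using this

lemma tendsto_rd : Tendsto (fun ε => rd ε t) (𝓝 0) (𝓝 1) := by
  have h : ContinuousAt (fun ε => rd ε t) 0 := by
    unfold rd
    refine ContinuousAt.div (by fun_prop) (by fun_prop) (by simp)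
  have := h.tendsto
  simpa [rd] using this

end

/-- the regularised radial power map -/
noncomputable def Th (ε s : ℝ) (v : ℂ) : ℂ := (rr ε (‖v‖ ^ 2) ^ (s / 2)) • v

section
variable {ε s : ℝ}

lemma contDiff_Th (hε : 0 < ε) : ContDiff ℝ ∞ (Th ε s) := by
  have h1 : ContDiff ℝ ∞ (fun v : ℂ => ‖v‖ ^ 2) := contDiff_norm_sq ℝ
  have h2 : ContDiff ℝ ∞ (fun v : ℂ => rr ε (‖v‖ ^ 2)) := by
    unfold rr
    exact (h1.add contDiff_const).div (contDiff_const.add (contDiff_const.mul h1))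
      fun v => (den_pos hε (sq_nonneg _)).ne'
  have h3 : ContDiff ℝ ∞ (fun v : ℂ => rr ε (‖v‖ ^ 2) ^ (s / 2)) :=
    h2.rpow_const_of_ne fun v => (rr_pos hε (sq_nonneg _)).ne'
  exact h3.smul contDiff_id

lemma fderiv_Th (hε : 0 < ε) (v w : ℂ) : fderiv ℝ (Th ε s) v w =
    (rr ε (‖v‖ ^ 2) ^ (s / 2)) • w +
      (rd ε (‖v‖ ^ 2) * s * rr ε (‖v‖ ^ 2) ^ (s / 2 - 1) * (conj v * w).re) • v := by
  have hN : HasFDerivAt (fun v : ℂ => ‖v‖ ^ 2) (2 • innerSL ℝ v) v :=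
    (hasStrictFDerivAt_norm_sq v).hasFDerivAt
  have hr : HasDerivAt (fun t => rr ε t ^ (s / 2))
      (rd ε (‖v‖ ^ 2) * (s / 2) * rr ε (‖v‖ ^ 2) ^ (s / 2 - 1)) (‖v‖ ^ 2) :=
    (hasDerivAt_rr hε (sq_nonneg _)).rpow_const (Or.inl (rr_pos hε (sq_nonneg _)).ne')
  have h1 : HasFDerivAt (fun v : ℂ => rr ε (‖v‖ ^ 2) ^ (s / 2))
      ((rd ε (‖v‖ ^ 2) * (s / 2) * rr ε (‖v‖ ^ 2) ^ (s / 2 - 1)) • (2 • innerSL ℝ v)) v := by
    have h0 := hr.comp_hasFDerivAt v hN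
    exact h0
  have h2 := h1.smul (hasFDerivAt_id v)
  have h3 : HasFDerivAt (Th ε s) _ v := h2
  rw [h3.fderiv]
  have hin : inner ℝ v w = (conj v * w).re := by
    rw [Complex.inner, mul_comm]
  simp only [add_apply, smul_apply,
    ContinuousLinearMap.smulRight_apply, ContinuousLinearMap.id_apply, id_eq, innerSL_apply_apply,
    smul_eq_mul, hin, nsmul_eq_mul]
  congr 2
  push_cast
  ring

lemma abs_inner_le (v w : ℂ) : |(conj v * w).re| ≤ ‖v‖ * ‖w‖ := by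
  refine (Complex.abs_re_le_norm _).trans ?_
  rw [norm_mul, RCLike.norm_conj]

lemma norm_fderiv_Th (hε : 0 < ε) (h1 : ε ≤ 1) (hs : 0 ≤ s) (hs1 : s ≤ 1) (v w : ℂ) :
    ‖fderiv ℝ (Th ε s) v w‖ ≤ 2 * rr ε (‖v‖ ^ 2) ^ (s / 2) * ‖w‖ := by
  rw [fderiv_Th hε]
  set t := ‖v‖ ^ 2 with ht
  have ht0 : 0 ≤ t := sq_nonneg _
  have hr := rr_pos hε ht0
  have hrd := rd_nonneg hε h1 ht0
  have hp : 0 < rr ε t ^ (s / 2) := Real.rpow_pos_of_pos hr _
  have hp1 : 0 < rr ε t ^ (s / 2 - 1) := Real.rpow_pos_of_pos hr _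
  have hmul : rr ε t ^ (s / 2 - 1) * rr ε t = rr ε t ^ (s / 2) := by
    rw [← Real.rpow_add_one hr.ne']
    congr 1
    ring
  have h2 : ‖(rd ε t * s * rr ε t ^ (s / 2 - 1) * (conj v * w).re) • v‖ ≤
      rr ε t ^ (s / 2) * ‖w‖ := by
    rw [norm_smul, Real.norm_eq_abs, abs_mul, abs_of_nonneg (by positivity)]
    calc rd ε t * s * rr ε t ^ (s / 2 - 1) * |(conj v * w).re| * ‖v‖
        ≤ rd ε t * s * rr ε t ^ (s / 2 - 1) * (‖v‖ * ‖w‖) * ‖v‖ := by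
          gcongr
          exact abs_inner_le v w
      _ = s * rr ε t ^ (s / 2 - 1) * (rd ε t * t) * ‖w‖ := by rw [ht]; ring
      _ ≤ s * rr ε t ^ (s / 2 - 1) * rr ε t * ‖w‖ := by
          gcongr
          exact t_rd_le hε ht0
      _ = s * (rr ε t ^ (s / 2) * ‖w‖) := by rw [← hmul]; ring
      _ ≤ 1 * (rr ε t ^ (s / 2) * ‖w‖) := by gcongr
      _ = _ := one_mul _
  calc ‖(rr ε t ^ (s / 2)) • w + (rd ε t * s * rr ε t ^ (s / 2 - 1) * (conj v * w).re) • v‖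
      ≤ ‖(rr ε t ^ (s / 2)) • w‖ +
        ‖(rd ε t * s * rr ε t ^ (s / 2 - 1) * (conj v * w).re) • v‖ := norm_add_le _ _
    _ ≤ rr ε t ^ (s / 2) * ‖w‖ + rr ε t ^ (s / 2) * ‖w‖ := by
        refine add_le_add ?_ h2
        rw [norm_smul, Real.norm_of_nonneg hp.le]
    _ = _ := by ring

lemma rr_rpow_le (hε : 0 < ε) (h1 : ε ≤ 1) (hs : 0 ≤ s) (hs1 : s ≤ 1) {t : ℝ} (ht : 0 ≤ t) :
    rr ε t ^ (s / 2) ≤ Real.sqrt (1 + t) := by
  calc rr ε t ^ (s / 2) ≤ (1 + t) ^ (s / 2) :=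
        Real.rpow_le_rpow (rr_pos hε ht).le (rr_le hε h1 ht) (by linarith)
    _ ≤ (1 + t) ^ (1 / 2 : ℝ) :=
        Real.rpow_le_rpow_of_exponent_le (by linarith) (by linarith)
    _ = Real.sqrt (1 + t) := (Real.sqrt_eq_rpow _).symm

lemma norm_Th_le (hε : 0 < ε) (h1 : ε ≤ 1) (hs : 0 ≤ s) (hs1 : s ≤ 1) (v : ℂ) :
    ‖Th ε s v‖ ≤ 1 + ‖v‖ ^ 2 := by
  unfold Th
  have hp : 0 ≤ rr ε (‖v‖ ^ 2) ^ (s / 2) := Real.rpow_nonneg (rr_pos hε (sq_nonneg _)).le _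
  rw [norm_smul, Real.norm_of_nonneg hp]
  have h2 : ‖v‖ ≤ Real.sqrt (1 + ‖v‖ ^ 2) := Real.le_sqrt_of_sq_le (by linarith)
  calc rr ε (‖v‖ ^ 2) ^ (s / 2) * ‖v‖ ≤ Real.sqrt (1 + ‖v‖ ^ 2) * Real.sqrt (1 + ‖v‖ ^ 2) :=
        mul_le_mul (rr_rpow_le hε h1 hs hs1 (sq_nonneg _)) h2 (norm_nonneg _) (Real.sqrt_nonneg _)
    _ = _ := Real.mul_self_sqrt (by positivity)

lemma norm_fderiv_Th_le (hε : 0 < ε) (h1 : ε ≤ 1) (hs : 0 ≤ s) (hs1 : s ≤ 1) (v w : ℂ) :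
    ‖fderiv ℝ (Th ε s) v w‖ ≤ 1 + ‖v‖ ^ 2 + ‖w‖ ^ 2 := by
  refine (norm_fderiv_Th hε h1 hs hs1 v w).trans ?_
  have h2 := rr_rpow_le hε h1 hs hs1 (sq_nonneg ‖v‖)
  have h3 : Real.sqrt (1 + ‖v‖ ^ 2) ^ 2 = 1 + ‖v‖ ^ 2 := Real.sq_sqrt (by positivity)
  have h4 := norm_nonneg w
  have h5 : 2 * rr ε (‖v‖ ^ 2) ^ (s / 2) * ‖w‖ ≤ 2 * Real.sqrt (1 + ‖v‖ ^ 2) * ‖w‖ := by gcongr
  nlinarith [sq_nonneg (Real.sqrt (1 + ‖v‖ ^ 2) - ‖w‖)]

lemma norm_fderiv_Th_bdd (hε : 0 < ε) (h1 : ε ≤ 1) (hs : 0 ≤ s) (hs1 : s ≤ 1) (v : ℂ) :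
    ‖fderiv ℝ (Th ε s) v‖ ≤ 2 * (1 / ε) ^ (s / 2) := by
  refine ContinuousLinearMap.opNorm_le_bound _ (by positivity) fun w => ?_
  refine (norm_fderiv_Th hε h1 hs hs1 v w).trans ?_
  gcongr
  · exact (rr_pos hε (sq_nonneg _)).le
  · exact rr_le' hε h1 (sq_nonneg _)

lemma tendsto_Th (v : ℂ) : Tendsto (fun ε => Th ε s v) (𝓝[>] 0) (𝓝 (pw s v)) := by
  by_cases hv : v = 0
  · subst hv
    have : ∀ ε, Th ε s 0 = 0 := fun ε => by simp [Th]
    simp only [this, pw, mul_zero]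
    exact tendsto_const_nhds
  · have hv0 : 0 < ‖v‖ := norm_pos_iff.2 hv
    have h1 : Tendsto (fun ε => rr ε (‖v‖ ^ 2) ^ (s / 2)) (𝓝[>] 0) (𝓝 ((‖v‖ ^ 2) ^ (s / 2))) :=
      (tendsto_rr.mono_left nhdsWithin_le_nhds).rpow_const (Or.inl (by positivity))
    have h2 : (‖v‖ ^ 2) ^ (s / 2) = ‖v‖ ^ s := by
      rw [← Real.rpow_natCast, ← Real.rpow_mul hv0.le]
      congr 1
      push_cast
      ring
    rw [h2] at h1
    have h3 := h1.smul_const v
    rwa [real_smul] at h3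

lemma tendsto_fderiv_Th (v w : ℂ) (hv : v = 0 → w = 0) :
    Tendsto (fun ε => fderiv ℝ (Th ε s) v w) (𝓝[>] 0)
      (𝓝 (((‖v‖ ^ s : ℝ) : ℂ) * fr (1 + s) (v / ‖v‖) w)) := by
  by_cases hv0 : v = 0
  · have hw := hv hv0
    subst hw
    simp only [map_zero, fr, mul_zero, Complex.zero_re, Complex.ofReal_zero, zero_mul, add_zero]
    exact tendsto_const_nhds
  · have hv1 : 0 < ‖v‖ := norm_pos_iff.2 hv0
    have e : ∀ᶠ ε in 𝓝[>] (0 : ℝ), (rr ε (‖v‖ ^ 2) ^ (s / 2)) • w +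
        (rd ε (‖v‖ ^ 2) * s * rr ε (‖v‖ ^ 2) ^ (s / 2 - 1) * (conj v * w).re) • v =
        fderiv ℝ (Th ε s) v w := by
      filter_upwards [self_mem_nhdsWithin] with ε hε
      exact (fderiv_Th hε v w).symm
    refine Tendsto.congr' e ?_
    have hN : (‖v‖ ^ 2 : ℝ) ≠ 0 := by positivity
    have t1 : Tendsto (fun ε => rr ε (‖v‖ ^ 2)) (𝓝[>] 0) (𝓝 (‖v‖ ^ 2)) :=
      tendsto_rr.mono_left nhdsWithin_le_nhds
    have t2 : Tendsto (fun ε => rd ε (‖v‖ ^ 2)) (𝓝[>] 0) (𝓝 1) :=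
      tendsto_rd.mono_left nhdsWithin_le_nhds
    have t3 := (t1.rpow_const (p := s / 2) (Or.inl hN)).smul_const w
    have t4 := (((t2.mul_const s).mul (t1.rpow_const (p := s / 2 - 1) (Or.inl hN))).mul_const
      (conj v * w).re).smul_const v
    have t5 := t3.add t4
    have h2 : (‖v‖ ^ 2) ^ (s / 2) = ‖v‖ ^ s := by
      rw [← Real.rpow_natCast, ← Real.rpow_mul hv1.le]
      congr 1
      push_cast
      ring
    have h3 : (‖v‖ ^ 2) ^ (s / 2 - 1) = ‖v‖ ^ s / ‖v‖ ^ 2 := by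
      rw [Real.rpow_sub_one hN, h2]
    rw [h2, h3] at t5
    have e2 : ((‖v‖ ^ s : ℝ) : ℂ) * fr (1 + s) (v / ‖v‖) w =
        (‖v‖ ^ s) • w + (1 * s * (‖v‖ ^ s / ‖v‖ ^ 2) * (conj v * w).re) • v := by
      have e3 : (conj (v / (‖v‖ : ℂ)) * w).re = (conj v * w).re / ‖v‖ := by
        rw [map_div₀, Complex.conj_ofReal, div_mul_eq_mul_div, Complex.div_ofReal_re]
      unfold fr
      rw [e3, add_sub_cancel_left]
      have hvc : ((‖v‖ : ℝ) : ℂ) ≠ 0 := by exact_mod_cast hv1.ne'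
      simp only [real_smul]
      push_cast
      field_simp
    rw [e2]
    exact t5

end

/-- integrals of products with a continuous function, passage to the limit -/
theorem lim_int {K : Set ℂ} (hK : IsCompact K) {F : ℕ → ℂ → ℂ} {f B : ℂ → ℂ} {b : ℂ → ℝ}
    (hF : ∀ n, AEStronglyMeasurable (F n) (volume.restrict K))
    (hb : Integrable b (volume.restrict K)) (hFb : ∀ n z, ‖F n z‖ ≤ b z)
    (hl : ∀ᵐ z ∂(volume.restrict K), Tendsto (fun n => F n z) atTop (𝓝 (f z)))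
    (hB : Continuous B) :
    Tendsto (fun n => ∫ z in K, F n z * B z) atTop (𝓝 (∫ z in K, f z * B z)) := by
  obtain ⟨C, hC⟩ := hK.exists_bound_of_continuousOn hB.continuousOn
  refine tendsto_integral_of_dominated_convergence (fun z => b z * C)
    (fun n => (hF n).mul hB.aestronglyMeasurable) (hb.mul_const C) (fun n => ?_) ?_
  · rw [ae_restrict_iff' hK.measurableSet]
    refine Eventually.of_forall fun z hz => ?_
    rw [norm_mul]
    exact mul_le_mul (hFb n z) (hC z hz) (norm_nonneg _) ((norm_nonneg _).trans (hFb n z))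
  · filter_upwards [hl] with z hz
    exact hz.mul_const _

/-- the square of the norm of an `L²` function is integrable -/
theorem int_sq {μ : Measure ℂ} {f : ℂ → ℂ} (hf : MemLp f 2 μ) : Integrable (fun z => ‖f z‖ ^ 2) μ :=
  (memLp_two_iff_integrable_sq_norm hf.1).1 hf

/-- a sequence of parameters -/
noncomputable def ep (n : ℕ) : ℝ := 1 / ((n : ℝ) + 1)

lemma ep_pos (n : ℕ) : 0 < ep n := by unfold ep; positivity

lemma ep_le (n : ℕ) : ep n ≤ 1 := by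
  unfold ep
  rw [div_le_one (by positivity)]
  have : (0 : ℝ) ≤ n := Nat.cast_nonneg n
  linarith

lemma tendsto_ep : Tendsto ep atTop (𝓝[>] 0) :=
  tendsto_nhdsWithin_iff.2 ⟨tendsto_one_div_add_atTop_nhds_zero_nat,
    Eventually.of_forall fun n => ep_pos n⟩

/-- the limit of the derivatives of the regularised maps -/
noncomputable def LL (s : ℝ) (v w : ℂ) : ℂ := ((‖v‖ ^ s : ℝ) : ℂ) * fr (1 + s) (v / ‖v‖) w

/-- weak derivatives of `|V|^s V` -/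
theorem weak_pw (hch : S_Chain) {U : Set ℂ} {V Vx Vy : ℂ → ℂ} (hU : IsOpen U)
    (h : SW U V Vx Vy) {s : ℝ} (hs : 0 ≤ s) (hs1 : s ≤ 1)
    (hzx : ∀ᵐ z ∂(volume.restrict U), V z = 0 → Vx z = 0)
    (hzy : ∀ᵐ z ∂(volume.restrict U), V z = 0 → Vy z = 0)
    (φ : ℂ → ℂ) (hφ : ContDiff ℝ ∞ φ) (hc : HasCompactSupport φ) (hsupp : tsupport φ ⊆ U) :
    (∫ z in tsupport φ, pw s (V z) * fderiv ℝ φ z 1 =
      - ∫ z in tsupport φ, LL s (V z) (Vx z) * φ z) ∧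
    (∫ z in tsupport φ, pw s (V z) * fderiv ℝ φ z I =
      - ∫ z in tsupport φ, LL s (V z) (Vy z) * φ z) := by
  have hK : IsCompact (tsupport φ) := hc
  have hfin := j1865_fin hK
  have hV := h.mem _ hK hsupp
  have key : ∀ (e : ℂ) (Ve : ℂ → ℂ), MemLp Ve 2 (volume.restrict (tsupport φ)) →
      (∀ᵐ z ∂(volume.restrict U), V z = 0 → Ve z = 0) →
      (∀ n, ∫ z, Th (ep n) s (V z) * fderiv ℝ φ z e =
        - ∫ z, fderiv ℝ (Th (ep n) s) (V z) (Ve z) * φ z) →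
      ∫ z in tsupport φ, pw s (V z) * fderiv ℝ φ z e =
        - ∫ z in tsupport φ, LL s (V z) (Ve z) * φ z := by
    intro e Ve hVe hze hw
    have hφ'c : Continuous (fun z => fderiv ℝ φ z e) :=
      (hφ.continuous_fderiv (by simp)).clm_apply continuous_const
    have hz' : ∀ᵐ z ∂(volume.restrict (tsupport φ)), V z = 0 → Ve z = 0 :=
      ae_restrict_of_ae_restrict_of_subset hsupp hze
    have l1 : Tendsto (fun n => ∫ z in tsupport φ, Th (ep n) s (V z) * fderiv ℝ φ z e) atTop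
        (𝓝 (∫ z in tsupport φ, pw s (V z) * fderiv ℝ φ z e)) := by
      refine lim_int hK (b := fun z => 1 + ‖V z‖ ^ 2) (fun n =>
        (contDiff_Th (ep_pos n)).continuous.comp_aestronglyMeasurable hV.1)
        ((integrable_const 1).add (int_sq hV))
        (fun n z => norm_Th_le (ep_pos n) (ep_le n) hs hs1 _)
        (Eventually.of_forall fun z => (tendsto_Th (V z)).comp tendsto_ep) hφ'c
    have l2 : Tendsto (fun n => ∫ z in tsupport φ, fderiv ℝ (Th (ep n) s) (V z) (Ve z) * φ z)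
        atTop (𝓝 (∫ z in tsupport φ, LL s (V z) (Ve z) * φ z)) := by
      refine lim_int hK (b := fun z => 1 + ‖V z‖ ^ 2 + ‖Ve z‖ ^ 2) (fun n =>
        meas_D (contDiff_Th (ep_pos n)) hV.1 hVe.1)
        (((integrable_const 1).add (int_sq hV)).add (int_sq hVe))
        (fun n z => norm_fderiv_Th_le (ep_pos n) (ep_le n) hs hs1 _ _) ?_ hφ.continuous
      filter_upwards [hz'] with z hz
      exact (tendsto_fderiv_Th (V z) (Ve z) hz).comp tendsto_ep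
    have hw' : ∀ n, ∫ z in tsupport φ, Th (ep n) s (V z) * fderiv ℝ φ z e =
        - ∫ z in tsupport φ, fderiv ℝ (Th (ep n) s) (V z) (Ve z) * φ z := by
      intro n
      rw [setIntegral_eq_integral_of_forall_compl_eq_zero (fun z hz => by
          rw [(j1865_fd0 hz).2]; simp),
        setIntegral_eq_integral_of_forall_compl_eq_zero (fun z hz => by
          rw [(j1865_fd0 hz).1]; simp)]
      exact hw n
    exact tendsto_nhds_unique (l1.congr hw') l2.neg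
  have hsw : ∀ n, SW U (fun z => Th (ep n) s (V z)) (fun z => fderiv ℝ (Th (ep n) s) (V z) (Vx z))
      (fun z => fderiv ℝ (Th (ep n) s) (V z) (Vy z)) := fun n =>
    hch U V Vx Vy hU h (Th (ep n) s) _ (contDiff_Th (ep_pos n))
      (norm_fderiv_Th_bdd (ep_pos n) (ep_le n) hs hs1)
  exact ⟨key 1 Vx (h.memx _ hK hsupp) hzx fun n => (SW_weak (hsw n) φ hφ hc hsupp).1,
    key I Vy (h.memy _ hK hsupp) hzy fun n => (SW_weak (hsw n) φ hφ hc hsupp).2⟩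

end Pool.Agent.W597.PHStr
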