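import Pool.Agent.W597.Congruences

set_option autoImplicit false

namespace Pool.Agent.W597.Square

open FreeGroup List MatrixGroups Matrix Pool.Agent.W597

/-! ### orienting the Schreier graph of an action with commutative stabilisers -/

/-- the relation: one of the two endpoints of the edge `z — x z` points to the other one -/
def parRel (X : Type*) (x : X) (j k : X × Bool) : Prop := j = (x, true) ∨ k = (x, false)

theorem letterRel_self {X : Type*} (a k : X × Bool) : letterRel (parRel X) a a k := by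
  obtain ⟨x, b⟩ := a
  cases b
  · simp [letterRel, parRel]
  · simp [letterRel, parRel]

theorem wordRel_getLast {X : Type*} (w : List (X × Bool)) (hw : w ≠ []) (k : X × Bool) :
    wordRel (parRel X) w (w.getLast hw) k := by
  induction w generalizing k with
  | nil => exact absurd rfl hw
  | cons a w ih =>
    by_cases h : w = []
    · subst h
      exact ⟨a, rfl, letterRel_self a k⟩
    · refine ⟨a, ?_, letterRel_self a k⟩
      rw [List.getLast_cons h]
      exact ih h a

theorem exists_parent {X H : Type*} [Nonempty X] [MulAction (FreeGroup X) H]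
    (hcomm : ∀ z : H, ∀ a ∈ MulAction.stabilizer (FreeGroup X) z,
      ∀ b ∈ MulAction.stabilizer (FreeGroup X) z, a * b = b * a) :
    ∃ l : H → X × Bool, ∀ z x, l z = (x, true) ∨ l (of x • z) = (x, false) := by
  refine exists_labelling (I := X × Bool) (parRel X) (fun x _ => ⟨(x, false), Or.inr rfl⟩)
    (fun x _ => ⟨(x, true), Or.inl rfl⟩) ?_
  intro z
  obtain ⟨z', hz', w, hw, hs⟩ := exists_cyc_rep z (hcomm z)
  exact ⟨z', hz', w, hw, hs, fun h => ⟨_, wordRel_getLast w h _⟩⟩

/-! ### commutativity of the stabilisers of nonzero vectors -/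

theorem stab_comm (g h : SL(2, ℝ)) (v : Vec) (hg : g • v = v) (hh : h • v = v) :
    g * h = h * g := by
  have key : ∀ g : SL(2, ℝ), g • v = v →
      (g.1 0 0 - 1) * v.1 0 + g.1 0 1 * v.1 1 = 0 ∧ g.1 1 0 * v.1 0 + (g.1 1 1 - 1) * v.1 1 = 0 ∧
      g.1 0 0 + g.1 1 1 = 2 := by
    intro g hg
    have h0 : g.1.mulVec v.1 = v.1 := congrArg Subtype.val hg
    have e0 := congrFun h0 0
    have e1 := congrFun h0 1
    simp only [Matrix.mulVec, dotProduct, Fin.sum_univ_two] at e0 e1
    have hd : g.1 0 0 * g.1 1 1 - g.1 0 1 * g.1 1 0 = 1 := by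
      rw [← Matrix.det_fin_two]; exact g.2
    refine ⟨by linarith, by linarith, ?_⟩
    have hv : v.1 0 ≠ 0 ∨ v.1 1 ≠ 0 := by
      by_contra hcon
      push Not at hcon
      apply v.2
      funext i
      fin_cases i
      · exact hcon.1
      · exact hcon.2
    have h2 : ((g.1 0 0 - 1) * (g.1 1 1 - 1) - g.1 0 1 * g.1 1 0) = 0 := by
      rcases hv with hv | hv
      · apply mul_right_cancel₀ hv
        linear_combination (g.1 1 1 - 1) * e0 - g.1 0 1 * e1
      · apply mul_right_cancel₀ hv
        linear_combination (g.1 0 0 - 1) * e1 - g.1 1 0 * e0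
    linear_combination hd - h2
  obtain ⟨a1, a2, a3⟩ := key g hg
  obtain ⟨b1, b2, b3⟩ := key h hh
  have hv : v.1 0 ≠ 0 ∨ v.1 1 ≠ 0 := by
    by_contra hcon
    push Not at hcon
    apply v.2
    funext i
    fin_cases i
    · exact hcon.1
    · exact hcon.2
  have hgd : g.1 1 1 = 2 - g.1 0 0 := by linarith
  have hhd : h.1 1 1 = 2 - h.1 0 0 := by linarith
  rw [hgd] at a2
  rw [hhd] at b2
  have c1 : g.1 0 1 * h.1 1 0 = h.1 0 1 * g.1 1 0 := by
    rcases hv with hv | hv
    · apply mul_right_cancel₀ (pow_ne_zero 2 hv)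
      linear_combination (g.1 0 1 * v.1 0) * b2 - (h.1 0 1 * v.1 0) * a2
        - (v.1 0 * (1 - h.1 0 0)) * a1 + (v.1 0 * (1 - g.1 0 0)) * b1
    · apply mul_right_cancel₀ (pow_ne_zero 2 hv)
      linear_combination (h.1 1 0 * v.1 1) * a1 - (g.1 1 0 * v.1 1) * b1
        - (v.1 1 * (g.1 0 0 - 1)) * b2 + (v.1 1 * (h.1 0 0 - 1)) * a2
  have c2 : (g.1 0 0 - 1) * h.1 0 1 = (h.1 0 0 - 1) * g.1 0 1 := by
    rcases hv with hv | hv
    · apply mul_right_cancel₀ hv
      linear_combination h.1 0 1 * a1 - g.1 0 1 * b1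
    · apply mul_right_cancel₀ hv
      linear_combination (g.1 0 0 - 1) * b1 - (h.1 0 0 - 1) * a1
  have c3 : (g.1 0 0 - 1) * h.1 1 0 = (h.1 0 0 - 1) * g.1 1 0 := by
    rcases hv with hv | hv
    · apply mul_right_cancel₀ hv
      linear_combination (g.1 0 0 - 1) * b2 - (h.1 0 0 - 1) * a2
    · apply mul_right_cancel₀ hv
      linear_combination (-h.1 1 0) * a2 + g.1 1 0 * b2
  apply Subtype.ext
  apply Matrix.ext
  intro i j
  rw [Matrix.SpecialLinearGroup.coe_mul, Matrix.SpecialLinearGroup.coe_mul]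
  fin_cases i <;> fin_cases j <;> simp [Matrix.mul_apply, Fin.sum_univ_two, hgd, hhd]
  · linear_combination c1
  · linear_combination 2 * c2
  · linear_combination (-2) * c3
  · linear_combination (-1) * c1

end Pool.Agent.W597.Square
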