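import Pool.Agent.W597.SquareA

set_option autoImplicit false

namespace Pool.Agent.W597.Square

open FreeGroup List MatrixGroups Matrix Pool.Agent.W597

/-! ### fifteen explicit matrices with denominator 101 -/

def mA : Fin 15 → ℤ := ![79, 79, 78, 124, 113, 116, 97, 99, 97, 97, 83, 99, 94, 109, 106]
def mB : Fin 15 → ℤ := ![-94, -85, -85, -87, -63, -69, 27, 28, 31, -21, -2, -20, 9, 5, 9]
def mC : Fin 15 → ℤ := ![27, 28, 31, -21, -30, -27, -94, -85, -85, -87, -87, -79, 5, 9, 9]
def mD : Fin 15 → ℤ := ![97, 99, 97, 97, 107, 104, 79, 79, 78, 124, 125, 119, 109, 94, 97]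
def sP : Fin 15 → ℤ := ![74, 93, 97, 47, 40, 78, 86, 63, 25, 43, 42, 55, 39, 57, 23]
def sN : Fin 15 → ℤ := ![60, 65, 49, 96, 81, 45, 32, 14, 33, 20, 56, 91, 59, 12, 79]

def L (a : Fin 15 × Bool) : Matrix (Fin 2) (Fin 2) ℤ :=
  if a.2 then !![mA a.1, mB a.1; mC a.1, mD a.1] else !![mD a.1, -mB a.1; -mC a.1, mA a.1]

def al (a : Fin 15 × Bool) : ℤ := if a.2 then sP a.1 else sN a.1

def flip (a : Fin 15 × Bool) : Fin 15 × Bool := (a.1, !a.2)

theorem det_eq (i : Fin 15) : mA i * mD i - mB i * mC i = 101 ^ 2 := by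
  revert i; decide

theorem al_inj (a b : Fin 15 × Bool) (h : (al a - al b) % 101 = 0) : a = b := by
  revert a b; decide

theorem c_ne (a : Fin 15 × Bool) : (L a 1 0) % 101 ≠ 0 := by
  revert a; decide

theorem a_eq (a : Fin 15 × Bool) : (L a 0 0 - al a * L a 1 0) % 101 = 0 := by
  revert a; decide

theorem b_eq (a : Fin 15 × Bool) : (L a 0 1 + al a * al (flip a) * L a 1 0) % 101 = 0 := by
  revert a; decide

theorem d_eq (a : Fin 15 × Bool) : (L a 1 1 + al (flip a) * L a 1 0) % 101 = 0 := by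
  revert a; decide


/-- the product of the integer matrices of the letters -/
def P (w : List (Fin 15 × Bool)) : Matrix (Fin 2) (Fin 2) ℤ := (w.map L).prod

theorem P_cons (a : Fin 15 × Bool) (w : List (Fin 15 × Bool)) : P (a :: w) = L a * P w := by
  simp [P]

theorem P_mod (a : Fin 15 × Bool) (w : List (Fin 15 × Bool)) (hw : IsReduced (a :: w)) :
    ¬ (101 : ℤ) ∣ P (a :: w) 1 0 ∧
      (101 : ℤ) ∣ P (a :: w) 0 0 - al a * P (a :: w) 1 0 := by
  induction w generalizing a with
  | nil =>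
    rw [P_cons]
    have h1 : P [] = 1 := by simp [P]
    rw [h1, mul_one]
    exact ⟨fun h => c_ne a (Int.emod_eq_zero_of_dvd h), Int.dvd_of_emod_eq_zero (a_eq a)⟩
  | cons b w ih =>
    rw [FreeGroup.isReduced_cons_cons] at hw
    obtain ⟨h1, h2⟩ := ih b hw.2
    obtain ⟨r, hr⟩ := h2
    rw [P_cons]
    have hp : Prime (101 : ℤ) := by norm_num
    obtain ⟨ka, hka⟩ := Int.dvd_of_emod_eq_zero (a_eq a)
    obtain ⟨kb, hkb⟩ := Int.dvd_of_emod_eq_zero (b_eq a)
    obtain ⟨kd, hkd⟩ := Int.dvd_of_emod_eq_zero (d_eq a)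
    have hne : ¬ (101 : ℤ) ∣ al b - al (flip a) := by
      intro h
      have h3 := al_inj b (flip a) (Int.emod_eq_zero_of_dvd h)
      have h4 := hw.1
      rw [h3] at h4
      have h5 := h4 rfl
      simp [flip] at h5
    have e1 : (L a * P (b :: w)) 1 0 = L a 1 0 * P (b :: w) 0 0 + L a 1 1 * P (b :: w) 1 0 := by
      simp [Matrix.mul_apply, Fin.sum_univ_two]
    have e0 : (L a * P (b :: w)) 0 0 = L a 0 0 * P (b :: w) 0 0 + L a 0 1 * P (b :: w) 1 0 := by
      simp [Matrix.mul_apply, Fin.sum_univ_two]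
    constructor
    · rw [e1]
      intro h
      have h6 : (101 : ℤ) ∣ L a 1 0 * (al b - al (flip a)) * P (b :: w) 1 0 := by
        have h7 : L a 1 0 * (al b - al (flip a)) * P (b :: w) 1 0 =
          (L a 1 0 * P (b :: w) 0 0 + L a 1 1 * P (b :: w) 1 0)
            + 101 * (- L a 1 0 * r - kd * P (b :: w) 1 0) := by
          linear_combination (L a 1 0) * (-hr) - (P (b :: w) 1 0) * hkd
        rw [h7]
        exact dvd_add h (Dvd.intro _ rfl)
      rcases hp.dvd_or_dvd h6 with h7 | h7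
      · rcases hp.dvd_or_dvd h7 with h8 | h8
        · exact c_ne a (Int.emod_eq_zero_of_dvd h8)
        · exact hne h8
      · exact h1 h7
    · rw [e0, e1]
      refine ⟨ka * P (b :: w) 0 0 + kb * P (b :: w) 1 0 - al a * kd * P (b :: w) 1 0, ?_⟩
      linear_combination (P (b :: w) 0 0) * hka + (P (b :: w) 1 0) * hkb
        - al a * (P (b :: w) 1 0) * hkd

/-- the fifteen real matrices -/
noncomputable def t (i : Fin 15) : SL(2, ℝ) :=
  ⟨!![(mA i : ℝ) / 101, (mB i : ℝ) / 101; (mC i : ℝ) / 101, (mD i : ℝ) / 101], by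
    rw [Matrix.det_fin_two_of]
    have h := det_eq i
    have h2 : (mA i : ℝ) * mD i - mB i * mC i = 101 ^ 2 := by exact_mod_cast h
    field_simp
    linarith⟩

noncomputable def tl (a : Fin 15 × Bool) : SL(2, ℝ) := if a.2 then t a.1 else (t a.1)⁻¹

theorem tl_eq (a : Fin 15 × Bool) :
    (101 : ℝ) • (tl a).1 = (L a).map (Int.cast : ℤ → ℝ) := by
  obtain ⟨i, b⟩ := a
  apply Matrix.ext
  intro r s
  cases b
  · simp only [tl, Bool.false_eq_true, if_false, L]
    rw [Matrix.SpecialLinearGroup.coe_inv]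
    fin_cases r <;> fin_cases s <;> simp [t, Matrix.adjugate_fin_two] <;> ring
  · simp only [tl, if_true, L]
    fin_cases r <;> fin_cases s <;> simp [t] <;> ring

theorem prod_eq (w : List (Fin 15 × Bool)) :
    (101 : ℝ) ^ w.length • ((w.map tl).prod).1 = (P w).map (Int.cast : ℤ → ℝ) := by
  induction w with
  | nil => simp [P]
  | cons a w ih =>
    rw [P_cons, List.map_cons, List.prod_cons, List.length_cons, pow_succ,
      Matrix.SpecialLinearGroup.coe_mul]
    have h1 : ((L a * P w).map (Int.cast : ℤ → ℝ)) =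
        (L a).map (Int.cast : ℤ → ℝ) * (P w).map (Int.cast : ℤ → ℝ) := by
      exact Matrix.map_mul (f := Int.castRingHom ℝ)
    rw [h1, ← ih, ← tl_eq, Matrix.smul_mul, Matrix.mul_smul, smul_smul, mul_comm]

theorem lift_mk_eq (w : List (Fin 15 × Bool)) :
    FreeGroup.lift t (FreeGroup.mk w) = (w.map tl).prod := by
  rw [FreeGroup.lift_mk]
  congr 1
  apply List.map_congr_left
  intro a _
  obtain ⟨i, b⟩ := a
  cases b <;> simp [tl]

theorem lift_injective : Function.Injective (FreeGroup.lift t) := by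
  rw [injective_iff_map_eq_one]
  intro g hg
  have h1 := lift_mk_eq g.toWord
  rw [FreeGroup.mk_toWord, hg] at h1
  have h2 := prod_eq g.toWord
  rw [← h1] at h2
  have hr : IsReduced g.toWord := FreeGroup.isReduced_toWord
  cases hw : g.toWord with
  | nil => exact FreeGroup.toWord_eq_nil_iff.1 hw
  | cons a w =>
    exfalso
    rw [hw] at hr h2
    obtain ⟨h3, -⟩ := P_mod a w hr
    apply h3
    have h4 := congrFun (congrFun h2 1) 0
    simp only [Matrix.SpecialLinearGroup.coe_one, Matrix.smul_apply, Matrix.map_apply] at h4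
    rw [Matrix.one_apply_ne (by decide), smul_zero] at h4
    have h5 : P (a :: w) 1 0 = 0 := by exact_mod_cast h4.symm
    rw [h5]
    exact dvd_zero _

/-! ### the parent function on the nonzero vectors -/

theorem exists_par : ∃ l : Vec → Fin 15 × Bool, ∀ z i, l z = (i, true) ∨ l (t i • z) = (i, false) := by
  letI : MulAction (FreeGroup (Fin 15)) Vec := MulAction.compHom Vec (FreeGroup.lift t)
  have hsm : ∀ (g : FreeGroup (Fin 15)) (z : Vec), g • z = FreeGroup.lift t g • z := fun _ _ => rfl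
  obtain ⟨l, hl⟩ := exists_parent (X := Fin 15) (H := Vec) (by
    intro z a ha b hb
    rw [MulAction.mem_stabilizer_iff, hsm] at ha hb
    apply lift_injective
    rw [_root_.map_mul, _root_.map_mul]
    exact stab_comm _ _ z ha hb)
  refine ⟨l, fun z i => ?_⟩
  have := hl z i
  rw [hsm, FreeGroup.lift_apply_of] at this
  exact this

end Pool.Agent.W597.Square
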