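import Pool.Agent.W597.FreeLabel

set_option autoImplicit false

namespace Pool.Agent.W597

open FreeGroup List

variable {X I H Y : Type*}

/-- nonempty with nonempty complement -/
def Prp (S : Set I) : Prop := S.Nonempty ∧ Sᶜ.Nonempty

theorem Prp.compl {S : Set I} (h : Prp S) : Prp Sᶜ := ⟨h.2, by simpa using h.1⟩

/-- a relation with a full row and a full column -/
def Loose (R : I → I → Prop) : Prop := (∃ j0, ∀ k, R j0 k) ∧ (∃ k0, ∀ j, R j k0)

theorem junction_aux {S A : Set I} (hA : Prp A) (h1 : A ≠ S) (h2 : A ≠ Sᶜ) :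
    ((S ∩ A).Nonempty ∧ (S ∩ Aᶜ).Nonempty) ∨ ((Sᶜ ∩ A).Nonempty ∧ (Sᶜ ∩ Aᶜ).Nonempty) := by
  by_contra h
  rw [not_or, not_and_or, not_and_or] at h
  obtain ⟨ha, hb⟩ := h
  simp only [Set.not_nonempty_iff_eq_empty] at ha hb
  rcases ha with ha | ha <;> rcases hb with hb | hb
  · obtain ⟨x, hx⟩ := hA.1
    by_cases hxS : x ∈ S
    · exact (Set.eq_empty_iff_forall_notMem.1 ha x) ⟨hxS, hx⟩
    · exact (Set.eq_empty_iff_forall_notMem.1 hb x) ⟨hxS, hx⟩
  · apply h2
    ext x
    constructor
    · intro hx hxS
      exact (Set.eq_empty_iff_forall_notMem.1 ha x) ⟨hxS, hx⟩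
    · intro hx
      by_contra hxA
      exact (Set.eq_empty_iff_forall_notMem.1 hb x) ⟨hx, hxA⟩
  · apply h1
    ext x
    constructor
    · intro hx
      by_contra hxS
      exact (Set.eq_empty_iff_forall_notMem.1 hb x) ⟨hxS, hx⟩
    · intro hx
      by_contra hxA
      exact (Set.eq_empty_iff_forall_notMem.1 ha x) ⟨hx, hxA⟩
  · obtain ⟨x, hx⟩ := hA.2
    by_cases hxS : x ∈ S
    · exact (Set.eq_empty_iff_forall_notMem.1 ha x) ⟨hxS, hx⟩
    · exact (Set.eq_empty_iff_forall_notMem.1 hb x) ⟨hxS, hx⟩

theorem junction {L S A R : Set I} (hL : Prp L) (hS : Prp S) (hA : Prp A) (hR : Prp R)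
    (h1 : A ≠ S) (h2 : A ≠ Sᶜ) :
    Loose (fun j k => ∃ m, (j ∈ L ↔ m ∈ S) ∧ (m ∈ A ↔ k ∈ R)) := by
  constructor
  · rcases junction_aux hA h1 h2 with ⟨⟨m1, h11, h12⟩, ⟨m2, h21, h22⟩⟩ | ⟨⟨m1, h11, h12⟩, ⟨m2, h21, h22⟩⟩
    · obtain ⟨j, hj⟩ := hL.1
      refine ⟨j, fun k => ?_⟩
      by_cases hk : k ∈ R
      · exact ⟨m1, by simp [hj, h11], by simp [hk, h12]⟩
      · exact ⟨m2, by simp [hj, h21], by simpa [hk] using h22⟩
    · obtain ⟨j, hj⟩ := hL.2
      have hj' : j ∉ L := hj
      refine ⟨j, fun k => ?_⟩
      by_cases hk : k ∈ R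
      · exact ⟨m1, by simpa [hj'] using h11, by simp [hk, h12]⟩
      · exact ⟨m2, by simpa [hj'] using h21, by simpa [hk] using h22⟩
  · have h1' : S ≠ A := h1.symm
    have h2' : S ≠ Aᶜ := fun h => h2 (by rw [h, compl_compl])
    rcases junction_aux hS h1' h2' with ⟨⟨m1, h11, h12⟩, ⟨m2, h21, h22⟩⟩ | ⟨⟨m1, h11, h12⟩, ⟨m2, h21, h22⟩⟩
    · obtain ⟨j, hj⟩ := hR.1
      refine ⟨j, fun k => ?_⟩
      by_cases hk : k ∈ L
      · exact ⟨m1, by simp [hk, h12], by simp [hj, h11]⟩
      · exact ⟨m2, by simpa [hk] using h22, by simp [hj, h21]⟩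
    · obtain ⟨j, hj⟩ := hR.2
      have hj' : j ∉ R := hj
      refine ⟨j, fun k => ?_⟩
      by_cases hk : k ∈ L
      · exact ⟨m1, by simp [hk, h12], by simpa [hj'] using h11⟩
      · exact ⟨m2, by simpa [hk] using h22, by simpa [hj'] using h21⟩

/-- source and target of a generator -/
def tgt (B : Set I) (C : Y → Set I) : Option Y → Set I
  | none => Bᶜ
  | some y => C y

/-- source of a letter -/
def lsrc (B : Set I) (C : Y → Set I) (a : Option Y × Bool) : Set I :=
  if a.2 then B else tgt B C a.1

/-- target of a letter -/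
def ltgt (B : Set I) (C : Y → Set I) (a : Option Y × Bool) : Set I :=
  if a.2 then tgt B C a.1 else B

/-- the relations of the star system: `none` maps `B` to its complement, `some y` maps `B` to `C y` -/
def starRel (B : Set I) (C : Y → Set I) (x : Option Y) (j k : I) : Prop :=
  j ∈ B ↔ k ∈ tgt B C x

theorem letterRel_star (B : Set I) (C : Y → Set I) (a : Option Y × Bool) (j k : I) :
    letterRel (starRel B C) a j k ↔ (j ∈ lsrc B C a ↔ k ∈ ltgt B C a) := by
  obtain ⟨x, b⟩ := a
  cases b
  · simp only [letterRel, starRel, lsrc, ltgt]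
    exact Iff.comm
  · simp [letterRel, starRel, lsrc, ltgt]

variable {B : Set I} {C : Y → Set I} (hB : Prp B) (hC : ∀ y, Prp (C y))

include hB hC

theorem prp_tgt (x : Option Y) : Prp (tgt B C x) := by
  cases x with
  | none => exact hB.compl
  | some y => exact hC y

theorem prp_lsrc (a : Option Y × Bool) : Prp (lsrc B C a) := by
  unfold lsrc; split_ifs
  · exact hB
  · exact prp_tgt hB hC _

theorem prp_ltgt (a : Option Y × Bool) : Prp (ltgt B C a) := by
  unfold ltgt; split_ifs
  · exact prp_tgt hB hC _
  · exact hB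

theorem letter_total (a : Option Y × Bool) (j : I) : ∃ k, letterRel (starRel B C) a j k := by
  simp only [letterRel_star]
  by_cases h : j ∈ lsrc B C a
  · obtain ⟨k, hk⟩ := (prp_ltgt hB hC a).1
    exact ⟨k, by simp [h, hk]⟩
  · obtain ⟨k, hk⟩ := (prp_ltgt hB hC a).2
    exact ⟨k, by simpa [h] using hk⟩

theorem letter_surj (a : Option Y × Bool) (k : I) : ∃ j, letterRel (starRel B C) a j k := by
  simp only [letterRel_star]
  by_cases h : k ∈ ltgt B C a
  · obtain ⟨j, hj⟩ := (prp_lsrc hB hC a).1
    exact ⟨j, by simp [h, hj]⟩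
  · obtain ⟨j, hj⟩ := (prp_lsrc hB hC a).2
    exact ⟨j, by simpa [h] using hj⟩

omit hB hC in
/-- the junction of two consecutive letters is matched -/
def Matched (B : Set I) (C : Y → Set I) (a b : Option Y × Bool) : Prop :=
  lsrc B C a = ltgt B C b ∨ lsrc B C a = (ltgt B C b)ᶜ

theorem dichotomy : ∀ (w : List (Option Y × Bool)) (hw : w ≠ []),
    Loose (wordRel (starRel B C) w) ∨
    ∃ S', (S' = ltgt B C (w.head hw) ∨ S' = (ltgt B C (w.head hw))ᶜ) ∧
      (∀ j k, wordRel (starRel B C) w j k ↔ (j ∈ lsrc B C (w.getLast hw) ↔ k ∈ S')) ∧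
      w.IsChain (Matched B C)
  | [], hw => absurd rfl hw
  | [a], _ => by
    right
    refine ⟨ltgt B C a, Or.inl rfl, ?_, by simp⟩
    intro j k
    simp only [wordRel, List.getLast_singleton]
    rw [← letterRel_star]
    simp
  | a :: b :: w, _ => by
    rcases dichotomy (b :: w) (by simp) with h | ⟨S', h1, h2, h3⟩
    · left
      obtain ⟨⟨j0, hj0⟩, ⟨k0, hk0⟩⟩ := h
      constructor
      · refine ⟨j0, fun k => ?_⟩
        obtain ⟨m, hm⟩ := letter_surj hB hC a k
        exact ⟨m, hj0 m, hm⟩
      · obtain ⟨k1, hk1⟩ := letter_total hB hC a k0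
        exact ⟨k1, fun j => ⟨k0, hk0 j, hk1⟩⟩
    · have hlast : lsrc B C ((a :: b :: w).getLast (by simp)) =
          lsrc B C ((b :: w).getLast (by simp)) := by
        rw [List.getLast_cons (by simp)]
      have hPL : Prp (lsrc B C ((b :: w).getLast (by simp))) := prp_lsrc hB hC _
      rw [hlast]
      have hrel : ∀ j k, wordRel (starRel B C) (a :: b :: w) j k ↔
          ∃ m, (j ∈ lsrc B C ((b :: w).getLast (by simp)) ↔ m ∈ S') ∧
            (m ∈ lsrc B C a ↔ k ∈ ltgt B C a) := by
        intro j k
        show (∃ m, wordRel (starRel B C) (b :: w) j m ∧ letterRel (starRel B C) a m k) ↔ _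
        simp only [h2, letterRel_star]
      clear h2 hlast
      have hS' : Prp S' := by
        rcases h1 with h1 | h1 <;> rw [h1]
        · exact prp_ltgt hB hC _
        · exact (prp_ltgt hB hC _).compl
      simp only [List.head_cons] at h1 ⊢
      generalize lsrc B C ((b :: w).getLast (by simp)) = LL at hrel hPL ⊢
      by_cases e1 : lsrc B C a = S'
      · right
        refine ⟨ltgt B C a, Or.inl rfl, ?_, ?_⟩
        · intro j k
          rw [hrel]
          constructor
          · rintro ⟨m, hm1, hm2⟩
            rw [hm1, ← e1, hm2]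
          · intro h
            by_cases hj : j ∈ LL
            · obtain ⟨m, hm⟩ := hS'.1
              exact ⟨m, by simp [hj, hm], by rw [e1]; simp [hm, ← h, hj]⟩
            · obtain ⟨m, hm⟩ := hS'.2
              have hm' : m ∉ S' := hm
              exact ⟨m, by simp [hj, hm'], by rw [e1]; simp [hm', ← h, hj]⟩
        · rw [List.isChain_cons_cons]
          refine ⟨?_, h3⟩
          unfold Matched
          rcases h1 with h1 | h1
          · left; rw [e1, h1]
          · right; rw [e1, h1]
      · by_cases e2 : lsrc B C a = S'ᶜ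
        · right
          refine ⟨(ltgt B C a)ᶜ, Or.inr rfl, ?_, ?_⟩
          · intro j k
            rw [hrel]
            constructor
            · rintro ⟨m, hm1, hm2⟩
              rw [e2] at hm2
              rw [hm1, Set.mem_compl_iff, ← hm2]
              simp
            · intro h
              by_cases hj : j ∈ LL
              · obtain ⟨m, hm⟩ := hS'.1
                refine ⟨m, by simp [hj, hm], ?_⟩
                rw [e2]
                have : k ∉ ltgt B C a := by simpa [hj] using h
                simp [hm, this]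
              · obtain ⟨m, hm⟩ := hS'.2
                have hm' : m ∉ S' := hm
                refine ⟨m, by simp [hj, hm'], ?_⟩
                rw [e2]
                have : k ∈ ltgt B C a := by simpa [hj] using h
                simp [hm', this]
          · rw [List.isChain_cons_cons]
            refine ⟨?_, h3⟩
            unfold Matched
            rcases h1 with h1 | h1
            · right; rw [e2, h1]
            · left; rw [e2, h1, compl_compl]
        · left
          have := junction hPL hS' (prp_lsrc hB hC a) (prp_ltgt hB hC a) e1 e2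
          have e : wordRel (starRel B C) (a :: b :: w) = fun j k => ∃ m,
            (j ∈ LL ↔ m ∈ S') ∧ (m ∈ lsrc B C a ↔ k ∈ ltgt B C a) := by
            ext j k; exact hrel j k
          rw [e]
          exact this

/-- a cyclically reduced word whose relation has no fixed label is a power of `none` -/
theorem all_none (hCB : ∀ y, C y ≠ B) (hCB' : ∀ y, C y ≠ Bᶜ) (hCi : Function.Injective C)
    (hCC : ∀ y y', C y ≠ (C y')ᶜ) (w : List (Option Y × Bool)) (hw : w ≠ [])
    (hcyc : IsCyclicallyReduced w) (hno : ¬ ∃ j, wordRel (starRel B C) w j j) :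
    ∀ a ∈ w, a.1 = none := by
  rcases dichotomy hB hC w hw with h | ⟨S', h1, h2, h3⟩
  · exact absurd ⟨h.1.choose, h.1.choose_spec _⟩ hno
  have hS : S' = (lsrc B C (w.getLast hw))ᶜ := by
    ext j
    have : ¬ (j ∈ lsrc B C (w.getLast hw) ↔ j ∈ S') := by
      intro h; exact hno ⟨j, (h2 j j).2 h⟩
    simp only [Set.mem_compl_iff]
    tauto
  have hclose : Matched B C (w.getLast hw) (w.head hw) := by
    unfold Matched
    rcases h1 with h1 | h1
    · right; rw [← h1, hS, compl_compl]
    · left
      rw [h1] at hS
      exact (compl_injective hS).symm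
  have hchain : (w ++ w).IsChain (Matched B C) := by
    rw [List.isChain_append]
    refine ⟨h3, h3, ?_⟩
    intro x hx y hy
    rw [List.getLast?_eq_getLast_of_ne_nil hw] at hx
    rw [List.head?_eq_some_head hw] at hy
    simp only [Option.mem_def, Option.some.injEq] at hx hy
    rw [← hx, ← hy]
    exact hclose
  have hred : (w ++ w).IsChain (fun a b => a.1 = b.1 → a.2 = b.2) := by
    have h7 : FreeGroup.IsReduced (w ++ w) := by
      have := (hcyc.flatten_replicate 2).isReduced
      simpa [List.replicate] using this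
    exact h7
  -- the two exclusions
  have ex1 : ∀ (y : Y) (b : Option Y × Bool), Matched B C (some y, false) b →
      b = (some y, true) := by
    rintro y ⟨xb, bb⟩ h
    cases bb with
    | false =>
      rcases h with h | h
      · exact absurd h (hCB y)
      · exact absurd h (hCB' y)
    | true =>
      cases xb with
      | none =>
        rcases h with h | h
        · exact absurd h (hCB' y)
        · simp only [lsrc, ltgt, tgt] at h
          simp at h
          exact absurd h (hCB y)
      | some y' =>
        rcases h with h | h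
        · have : y = y' := hCi h
          rw [this]
        · exact absurd h (hCC y y')
  have ex2 : ∀ (y : Y) (a : Option Y × Bool), Matched B C a (some y, true) →
      a = (some y, false) := by
    rintro y ⟨xa, ba⟩ h
    cases ba with
    | true =>
      rcases h with h | h
      · exact absurd h.symm (hCB y)
      · simp only [lsrc, ltgt, tgt] at h
        simp at h
        exact absurd (by rw [h, compl_compl]) (hCB' y)
    | false =>
      cases xa with
      | none =>
        rcases h with h | h
        · exact absurd h.symm (hCB' y)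
        · simp only [lsrc, ltgt, tgt] at h
          simp at h
          exact absurd h.symm (hCB y)
      | some y' =>
        rcases h with h | h
        · have : y' = y := hCi h
          rw [this]
        · exact absurd h (hCC y' y)
  rintro ⟨x, b⟩ ha
  by_contra hx
  obtain ⟨y, rfl⟩ : ∃ y, x = some y := Option.ne_none_iff_exists'.1 hx
  obtain ⟨p, q, hpq⟩ := List.append_of_mem ha
  cases b with
  | false =>
    -- a right neighbour in w ++ w
    have hne : q ++ w ≠ [] := by simp [hw]
    obtain ⟨c, r, hcr⟩ := List.exists_cons_of_ne_nil hne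
    have e : w ++ w = p ++ (some y, false) :: c :: r := by
      conv_lhs => rw [hpq]
      rw [List.append_assoc, List.cons_append, ← hcr]
      rw [← hpq]
    rw [e] at hchain hred
    rw [List.isChain_append_cons_cons] at hchain hred
    have h5 := ex1 y c hchain.2.1
    have h6 := hred.2.1
    rw [h5] at h6
    simp at h6
  | true =>
    have hne : w ++ p ≠ [] := by simp [hw]
    obtain ⟨r, c, hcr⟩ : ∃ r c, w ++ p = r ++ [c] :=
      ⟨(w ++ p).dropLast, (w ++ p).getLast hne, (List.dropLast_append_getLast hne).symm⟩
    have e : w ++ w = r ++ c :: (some y, true) :: q := by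
      calc w ++ w = w ++ (p ++ (some y, true) :: q) := by rw [← hpq]
        _ = (w ++ p) ++ (some y, true) :: q := by rw [List.append_assoc]
        _ = r ++ c :: (some y, true) :: q := by rw [hcr]; simp
    rw [e] at hchain hred
    rw [List.isChain_append_cons_cons] at hchain hred
    have h5 := ex2 y c hchain.2.1
    have h6 := hred.2.1
    rw [h5] at h6
    simp at h6

end Pool.Agent.W597
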