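import Pool.Agent.W191.LL.Avg0
import Pool.Agent.W688.LL.Osc
import Pool.Agent.W792.WA.Stm5

/-!
Project WA (helper792), part WA-EQD: equidistribution of `M lap / 2π` on the torus.
-/

set_option autoImplicit false

namespace Pool.Agent.W597.WAEqd

open MeasureTheory Filter Pool.Agent.W792.LL Pool.Agent.W792.WA
open scoped Topology

theorem vol_eq (d : ℕ) :
    (volume : Measure (UnitAddTorus (Fin d))) = Pool.Agent.W191.LL.mu d := by
  rw [volume_pi]
  unfold Pool.Agent.W191.LL.mu
  congr 1
  funext i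
  rw [AddCircle.volume_eq_smul_haarAddCircle]
  simp

theorem mfc_zero {d : ℕ} (f : UnitAddTorus (Fin d) → ℂ) :
    UnitAddTorus.mFourierCoeff f 0 = ∫ t, f t := by
  rw [Pool.Agent.W191.LL.mfc_eq, vol_eq]
  congr 1
  funext t
  rw [neg_zero, UnitAddTorus.mFourier_zero]
  simp

theorem main : Pool.Agent.W792.WA.S_EQD := by
  intro d h hd e he
  have hAvg : S_AVG0 := Pool.Agent.W191.LL.main Pool.Agent.W688.LL.Osc.main
  obtain ⟨M₀, hM₀⟩ := hAvg d hd ⟨fun p => ((h p.2 : ℝ) : ℂ), by fun_prop⟩ e he
  refine ⟨M₀, fun M hM => ?_⟩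
  have h1 := hM₀ M hM 0
  rw [mfc_zero] at h1
  simp only [ContinuousMap.coe_mk] at h1
  have hc : Continuous fun k : UnitAddTorus (Fin d) =>
      h ((M * lap d k / (2 * Real.pi) : ℝ) : UnitAddCircle) := by
    have h2 : Continuous fun k : UnitAddTorus (Fin d) =>
        ((M * lap d k / (2 * Real.pi) : ℝ) : UnitAddCircle) :=
      (AddCircle.continuous_mk' (1 : ℝ)).comp (by fun_prop)
    exact h.continuous.comp h2
  have hi : Integrable fun k : UnitAddTorus (Fin d) =>
      h ((M * lap d k / (2 * Real.pi) : ℝ) : UnitAddCircle) :=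
    hc.integrable_of_hasCompactSupport (HasCompactSupport.of_compactSpace _)
  have e1 : (∫ k : UnitAddTorus (Fin d),
      (((h ((M * lap d k / (2 * Real.pi) : ℝ) : UnitAddCircle) : ℝ) : ℂ) -
        ∫ φ in Set.Ioc (0 : ℝ) 1, ((h (φ : UnitAddCircle) : ℝ) : ℂ))) =
      (((∫ k : UnitAddTorus (Fin d), h ((M * lap d k / (2 * Real.pi) : ℝ) : UnitAddCircle))
        - ∫ φ in Set.Ioc (0 : ℝ) 1, h (φ : UnitAddCircle) : ℝ) : ℂ) := by
    rw [integral_sub hi.ofReal (integrable_const _), integral_const]
    rw [integral_complex_ofReal, integral_complex_ofReal]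
    have hp : (volume : Measure (UnitAddTorus (Fin d))).real Set.univ = 1 := by
      have h3 : IsProbabilityMeasure (volume : Measure UnitAddCircle) :=
        ⟨UnitAddCircle.measure_univ⟩
      have h4 : IsProbabilityMeasure (volume : Measure (UnitAddTorus (Fin d))) := by
        rw [volume_pi]
        infer_instance
      exact probReal_univ
    rw [hp]
    push_cast
    simp
  rw [e1, Complex.norm_real, Real.norm_eq_abs] at h1
  exact h1

end Pool.Agent.W597.WAEqd
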